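import Pool.Agent.Lib.MP_2392aa_gt.C.Ifc

/-!
MP_2392aa_gt, core, module Grp (about 200 lines): germs of the action, change of coordinates,
restriction to a subgroup.

PROOFS.
`F_tendsto`: continuity of `F γ` and `F_zero`.
`F_mul`: near `0`, `χ (F (γ δ) y) = (γ δ) • χ y = γ • χ (F δ y) = χ (F γ (F δ y))` by `F_act` (three
times; for the second use `F_act γ` at the point `F δ y`, by `F_tendsto`), both points are in
`ball 0 r0` for small `y`, and `χ` is injective there.
`restrict`: same `χ`, `r0`, and `F γ := D.F (γ : Γ)`.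
`change_coord`: `local_inv h` (Mfd.lean, with `r := D.r0`, `ContDiffOn` from `hs`) gives `s > 0`,
`s ≤ D.r0`, a map `v` with `v (h z) = z` on `ball 0 s`, `h '' ball 0 s` open, `v` smooth there. Choose
`r1 > 0` with `ball 0 r1 ⊆ h '' ball 0 s`. Put `χ' := D.χ ∘ v`, injective and continuous on
`ball 0 r1` (`v` maps `h '' ball 0 s` into `ball 0 s ⊆ ball 0 D.r0` injectively). For `γ` let
`f y := h (D.F γ (v y))` on the open set of those `y ∈ h '' ball 0 s`; by `exists_global_ext`
(Mfd.lean) there is a smooth `F' γ` which agrees with `f` near `0`. `f 0 = 0`, derivative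
`id ∘ ρ γ ∘ id` (the derivative of `v` at `0` is the identity: `v` is the local inverse of `h`;
e.g. `HasFDerivAt.of_local_left_inverse` or: `v` is differentiable at `0` and `v (h z) = z`, chain
rule). `F_act`: for small `y`, `γ • D.χ (v y) = D.χ (D.F γ (v y))` and
`D.F γ (v y) ∈ ball 0 s`, so it is `v (h (D.F γ (v y))) = v (F' γ y)`. The two displayed
properties: put `y = h x`. `Lin`: from `φ'` for `D'` take `φ := φ' ∘ h`:
`φ' (h (D.F γ x)) = φ' (D'.F γ (h x)) = ρ γ (φ' (h x))` for small `x`. `Unique` (not needed by the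
main line, but please prove it): for `w` as in `D.Unique` let `w'` be a smooth map equal to `w ∘ v`
near `0` (`exists_global_ext`); for `y = h x`:
`w' (D'.F γ y) = w (v (h (D.F γ x))) = w (D.F γ x) = ρ γ (w x) = ρ γ (w' y)`.
-/

open scoped ContDiff Topology
open Metric Filter

namespace LatLin

section
variable {E : Type*} [NormedAddCommGroup E] [InnerProductSpace ℝ E] [FiniteDimensional ℝ E]
  {Γ : Type*} [Group Γ] {M : Type*} [TopologicalSpace M] [MulAction Γ M]
  {ρ : Γ →* (E ≃L[ℝ] E)}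

theorem LocData.F_tendsto (D : LocData (M := M) ρ) (γ : Γ) :
    Tendsto (D.F γ) (𝓝 0) (𝓝 0) := by
  have h := (D.F_smooth γ).continuous.tendsto 0
  rwa [D.F_zero] at h

theorem LocData.F_mul (D : LocData (M := M) ρ) (γ δ : Γ) :
    ∀ᶠ y in 𝓝 (0 : E), D.F (γ * δ) y = D.F γ (D.F δ y) := by
  have e1 := D.F_act (γ * δ)
  have e2 := D.F_act δ
  have e3 := (D.F_tendsto δ).eventually (D.F_act γ)
  have hb : ball (0 : E) D.r0 ∈ 𝓝 (0 : E) := ball_mem_nhds 0 D.r0_pos
  have e4 := (D.F_tendsto (γ * δ)).eventually hb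
  have e5 := ((D.F_tendsto γ).comp (D.F_tendsto δ)).eventually hb
  filter_upwards [e1, e2, e3, e4, e5] with y h1 h2 h3 h4 h5
  refine D.inj h4 h5 ?_
  rw [← h1, mul_smul, h2, h3]

/-- restriction of local data to a subgroup -/
theorem LocData.restrict (D : LocData (M := M) ρ) (H : Subgroup Γ) :
    ∃ D1 : LocData (M := M) (ρ.comp H.subtype), D1.χ = D.χ ∧ D1.r0 = D.r0 ∧
      ∀ γ : H, D1.F γ = D.F (γ : Γ) := by
  exact ⟨{ χ := D.χ
           r0 := D.r0
           r0_pos := D.r0_pos
           inj := D.inj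
           cont := D.cont
           F := fun γ => D.F (γ : Γ)
           F_smooth := fun γ => D.F_smooth _
           F_zero := fun γ => D.F_zero _
           F_deriv := fun γ => D.F_deriv _
           F_act := fun γ => D.F_act (γ : Γ) }, rfl, rfl, fun _ => rfl⟩

theorem LocData.change_coord (D : LocData (M := M) ρ) (h : E → E) (hs : ContDiff ℝ ∞ h)
    (h0 : h 0 = 0) (hd : HasFDerivAt h (ContinuousLinearMap.id ℝ E) 0) :
    ∃ D' : LocData (M := M) ρ, (∀ᶠ x in 𝓝 (0 : E), D'.χ (h x) = D.χ x) ∧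
      (∀ γ, ∀ᶠ x in 𝓝 (0 : E), D'.F γ (h x) = h (D.F γ x)) ∧ (D'.Lin → D.Lin) ∧
      (D'.Unique → D.Unique) := by
  obtain ⟨s, hs0, hsr, v, hSo, hvh, hvs⟩ := local_inv h D.r0_pos hs.contDiffOn hd
  have h0S : (0 : E) ∈ h '' ball 0 s := ⟨0, mem_ball_self hs0, h0⟩
  have hSn : h '' ball 0 s ∈ 𝓝 (0 : E) := hSo.mem_nhds h0S
  obtain ⟨r1, hr1, hr1S⟩ := Metric.isOpen_iff.1 hSo 0 h0S
  have hv0 : v 0 = 0 := by
    have := hvh 0 (mem_ball_self hs0)
    rwa [h0] at this
  have hvmem : ∀ y ∈ h '' ball (0 : E) s, v y ∈ ball (0 : E) s := by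
    rintro _ ⟨z, hz, rfl⟩
    rw [hvh z hz]
    exact hz
  have hhv : ∀ y ∈ h '' ball (0 : E) s, h (v y) = y := by
    rintro _ ⟨z, hz, rfl⟩
    rw [hvh z hz]
  have hvc : ContinuousOn v (h '' ball 0 s) := hvs.continuousOn
  have hvt : Tendsto v (𝓝 0) (𝓝 0) := by
    have h1 := (hvc.continuousAt hSn).tendsto
    rwa [hv0] at h1
  have hht : Tendsto h (𝓝 0) (𝓝 0) := by
    have h1 := hs.continuous.tendsto 0
    rwa [h0] at h1
  have hbs : ball (0 : E) s ∈ 𝓝 (0 : E) := ball_mem_nhds 0 hs0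
  -- derivative of `v`
  have hinf : (∞ : WithTop ℕ∞) ≠ 0 := by decide
  have hvd : HasFDerivAt v (ContinuousLinearMap.id ℝ E) 0 := by
    have h1 : DifferentiableAt ℝ v 0 := (hvs.contDiffAt hSn).differentiableAt hinf
    have h2 : HasFDerivAt v (fderiv ℝ v (h 0)) (h 0) := by
      rw [h0]
      exact h1.hasFDerivAt
    have h3 : HasFDerivAt (v ∘ h) ((fderiv ℝ v (h 0)).comp (ContinuousLinearMap.id ℝ E)) 0 := h2.comp 0 hd
    have h4 : HasFDerivAt (v ∘ h) (ContinuousLinearMap.id ℝ E) 0 := by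
      refine (hasFDerivAt_id (0 : E)).congr_of_eventuallyEq ?_
      filter_upwards [hbs] with z hz
      exact hvh z hz
    have h5 := h3.unique h4
    rw [ContinuousLinearMap.comp_id] at h5
    have h6 := h2
    rw [h5, h0] at h6
    exact h6
  have hFex : ∀ γ : Γ, ∃ g : E → E, ContDiff ℝ ∞ g ∧ g =ᶠ[𝓝 0] fun y => h (D.F γ (v y)) := by
    intro γ
    refine exists_global_ext _ (h '' ball 0 s) hSo h0S ?_
    exact (hs.comp (D.F_smooth γ)).comp_contDiffOn hvs
  choose F' hF's hF'e using hFex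
  have hF'0 : ∀ γ, F' γ 0 = 0 := by
    intro γ
    rw [(hF'e γ).eq_of_nhds, hv0, D.F_zero, h0]
  have hF't : ∀ γ, Tendsto (F' γ) (𝓝 0) (𝓝 0) := by
    intro γ
    have h1 := (hF's γ).continuous.tendsto 0
    rwa [hF'0] at h1
  have hvF' : ∀ γ, ∀ᶠ y in 𝓝 (0 : E), v (F' γ y) = D.F γ (v y) := by
    intro γ
    have h1 := ((D.F_tendsto γ).comp hvt).eventually hbs
    filter_upwards [hF'e γ, h1] with y h2 h3
    rw [h2]
    exact hvh _ h3
  let D' : LocData (M := M) ρ :=
    { χ := D.χ ∘ v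
      r0 := r1
      r0_pos := hr1
      inj := by
        intro y hy y' hy' hyy
        have h1 := D.inj (ball_subset_ball hsr (hvmem y (hr1S hy))) (ball_subset_ball hsr (hvmem y' (hr1S hy'))) hyy
        rw [← hhv y (hr1S hy), ← hhv y' (hr1S hy'), h1]
      cont := D.cont.comp (hvc.mono hr1S) fun y hy => ball_subset_ball hsr (hvmem y (hr1S hy))
      F := F'
      F_smooth := hF's
      F_zero := hF'0
      F_deriv := by
        intro γ
        refine HasFDerivAt.congr_of_eventuallyEq ?_ (hF'e γ)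
        have h1 : HasFDerivAt (D.F γ) (ρ γ : E →L[ℝ] E) (v 0) := by
          rw [hv0]
          exact D.F_deriv γ
        have h2 := h1.comp 0 hvd
        have h3 : HasFDerivAt h (ContinuousLinearMap.id ℝ E) ((D.F γ ∘ v) 0) := by
          rw [Function.comp_apply, hv0, D.F_zero]
          exact hd
        have h4 := h3.comp 0 h2
        rw [ContinuousLinearMap.comp_id, ContinuousLinearMap.id_comp] at h4
        exact h4
      F_act := by
        intro γ
        filter_upwards [hvF' γ, hvt.eventually (D.F_act γ)] with y h1 h2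
        rw [Function.comp_apply, Function.comp_apply, h1]
        exact h2 }
  refine ⟨D', ?_, ?_, ?_, ?_⟩
  · filter_upwards [hbs] with x hx
    show D.χ (v (h x)) = D.χ x
    rw [hvh x hx]
  · intro γ
    filter_upwards [hbs, hht.eventually (hF'e γ)] with x hx h1
    show F' γ (h x) = _
    rw [h1, hvh x hx]
  · rintro ⟨φ, hφs, hφ0, hφd, hφ⟩
    refine ⟨φ ∘ h, hφs.comp hs, ?_, ?_, fun γ => ?_⟩
    · rw [Function.comp_apply, h0, hφ0]
    · have h1 : HasFDerivAt φ (ContinuousLinearMap.id ℝ E) (h 0) := by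
        rw [h0]
        exact hφd
      have h2 := h1.comp 0 hd
      rwa [ContinuousLinearMap.comp_id] at h2
    · filter_upwards [hbs, hht.eventually (hF'e γ), hht.eventually (hφ γ)] with x hx h1 h2
      have h3 : F' γ (h x) = h (D.F γ x) := by rw [h1, hvh x hx]
      have h4 : φ (F' γ (h x)) = ρ γ (φ (h x)) := h2
      rw [Function.comp_apply, Function.comp_apply, ← h3, h4]
  · intro hU w hws hw0 hwd hw
    obtain ⟨w', hw's, hw'e⟩ := exists_global_ext (fun y => w (v y)) (h '' ball 0 s) hSo h0S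
      (hws.comp_contDiffOn hvs)
    have h1 : ∀ᶠ y in 𝓝 (0 : E), w' y = 0 := by
      refine hU w' hw's ?_ ?_ fun γ => ?_
      · rw [hw'e.eq_of_nhds, hv0, hw0]
      · refine HasFDerivAt.congr_of_eventuallyEq ?_ hw'e
        have h2 : HasFDerivAt w (0 : E →L[ℝ] E) (v 0) := by
          rw [hv0]
          exact hwd
        have h3 := h2.comp 0 hvd
        rwa [ContinuousLinearMap.zero_comp] at h3
      · filter_upwards [hvF' γ, hw'e, (hF't γ).eventually hw'e, hvt.eventually (hw γ)] with y h2 h3 h4 h5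
        show w' (F' γ y) = ρ γ (w' y)
        rw [h4, h3, h2, h5]
    filter_upwards [hbs, hht.eventually h1, hht.eventually hw'e] with x hx h2 h3
    rw [h3, hvh x hx] at h2
    exact h2

end
end LatLin
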