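import Pool.Agent.Lib.MP_2392aa_gt.C.Ifc

/-!
MP_2392aa_gt, core, module Jet (about 250 lines): orders of vanishing of smooth maps.

PROOFS.
`flat_bound_set`: induction on `N`, for all `j` at once. `N = 0`: `iteratedFDeriv ℝ j f` is
continuous, hence bounded on the compact ball `closedBall 0 R` (the point `z` is only used for
`N > 0`). Step: `iteratedFDeriv ℝ j f x = iteratedFDeriv ℝ j f x - iteratedFDeriv ℝ j f z`, mean
value inequality on the segment from `z` to `x` (which lies in `ball 0 R`, convex) with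
`‖fderiv ℝ (iteratedFDeriv ℝ j f) y‖ = ‖iteratedFDeriv ℝ (j + 1) f y‖ ≤ C * ‖y - z‖ ^ N ≤
C * ‖x - z‖ ^ N` (`norm_fderiv_iteratedFDeriv`, `Convex.norm_image_sub_le_of_norm_fderiv_le` on the
segment).
`homMap_ord`: `p` is bounded by some `C` on the unit sphere (compact); for `x ≠ 0` write
`x = ‖x‖ • (‖x‖⁻¹ • x)`. For `x = 0` and `k = 0` take `C` larger than `‖p 0‖`; for `k > 0`,
`p 0 = p (0 • 0) = 0`.
`homMap_eq_zero`: for every `x`: `‖p x‖ = t ^ (-k) ‖p (t x)‖ ≤ C t ‖x‖ ^ (k + 1) → 0` for `t → 0+`.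
`ord_lead`: `p x := (k !)⁻¹ • iteratedFDeriv ℝ k f 0 (fun _ => x)`. For fixed `x` with `‖x‖ ≤ 1` let
`g t := f (t • x)` on `[0, 1]`; its derivatives are
`iteratedDeriv j g t = iteratedFDeriv ℝ j f (t • x) (fun _ => x)` (chain rule with the linear map
`t ↦ t • x`, `ContinuousLinearMap.iteratedFDeriv_comp_right`, `iteratedDeriv_eq_iteratedFDeriv`).
By `Ord k f` and one variable Taylor (`taylor_mean_remainder_bound`) the polynomial
`∑ j < k, g^(j)(0) t ^ j / j !` is `O(t ^ k)`, so its coefficients vanish (induction on `j`, divide by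
`t ^ j`). Taylor of order `k` at `t = 1`: `‖f x - p x‖ ≤ sup ‖g^(k+1)‖ ≤ C ‖x‖ ^ (k + 1)`, with
`C = sup` of `‖iteratedFDeriv ℝ (k + 1) f‖` on `closedBall 0 1`.
`flat_of_ord`: by induction on `j`: for all `N`, `iteratedFDeriv ℝ j f = O(‖x‖ ^ N)` near `0`. `j = 0`
is the hypothesis. Step (interpolation): let `G = iteratedFDeriv ℝ j f`, `‖G y‖ ≤ C ‖y‖ ^ (2 N)` near
`0`, `B` a bound of `‖fderiv ℝ (fderiv ℝ G)‖` on `closedBall 0 1`. For `x ≠ 0` small, `‖v‖ = 1`,
`h = ‖x‖ ^ N ≤ ‖x‖` (`N ≥ 1`): `‖h • fderiv ℝ G x v‖ ≤ ‖G (x + h v)‖ + ‖G x‖ + B h ^ 2`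
`≤ C (2 ‖x‖) ^ (2 N) + C ‖x‖ ^ (2 N) + B h ^ 2`, divide by `h`. At `x = 0` use `N ≥ 1` and continuity.
-/

open scoped ContDiff Topology
open Metric

namespace LatLin

section
variable {E F : Type*} [NormedAddCommGroup E] [NormedSpace ℝ E] [FiniteDimensional ℝ E]
  [NormedAddCommGroup F] [NormedSpace ℝ F]

private theorem jet_lt (m : ℕ) : ((m : ℕ) : WithTop ℕ∞) < ∞ := by
  exact_mod_cast ENat.natCast_lt_top m

private theorem jet_le (m : ℕ) : ((m : ℕ) : WithTop ℕ∞) ≤ ∞ := (jet_lt m).le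

private theorem jet_bdd {G : Type*} [NormedAddCommGroup G] (h : E → G) (hc : Continuous h)
    (R : ℝ) : ∃ C : ℝ, 0 ≤ C ∧ ∀ x ∈ closedBall (0 : E) R, ‖h x‖ ≤ C := by
  have : ProperSpace E := FiniteDimensional.proper ℝ E
  obtain ⟨C, hC⟩ := (isCompact_closedBall (0 : E) R).exists_bound_of_continuousOn hc.continuousOn
  exact ⟨max C 0, le_max_right _ _, fun x hx => (hC x hx).trans (le_max_left _ _)⟩

private theorem jet_homzero {k : ℕ} {p : E → E} (hp : HomMap k p) (h : Ord (k + 1) p) (x : E) :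
    p x = 0 := by
  obtain ⟨C, hC⟩ := h
  have ht : Filter.Tendsto (fun t : ℝ => t • x) (𝓝[>] (0 : ℝ)) (𝓝 (0 : E)) := by
    have h1 : Filter.Tendsto (fun t : ℝ => t • x) (𝓝 (0 : ℝ)) (𝓝 ((0 : ℝ) • x)) :=
      (continuous_id.smul continuous_const).tendsto 0
    rw [zero_smul] at h1
    exact h1.mono_left nhdsWithin_le_nhds
  have h2 := ht.eventually hC
  have h3 : ∀ᶠ t : ℝ in 𝓝[>] (0 : ℝ), ‖p x‖ ≤ t * (C * ‖x‖ ^ (k + 1)) := by
    filter_upwards [h2, self_mem_nhdsWithin] with t h4 h5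
    have h5' : (0 : ℝ) < t := h5
    rw [hp.2 t x, norm_smul, norm_smul, norm_pow, Real.norm_of_nonneg h5'.le, mul_pow] at h4
    have h6 : 0 < t ^ k := by positivity
    have h7 : t ^ k * ‖p x‖ ≤ t ^ k * (t * (C * ‖x‖ ^ (k + 1))) := by
      refine h4.trans (le_of_eq ?_)
      ring
    exact le_of_mul_le_mul_left h7 h6
  have h4 : Filter.Tendsto (fun t : ℝ => t * (C * ‖x‖ ^ (k + 1))) (𝓝[>] (0 : ℝ)) (𝓝 0) := by
    have h1 : Filter.Tendsto (fun t : ℝ => t * (C * ‖x‖ ^ (k + 1))) (𝓝 (0 : ℝ))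
        (𝓝 (0 * (C * ‖x‖ ^ (k + 1)))) :=
      (continuous_id.mul continuous_const).tendsto 0
    rw [zero_mul] at h1
    exact h1.mono_left nhdsWithin_le_nhds
  have h5 := ge_of_tendsto h4 h3
  exact norm_le_zero_iff.1 h5

private noncomputable def jp (f : E → E) (j : ℕ) (x : E) : E :=
  ((j.factorial : ℝ)⁻¹) • iteratedFDeriv ℝ j f 0 (fun _ => x)

private theorem jp_hom (f : E → E) (j : ℕ) : HomMap j (jp f j) := by
  constructor
  · unfold jp
    have h1 : ContDiff ℝ ∞ (fun x : E => (fun _ : Fin j => x)) :=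
      contDiff_pi.2 fun _ => contDiff_id
    exact contDiff_const.smul ((iteratedFDeriv ℝ j f 0).contDiff.comp h1)
  · intro t x
    unfold jp
    have h1 : (fun _ : Fin j => t • x) =
        fun i => (fun _ : Fin j => t) i • (fun _ : Fin j => x) i := rfl
    rw [h1, ContinuousMultilinearMap.map_smul_univ, Finset.prod_const, Finset.card_univ,
      Fintype.card_fin, smul_comm]

private theorem jet_iter (f : E → E) (hf : ContDiff ℝ ∞ f) (x : E) (j : ℕ) (t : ℝ) :
    iteratedDeriv j (fun t : ℝ => f (t • x)) t = iteratedFDeriv ℝ j f (t • x) (fun _ => x) := by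
  induction j generalizing t with
  | zero => simp
  | succ j ih =>
    rw [iteratedDeriv_succ]
    have hfun : iteratedDeriv j (fun t : ℝ => f (t • x)) =
        fun t => iteratedFDeriv ℝ j f (t • x) (fun _ => x) := funext ih
    rw [hfun]
    have h1 : HasFDerivAt (iteratedFDeriv ℝ j f) (fderiv ℝ (iteratedFDeriv ℝ j f) (t • x))
        (t • x) := (hf.differentiable_iteratedFDeriv (jet_lt j) _).hasFDerivAt
    have h2 : HasDerivAt (fun t : ℝ => t • x) x t := by
      simpa using (hasDerivAt_id t).smul_const x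
    have h3 := h1.comp_hasDerivAt t h2
    have h4 : HasDerivAt (fun t : ℝ => (iteratedFDeriv ℝ j f (t • x)) (fun _ => x))
        ((fderiv ℝ (iteratedFDeriv ℝ j f) (t • x) x) (fun _ => x)) t :=
      ((ContinuousMultilinearMap.apply ℝ (fun _ : Fin j => E) E
        (fun _ => x)).hasFDerivAt).comp_hasDerivAt t h3
    rw [h4.deriv]
    rfl

private theorem jet_taylor (f : E → E) (hf : ContDiff ℝ ∞ f) (k : ℕ) :
    ∃ C : ℝ, 0 ≤ C ∧ ∀ x ∈ closedBall (0 : E) 1,
      ‖f x - ∑ j ∈ Finset.range (k + 1), jp f j x‖ ≤ C * ‖x‖ ^ (k + 1) := by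
  obtain ⟨C, hC0, hC⟩ := jet_bdd (iteratedFDeriv ℝ (k + 1) f)
    (hf.continuous_iteratedFDeriv (jet_le (k + 1))) 1
  refine ⟨C, hC0, fun x hx => ?_⟩
  have hx1 : ‖x‖ ≤ 1 := by simpa using hx
  set g : ℝ → E := fun t => f (t • x) with hgdef
  have hg : ContDiff ℝ ∞ g := hf.comp (contDiff_id.smul contDiff_const)
  have hIcc : ∀ m : ℕ, ∀ t ∈ Set.Icc (0 : ℝ) 1, iteratedDerivWithin m g (Set.Icc 0 1) t =
      iteratedFDeriv ℝ m f (t • x) (fun _ => x) := by
    intro m t ht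
    rw [iteratedDerivWithin_eq_iteratedDeriv (uniqueDiffOn_Icc one_pos)
      (hg.contDiffAt.of_le (jet_le m)) ht]
    exact jet_iter f hf x m t
  have hb := taylor_mean_remainder_bound (f := g) (a := 0) (b := 1) (C := C * ‖x‖ ^ (k + 1))
    (x := 1) (n := k) zero_le_one (hg.contDiffOn.of_le (by exact_mod_cast jet_le (k + 1)))
    ⟨zero_le_one, le_rfl⟩ (by
      intro t ht
      rw [hIcc (k + 1) t ht]
      have hb1 : t • x ∈ closedBall (0 : E) 1 := by
        rw [mem_closedBall_zero_iff, norm_smul, Real.norm_of_nonneg ht.1]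
        calc t * ‖x‖ ≤ 1 * 1 := mul_le_mul ht.2 hx1 (norm_nonneg _) zero_le_one
          _ = 1 := one_mul 1
      refine ((iteratedFDeriv ℝ (k + 1) f (t • x)).le_opNorm _).trans ?_
      rw [Finset.prod_const, Finset.card_univ, Fintype.card_fin]
      exact mul_le_mul_of_nonneg_right (hC _ hb1) (by positivity))
  rw [taylor_within_apply] at hb
  have hsum : ∑ j ∈ Finset.range (k + 1), (((j.factorial : ℝ))⁻¹ * (1 - 0) ^ j) •
      iteratedDerivWithin j g (Set.Icc 0 1) 0 = ∑ j ∈ Finset.range (k + 1), jp f j x := by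
    apply Finset.sum_congr rfl
    intro j _
    rw [hIcc j 0 ⟨le_rfl, zero_le_one⟩, zero_smul, sub_zero, one_pow, mul_one]
    rfl
  rw [hsum] at hb
  have hg1 : g 1 = f x := by rw [hgdef]; simp
  rw [hg1] at hb
  refine hb.trans ?_
  rw [sub_zero, one_pow, mul_one]
  apply div_le_self (by positivity)
  exact_mod_cast Nat.one_le_iff_ne_zero.2 (Nat.factorial_ne_zero k)

private theorem jet_van {k : ℕ} {f : E → E} (hf : ContDiff ℝ ∞ f) (h : Ord k f) :
    ∀ j, j < k → ∀ x, jp f j x = 0 := by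
  intro j
  induction j using Nat.strong_induction_on with
  | _ j ih =>
    intro hj x
    refine jet_homzero (jp_hom f j) ?_ x
    obtain ⟨C1, h1⟩ := h
    obtain ⟨C2, hC2, h2⟩ := jet_taylor f hf j
    refine ⟨|C1| + C2, ?_⟩
    have hball : ∀ᶠ y in 𝓝 (0 : E), y ∈ closedBall (0 : E) 1 :=
      closedBall_mem_nhds 0 one_pos
    filter_upwards [h1, hball] with y h3 h4
    have h5 := h2 y h4
    have hy1 : ‖y‖ ≤ 1 := by simpa using h4
    rw [Finset.sum_range_succ, Finset.sum_eq_zero, zero_add] at h5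
    · have h6 : ‖f y‖ ≤ |C1| * ‖y‖ ^ (j + 1) := by
        refine h3.trans ?_
        calc C1 * ‖y‖ ^ k ≤ |C1| * ‖y‖ ^ k :=
              mul_le_mul_of_nonneg_right (le_abs_self _) (by positivity)
          _ ≤ |C1| * ‖y‖ ^ (j + 1) := mul_le_mul_of_nonneg_left
              (pow_le_pow_of_le_one (norm_nonneg _) hy1 (by omega)) (abs_nonneg _)
      have e : jp f j y = f y - (f y - jp f j y) := by abel
      rw [e]
      refine (norm_sub_le _ _).trans ?_
      rw [add_mul]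
      exact add_le_add h6 h5
    · intro i hi
      exact ih i (Finset.mem_range.1 hi) ((Finset.mem_range.1 hi).trans hj) y

private theorem jet_step {G : Type*} [NormedAddCommGroup G] [NormedSpace ℝ G] (h : E → G)
    (hh : ContDiff ℝ ∞ h)
    (hO : ∀ N : ℕ, ∃ C : ℝ, ∀ᶠ x in 𝓝 (0 : E), ‖h x‖ ≤ C * ‖x‖ ^ N) (N : ℕ) :
    ∃ C : ℝ, ∀ᶠ x in 𝓝 (0 : E), ‖fderiv ℝ h x‖ ≤ C * ‖x‖ ^ N := by
  have hd1 : ContDiff ℝ ∞ (fderiv ℝ h) := hh.fderiv_right (m := ∞) (by simp)
  have hd2 : ContDiff ℝ ∞ (fderiv ℝ (fderiv ℝ h)) := hd1.fderiv_right (m := ∞) (by simp)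
  obtain ⟨B, hB0, hB⟩ := jet_bdd (fderiv ℝ (fderiv ℝ h)) hd2.continuous 2
  have hzero : fderiv ℝ h 0 = 0 := by
    obtain ⟨C, hC⟩ := hO 2
    have hb : h =O[𝓝 (0 : E)] fun x => ‖x - 0‖ ^ 2 := by
      refine Asymptotics.IsBigO.of_bound C ?_
      filter_upwards [hC] with x hx
      rw [sub_zero, norm_pow, norm_norm]
      exact hx
    exact (hb.hasFDerivAt (𝕜 := ℝ) (by norm_num)).fderiv
  obtain ⟨C, hC⟩ := hO (2 * (N + 1))
  obtain ⟨r, hr, hCr⟩ := Metric.eventually_nhds_iff_ball.1 hC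
  have hCb : ∀ y : E, ‖y‖ < r → ‖h y‖ ≤ |C| * ‖y‖ ^ (2 * (N + 1)) := by
    intro y hy
    refine (hCr y (by simpa using hy)).trans ?_
    exact mul_le_mul_of_nonneg_right (le_abs_self _) (by positivity)
  refine ⟨|C| * (2 ^ (2 * (N + 1)) + 1) + B, ?_⟩
  have hball : ∀ᶠ y in 𝓝 (0 : E), y ∈ ball (0 : E) (min (r / 2) 1) :=
    ball_mem_nhds 0 (by positivity)
  filter_upwards [hball] with x hx
  have hxr : ‖x‖ < min (r / 2) 1 := by simpa using hx
  have hxr2 : ‖x‖ < r / 2 := hxr.trans_le (min_le_left _ _)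
  have hx1 : ‖x‖ < 1 := hxr.trans_le (min_le_right _ _)
  by_cases hx0 : x = 0
  · rw [hx0, hzero, norm_zero]
    positivity
  have hxpos : 0 < ‖x‖ := norm_pos_iff.2 hx0
  set s : ℝ := ‖x‖ ^ (N + 1) with hs
  have hspos : 0 < s := by positivity
  have hsx : s ≤ ‖x‖ := by
    rw [hs]
    calc ‖x‖ ^ (N + 1) ≤ ‖x‖ ^ 1 := pow_le_pow_of_le_one hxpos.le hx1.le (by omega)
      _ = ‖x‖ := pow_one _
  have hsN : s ≤ ‖x‖ ^ N := pow_le_pow_of_le_one hxpos.le hx1.le (by omega)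
  have hs2 : ‖x‖ ^ (2 * (N + 1)) = s ^ 2 := by rw [hs, ← pow_mul]; ring_nf
  have hM : 0 ≤ |C| * (2 ^ (2 * (N + 1)) + 1) + B := by positivity
  have hmain : ‖fderiv ℝ h x‖ ≤ (|C| * (2 ^ (2 * (N + 1)) + 1) + B) * s := by
    refine ContinuousLinearMap.opNorm_le_of_unit_norm (by positivity) fun v hv => ?_
    have hsv : ‖s • v‖ = s := by rw [norm_smul, hv, mul_one, Real.norm_of_nonneg hspos.le]
    have hy2 : ‖x + s • v‖ ≤ 2 * ‖x‖ := by
      refine (norm_add_le _ _).trans ?_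
      rw [hsv]
      linarith
    have hxb : x ∈ closedBall (0 : E) 2 := by
      rw [mem_closedBall_zero_iff]; linarith
    have hyb : x + s • v ∈ closedBall (0 : E) 2 := by
      rw [mem_closedBall_zero_iff]; linarith
    have hseg : segment ℝ x (x + s • v) ⊆ closedBall (0 : E) 2 :=
      (convex_closedBall 0 2).segment_subset hxb hyb
    have hlip : ∀ y ∈ segment ℝ x (x + s • v), ‖fderiv ℝ h y - fderiv ℝ h x‖ ≤ B * s := by
      intro y hy
      have h1 := Convex.norm_image_sub_le_of_norm_fderiv_le (𝕜 := ℝ) (f := fderiv ℝ h)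
        (C := B) (s := closedBall (0 : E) 2) (x := x) (y := y)
        (fun z _ => (hd1.differentiable (by simp)) z) hB (convex_closedBall 0 2) hxb (hseg hy)
      refine h1.trans ?_
      have h2 := norm_sub_le_of_mem_segment hy
      rw [add_sub_cancel_left, hsv] at h2
      exact mul_le_mul_of_nonneg_left h2 hB0
    have h3 := Convex.norm_image_sub_le_of_norm_fderiv_le' (𝕜 := ℝ) (f := h)
      (φ := fderiv ℝ h x) (C := B * s) (s := segment ℝ x (x + s • v)) (x := x) (y := x + s • v)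
      (fun z _ => (hh.differentiable (by simp)) z) hlip (convex_segment _ _)
      (left_mem_segment ℝ _ _) (right_mem_segment ℝ _ _)
    rw [add_sub_cancel_left, hsv, map_smul] at h3
    have h4 : ‖h (x + s • v)‖ ≤ |C| * 2 ^ (2 * (N + 1)) * s ^ 2 := by
      refine (hCb _ (by linarith)).trans ?_
      rw [mul_assoc, ← hs2, ← mul_pow]
      exact mul_le_mul_of_nonneg_left (pow_le_pow_left₀ (norm_nonneg _) hy2 _) (abs_nonneg _)
    have h5 : ‖h x‖ ≤ |C| * s ^ 2 := by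
      rw [← hs2]
      exact hCb _ (by linarith)
    have h6 : s * ‖fderiv ℝ h x v‖ ≤ s * ((|C| * (2 ^ (2 * (N + 1)) + 1) + B) * s) := by
      have e : s • fderiv ℝ h x v = (h (x + s • v) - h x) -
          (h (x + s • v) - h x - s • fderiv ℝ h x v) := by abel
      calc s * ‖fderiv ℝ h x v‖ = ‖s • fderiv ℝ h x v‖ := by
            rw [norm_smul, Real.norm_of_nonneg hspos.le]
        _ ≤ ‖h (x + s • v) - h x‖ + ‖h (x + s • v) - h x - s • fderiv ℝ h x v‖ := by
            conv_lhs => rw [e]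
            exact norm_sub_le _ _
        _ ≤ (‖h (x + s • v)‖ + ‖h x‖) + B * s * s := add_le_add (norm_sub_le _ _) h3
        _ ≤ (|C| * 2 ^ (2 * (N + 1)) * s ^ 2 + |C| * s ^ 2) + B * s * s := by gcongr
        _ = _ := by ring
    exact le_of_mul_le_mul_left h6 hspos
  exact hmain.trans (mul_le_mul_of_nonneg_left hsN hM)

theorem flat_bound_set (f : E → F) (hf : ContDiff ℝ ∞ f) (K : Set E)
    (hK : ∀ z ∈ K, ∀ k : ℕ, iteratedFDeriv ℝ k f z = 0) (j N : ℕ) (R : ℝ) :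
    ∃ C : ℝ, 0 ≤ C ∧ ∀ x ∈ ball (0 : E) R, ∀ z ∈ K, z ∈ ball (0 : E) R →
      ‖iteratedFDeriv ℝ j f x‖ ≤ C * ‖x - z‖ ^ N := by
  induction N generalizing j with
  | zero =>
    obtain ⟨C, hC0, hC⟩ := jet_bdd (iteratedFDeriv ℝ j f)
      (hf.continuous_iteratedFDeriv (jet_le j)) R
    exact ⟨C, hC0, fun x hx z _ _ => by simpa using hC x (ball_subset_closedBall hx)⟩
  | succ N ih =>
    obtain ⟨C, hC0, hC⟩ := ih (j + 1)
    refine ⟨C, hC0, fun x hx z hz hzR => ?_⟩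
    have hseg : segment ℝ z x ⊆ ball (0 : E) R := (convex_ball 0 R).segment_subset hzR hx
    have h1 := Convex.norm_image_sub_le_of_norm_fderiv_le (𝕜 := ℝ) (f := iteratedFDeriv ℝ j f)
      (C := C * ‖x - z‖ ^ N) (s := segment ℝ z x) (x := z) (y := x)
      (fun y _ => hf.differentiable_iteratedFDeriv (jet_lt j) y) (by
        intro y hy
        rw [norm_fderiv_iteratedFDeriv]
        refine (hC y (hseg hy) z hz hzR).trans ?_
        exact mul_le_mul_of_nonneg_left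
          (pow_le_pow_left₀ (norm_nonneg _) (norm_sub_le_of_mem_segment hy) _) hC0)
      (convex_segment z x) (left_mem_segment ℝ z x) (right_mem_segment ℝ z x)
    rw [hK z hz j, sub_zero] at h1
    rw [pow_succ, ← mul_assoc]
    exact h1

theorem homMap_ord {k : ℕ} {p : E → E} (hp : HomMap k p) :
    ∃ C : ℝ, 0 ≤ C ∧ ∀ x, ‖p x‖ ≤ C * ‖x‖ ^ k := by
  obtain ⟨C, hC0, hC⟩ := jet_bdd p hp.1.continuous 1
  refine ⟨C, hC0, fun x => ?_⟩
  by_cases hx : x = 0
  · subst hx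
    rcases Nat.eq_zero_or_pos k with hk | hk
    · subst hk
      simpa using hC 0 (by simp)
    · have h1 := hp.2 0 0
      rw [zero_smul, zero_pow hk.ne', zero_smul] at h1
      rw [h1, norm_zero]
      positivity
  · have hxpos : 0 < ‖x‖ := norm_pos_iff.2 hx
    have h1 : x = ‖x‖ • (‖x‖⁻¹ • x) := by
      rw [smul_smul, mul_inv_cancel₀ hxpos.ne', one_smul]
    have h2 : ‖‖x‖⁻¹ • x‖ = 1 := by
      rw [norm_smul, norm_inv, norm_norm, inv_mul_cancel₀ hxpos.ne']
    have h3 : p x = ‖x‖ ^ k • p (‖x‖⁻¹ • x) := by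
      conv_lhs => rw [h1]
      exact hp.2 _ _
    rw [h3, norm_smul, norm_pow, norm_norm, mul_comm]
    exact mul_le_mul_of_nonneg_right (hC _ (by rw [mem_closedBall_zero_iff, h2]))
      (by positivity)

theorem homMap_eq_zero {k : ℕ} {p : E → E} (hp : HomMap k p) (h : Ord (k + 1) p) (x : E) :
    p x = 0 := by
  exact jet_homzero hp h x

theorem ord_lead {k : ℕ} {f : E → E} (hf : ContDiff ℝ ∞ f) (h : Ord k f) :
    ∃ p : E → E, HomMap k p ∧ Ord (k + 1) (fun x => f x - p x) := by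
  refine ⟨jp f k, jp_hom f k, ?_⟩
  obtain ⟨C, hC0, hC⟩ := jet_taylor f hf k
  refine ⟨C, ?_⟩
  have hball : ∀ᶠ y in 𝓝 (0 : E), y ∈ closedBall (0 : E) 1 := closedBall_mem_nhds 0 one_pos
  filter_upwards [hball] with y hy
  have h5 := hC y hy
  rw [Finset.sum_range_succ, Finset.sum_eq_zero, zero_add] at h5
  · exact h5
  · intro i hi
    exact jet_van hf h i (Finset.mem_range.1 hi) y

theorem flat_of_ord {f : E → E} (hf : ContDiff ℝ ∞ f) (h : ∀ k : ℕ, Ord k f) : FlatAt f 0 := by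
  have key : ∀ j : ℕ, ∀ N : ℕ, ∃ C : ℝ, ∀ᶠ x in 𝓝 (0 : E),
      ‖iteratedFDeriv ℝ j f x‖ ≤ C * ‖x‖ ^ N := by
    intro j
    induction j with
    | zero =>
      intro N
      obtain ⟨C, hC⟩ := h N
      refine ⟨C, ?_⟩
      filter_upwards [hC] with x hx
      rwa [norm_iteratedFDeriv_zero]
    | succ j ih =>
      intro N
      have hsm : ContDiff ℝ ∞ (iteratedFDeriv ℝ j f) :=
        hf.iteratedFDeriv_right (m := ∞) (by
          exact_mod_cast (le_top : (⊤ : ℕ∞) + (j : ℕ∞) ≤ ⊤))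
      obtain ⟨C, hC⟩ := jet_step (iteratedFDeriv ℝ j f) hsm ih N
      refine ⟨C, ?_⟩
      filter_upwards [hC] with x hx
      rwa [norm_fderiv_iteratedFDeriv] at hx
  intro k
  obtain ⟨C, hC⟩ := key k 1
  have h0 := hC.self_of_nhds
  rw [norm_zero, pow_one, mul_zero] at h0
  exact norm_le_zero_iff.1 h0

theorem ord_of_flat {f : E → E} (hf : ContDiff ℝ ∞ f) (h : FlatAt f 0) (k : ℕ) : Ord k f := by
  obtain ⟨C, hC0, hC⟩ := flat_bound_set f hf {0} (by
    intro z hz m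
    rw [Set.mem_singleton_iff.1 hz]
    exact h m) 0 k 1
  refine ⟨C, ?_⟩
  have hball : ∀ᶠ y in 𝓝 (0 : E), y ∈ ball (0 : E) 1 := ball_mem_nhds 0 one_pos
  filter_upwards [hball] with y hy
  have h1 := hC y hy 0 rfl (mem_ball_self one_pos)
  rwa [norm_iteratedFDeriv_zero, sub_zero] at h1

end
end LatLin
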