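import Pool.Agent.Lib.MP_2392aa_gt.C.Ifc

/-!
MP_2392aa_gt, core, module ConnU (about 180 lines): finitely many chains suffice for a finite set
of pairs.

PROOF. Let `C0` be the constant of `Conn`, `C := 2 * C0 + 1`. First, `ReflTransGen` of `Step ρ S x c` from
`a` to `b` gives `m : ℕ` and `δ : ℕ → Γ` with `δ 0 = a`, `δ m = b`, `δ (k+1) * (δ k)⁻¹ ∈ S` for `k < m` and,
if moreover `‖ρ a x‖ ≤ c`, `‖ρ (δ k) x‖ ≤ c` for all `k ≤ m` (induction on `ReflTransGen`; take `δ k = b`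
for `k ≥ m`). Fix a pair `(a, b)` and a unit vector `x`. `t x := max ‖ρ a x‖ ‖ρ b x‖ > 0` (`ρ a` is
injective). By `Conn` with `t = t x` there are `m, δ` with positions `≤ C0 * t x < C * t x`. By
continuity (finitely many `k ≤ m`, both sides continuous in `x`) the same `m, δ` satisfy
`‖ρ (δ k) y‖ ≤ C * t y` for all `y` in a neighbourhood of `x`. The unit sphere is compact: finitely many
`(m, δ)` serve all unit vectors (`IsCompact.elim_nhds_subcover`), and by homogeneity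
(`ρ g (c • y) = c • ρ g y`) all `x ≠ 0`. Take for `m0` the maximum of the lengths and for `G` the set
of all `δ k`, `k ≤ m`, over the finitely many chains and the finitely many pairs.
-/

open scoped ContDiff Topology
open Metric Filter

namespace LatLin

section
variable {E : Type*} [NormedAddCommGroup E] [InnerProductSpace ℝ E] [FiniteDimensional ℝ E]
  {Γ : Type*} [Group Γ] {ρ : Γ →* (E ≃L[ℝ] E)}

omit [FiniteDimensional ℝ E] in
/-- a chain as a sequence -/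
theorem chain_seq {S : Set Γ} {x : E} {c c' : ℝ} (hc : c ≤ c') {a b : Γ}
    (h : Relation.ReflTransGen (Step ρ S x c) a b) (ha : ‖ρ a x‖ ≤ c') :
    ∃ (m : ℕ) (δ : ℕ → Γ), δ 0 = a ∧ δ m = b ∧ (∀ k < m, δ (k + 1) * (δ k)⁻¹ ∈ S) ∧
      ∀ k ≤ m, ‖ρ (δ k) x‖ ≤ c' := by
  induction h with
  | refl =>
    exact ⟨0, fun _ => a, rfl, rfl, fun k hk => absurd hk (Nat.not_lt_zero _), fun _ _ => ha⟩
  | @tail d e _ hde ih =>
    obtain ⟨m, δ, h0, hm, hS, hb⟩ := ih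
    obtain ⟨_, he, s, hs, hes⟩ := hde
    refine ⟨m + 1, fun k => if k ≤ m then δ k else e, ?_, ?_, ?_, ?_⟩
    · simp [h0]
    · simp
    · intro k hk
      have hk1 : k ≤ m := by omega
      by_cases hkm : k + 1 ≤ m
      · simp only [hkm, hk1, if_true]
        exact hS k (by omega)
      · have hkm' : k = m := by omega
        subst hkm'
        simp only [hkm, le_refl, if_true, if_false, hm, hes]
        simpa using hs
    · intro k hk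
      by_cases hkm : k ≤ m
      · simp only [hkm, if_true]
        exact hb k hkm
      · simp only [hkm, if_false]
        exact he.trans hc

/-- one pair -/
theorem conn_pair {S : Set Γ} {C0 : ℝ} (hC0 : 0 < C0)
    (hC : ∀ (x : E) (t : ℝ) (g g' : Γ), 0 < t → ‖ρ g x‖ ≤ t → ‖ρ g' x‖ ≤ t →
      Relation.ReflTransGen (Step ρ S x (C0 * t)) g g') (a b : Γ) :
    ∃ (m0 : ℕ) (G : Set Γ), G.Finite ∧ ∀ x : E, x ≠ 0 →
      ∃ (m : ℕ) (δ : ℕ → Γ), m ≤ m0 ∧ δ 0 = a ∧ δ m = b ∧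
        (∀ k < m, δ (k + 1) * (δ k)⁻¹ ∈ S) ∧
        ∀ k ≤ m, δ k ∈ G ∧ ‖ρ (δ k) x‖ ≤ (C0 + 2) * max ‖ρ a x‖ ‖ρ b x‖ := by
  have h1 : ∀ x : E, ∃ (m : ℕ) (δ : ℕ → Γ), x ≠ 0 → (δ 0 = a ∧ δ m = b ∧
      (∀ k < m, δ (k + 1) * (δ k)⁻¹ ∈ S) ∧
      ∀ k ≤ m, ‖ρ (δ k) x‖ < (C0 + 2) * max ‖ρ a x‖ ‖ρ b x‖) := by
    intro x
    by_cases hx : x = 0
    · exact ⟨0, fun _ => a, fun h => absurd hx h⟩
    · have hax : ρ a x ≠ 0 := fun h => hx ((ρ a).map_eq_zero_iff.1 h)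
      have ht : 0 < max ‖ρ a x‖ ‖ρ b x‖ := lt_of_lt_of_le (norm_pos_iff.2 hax) (le_max_left _ _)
      set t := max ‖ρ a x‖ ‖ρ b x‖ with ht'
      obtain ⟨m, δ, h0, hm, hS, hb⟩ := chain_seq (c' := (C0 + 1) * t) (by nlinarith)
        (hC x t a b ht (le_max_left _ _) (le_max_right _ _))
        ((le_max_left _ _).trans (by nlinarith))
      exact ⟨m, δ, fun _ => ⟨h0, hm, hS, fun k hk => (hb k hk).trans_lt (by nlinarith)⟩⟩
  choose m δ h using h1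
  have hU : ∀ x ∈ sphere (0 : E) 1,
      {y : E | ∀ k ≤ m x, ‖ρ (δ x k) y‖ < (C0 + 2) * max ‖ρ a y‖ ‖ρ b y‖} ∈ 𝓝 x := by
    intro x hx
    have hx0 : x ≠ 0 := by
      rintro rfl
      simp at hx
    have h2 : ∀ᶠ y in 𝓝 x, ∀ k ∈ Finset.range (m x + 1),
        ‖ρ (δ x k) y‖ < (C0 + 2) * max ‖ρ a y‖ ‖ρ b y‖ := by
      rw [Filter.eventually_all_finset]
      intro k hk
      have hk' : k ≤ m x := by rw [Finset.mem_range] at hk; omega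
      have hl : Continuous fun y : E => ‖ρ (δ x k) y‖ := (ρ (δ x k)).continuous.norm
      have hr : Continuous fun y : E => (C0 + 2) * max ‖ρ a y‖ ‖ρ b y‖ :=
        continuous_const.mul ((ρ a).continuous.norm.max (ρ b).continuous.norm)
      exact (isOpen_lt hl hr).mem_nhds ((h x hx0).2.2.2 k hk')
    filter_upwards [h2] with y hy k hk
    exact hy k (Finset.mem_range.2 (by omega))
  obtain ⟨T, hT1, hT2⟩ := (isCompact_sphere (0 : E) 1).elim_nhds_subcover _ hU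
  refine ⟨∑ x ∈ T, m x, ⋃ x ∈ T, (δ x) '' Set.Iic (m x), ?_, ?_⟩
  · exact T.finite_toSet.biUnion fun x _ => (Set.finite_Iic _).image _
  · intro x hx
    have hn : 0 < ‖x‖ := norm_pos_iff.2 hx
    have hxs : ‖x‖⁻¹ • x ∈ sphere (0 : E) 1 := by
      rw [mem_sphere_zero_iff_norm, norm_smul, norm_inv, norm_norm, inv_mul_cancel₀ hn.ne']
    obtain ⟨z, hz⟩ := Set.mem_iUnion.1 (hT2 hxs)
    obtain ⟨hzT, hzU⟩ := Set.mem_iUnion.1 hz
    have hz0 : z ≠ 0 := by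
      rintro rfl
      have := hT1 0 hzT
      simp at this
    obtain ⟨h0, hm, hS, -⟩ := h z hz0
    refine ⟨m z, δ z, Finset.single_le_sum (f := m) (fun _ _ => Nat.zero_le _) hzT, h0, hm, hS, ?_⟩
    intro k hk
    refine ⟨?_, ?_⟩
    · exact Set.mem_iUnion₂.2 ⟨z, hzT, ⟨k, hk, rfl⟩⟩
    · have h3 : ‖ρ (δ z k) (‖x‖⁻¹ • x)‖
          < (C0 + 2) * max ‖ρ a (‖x‖⁻¹ • x)‖ ‖ρ b (‖x‖⁻¹ • x)‖ := hzU k hk
      simp only [map_smul, norm_smul, norm_inv, norm_norm] at h3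
      rw [← mul_max_of_nonneg _ _ (by positivity : (0 : ℝ) ≤ ‖x‖⁻¹)] at h3
      have h4 := mul_le_mul_of_nonneg_left h3.le hn.le
      rw [← mul_assoc, mul_inv_cancel₀ hn.ne', one_mul] at h4
      calc ‖ρ (δ z k) x‖ ≤ ‖x‖ * ((C0 + 2) * (‖x‖⁻¹ * max ‖ρ a x‖ ‖ρ b x‖)) := h4
        _ = (‖x‖ * ‖x‖⁻¹) * ((C0 + 2) * max ‖ρ a x‖ ‖ρ b x‖) := by ring
        _ = _ := by rw [mul_inv_cancel₀ hn.ne', one_mul]

theorem conn_uniform {S : Set Γ} (hC : Conn ρ S) : ∃ C > (0 : ℝ), ∀ P : Set (Γ × Γ), P.Finite →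
    ∃ (m0 : ℕ) (G : Set Γ), G.Finite ∧ ∀ ab ∈ P, ∀ x : E, x ≠ 0 →
      ∃ (m : ℕ) (δ : ℕ → Γ), m ≤ m0 ∧ δ 0 = ab.1 ∧ δ m = ab.2 ∧
        (∀ k < m, δ (k + 1) * (δ k)⁻¹ ∈ S) ∧
        ∀ k ≤ m, δ k ∈ G ∧ ‖ρ (δ k) x‖ ≤ C * max ‖ρ ab.1 x‖ ‖ρ ab.2 x‖ := by
  obtain ⟨C0, hC0, hC⟩ := hC
  refine ⟨C0 + 2, by linarith, fun P hP => ?_⟩
  choose m0 G hG h using fun ab : Γ × Γ => conn_pair hC0 hC ab.1 ab.2
  refine ⟨∑ ab ∈ hP.toFinset, m0 ab, ⋃ ab ∈ P, G ab, hP.biUnion fun ab _ => hG ab, ?_⟩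
  intro ab hab x hx
  obtain ⟨m, δ, hm0, h0, hm, hS, hb⟩ := h ab x hx
  refine ⟨m, δ, hm0.trans (Finset.single_le_sum (f := m0) (fun _ _ => Nat.zero_le _)
    (hP.mem_toFinset.2 hab)), h0, hm, hS, fun k hk => ⟨?_, (hb k hk).2⟩⟩
  exact Set.mem_iUnion₂.2 ⟨ab, hab, (hb k hk).1⟩

end
end LatLin
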