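import Pool.Agent.Lib.MP_2392aa_gt.C.Track
import Pool.Agent.Lib.MP_2392aa_gt.C.ConnU

/-!
MP_2392aa_gt, core, module EqN: the fixed point of the operator is equivariant
(lattices without exceptional rays).
-/

open scoped ContDiff Topology
open Metric Filter

namespace LatLin

section
variable {E : Type*} [NormedAddCommGroup E] [InnerProductSpace ℝ E] [FiniteDimensional ℝ E]
  {Γ : Type*} [Group Γ] {M : Type*} [TopologicalSpace M] [MulAction Γ M]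
  {ρ : Γ →* (E ≃L[ℝ] E)}

private theorem fin_bd {α : Type*} (S : Set α) (hS : S.Finite) (f : α → ℝ) :
    ∃ L : ℝ, 1 ≤ L ∧ ∀ s ∈ S, f s ≤ L := by
  obtain ⟨L, hL⟩ := (hS.image f).bddAbove
  exact ⟨max L 1, le_max_right _ _, fun s hs => (hL ⟨s, hs, rfl⟩).trans (le_max_left _ _)⟩

omit [InnerProductSpace ℝ E] [FiniteDimensional ℝ E] in
private theorem small_ev (a b : ℝ) (hb : 0 < b) : ∀ᶠ x in 𝓝 (0 : E), a * ‖x‖ < b := by
  have h : Continuous fun x : E => a * ‖x‖ := by fun_prop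
  refine (h.tendsto 0).eventually_lt_const ?_
  simpa using hb

private theorem near_fin (D : LocData (M := M) ρ) (hD : D.IsFlat) (G : Set Γ) (hG : G.Finite)
    (N : ℕ) : ∃ C : ℝ, 0 ≤ C ∧ ∀ᶠ x in 𝓝 (0 : E), ∀ γ ∈ G,
      ‖D.F γ x - ρ γ x‖ ≤ C * ‖x‖ ^ N := by
  have h1 : ∀ γ, Ord N (fun x => D.F γ x - ρ γ x) := fun γ =>
    ord_of_flat ((D.F_smooth γ).sub (ρ γ).contDiff) (hD γ) N
  choose C hC using h1
  obtain ⟨L, hL1, hL⟩ := fin_bd G hG C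
  refine ⟨L, by linarith, (Filter.eventually_all_finite hG).2 fun γ hγ => ?_⟩
  filter_upwards [hC γ] with x hx
  exact hx.trans (mul_le_mul_of_nonneg_right (hL γ hγ) (by positivity))

omit [FiniteDimensional ℝ E] in
private theorem convex_diff {α β : Type*} (I : Finset α) (J : Finset β) (a : α → ℝ) (b : β → ℝ)
    (ha : ∀ i, 0 ≤ a i) (hb : ∀ j, 0 ≤ b j) (sa : ∑ i ∈ I, a i = 1) (sb : ∑ j ∈ J, b j = 1)
    (p : α → E) (q : β → E) (B : ℝ) (h : ∀ i ∈ I, ∀ j ∈ J, ‖p i - q j‖ ≤ B) :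
    ‖∑ i ∈ I, a i • p i - ∑ j ∈ J, b j • q j‖ ≤ B := by
  have e1 : ∑ i ∈ I, a i • p i - ∑ j ∈ J, b j • q j =
      ∑ i ∈ I, a i • ∑ j ∈ J, b j • (p i - q j) := by
    have h1 : ∀ i, ∑ j ∈ J, b j • (p i - q j) = p i - ∑ j ∈ J, b j • q j := by
      intro i
      simp only [smul_sub, Finset.sum_sub_distrib, ← Finset.sum_smul, sb, one_smul]
    simp only [h1]
    simp only [smul_sub, Finset.sum_sub_distrib]
    rw [← Finset.sum_smul, sa, one_smul]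
  rw [e1]
  refine (norm_sum_le _ _).trans ?_
  have h2 : ∀ i ∈ I, ‖a i • ∑ j ∈ J, b j • (p i - q j)‖ ≤ a i * B := by
    intro i hi
    rw [norm_smul, Real.norm_of_nonneg (ha i)]
    refine mul_le_mul_of_nonneg_left ?_ (ha i)
    refine (norm_sum_le _ _).trans ?_
    have h3 : ∀ j ∈ J, ‖b j • (p i - q j)‖ ≤ b j * B := by
      intro j hj
      rw [norm_smul, Real.norm_of_nonneg (hb j)]
      exact mul_le_mul_of_nonneg_left (h i hi j hj) (hb j)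
    refine (Finset.sum_le_sum h3).trans ?_
    rw [← Finset.sum_mul, sb, one_mul]
  refine (Finset.sum_le_sum h2).trans ?_
  rw [← Finset.sum_mul, sa, one_mul]

omit [FiniteDimensional ℝ E] in
private theorem le_op {g : E ≃L[ℝ] E} {K : ℝ} (h : ‖(g : E →L[ℝ] E)‖ ≤ K) (x : E) :
    ‖g x‖ ≤ K * ‖x‖ :=
  ((g : E →L[ℝ] E).le_opNorm x).trans (mul_le_mul_of_nonneg_right h (norm_nonneg _))

/-- the differences of the cocycle equation vanish to all orders -/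
private theorem defect_ord (D : LocData (M := M) ρ) (hD : D.IsFlat) (S : Set Γ) (hS : S.Finite)
    (φ : E → E) (hφ : ContDiff ℝ ∞ φ) (hf : FlatAt (fun x => φ x - x) 0) (N : ℕ) :
    ∃ κ : ℝ, 0 ≤ κ ∧ ∀ᶠ x in 𝓝 (0 : E), ∀ σ ∈ S, ‖φ (D.F σ x) - ρ σ (φ x)‖ ≤ κ * ‖x‖ ^ N := by
  obtain ⟨L, hL1, hL⟩ := fin_bd S hS (fun σ => ‖(ρ σ : E →L[ℝ] E)‖)
  obtain ⟨C, hC⟩ := ord_of_flat (hφ.sub contDiff_id) hf N
  obtain ⟨C2, hC2, h2⟩ := near_fin D hD S hS N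
  obtain ⟨C3, hC3, h3⟩ := near_fin D hD S hS 1
  have hFt : ∀ᶠ x in 𝓝 (0 : E), ∀ σ ∈ S, ‖φ (D.F σ x) - D.F σ x‖ ≤ C * ‖D.F σ x‖ ^ N :=
    (Filter.eventually_all_finite hS).2 fun σ _ => (D.F_tendsto σ).eventually hC
  refine ⟨|C| * (L + C3) ^ N + C2 + L * |C|, by positivity, ?_⟩
  filter_upwards [hC, h2, h3, hFt] with x a1 a2 a3 a4 σ hσ
  have b1 := a4 σ hσ
  have b2 := a2 σ hσ
  have b3 := a3 σ hσ
  rw [pow_one] at b3
  have hr := le_op (hL σ hσ)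
  have b4 : ‖D.F σ x‖ ≤ (L + C3) * ‖x‖ := by
    have := norm_add_le (D.F σ x - ρ σ x) (ρ σ x)
    rw [sub_add_cancel] at this
    have := hr x
    linarith
  have b5 : ‖φ (D.F σ x) - D.F σ x‖ ≤ |C| * (L + C3) ^ N * ‖x‖ ^ N := by
    refine b1.trans ?_
    calc C * ‖D.F σ x‖ ^ N ≤ |C| * ((L + C3) * ‖x‖) ^ N := by
          gcongr
          exact le_abs_self _
      _ = _ := by rw [mul_pow, mul_assoc]
  have b6 : ‖ρ σ (φ x - x)‖ ≤ L * |C| * ‖x‖ ^ N := by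
    refine (hr _).trans ?_
    rw [mul_assoc]
    refine mul_le_mul_of_nonneg_left (a1.trans ?_) (by linarith)
    exact mul_le_mul_of_nonneg_right (le_abs_self _) (by positivity)
  have e : φ (D.F σ x) - ρ σ (φ x) =
      (φ (D.F σ x) - D.F σ x) + (D.F σ x - ρ σ x) - ρ σ (φ x - x) := by
    rw [map_sub]
    abel
  rw [e]
  refine (norm_sub_le _ _).trans ?_
  have := norm_add_le (φ (D.F σ x) - D.F σ x) (D.F σ x - ρ σ x)
  nlinarith

theorem equi_N (D : LocData (M := M) ρ) (hD : D.IsFlat) (S : Set Γ) (hS : S.Finite)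
    (hC : Conn ρ S) : ∃ lam0 > (0 : ℝ), ∀ T : TData D, Finite T.ι → (∀ i, T.A i = D.F (T.g i)) →
      T.Z = {0} → T.lam ≤ lam0 → ∀ (s : ℝ) (φ : E → E), T.IsSol s φ →
        ∀ σ ∈ S, ∀ᶠ x in 𝓝 (0 : E), φ (D.F σ x) = ρ σ (φ x) := by
  obtain ⟨C1, hC1, hconn⟩ := conn_uniform hC
  obtain ⟨L, hL1, hL⟩ := fin_bd S hS (fun σ => ‖(ρ σ : E →L[ℝ] E)‖)
  refine ⟨1 / (16 * (C1 + 1) * L), by positivity, ?_⟩
  intro T hfin hA hZ hlam s φ hsol
  have hlp := T.lam_pos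
  -- the finite sets
  set P : Set (Γ × Γ) := (fun p : (T.ι × T.ι) × Γ => (T.g p.1.1, T.g p.1.2 * p.2)) ''
    (Set.univ ×ˢ S) with hP
  have hPfin : P.Finite := (Set.finite_univ.prod hS).image _
  obtain ⟨m0, G, hG, hch⟩ := hconn P hPfin
  obtain ⟨K1, hK11, hK1⟩ := fin_bd (G ×ˢ G) (hG.prod hG)
    (fun p => ‖(ρ (p.1 * p.2⁻¹) : E →L[ℝ] E)‖)
  obtain ⟨K2, hK21, hK2⟩ := fin_bd G hG (fun g => ‖(((ρ g)⁻¹ : E ≃L[ℝ] E) : E →L[ℝ] E)‖)
  obtain ⟨Kg, hKg1, hKg⟩ := fin_bd (Set.range T.g) (Set.finite_range _)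
    (fun g => ‖(ρ g : E →L[ℝ] E)‖)
  obtain ⟨Li, hLi1, hLi⟩ := fin_bd S hS (fun σ => ‖(((ρ σ)⁻¹ : E ≃L[ℝ] E) : E →L[ℝ] E)‖)
  obtain ⟨r1, hr1, hr10, hr11, htr⟩ := track D hD S hS
  obtain ⟨Ct, hCt, htr⟩ := htr 2
  obtain ⟨C2, hC2, hn2⟩ := near_fin D hD (S ∪ Set.range T.g) (hS.union (Set.finite_range _)) 2
  -- the exponent
  obtain ⟨N, hN⟩ : ∃ N : ℕ, L * (m0 * (K2 * (1 / 2 : ℝ) ^ N)) ≤ 1 / 2 := by
    have ht : Tendsto (fun N : ℕ => L * (m0 * (K2 * (1 / 2 : ℝ) ^ N))) atTop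
        (𝓝 (L * (m0 * (K2 * 0)))) :=
      ((((tendsto_pow_atTop_nhds_zero_of_lt_one (by norm_num) (by norm_num)).const_mul
        _).const_mul _).const_mul _)
    rw [mul_zero, mul_zero, mul_zero] at ht
    obtain ⟨N, hN⟩ := (ht.eventually_lt_const (show (0 : ℝ) < 1 / 2 by norm_num)).exists
    exact ⟨N, hN.le⟩
  obtain ⟨κ, hκ, hdef⟩ := defect_ord D hD S hS φ hsol.smooth hsol.flat N
  -- smallness
  have hspos := hsol.s_pos
  have hrpos := T.r_pos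
  have hr0pos := D.r0_pos
  have ev : ∀ᶠ x in 𝓝 (0 : E),
      (∀ σ ∈ S, ‖φ (D.F σ x) - ρ σ (φ x)‖ ≤ κ * ‖x‖ ^ N) ∧
      (‖x‖ < s ∧ ‖x‖ < r1) ∧
      (∀ γ ∈ S ∪ Set.range T.g, ‖D.F γ x - ρ γ x‖ ≤ C2 * ‖x‖ ^ 2) ∧
      (∀ σ ∈ S, ‖D.F σ x‖ < s ∧ (∀ γ ∈ S ∪ Set.range T.g,
        ‖D.F γ (D.F σ x) - ρ γ (D.F σ x)‖ ≤ C2 * ‖D.F σ x‖ ^ 2) ∧ σ • D.χ x = D.χ (D.F σ x)) ∧
      (C2 * ‖x‖ < L ∧ (Li * C2) * ‖x‖ < 1 ∧ C2 * ‖x‖ < T.lam ∧
        ((4 * L ^ 2 + Kg) * C2) * ‖x‖ < 2 * L * T.lam ∧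
        (K1 * (C2 + m0 * Ct)) * ‖x‖ < 4 * C1 * L * T.lam) := by
    have hlt : ∀ b : ℝ, 0 < b → ∀ᶠ x in 𝓝 (0 : E), ‖x‖ < b := fun b hb => by
      simpa using small_ev (E := E) 1 b hb
    have h4 : ∀ᶠ x in 𝓝 (0 : E), ∀ σ ∈ S, ‖D.F σ x‖ < s ∧ (∀ γ ∈ S ∪ Set.range T.g,
        ‖D.F γ (D.F σ x) - ρ γ (D.F σ x)‖ ≤ C2 * ‖D.F σ x‖ ^ 2) ∧
        σ • D.χ x = D.χ (D.F σ x) := by
      refine (Filter.eventually_all_finite hS).2 fun σ hσ => ?_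
      exact ((D.F_tendsto σ).eventually (hlt s hspos)).and
        (((D.F_tendsto σ).eventually hn2).and (D.F_act σ))
    filter_upwards [hdef, hlt s hspos, hlt r1 hr1, hn2, h4, small_ev (E := E) C2 L (by linarith),
      small_ev (E := E) (Li * C2) 1 one_pos, small_ev (E := E) C2 T.lam hlp,
      small_ev (E := E) ((4 * L ^ 2 + Kg) * C2) (2 * L * T.lam) (by positivity),
      small_ev (E := E) (K1 * (C2 + m0 * Ct)) (4 * C1 * L * T.lam) (by positivity)]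
      with x a1 a2 a3 a4 a5 a6 a7 a8 a9 a10
    exact ⟨a1, ⟨a2, a3⟩, a4, a5, a6, a7, a8, a9, a10⟩
  obtain ⟨s1, hs1, hball⟩ := Metric.eventually_nhds_iff_ball.1 ev
  -- the halving step
  have step : ∀ κ : ℝ, 0 ≤ κ →
      (∀ σ ∈ S, ∀ x ∈ ball (0 : E) s1, ‖φ (D.F σ x) - ρ σ (φ x)‖ ≤ κ * ‖x‖ ^ N) →
      ∀ σ ∈ S, ∀ x ∈ ball (0 : E) s1, ‖φ (D.F σ x) - ρ σ (φ x)‖ ≤ κ / 2 * ‖x‖ ^ N := by
    intro κ hκ hyp σ hσ x hx
    obtain ⟨-, ⟨hxs, hxr1⟩, hnx, hσx, c1, c2, c3, c4, c5⟩ := hball x hx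
    obtain ⟨hys, hny, hact⟩ := hσx σ hσ
    by_cases hx0 : x = 0
    · subst hx0
      have h0 : φ 0 = 0 := hsol.onZ 0 T.zero_mem
      rw [D.F_zero, h0, map_zero, sub_zero, norm_zero]
      positivity
    have hxpos : 0 < ‖x‖ := norm_pos_iff.2 hx0
    set y := D.F σ x with hy
    have hyx : ‖y - ρ σ x‖ ≤ C2 * ‖x‖ ^ 2 := hnx σ (Or.inl hσ)
    have hρx : ‖ρ σ x‖ ≤ L * ‖x‖ := le_op (hL σ hσ) x
    have hy2 : ‖y‖ ≤ 2 * L * ‖x‖ := by
      have h1 := norm_add_le (y - ρ σ x) (ρ σ x)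
      rw [sub_add_cancel] at h1
      have h2 := mul_le_mul_of_nonneg_right c1.le hxpos.le
      have h3 : C2 * ‖x‖ * ‖x‖ = C2 * ‖x‖ ^ 2 := by ring
      linarith
    have hy0 : y ≠ 0 := by
      intro h
      rw [h, zero_sub, norm_neg] at hyx
      have h1 : ‖x‖ ≤ Li * ‖ρ σ x‖ := by
        have h2 := le_op (hLi σ hσ) (ρ σ x)
        have h3 : ((ρ σ)⁻¹ : E ≃L[ℝ] E) (ρ σ x) = x := (ρ σ).symm_apply_apply x
        rwa [h3] at h2
      have h4 : Li * ‖ρ σ x‖ ≤ Li * (C2 * ‖x‖ ^ 2) := mul_le_mul_of_nonneg_left hyx (by linarith)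
      have h5 : Li * (C2 * ‖x‖ ^ 2) = Li * C2 * ‖x‖ * ‖x‖ := by ring
      have h6 := mul_lt_mul_of_pos_right c2 hxpos
      linarith
    have hxY : x ∈ ball (0 : E) s \ T.Z := by
      rw [hZ]
      exact ⟨mem_ball_zero_iff.2 hxs, hx0⟩
    have hyY : y ∈ ball (0 : E) s \ T.Z := by
      rw [hZ]
      exact ⟨mem_ball_zero_iff.2 hys, hy0⟩
    have hxY' : x ∈ ball (0 : E) T.r \ T.Z := ⟨ball_subset_ball hsol.s_le hxY.1, hxY.2⟩
    have hyY' : y ∈ ball (0 : E) T.r \ T.Z := ⟨ball_subset_ball hsol.s_le hyY.1, hyY.2⟩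
    rw [hsol.fix x hxY, hsol.fix y hyY, map_sum]
    simp only [map_smul]
    refine convex_diff _ _ _ _ (fun j => T.w_nonneg j y) (fun i => T.w_nonneg i x)
      (T.w_sum y hyY') (T.w_sum x hxY') _ _ _ fun j hj i hi => ?_
    -- the bracket
    have hxa : ‖D.F (T.g i) x‖ ≤ T.lam * ‖x‖ := by
      have := T.A_le x hxY' i hi
      rw [hA i] at this
      exact this.trans (T.ϱ_le x hxY')
    have hyb : ‖D.F (T.g j) y‖ ≤ T.lam * ‖y‖ := by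
      have := T.A_le y hyY' j hj
      rw [hA j] at this
      exact this.trans (T.ϱ_le y hyY')
    have hnxa := hnx (T.g i) (Or.inr ⟨i, rfl⟩)
    have hnyb := hny (T.g j) (Or.inr ⟨j, rfl⟩)
    have hρa : ‖ρ (T.g i) x‖ ≤ 4 * L * T.lam * ‖x‖ := by
      have h1 := norm_sub_norm_le (ρ (T.g i) x) (D.F (T.g i) x)
      rw [norm_sub_rev] at h1
      have h2 := mul_le_mul_of_nonneg_right c3.le hxpos.le
      have h2' : C2 * ‖x‖ * ‖x‖ = C2 * ‖x‖ ^ 2 := by ring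
      have h3 : T.lam * ‖x‖ ≤ L * (T.lam * ‖x‖) := le_mul_of_one_le_left (by positivity) hL1
      have h4 : 0 ≤ L * (T.lam * ‖x‖) := by positivity
      linarith
    have hρb : ‖ρ (T.g j * σ) x‖ ≤ 4 * L * T.lam * ‖x‖ := by
      have e1 : ρ (T.g j * σ) x = D.F (T.g j) y - (D.F (T.g j) y - ρ (T.g j) y) -
          ρ (T.g j) (y - ρ σ x) := by
        rw [map_sub, map_mul]
        change ρ (T.g j) (ρ σ x) = _
        abel
      have h1 : ‖ρ (T.g j) (y - ρ σ x)‖ ≤ Kg * (C2 * ‖x‖ ^ 2) :=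
        (le_op (hKg _ ⟨j, rfl⟩) _).trans (mul_le_mul_of_nonneg_left hyx (by linarith))
      have h2 : ‖D.F (T.g j) y - ρ (T.g j) y‖ ≤ C2 * (2 * L * ‖x‖) ^ 2 :=
        hnyb.trans (by gcongr)
      have h3 : T.lam * ‖y‖ ≤ T.lam * (2 * L * ‖x‖) := mul_le_mul_of_nonneg_left hy2 hlp.le
      have h4 : ((4 * L ^ 2 + Kg) * C2) * ‖x‖ * ‖x‖ ≤ 2 * L * T.lam * ‖x‖ :=
        mul_le_mul_of_nonneg_right c4.le hxpos.le
      rw [e1]
      have h5 := norm_sub_le (D.F (T.g j) y - (D.F (T.g j) y - ρ (T.g j) y))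
        (ρ (T.g j) (y - ρ σ x))
      have h6 := norm_sub_le (D.F (T.g j) y) (D.F (T.g j) y - ρ (T.g j) y)
      have h7 : ((4 * L ^ 2 + Kg) * C2) * ‖x‖ * ‖x‖ =
          C2 * (2 * L * ‖x‖) ^ 2 + Kg * (C2 * ‖x‖ ^ 2) := by ring
      linarith
    obtain ⟨m, δ, hm, hδ0, hδm, hδS, hδG⟩ := hch (T.g i, T.g j * σ)
      ⟨((i, j), σ), ⟨Set.mem_univ _, hσ⟩, rfl⟩ x hx0
    simp only at hδ0 hδm
    set c := 4 * C1 * L * T.lam * ‖x‖ with hc
    have hδc : ∀ k ≤ m, ‖ρ (δ k) x‖ ≤ c := by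
      intro k hk
      refine (hδG k hk).2.trans ?_
      simp only
      calc C1 * max ‖ρ (T.g i) x‖ ‖ρ (T.g j * σ) x‖ ≤ C1 * (4 * L * T.lam * ‖x‖) :=
            mul_le_mul_of_nonneg_left (max_le hρa hρb) hC1.le
        _ = c := by rw [hc]; ring
    have hc2 : 2 * c ≤ ‖x‖ / 2 := by
      have h1 : 16 * (C1 + 1) * L * T.lam ≤ 1 := by
        rw [le_div_iff₀ (by positivity)] at hlam
        linarith
      have h2 : 16 * C1 * L * T.lam ≤ 1 := by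
        have : 0 ≤ L * T.lam := by positivity
        linarith
      have h3 := mul_le_mul_of_nonneg_right h2 hxpos.le
      rw [hc]
      linarith
    have hm' : (m : ℝ) ≤ m0 := by exact_mod_cast hm
    obtain ⟨xs, hxs0, hxsS, hxsb⟩ := htr x (D.F (T.g i) x) m δ c K1 (C2 * ‖x‖ ^ 2)
      (by positivity) hK11 hδS hδc
      (fun k l hkl hl => hK1 (δ l, δ k) ⟨(hδG l hl).1, (hδG k (hkl.trans hl)).1⟩)
      (by rw [hδ0]; exact hnxa)
      (by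
        rw [hδ0, T.A_act x hxY' i hi, hA i])
      (by linarith)
      (by
        have h1 : (2 * c) ^ 2 ≤ ‖x‖ ^ 2 := by
          refine pow_le_pow_left₀ (by positivity) (by linarith) 2
        have h2 : (m : ℝ) * Ct * (2 * c) ^ 2 ≤ m0 * Ct * ‖x‖ ^ 2 := by gcongr
        have h3 : K1 * (C2 * ‖x‖ ^ 2 + m * Ct * (2 * c) ^ 2) ≤
            K1 * (C2 * ‖x‖ ^ 2 + m0 * Ct * ‖x‖ ^ 2) :=
          mul_le_mul_of_nonneg_left (by linarith) (by linarith)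
        refine h3.trans ?_
        rw [hc]
        have h4 : (K1 * (C2 + m0 * Ct)) * ‖x‖ * ‖x‖ ≤ 4 * C1 * L * T.lam * ‖x‖ :=
          mul_le_mul_of_nonneg_right c5.le hxpos.le
        have h5 : (K1 * (C2 + m0 * Ct)) * ‖x‖ * ‖x‖ =
            K1 * (C2 * ‖x‖ ^ 2 + m0 * Ct * ‖x‖ ^ 2) := by ring
        linarith)
    -- the end of the chain
    have hend : xs m = D.F (T.g j) y := by
      obtain ⟨-, h2, h3⟩ := hxsb m le_rfl
      refine D.inj ?_ ?_ ?_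
      · rw [mem_ball_zero_iff]
        linarith
      · rw [mem_ball_zero_iff]
        have h4 : T.lam * ‖y‖ ≤ T.lam * (2 * L * ‖x‖) := mul_le_mul_of_nonneg_left hy2 hlp.le
        have h5 : 16 * (C1 + 1) * L * T.lam ≤ 1 := by
          rw [le_div_iff₀ (by positivity)] at hlam
          linarith
        have h6 : 16 * L * T.lam ≤ 1 := by
          have : 0 ≤ C1 * (L * T.lam) := by positivity
          linarith
        have h7 := mul_le_mul_of_nonneg_right h6 hxpos.le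
        linarith
      · rw [h3, hδm, mul_smul, hact, T.A_act y hyY' j hj, hA j]
    have hcost := chain_cost D φ S κ s1 N (fun σ hσ y hy => hyp σ hσ y hy) m δ hδS xs hxsS
      (fun k hk => by
        rw [mem_ball_zero_iff]
        have := (hxsb k hk).2.1
        have := mem_ball_zero_iff.1 hx
        linarith)
    rw [hxs0, hend, hδ0, hδm] at hcost
    have hcost2 : ∑ k ∈ Finset.range m,
        ‖(((ρ (δ (k + 1)))⁻¹ : E ≃L[ℝ] E) : E →L[ℝ] E)‖ * (κ * ‖xs k‖ ^ N) ≤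
        m0 * (K2 * (κ * (‖x‖ / 2) ^ N)) := by
      have h1 : ∀ k ∈ Finset.range m,
          ‖(((ρ (δ (k + 1)))⁻¹ : E ≃L[ℝ] E) : E →L[ℝ] E)‖ * (κ * ‖xs k‖ ^ N) ≤
          K2 * (κ * (‖x‖ / 2) ^ N) := by
        intro k hk
        have hk' : k < m := Finset.mem_range.1 hk
        have h2 := hK2 _ (hδG (k + 1) hk').1
        have h3 : ‖xs k‖ ≤ ‖x‖ / 2 := (hxsb k hk'.le).2.1.trans hc2
        gcongr
      refine (Finset.sum_le_sum h1).trans ?_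
      rw [Finset.sum_const, Finset.card_range, nsmul_eq_mul]
      gcongr
    have e2 : (ρ (T.g j))⁻¹ (φ (T.A j y)) - ρ σ ((ρ (T.g i))⁻¹ (φ (T.A i x))) =
        ρ σ ((ρ (T.g j * σ))⁻¹ (φ (D.F (T.g j) y)) - (ρ (T.g i))⁻¹ (φ (D.F (T.g i) x))) := by
      rw [map_sub, hA j, hA i]
      congr 1
      rw [map_mul, mul_inv_rev]
      exact ((ρ σ).apply_symm_apply _).symm
    rw [e2]
    refine (le_op (hL σ hσ) _).trans ?_
    calc L * ‖(ρ (T.g j * σ))⁻¹ (φ (D.F (T.g j) y)) - (ρ (T.g i))⁻¹ (φ (D.F (T.g i) x))‖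
        ≤ L * (m0 * (K2 * (κ * (‖x‖ / 2) ^ N))) :=
          mul_le_mul_of_nonneg_left (hcost.trans hcost2) (by linarith)
      _ = (L * (m0 * (K2 * (1 / 2 : ℝ) ^ N))) * (κ * ‖x‖ ^ N) := by
          rw [div_eq_mul_one_div ‖x‖ 2, mul_pow]
          ring
      _ ≤ 1 / 2 * (κ * ‖x‖ ^ N) := mul_le_mul_of_nonneg_right hN (by positivity)
      _ = κ / 2 * ‖x‖ ^ N := by ring
  -- iteration
  have iter : ∀ n : ℕ, ∀ σ ∈ S, ∀ x ∈ ball (0 : E) s1,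
      ‖φ (D.F σ x) - ρ σ (φ x)‖ ≤ κ / 2 ^ n * ‖x‖ ^ N := by
    intro n
    induction n with
    | zero =>
      intro σ hσ x hx
      rw [pow_zero, div_one]
      exact (hball x hx).1 σ hσ
    | succ n ih =>
      intro σ hσ x hx
      have h := step (κ / 2 ^ n) (by positivity) ih σ hσ x hx
      rwa [div_div, ← pow_succ] at h
  intro σ hσ
  filter_upwards [ball_mem_nhds (0 : E) hs1] with x hx
  have ht : Tendsto (fun n : ℕ => κ / 2 ^ n * ‖x‖ ^ N) atTop (𝓝 (0 * ‖x‖ ^ N)) := by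
    refine Tendsto.mul_const _ ?_
    have h1 : Tendsto (fun n : ℕ => κ * (1 / 2 : ℝ) ^ n) atTop (𝓝 (κ * 0)) :=
      (tendsto_pow_atTop_nhds_zero_of_lt_one (by norm_num) (by norm_num)).const_mul _
    rw [mul_zero] at h1
    refine h1.congr fun n => ?_
    rw [one_div, inv_pow, div_eq_mul_inv]
  rw [zero_mul] at ht
  have h0 : ‖φ (D.F σ x) - ρ σ (φ x)‖ ≤ 0 :=
    ge_of_tendsto ht (Eventually.of_forall fun n => iter n σ hσ x hx)
  exact sub_eq_zero.1 (norm_le_zero_iff.1 h0)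

end
end LatLin
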