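import Mathlib

/-!
MP_2392aa_gt, core, module Ext0 (only Mathlib): extension by zero across a closed
set, and derivatives of homogeneous functions of degree zero.
-/

open scoped ContDiff Topology
open Metric Filter

universe u

namespace LatLin

private theorem ext_hasFDeriv {E F : Type u} [NormedAddCommGroup E] [NormedSpace ℝ E]
    [NormedAddCommGroup F] [NormedSpace ℝ F] (Z : Set E) (v : E → F)
    (h0 : ∀ z ∈ Z, v z = 0) (C : ℝ)
    (hb : ∀ x ∉ Z, ∀ z ∈ Z, ‖v x‖ ≤ C * ‖x - z‖ ^ 2) (z : E) (hz : z ∈ Z) :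
    HasFDerivAt v (0 : E →L[ℝ] F) z := by
  refine Asymptotics.IsBigO.hasFDerivAt (n := 2) ?_ (by norm_num)
  refine Asymptotics.IsBigO.of_bound (max C 0) (Eventually.of_forall fun x => ?_)
  rw [Real.norm_of_nonneg (by positivity)]
  by_cases hx : x ∈ Z
  · rw [h0 x hx, norm_zero]
    positivity
  · exact (hb x hx z hz).trans (mul_le_mul_of_nonneg_right (le_max_left _ _) (by positivity))

theorem ext_zero {E F : Type u} [NormedAddCommGroup E] [NormedSpace ℝ E] [NormedAddCommGroup F]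
    [NormedSpace ℝ F] (m : ℕ) (Z : Set E) (hZ : IsClosed Z) (v : E → F) (hv : ContDiffOn ℝ m v Zᶜ)
    (h0 : ∀ z ∈ Z, v z = 0) (C : ℝ)
    (hb : ∀ j ≤ m, ∀ x ∉ Z, ∀ z ∈ Z, ‖iteratedFDeriv ℝ j v x‖ ≤ C * ‖x - z‖ ^ 2) :
    ContDiff ℝ m v ∧ ∀ j ≤ m, ∀ z ∈ Z, iteratedFDeriv ℝ j v z = 0 := by
  induction m generalizing F with
  | zero =>
    have hd : ∀ z ∈ Z, HasFDerivAt v (0 : E →L[ℝ] F) z := fun z hz =>
      ext_hasFDeriv Z v h0 C (fun x hx z hz => by simpa using hb 0 le_rfl x hx z hz) z hz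
    refine ⟨?_, ?_⟩
    · rw [Nat.cast_zero, contDiff_zero, continuous_iff_continuousAt]
      intro x
      by_cases hx : x ∈ Z
      · exact (hd x hx).continuousAt
      · exact (hv.continuousOn x hx).continuousAt (hZ.isOpen_compl.mem_nhds hx)
    · intro j hj z hz
      obtain rfl : j = 0 := by omega
      ext
      simp [h0 z hz]
  | succ m ih =>
    have hd : ∀ z ∈ Z, HasFDerivAt v (0 : E →L[ℝ] F) z := fun z hz =>
      ext_hasFDeriv Z v h0 C (fun x hx z hz => by simpa using hb 0 (by omega) x hx z hz) z hz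
    have hdiff : Differentiable ℝ v := by
      intro x
      by_cases hx : x ∈ Z
      · exact (hd x hx).differentiableAt
      · exact ((hv.differentiableOn (by simp)) x hx).differentiableAt
          (hZ.isOpen_compl.mem_nhds hx)
    have hF : ContDiffOn ℝ m (fderiv ℝ v) Zᶜ :=
      hv.fderiv_of_isOpen hZ.isOpen_compl (by push_cast; exact le_rfl)
    obtain ⟨h1, h2⟩ := ih (fderiv ℝ v) hF (fun z hz => (hd z hz).fderiv)
      (fun j hj x hx z hz => by
        rw [norm_iteratedFDeriv_fderiv]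
        exact hb (j + 1) (by omega) x hx z hz)
    refine ⟨?_, ?_⟩
    · push_cast
      rw [contDiff_succ_iff_fderiv]
      refine ⟨hdiff, fun h => absurd h ?_, h1⟩
      exact WithTop.coe_ne_top
    · intro j hj z hz
      rcases j with _ | j
      · ext
        simp [h0 z hz]
      · rw [← norm_eq_zero, ← norm_iteratedFDeriv_fderiv, h2 j (by omega) z hz, norm_zero]

private theorem fderiv_scale {E F : Type*} [NormedAddCommGroup E] [NormedSpace ℝ E]
    [NormedAddCommGroup F] [NormedSpace ℝ F] (G : E → F) (a t : ℝ) (x : E) :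
    fderiv ℝ (fun x => a • G (t • x)) x = (a * t) • fderiv ℝ G (t • x) := by
  have h : fderiv ℝ (a • fun x => G (t • x)) = a • fderiv ℝ (fun x => G (t • x)) :=
    fderiv_const_smul_field a
  have h' := congrFun h x
  rw [Pi.smul_apply, fderiv_comp_smul, smul_smul] at h'
  exact h'

private theorem iter_scale {E F : Type*} [NormedAddCommGroup E] [NormedSpace ℝ E]
    [NormedAddCommGroup F] [NormedSpace ℝ F] (w : E → F) (t : ℝ) (j : ℕ) :
    iteratedFDeriv ℝ j (fun z => w (t • z)) = fun x => t ^ j • iteratedFDeriv ℝ j w (t • x) := by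
  induction j with
  | zero => ext; simp
  | succ i hi =>
    ext x v
    rw [iteratedFDeriv_succ_eq_comp_left, iteratedFDeriv_succ_eq_comp_left]
    simp only [Function.comp_apply, continuousMultilinearCurryLeftEquiv_symm_apply, hi,
      smul_apply]
    have h := fderiv_scale (iteratedFDeriv ℝ i w) (t ^ i) t x
    rw [← pow_succ] at h
    have h2 := congrArg (fun L => (L (v 0)) (Fin.tail v)) h
    exact h2

theorem homog_bound {E : Type*} [NormedAddCommGroup E] [NormedSpace ℝ E] [FiniteDimensional ℝ E]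
    (w : E → ℝ) (hw : ContDiffOn ℝ ∞ w {0}ᶜ) (hh : ∀ t > (0 : ℝ), ∀ x, w (t • x) = w x) (j : ℕ) :
    ∃ C : ℝ, 0 ≤ C ∧ ∀ x ≠ 0, ‖iteratedFDeriv ℝ j w x‖ ≤ C / ‖x‖ ^ j := by
  have hopen : IsOpen ({0}ᶜ : Set E) := isOpen_compl_singleton
  have hc : ContinuousOn (iteratedFDeriv ℝ j w) ({0}ᶜ : Set E) := by
    have h := hw.continuousOn_iteratedFDerivWithin (m := j) (mod_cast le_top) hopen.uniqueDiffOn
    exact h.congr fun x hx => (iteratedFDerivWithin_of_isOpen j hopen hx).symm
  have hK : IsCompact (sphere (0 : E) 1) := isCompact_sphere _ _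
  have hs : sphere (0 : E) 1 ⊆ ({0}ᶜ : Set E) := by
    intro x hx h
    rw [mem_sphere_zero_iff_norm] at hx
    rw [Set.mem_singleton_iff] at h
    rw [h, norm_zero] at hx
    norm_num at hx
  obtain ⟨C, hC⟩ := hK.exists_bound_of_continuousOn (hc.mono hs)
  refine ⟨max C 0, le_max_right _ _, fun x hx => ?_⟩
  have hx' : 0 < ‖x‖ := norm_pos_iff.2 hx
  have e : (fun z => w (‖x‖⁻¹ • z)) = w := funext fun z => hh _ (by positivity) z
  have h := congrFun (iter_scale w ‖x‖⁻¹ j) x
  rw [e] at h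
  rw [h, norm_smul, norm_pow, norm_inv, norm_norm, inv_pow, div_eq_inv_mul]
  refine mul_le_mul_of_nonneg_left ((hC _ ?_).trans (le_max_left _ _)) (by positivity)
  rw [mem_sphere_zero_iff_norm, norm_smul, norm_inv, norm_norm, inv_mul_cancel₀ hx'.ne']

end LatLin
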