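import Pool.Agent.Lib.MP_2392aa_gt.C.Jet
import Pool.Agent.Lib.MP_2392aa_gt.C.Ext0

/-!
MP_2392aa_gt, core, module TN (about 250 lines): data for the operator when every vector can be
contracted.

PROOF. `lam := min lam0 (1/2)`. For every unit vector `x` choose `γ x` with `‖ρ (γ x) x‖ ≤ lam / 4`
(`Contr`) and `ε x > 0` with `‖ρ (γ x) y‖ ≤ lam / 2` on `closedBall x (2 * ε x)`, `ε x ≤ 1/4`. The open
balls `ball x (ε x)` cover the compact unit sphere: finite set `I` of centers (a `Finset E`); `ι := Fin k`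
(or `ι := ↥I` needs `Type`: `ι` is a `Type` with `E : Type*`, so enumerate the centers by `Fin k`), with
centers `p i`, elements `g i := γ (p i)`, bump functions `b i` centered at `p i`, `rIn = ε i`,
`rOut = 2 ε i` (`ContDiffBump`). `b x := ∑ i, b i x > 0` on the unit sphere. For `x` put
`u x := ‖x‖⁻¹ • x`, `w i x := b i (u x) / b (u x)` (zero when the denominator is zero; `w i x ≥ 0`).
On `x ≠ 0`: smooth (`contDiffOn` of the norm off `0`: `contDiffAt_norm`, inner product space), `∑ w i x = 1`.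
`act x := {i | u x ∈ closedBall (p i) (2 ε i)}` (classical filter). `act_nhds`: `i ∉ act x` means `u x` is in
the open complement of the closed ball; near `x` the same, there `b i = 0`. Finitely many `i`.
`w_bound`: `homog_bound` (degree 0: `u (t • x) = u x` for `t > 0`), so `‖D^j (w i) x‖ ≤ C / ‖x‖^j
≤ C / ϱ^j`, `c = 0`, `ϱ x := lam * ‖x‖`; maximum over the finitely many `i`. `g_bound`: finitely many,
`c = 0`. `A i := D.F (g i)`. `A_flat`: `flat_bound_set` with `K = {0}`, `z = 0`, `R = 1`: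
`‖D^j (F g - ρ g) x‖ ≤ C ‖x‖^N = C lam^(-N) ϱ^N`. `A_le`: `‖F g x‖ ≤ ‖ρ g x‖ + C ‖x‖^2
≤ lam / 2 ‖x‖ + C ‖x‖^2 ≤ lam ‖x‖` for `‖x‖ < r` small (`‖ρ g x‖ = ‖x‖ ‖ρ g (u x)‖`). `A_act`: `F_act` for
the finitely many `g i`, `r` small. `r ≤ 1`, `r ≤ r0`. `Z := {0}`: closed, `interior {0} = ∅` since `E` is
nontrivial (`interior_singleton`, `PerfectSpace`/`NormedSpace` gives `NeBot (𝓝[≠] x)`). `ϱ_Z`: `C = lam`.
`K := k`.
-/

open scoped ContDiff Topology
open Metric Filter

namespace LatLin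

section
variable {E : Type*} [NormedAddCommGroup E] [InnerProductSpace ℝ E] [FiniteDimensional ℝ E]
  [Nontrivial E] {Γ : Type*} [Group Γ] {M : Type*} [TopologicalSpace M] [MulAction Γ M]
  {ρ : Γ →* (E ≃L[ℝ] E)}

omit [Nontrivial E] in
theorem tn_cover (hC : Contr ρ) (lam : ℝ) (hl : 0 < lam) :
    ∃ (k : ℕ) (p : Fin k → E) (g : Fin k → Γ) (ε : Fin k → ℝ), (∀ i, 0 < ε i) ∧
      (∀ i, ∀ y ∈ closedBall (p i) (2 * ε i), ‖ρ (g i) y‖ ≤ lam / 2) ∧
      ∀ x ∈ sphere (0 : E) 1, ∃ i, x ∈ ball (p i) (ε i) := by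
  have h1 : ∀ x : E, ∃ (γ : Γ) (ε : ℝ), 0 < ε ∧
      ∀ y ∈ closedBall x (2 * ε), ‖ρ γ y‖ ≤ lam / 2 := by
    intro x
    obtain ⟨γ, hγ⟩ := hC x (lam / 4) (by positivity)
    have h2 : {y : E | ‖ρ γ y‖ < lam / 2} ∈ 𝓝 x :=
      (isOpen_lt (ρ γ).continuous.norm continuous_const).mem_nhds (by
        simp only [Set.mem_ofPred_eq]; linarith)
    obtain ⟨r, hr, hr'⟩ := nhds_basis_closedBall.mem_iff.1 h2
    refine ⟨γ, r / 2, by positivity, fun y hy => ?_⟩
    have h3 : y ∈ closedBall x r := by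
      have : 2 * (r / 2) = r := by ring
      rwa [this] at hy
    exact (hr' h3 : ‖ρ γ y‖ < lam / 2).le
  choose γ ε hε h using h1
  obtain ⟨t, -, ht⟩ := (isCompact_sphere (0 : E) 1).elim_nhds_subcover (fun x => ball x (ε x))
    (fun x _ => ball_mem_nhds x (hε x))
  refine ⟨t.card, fun i => (t.equivFin.symm i : E), fun i => γ (t.equivFin.symm i : E),
    fun i => ε (t.equivFin.symm i : E), fun i => hε _, fun i => h _, ?_⟩
  intro x hx
  obtain ⟨z, hz⟩ := Set.mem_iUnion.1 (ht hx)
  obtain ⟨hzt, hxz⟩ := Set.mem_iUnion.1 hz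
  refine ⟨t.equivFin ⟨z, hzt⟩, ?_⟩
  simpa using hxz

/-- radial projection -/
noncomputable def tnU (x : E) : E := ‖x‖⁻¹ • x

omit [FiniteDimensional ℝ E] [Nontrivial E] in
theorem tnU_smul {t : ℝ} (ht : 0 < t) (x : E) : tnU (t • x) = tnU x := by
  unfold tnU
  rw [norm_smul, Real.norm_of_nonneg ht.le, smul_smul, mul_inv, mul_right_comm,
    inv_mul_cancel₀ ht.ne', one_mul]

omit [FiniteDimensional ℝ E] [Nontrivial E] in
theorem tnU_norm {x : E} (hx : x ≠ 0) : ‖tnU x‖ = 1 := by
  unfold tnU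
  rw [norm_smul, norm_inv, norm_norm, inv_mul_cancel₀ (norm_ne_zero_iff.2 hx)]

omit [FiniteDimensional ℝ E] [Nontrivial E] in
theorem tnU_eq {x : E} (hx : x ≠ 0) : ‖x‖ • tnU x = x := by
  unfold tnU
  rw [smul_smul, mul_inv_cancel₀ (norm_ne_zero_iff.2 hx), one_smul]

omit [FiniteDimensional ℝ E] [Nontrivial E] in
theorem tnU_smooth : ContDiffOn ℝ ∞ (tnU : E → E) {0}ᶜ := by
  intro x hx
  have hx0 : x ≠ 0 := hx
  have h1 : ContDiffAt ℝ ∞ (fun y : E => ‖y‖) x := contDiffAt_norm ℝ hx0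
  have h2 : ContDiffAt ℝ ∞ (fun y : E => ‖y‖⁻¹) x := h1.inv (norm_ne_zero_iff.2 hx0)
  exact (h2.smul contDiffAt_id).contDiffWithinAt

omit [Nontrivial E] in
/-- homogeneous partition of unity -/
theorem tn_part (k : ℕ) (p : Fin k → E) (ε : Fin k → ℝ) (hε : ∀ i, 0 < ε i)
    (hcov : ∀ x ∈ sphere (0 : E) 1, ∃ i, x ∈ ball (p i) (ε i)) :
    ∃ w : Fin k → E → ℝ, (∀ i, ContDiffOn ℝ ∞ (w i) {0}ᶜ) ∧
      (∀ i, ∀ t > (0 : ℝ), ∀ x, w i (t • x) = w i x) ∧ (∀ i x, 0 ≤ w i x) ∧
      (∀ x ≠ 0, ∑ i, w i x = 1) ∧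
      ∀ i x, tnU x ∉ closedBall (p i) (2 * ε i) → w i x = 0 := by
  let b : ∀ i, ContDiffBump (p i) := fun i => ⟨ε i, 2 * ε i, hε i, by have := hε i; linarith⟩
  let s : E → ℝ := fun y => ∑ i, b i y
  have hs0 : ∀ y, 0 ≤ s y := fun y => Finset.sum_nonneg fun i _ => (b i).nonneg
  have hs : ∀ x : E, x ≠ 0 → 0 < s (tnU x) := by
    intro x hx
    obtain ⟨i, hi⟩ := hcov (tnU x) (by rw [mem_sphere_zero_iff_norm, tnU_norm hx])
    have h1 : b i (tnU x) = 1 := (b i).one_of_mem_closedBall (ball_subset_closedBall hi)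
    have h2 : b i (tnU x) ≤ s (tnU x) :=
      Finset.single_le_sum (f := fun i => b i (tnU x)) (fun i _ => (b i).nonneg)
        (Finset.mem_univ i)
    rw [h1] at h2
    linarith
  refine ⟨fun i x => b i (tnU x) / s (tnU x), ?_, ?_, ?_, ?_, ?_⟩
  · intro i
    have hbi : ContDiff ℝ ∞ (fun y => b i y) := (b i).contDiff
    have h1 : ContDiffOn ℝ ∞ (fun x : E => b i (tnU x)) {0}ᶜ :=
      hbi.comp_contDiffOn tnU_smooth
    have hs' : ContDiff ℝ ∞ s := ContDiff.sum fun i _ => (b i).contDiff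
    have h2 : ContDiffOn ℝ ∞ (fun x : E => s (tnU x)) {0}ᶜ := hs'.comp_contDiffOn tnU_smooth
    exact h1.div h2 fun x hx => (hs x hx).ne'
  · intro i t ht x
    simp only [tnU_smul ht]
  · intro i x
    exact div_nonneg (b i).nonneg (hs0 _)
  · intro x hx
    rw [← Finset.sum_div]
    exact div_self (hs x hx).ne'
  · intro i x hx
    have h1 : b i (tnU x) = 0 := by
      apply (b i).zero_of_le_dist
      rw [mem_closedBall, not_le] at hx
      exact hx.le
    simp only [h1, zero_div]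

theorem exists_TData_N (D : LocData (M := M) ρ) (hD : D.IsFlat) (hC : Contr ρ) (lam0 : ℝ)
    (h0 : 0 < lam0) : ∃ T : TData D, Finite T.ι ∧ (∀ i, T.A i = D.F (T.g i)) ∧ T.Z = {0} ∧
      T.lam ≤ lam0 := by
  classical
  set lam : ℝ := min lam0 (1 / 2) with hlam
  have hl0 : 0 < lam := lt_min h0 (by norm_num)
  have hl2 : lam ≤ 1 / 2 := min_le_right _ _
  obtain ⟨k, p, g, ε, hε, hg, hcov⟩ := tn_cover hC lam hl0
  obtain ⟨w, hw1, hw2, hw3, hw4, hw5⟩ := tn_part k p ε hε hcov
  -- the radius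
  have hev : ∀ᶠ x in 𝓝 (0 : E), ∀ i : Fin k, g i • D.χ x = D.χ (D.F (g i) x) ∧
      ‖D.F (g i) x - ρ (g i) x‖ ≤ lam / 2 * ‖x‖ := by
    rw [Filter.eventually_all]
    intro i
    have h1 := (D.F_deriv (g i)).isLittleO.def (c := lam / 2) (by positivity)
    filter_upwards [D.F_act (g i), h1] with x hx1 hx2
    refine ⟨hx1, ?_⟩
    simpa [D.F_zero] using hx2
  obtain ⟨s, hs, hs'⟩ := Metric.eventually_nhds_iff_ball.1 hev
  set r : ℝ := min s (min 1 D.r0) with hr
  have hr0 : 0 < r := lt_min hs (lt_min one_pos D.r0_pos)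
  have hrs : ∀ x : E, x ∈ ball (0 : E) r \ {0} → x ∈ ball (0 : E) s := fun x hx =>
    ball_subset_ball (min_le_left _ _) hx.1
  have hne : ∀ x : E, x ∈ ball (0 : E) r \ {0} → x ≠ 0 := fun x hx => hx.2
  have hbl : ∀ x : E, x ∈ ball (0 : E) r \ {0} → x ∈ ball (0 : E) 1 := fun x hx =>
    ball_subset_ball ((min_le_right _ _).trans (min_le_left _ _)) hx.1
  have hϱ : ∀ x : E, x ∈ ball (0 : E) r \ {0} → 0 < lam * ‖x‖ := fun x hx =>
    mul_pos hl0 (norm_pos_iff.2 (hne x hx))
  let T : TData D :=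
    { ι := Fin k
      g := g
      A := fun i => D.F (g i)
      w := w
      act := fun x => Finset.univ.filter (fun i => tnU x ∈ closedBall (p i) (2 * ε i))
      Z := {0}
      ϱ := fun x => lam * ‖x‖
      r := r
      lam := lam
      K := k
      r_pos := hr0
      r_le := (min_le_right _ _).trans (min_le_left _ _)
      r_le' := (min_le_right _ _).trans (min_le_right _ _)
      lam_pos := hl0
      lam_lt := by linarith
      Z_closed := isClosed_singleton
      zero_mem := rfl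
      Z_int := by
        have : (𝓝[≠] (0 : E)).NeBot := Module.punctured_nhds_neBot ℝ E 0
        exact interior_singleton 0
      ϱ_pos := hϱ
      ϱ_le := fun x _ => le_rfl
      ϱ_Z := ⟨lam, fun x _ z hz => by
        rw [Set.mem_singleton_iff] at hz
        subst hz
        rw [sub_zero]⟩
      A_smooth := fun i => D.F_smooth _
      w_smooth := fun i => (hw1 i).mono fun x hx => hx.2
      w_nonneg := hw3
      act_card := fun x _ => by
        refine (Finset.card_le_univ _).trans ?_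
        simp
      act_nhds := by
        intro x hx
        rw [Filter.eventually_all]
        intro i
        by_cases hi : i ∈ Finset.univ.filter (fun i => tnU x ∈ closedBall (p i) (2 * ε i))
        · exact Filter.Eventually.of_forall fun y hy => absurd hi hy
        · have h1 : tnU x ∉ closedBall (p i) (2 * ε i) := by
            intro h
            exact hi (by simp only [Finset.mem_filter, Finset.mem_univ, true_and]; exact h)
          have h2 : ContinuousAt (tnU : E → E) x :=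
            (tnU_smooth.continuousOn x (hne x hx)).continuousAt
              (isOpen_compl_singleton.mem_nhds (hne x hx))
          have h3 : (closedBall (p i) (2 * ε i))ᶜ ∈ 𝓝 (tnU x) :=
            isClosed_closedBall.isOpen_compl.mem_nhds h1
          filter_upwards [h2 h3] with y hy _
          exact hw5 i y hy
      w_sum := by
        intro x hx
        rw [← hw4 x (hne x hx)]
        refine Finset.sum_subset (Finset.subset_univ _) fun i _ hi => ?_
        refine hw5 i x fun h => hi ?_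
        simp only [Finset.mem_filter, Finset.mem_univ, true_and]
        exact h
      w_bound := by
        intro j
        choose C hC0 hCb using fun i => homog_bound (w i) (hw1 i) (hw2 i) j
        refine ⟨∑ i, C i, 0, fun x hx i _ => ?_⟩
        rw [pow_zero, mul_one]
        have hp : 0 < ‖x‖ := norm_pos_iff.2 (hne x hx)
        have h1 : C i ≤ ∑ i, C i := Finset.single_le_sum (fun i _ => hC0 i) (Finset.mem_univ i)
        have h2 : 0 ≤ ∑ i, C i := Finset.sum_nonneg fun i _ => hC0 i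
        have h3 : (lam * ‖x‖) ^ j ≤ ‖x‖ ^ j :=
          pow_le_pow_left₀ (hϱ x hx).le (by nlinarith) _
        calc ‖iteratedFDeriv ℝ j (w i) x‖ ≤ C i / ‖x‖ ^ j := hCb i x (hne x hx)
          _ ≤ (∑ i, C i) / ‖x‖ ^ j := by gcongr
          _ ≤ (∑ i, C i) / (lam * ‖x‖) ^ j :=
            div_le_div_of_nonneg_left h2 (pow_pos (hϱ x hx) _) h3
      g_bound := by
        refine ⟨∑ i, sz (ρ (g i)), 0, fun x _ i _ => ?_⟩
        rw [pow_zero, mul_one]
        refine Finset.single_le_sum (f := fun i => sz (ρ (g i))) (fun i _ => ?_)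
          (Finset.mem_univ i)
        exact (norm_nonneg _).trans (le_max_left _ _)
      A_flat := by
        intro j N
        have hsm : ∀ i, ContDiff ℝ ∞ (fun y => D.F (g i) y - ρ (g i) y) := fun i =>
          (D.F_smooth _).sub (ρ (g i)).contDiff
        choose C hC0 hCb using fun i => flat_bound_set (fun y => D.F (g i) y - ρ (g i) y) (hsm i)
          {0} (fun z hz k => by
            rw [Set.mem_singleton_iff] at hz
            subst hz
            exact hD (g i) k) j N 1
        refine ⟨(∑ i, C i) * (lam⁻¹) ^ N, fun x hx i _ => ?_⟩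
        have h1 : C i ≤ ∑ i, C i := Finset.single_le_sum (fun i _ => hC0 i) (Finset.mem_univ i)
        have h2 := hCb i x (hbl x hx) 0 rfl (mem_ball_self one_pos)
        rw [sub_zero] at h2
        have h3 : (lam⁻¹) ^ N * (lam * ‖x‖) ^ N = ‖x‖ ^ N := by
          rw [← mul_pow, ← mul_assoc, inv_mul_cancel₀ hl0.ne', one_mul]
        rw [mul_assoc, h3]
        exact h2.trans (mul_le_mul_of_nonneg_right h1 (by positivity))
      A_le := by
        intro x hx i hi
        simp only [Finset.mem_filter, Finset.mem_univ, true_and] at hi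
        have h1 := hg i _ hi
        have h2 : ‖ρ (g i) x‖ ≤ ‖x‖ * (lam / 2) := by
          conv_lhs => rw [← tnU_eq (hne x hx)]
          rw [map_smul, norm_smul, norm_norm]
          exact mul_le_mul_of_nonneg_left h1 (norm_nonneg _)
        have h3 := (hs' x (hrs x hx) i).2
        calc ‖D.F (g i) x‖ = ‖(D.F (g i) x - ρ (g i) x) + ρ (g i) x‖ := by
              rw [sub_add_cancel]
          _ ≤ ‖D.F (g i) x - ρ (g i) x‖ + ‖ρ (g i) x‖ := norm_add_le _ _
          _ ≤ lam / 2 * ‖x‖ + ‖x‖ * (lam / 2) := add_le_add h3 h2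
          _ = lam * ‖x‖ := by ring
      A_act := fun x hx i _ => (hs' x (hrs x hx) i).1 }
  exact ⟨T, inferInstanceAs (Finite (Fin k)), fun i => rfl, rfl, min_le_left _ _⟩

end
end LatLin
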