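import Pool.Agent.Lib.MP_2392aa_gt.C.TLoc
import Pool.Agent.Lib.MP_2392aa_gt.C.Jet

/-!
MP_2392aa_gt, core, module TOp (about 200 lines): the operator contracts, the defect is small, the
fixed point.

PROOFS.
`op_cls`: let `C, c` be the constants of `sum_bound` for `m`. For `u` in the class with `κ`, `N > m`, put
`G i := u ∘ A i`. Chain rule `norm_iteratedFDeriv_comp_le`: for `x ∈ ball 0 r \ Z`, `i ∈ act x`, `j ≤ m`:
`‖D^k u (A i x)‖ ≤ κ ‖A i x‖^(N-k) ≤ κ ϱ^(N-j)` for `k ≤ j` (`A_le`, `ϱ ≤ 1`, `N - j ≤ N - k`), and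
`‖D^k (A i) x‖ ≤ (C1 (‖x‖/ϱ)^c1)^k` for `1 ≤ k ≤ m`, because `A i = ρ (g i) + (A i - ρ (g i))`,
`g_bound`, `A_flat k 0`, and the second and higher derivatives of the linear map vanish (`C1 ≥ 1`
depends on `m` and `T` only). So `‖D^j (u ∘ A i) x‖ ≤ j! κ ϱ^(N-j) (C1 (‖x‖/ϱ)^c1)^j
≤ (m! C1^m κ) (‖x‖/ϱ)^(c1 m) ϱ^(N-j)`. `sum_bound` with `d = c1 * m` and `κ' = m! C1^m κ`: the class
with `C m! C1^m κ lam^(N-m-c-d) ≤ κ / 2` as soon as `N ≥ N0` (`lam < 1`, `tendsto_pow_atTop_nhds_zero`).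
`dfc_cls`: `G i := A i - ρ (g i)`: by `A_flat j N` the hypothesis of `sum_bound` holds with `d = 0`
(bound `C_j ϱ^N ≤ C_j ϱ^(N-j)`, `ϱ ≤ 1`) and `κ := ∑ j ≤ m, max 0 C_j`; for `N ≥ m + c + 2`. For smaller
`N`: not needed (statement only for `N ≥ N0`).
`exists_sol`: `v := ∑' l, op^[l] dfc`. For every `m` take `N ≥ N0(m)`, `N ≥ m`, `κ` from `dfc_cls`: by
induction `op^[l] dfc ∈ Cls r m N (κ / 2 ^ l)`, so `‖D^j (op^[l] dfc) x‖ ≤ κ / 2 ^ l` for `j ≤ m` (`≤ 1`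
on the ball; off the closed ball the map is zero; on the sphere by the bound with `‖x‖ = r ≤ 1`), and
`contDiff_tsum` gives `v ∈ C^m`. So `v` is smooth (`contDiff_infty`). `‖v x‖ ≤ 2 κ ‖x‖^N` for `N` large:
`Ord N v` for all `N` (for small `N` from large ones near `0`), `flat_of_ord`: `v` is flat at `0`.
`φ := fun x => x + v x`, `s := r / 4`. On `Z`: every `op^[l] dfc` vanishes. Fixed point: for
`x ∈ ball 0 (r/4) \ Z`, `bump x = 1`, `op` commutes with the sum (finite sums, continuous linear maps,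
`tsum_sum`/`ContinuousLinearMap.map_tsum`): `v x = dfc x + op v x`, and
`x + dfc x = ∑ w_i x • (ρ g_i)⁻¹ (A_i x)` because `∑ w_i x = 1`.
-/

open scoped ContDiff Topology
open Metric Filter

namespace LatLin

section
variable {E : Type*} [NormedAddCommGroup E] [InnerProductSpace ℝ E] [FiniteDimensional ℝ E]
  {Γ : Type*} [Group Γ] {M : Type*} [TopologicalSpace M] [MulAction Γ M]
  {ρ : Γ →* (E ≃L[ℝ] E)} {D : LocData (M := M) ρ}

private theorem cls_mono {r : ℝ} {m N : ℕ} {κ κ' : ℝ} {u : E → E} (h : Cls r m N κ u)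
    (hk : κ ≤ κ') : Cls r m N κ' u :=
  ⟨h.smooth, h.supp, fun j hj x => (h.bound j hj x).trans (by gcongr)⟩

private theorem ratio_ge (T : TData D) {x : E} (hx : x ∈ ball (0 : E) T.r \ T.Z) :
    1 ≤ ‖x‖ / T.ϱ x := by
  have h1 := T.ϱ_pos x hx
  have h2 := T.ϱ_le x hx
  rw [le_div_iff₀ h1, one_mul]
  calc T.ϱ x ≤ T.lam * ‖x‖ := h2
    _ ≤ 1 * ‖x‖ := by gcongr; exact T.lam_lt.le
    _ = ‖x‖ := one_mul _

private theorem rho_le (T : TData D) {x : E} (hx : x ∈ ball (0 : E) T.r \ T.Z) : T.ϱ x ≤ 1 := by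
  have h2 := T.ϱ_le x hx
  have h3 : ‖x‖ < T.r := by simpa using hx.1
  have h4 := T.r_le
  calc T.ϱ x ≤ T.lam * ‖x‖ := h2
    _ ≤ 1 * 1 := by
        gcongr
        · exact T.lam_lt.le
        · linarith
    _ = 1 := one_mul _

private theorem lin_deriv (L : E →L[ℝ] E) (k : ℕ) (hk : 1 ≤ k) (x : E) :
    ‖iteratedFDeriv ℝ k (fun y => L y) x‖ ≤ ‖L‖ := by
  obtain ⟨n, rfl⟩ : ∃ n, k = n + 1 := ⟨k - 1, by omega⟩
  rw [← norm_iteratedFDeriv_fderiv]
  have h1 : fderiv ℝ (fun y => L y) = fun _ => L := by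
    funext y
    exact L.fderiv
  rw [h1]
  rcases Nat.eq_zero_or_pos n with h0 | h0
  · subst h0
    rw [norm_iteratedFDeriv_zero]
  · rw [iteratedFDeriv_const_of_ne (by omega)]
    simp

private theorem A_deriv (T : TData D) (m : ℕ) : ∃ (C1 : ℝ) (c1 : ℕ), 1 ≤ C1 ∧
    ∀ x ∈ ball (0 : E) T.r \ T.Z, ∀ i ∈ T.act x, ∀ k, 1 ≤ k → k ≤ m →
      ‖iteratedFDeriv ℝ k (T.A i) x‖ ≤ (C1 * (‖x‖ / T.ϱ x) ^ c1) ^ k := by
  obtain ⟨Cg, cg, hg⟩ := T.g_bound
  choose Ck hCk using fun k => T.A_flat k 0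
  have hsum : 0 ≤ ∑ k ∈ Finset.range (m + 1), |Ck k| := Finset.sum_nonneg fun _ _ => abs_nonneg _
  have hCg : 0 ≤ |Cg| := abs_nonneg Cg
  refine ⟨1 + |Cg| + ∑ k ∈ Finset.range (m + 1), |Ck k|, cg, by linarith, ?_⟩
  intro x hx i hi k hk1 hkm
  have hR := ratio_ge T hx
  have hRc : 1 ≤ (‖x‖ / T.ϱ x) ^ cg := one_le_pow₀ hR
  have h1 : ‖iteratedFDeriv ℝ k (fun y => T.A i y - ρ (T.g i) y) x‖ ≤ |Ck k| := by
    have := hCk k x hx i hi
    rw [pow_zero, mul_one] at this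
    exact this.trans (le_abs_self _)
  have h1' : |Ck k| ≤ ∑ k ∈ Finset.range (m + 1), |Ck k| :=
    Finset.single_le_sum (f := fun k => |Ck k|) (fun _ _ => abs_nonneg _)
      (Finset.mem_range.2 (by omega))
  have h2 : ‖iteratedFDeriv ℝ k (fun y => ρ (T.g i) y) x‖ ≤ |Cg| * (‖x‖ / T.ϱ x) ^ cg := by
    refine (lin_deriv ((ρ (T.g i) : E ≃L[ℝ] E) : E →L[ℝ] E) k hk1 x).trans ?_
    refine (le_max_left _ _).trans ((hg x hx i hi).trans ?_)
    gcongr
    exact le_abs_self _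
  have hs1 : ContDiff ℝ k (fun y => T.A i y - ρ (T.g i) y) :=
    ((T.A_smooth i).of_le (by exact_mod_cast le_top)).sub
      ((ρ (T.g i) : E ≃L[ℝ] E).contDiff)
  have hs2 : ContDiff ℝ k (fun y => ρ (T.g i) y) := (ρ (T.g i) : E ≃L[ℝ] E).contDiff
  have h3 : T.A i = (fun y => T.A i y - ρ (T.g i) y) + (fun y => ρ (T.g i) y) := by
    funext y
    simp
  have h4 : iteratedFDeriv ℝ k (T.A i) x = iteratedFDeriv ℝ k (fun y => T.A i y - ρ (T.g i) y) x +
      iteratedFDeriv ℝ k (fun y => ρ (T.g i) y) x := by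
    rw [← iteratedFDeriv_add_apply hs1.contDiffAt hs2.contDiffAt, ← h3]
  rw [h4]
  have h5 : 1 ≤ (1 + |Cg| + ∑ k ∈ Finset.range (m + 1), |Ck k|) * (‖x‖ / T.ϱ x) ^ cg := by
    nlinarith
  calc ‖iteratedFDeriv ℝ k (fun y => T.A i y - ρ (T.g i) y) x +
        iteratedFDeriv ℝ k (fun y => ρ (T.g i) y) x‖
      ≤ |Ck k| + |Cg| * (‖x‖ / T.ϱ x) ^ cg := (norm_add_le _ _).trans (add_le_add h1 h2)
    _ ≤ (1 + |Cg| + ∑ k ∈ Finset.range (m + 1), |Ck k|) * (‖x‖ / T.ϱ x) ^ cg := by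
        nlinarith
    _ ≤ _ := by
        conv_lhs => rw [← pow_one ((1 + |Cg| + ∑ k ∈ Finset.range (m + 1), |Ck k|) *
          (‖x‖ / T.ϱ x) ^ cg)]
        exact pow_le_pow_right₀ h5 hk1

theorem TData.op_cls (T : TData D) (m : ℕ) : ∃ N0 : ℕ, ∀ N ≥ N0, ∀ κ ≥ (0 : ℝ), ∀ u : E → E,
    Cls T.r m N κ u → Cls T.r m N (κ / 2) (T.op u) := by
  obtain ⟨C, c, hC, hsum⟩ := T.sum_bound m
  obtain ⟨C1, c1, hC1, hA⟩ := A_deriv T m
  -- the exponent
  have htend := tendsto_pow_atTop_nhds_zero_of_lt_one T.lam_pos.le T.lam_lt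
  set Q : ℝ := C * ((m.factorial : ℝ) * C1 ^ m) with hQ
  have hQ0 : 0 ≤ Q := by positivity
  obtain ⟨n0, hn0⟩ : ∃ n0 : ℕ, ∀ n ≥ n0, Q * T.lam ^ n ≤ 1 / 2 := by
    have h1 : Tendsto (fun n : ℕ => Q * T.lam ^ n) atTop (𝓝 (Q * 0)) := htend.const_mul Q
    rw [mul_zero] at h1
    have h2 := h1.eventually (Iic_mem_nhds (show (0 : ℝ) < 1 / 2 by norm_num))
    obtain ⟨n0, hn0⟩ := eventually_atTop.1 h2
    exact ⟨n0, fun n hn => hn0 n hn⟩
  refine ⟨m + c + c1 * m + 2 + n0, fun N hN κ hκ u hu => ?_⟩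
  have hmain := hsum (c1 * m) N ((m.factorial : ℝ) * C1 ^ m * κ) (fun i => u ∘ T.A i) (by omega)
    (by positivity) (fun i => hu.smooth.comp ((T.A_smooth i).of_le (by exact_mod_cast le_top)))
    (fun x hx i hi j hj => by
      have hR := ratio_ge T hx
      have hϱ := T.ϱ_pos x hx
      have hϱ1 := rho_le T hx
      have hb := norm_iteratedFDeriv_comp_le (𝕜 := ℝ) (g := u) (f := T.A i) (n := j) (N := m)
        hu.smooth ((T.A_smooth i).of_le (by exact_mod_cast le_top)) (by exact_mod_cast hj) x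
        (C := κ * T.ϱ x ^ (N - j)) (D := C1 * (‖x‖ / T.ϱ x) ^ c1)
        (fun k hk => by
          refine (hu.bound k (hk.trans hj) _).trans ?_
          gcongr
          calc ‖T.A i x‖ ^ (N - k) ≤ T.ϱ x ^ (N - k) := by
                gcongr
                exact T.A_le x hx i hi
            _ ≤ T.ϱ x ^ (N - j) := pow_le_pow_of_le_one hϱ.le hϱ1 (by omega))
        (fun k hk1 hk => hA x hx i hi k hk1 (hk.trans hj))
      refine hb.trans ?_
      have hx1 : 1 ≤ C1 * (‖x‖ / T.ϱ x) ^ c1 := by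
        have := one_le_pow₀ hR (n := c1)
        nlinarith
      calc (j.factorial : ℝ) * (κ * T.ϱ x ^ (N - j)) * (C1 * (‖x‖ / T.ϱ x) ^ c1) ^ j
          ≤ (m.factorial : ℝ) * (κ * T.ϱ x ^ (N - j)) * (C1 * (‖x‖ / T.ϱ x) ^ c1) ^ m := by
            gcongr
        _ = (m.factorial : ℝ) * C1 ^ m * κ * (‖x‖ / T.ϱ x) ^ (c1 * m) * T.ϱ x ^ (N - j) := by
            rw [mul_pow, ← pow_mul]
            ring)
  refine cls_mono hmain ?_
  have hn := hn0 (N - m - c - c1 * m) (by omega)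
  calc C * ((m.factorial : ℝ) * C1 ^ m * κ) * T.lam ^ (N - m - c - c1 * m)
      = Q * T.lam ^ (N - m - c - c1 * m) * κ := by rw [hQ]; ring
    _ ≤ 1 / 2 * κ := by gcongr
    _ = κ / 2 := by ring

theorem TData.dfc_cls (T : TData D) (m : ℕ) : ∃ N0 : ℕ, ∀ N ≥ N0, ∃ κ ≥ (0 : ℝ),
    Cls T.r m N κ T.dfc := by
  obtain ⟨C, c, hC, hsum⟩ := T.sum_bound m
  refine ⟨m + c + 2, fun N hN => ?_⟩
  choose Cj hCj using fun j => T.A_flat j N
  have hs : 0 ≤ ∑ k ∈ Finset.range (m + 1), |Cj k| := Finset.sum_nonneg fun _ _ => abs_nonneg _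
  have hmain := hsum 0 N (∑ k ∈ Finset.range (m + 1), |Cj k|)
    (fun i y => T.A i y - ρ (T.g i) y) (by omega) hs
    (fun i => ((T.A_smooth i).of_le (by exact_mod_cast le_top)).sub
      ((ρ (T.g i) : E ≃L[ℝ] E).contDiff))
    (fun x hx i hi j hj => by
      have hϱ := T.ϱ_pos x hx
      have hϱ1 := rho_le T hx
      have h1 : |Cj j| ≤ ∑ k ∈ Finset.range (m + 1), |Cj k| :=
        Finset.single_le_sum (f := fun k => |Cj k|) (fun _ _ => abs_nonneg _)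
          (Finset.mem_range.2 (by omega))
      calc ‖iteratedFDeriv ℝ j (fun y => T.A i y - ρ (T.g i) y) x‖
          ≤ Cj j * T.ϱ x ^ N := hCj j x hx i hi
        _ ≤ |Cj j| * T.ϱ x ^ (N - j) :=
            mul_le_mul (le_abs_self _) (pow_le_pow_of_le_one hϱ.le hϱ1 (by omega))
              (pow_nonneg hϱ.le _) (abs_nonneg _)
        _ ≤ (∑ k ∈ Finset.range (m + 1), |Cj k|) * T.ϱ x ^ (N - j) := by gcongr
        _ = _ := by rw [pow_zero, mul_one])
  exact ⟨_, by have := T.lam_pos; positivity, hmain⟩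

private theorem cls_iter (T : TData D) (m : ℕ) : ∃ N1 : ℕ, ∀ N ≥ N1, ∃ κ ≥ (0 : ℝ), ∀ l : ℕ,
    Cls T.r m N (κ / 2 ^ l) (T.op^[l] T.dfc) := by
  obtain ⟨N0, h0⟩ := T.op_cls m
  obtain ⟨N0', h0'⟩ := T.dfc_cls m
  refine ⟨max N0 N0', fun N hN => ?_⟩
  obtain ⟨κ, hκ, hd⟩ := h0' N ((le_max_right _ _).trans hN)
  refine ⟨κ, hκ, fun l => ?_⟩
  induction l with
  | zero => simpa using hd
  | succ l ih =>
    rw [Function.iterate_succ_apply']
    have := h0 N ((le_max_left _ _).trans hN) (κ / 2 ^ l) (by positivity) _ ih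
    rw [pow_succ, ← div_div]
    exact this

private theorem geo_sum (κ : ℝ) : Summable fun l : ℕ => κ / 2 ^ l := by
  have h : Summable fun l : ℕ => κ * (1 / 2 : ℝ) ^ l := (summable_geometric_two).mul_left κ
  refine h.congr fun l => ?_
  rw [one_div, inv_pow, div_eq_mul_inv]

private theorem geo_tsum (κ : ℝ) : ∑' l : ℕ, κ / 2 ^ l = 2 * κ := by
  have h : ∀ l : ℕ, κ / 2 ^ l = κ * (1 / 2 : ℝ) ^ l := fun l => by
    rw [one_div, inv_pow, div_eq_mul_inv]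
  simp_rw [h]
  rw [tsum_mul_left, tsum_geometric_two]
  ring

private theorem vanish_out {r : ℝ} (hr : r ≤ 1) {f : E → E}
    (hf : ∀ x, x ∉ ball (0 : E) r → f x = 0) (j : ℕ) {x : E} (hx : 1 < ‖x‖) :
    iteratedFDeriv ℝ j f x = 0 := by
  have h1 : f =ᶠ[𝓝 x] fun _ => (0 : E) := by
    have h2 : (closedBall (0 : E) 1)ᶜ ∈ 𝓝 x := by
      apply (isClosed_closedBall.isOpen_compl).mem_nhds
      simpa using hx
    filter_upwards [h2] with z hz
    apply hf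
    simp only [Set.mem_compl_iff, mem_closedBall, dist_zero_right, not_le] at hz
    simp only [mem_ball, dist_zero_right, not_lt]
    linarith
  rw [(h1.iteratedFDeriv ℝ j).eq_of_nhds]
  simp

theorem TData.exists_sol (T : TData D) : ∃ (s : ℝ) (φ : E → E), T.IsSol s φ := by
  classical
  -- the terms
  set f : ℕ → E → E := fun l => T.op^[l] T.dfc with hf
  have hsmooth : ∀ l, ContDiff ℝ ∞ (f l) := fun l => by
    rw [contDiff_infty]
    intro m
    obtain ⟨N1, h1⟩ := cls_iter T m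
    obtain ⟨κ, -, h2⟩ := h1 N1 le_rfl
    exact (h2 l).smooth
  have hbd : ∀ k : ℕ, ∃ κ : ℝ, ∀ l x, ‖iteratedFDeriv ℝ k (f l) x‖ ≤ κ / 2 ^ l := by
    intro k
    obtain ⟨N1, h1⟩ := cls_iter T k
    obtain ⟨κ, hκ, h2⟩ := h1 N1 le_rfl
    refine ⟨κ, fun l x => ?_⟩
    rcases lt_or_ge 1 ‖x‖ with hx | hx
    · rw [vanish_out T.r_le (h2 l).supp k hx, norm_zero]
      positivity
    · refine ((h2 l).bound k le_rfl x).trans ?_
      have : ‖x‖ ^ (N1 - k) ≤ 1 := pow_le_one₀ (norm_nonneg _) hx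
      calc κ / 2 ^ l * ‖x‖ ^ (N1 - k) ≤ κ / 2 ^ l * 1 := by gcongr
        _ = κ / 2 ^ l := mul_one _
  choose κ hκ using hbd
  set v : E → E := fun x => ∑' l, f l x with hv
  have hvs : ContDiff ℝ ∞ v := by
    have := contDiff_tsum (𝕜 := ℝ) (N := (⊤ : ℕ∞)) (f := f) (v := fun k l => κ k / 2 ^ l) hsmooth
      (fun k _ => geo_sum (κ k)) (fun k l x _ => hκ k l x)
    exact this
  have hsumm : ∀ x, Summable fun l => f l x := fun x => by
    refine Summable.of_norm_bounded (g := fun l : ℕ => κ 0 / 2 ^ l) (geo_sum (κ 0)) fun l => ?_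
    have := hκ 0 l x
    rwa [norm_iteratedFDeriv_zero] at this
  have hord : ∀ N : ℕ, Ord N v := by
    intro N
    obtain ⟨N1, h1⟩ := cls_iter T 0
    obtain ⟨κ', hκ', h2⟩ := h1 (max N N1) (le_max_right _ _)
    refine ⟨2 * κ', ?_⟩
    filter_upwards [closedBall_mem_nhds (0 : E) (show (0 : ℝ) < 1 by norm_num)] with x hx
    have hx1 : ‖x‖ ≤ 1 := by simpa using hx
    have h3 : ∀ l, ‖f l x‖ ≤ κ' * ‖x‖ ^ N / 2 ^ l := fun l => by
      have := (h2 l).bound 0 le_rfl x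
      rw [norm_iteratedFDeriv_zero] at this
      refine this.trans ?_
      have h4 : ‖x‖ ^ (max N N1 - 0) ≤ ‖x‖ ^ N :=
        pow_le_pow_of_le_one (norm_nonneg _) hx1 (by omega)
      calc κ' / 2 ^ l * ‖x‖ ^ (max N N1 - 0) ≤ κ' / 2 ^ l * ‖x‖ ^ N := by gcongr
        _ = κ' * ‖x‖ ^ N / 2 ^ l := by ring
    have h5 := tsum_of_norm_bounded (geo_sum (κ' * ‖x‖ ^ N)).hasSum h3
    rw [geo_tsum] at h5
    calc ‖v x‖ ≤ 2 * (κ' * ‖x‖ ^ N) := h5
      _ = 2 * κ' * ‖x‖ ^ N := by ring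
  have hflat : FlatAt v 0 := flat_of_ord hvs hord
  have hZ : ∀ l, ∀ x ∈ T.Z, f l x = 0 := by
    intro l x hx
    have hx' : x ∉ ball (0 : E) T.r \ T.Z := fun h => h.2 hx
    rcases l with _ | l
    · show T.dfc x = 0
      rw [TData.dfc, if_neg hx']
    · show (T.op^[l + 1] T.dfc) x = 0
      rw [Function.iterate_succ_apply', TData.op, if_neg hx']
  refine ⟨T.r / 4, fun x => x + v x, ?_⟩
  have hr := T.r_pos
  refine ⟨by linarith, by linarith, contDiff_id.add hvs, ?_, ?_, ?_⟩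
  · have : (fun x : E => (x + v x) - x) = v := by funext x; simp
    rw [this]
    exact hflat
  · intro x hx
    have : v x = 0 := by
      show ∑' l, f l x = 0
      simp only [hZ _ x hx, tsum_zero]
    show x + v x = x
    rw [this, add_zero]
  · intro x hx
    have hxr : x ∈ ball (0 : E) T.r \ T.Z :=
      ⟨ball_subset_ball (by linarith) hx.1, hx.2⟩
    have hb1 : T.bump x = 1 := by
      apply ContDiffBump.one_of_mem_closedBall
      have : ‖x‖ < T.r / 4 := by simpa using hx.1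
      show x ∈ closedBall (0 : E) (T.r / 4)
      simpa using this.le
    have hvx : v x = T.dfc x + ∑ i ∈ T.act x, T.w i x • (ρ (T.g i))⁻¹ (v (T.A i x)) := by
      have h1 : v x = f 0 x + ∑' l, f (l + 1) x := (hsumm x).tsum_eq_zero_add
      have h2 : ∀ l, f (l + 1) x = ∑ i ∈ T.act x, T.w i x • (ρ (T.g i))⁻¹ (f l (T.A i x)) := by
        intro l
        show (T.op^[l + 1] T.dfc) x = _
        rw [Function.iterate_succ_apply', TData.op, if_pos hxr, hb1, one_smul]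
      have h3 : ∀ i ∈ T.act x, Summable fun l => T.w i x • (ρ (T.g i))⁻¹ (f l (T.A i x)) := by
        intro i _
        exact (((ρ (T.g i))⁻¹ : E ≃L[ℝ] E).summable.2 (hsumm (T.A i x))).const_smul _
      rw [h1]
      simp only [h2]
      rw [Summable.tsum_finsetSum h3]
      congr 1
      refine Finset.sum_congr rfl fun i hi => ?_
      have h4 : Summable fun l => (ρ (T.g i))⁻¹ (f l (T.A i x)) :=
        ((ρ (T.g i))⁻¹ : E ≃L[ℝ] E).summable.2 (hsumm (T.A i x))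
      rw [h4.tsum_const_smul]
      congr 1
      exact (((ρ (T.g i))⁻¹ : E ≃L[ℝ] E).map_tsum).symm
    have hdx : T.dfc x = ∑ i ∈ T.act x, T.w i x • (ρ (T.g i))⁻¹ (T.A i x) - x := by
      rw [TData.dfc, if_pos hxr, hb1, one_smul]
      have h1 : ∀ i ∈ T.act x, T.w i x • (ρ (T.g i))⁻¹ (T.A i x - ρ (T.g i) x) =
          T.w i x • (ρ (T.g i))⁻¹ (T.A i x) - T.w i x • x := by
        intro i _
        have h2 : (ρ (T.g i))⁻¹ (ρ (T.g i) x) = x := by
          have h3 : ((ρ (T.g i))⁻¹ * ρ (T.g i)) x = x := by rw [inv_mul_cancel]; rfl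
          exact h3
        rw [map_sub, h2, smul_sub]
      rw [Finset.sum_congr rfl h1, Finset.sum_sub_distrib, ← Finset.sum_smul, T.w_sum x hxr,
        one_smul]
    show x + v x = ∑ i ∈ T.act x, T.w i x • (ρ (T.g i))⁻¹ (T.A i x + v (T.A i x))
    rw [hvx, hdx]
    simp only [map_add, smul_add, Finset.sum_add_distrib]
    abel

end
end LatLin
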