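import Pool.Agent.Lib.MP_2392aa_gt.C.Jet
import Pool.Agent.Lib.MP_2392aa_gt.C.Grp

/-!
MP_2392aa_gt, core, module Uniq (about 200 lines): uniqueness of the linearization, and extension
from a normal subgroup.

PROOFS.
`jets_zero`: by induction on `k ≥ 2`, `Ord k w` (start: `w 0 = 0`, derivative zero, `w` smooth:
`Ord 2 w`, mean value inequality with the second derivative, or `ord` of a smooth map). Step: leading
part `p` (`ord_lead`); `w (F γ x) - ρ γ (w x) = 0` near `0` gives that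
`p (ρ γ x) - ρ γ (p x)` is `Ord (k+1)`, where `p (F γ x) - p (ρ γ x)` is `Ord (k+1)` because `p` is
homogeneous of degree `k ≥ 1` and smooth and `F γ - ρ γ` is `Ord 2` (mean value inequality,
`‖fderiv ℝ p y‖ ≤ C ‖y‖ ^ (k - 1)`). So it is `0` (`homMap_eq_zero`), hence `p = 0` by `NoInv`.
`uniq_of_TData`: let `C0, c` be the constants of `T.g_bound` (`C0 ≥ 1`), and `N > c` with
`C0 * lam ^ (N - c) ≤ 1 / 2`. By `jets_zero` there are `s' ∈ (0, min s T.r]` and `κ ≥ 0` with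
`‖w x‖ ≤ κ ‖x‖ ^ N` on `ball 0 s'`. Claim: then the same with `κ / 2`. For `x ∉ Z` pick
`i ∈ act x` (nonempty by `w_sum`): `w x = (ρ (g i))⁻¹ (w (A i x))`, so
`‖w x‖ ≤ C0 (‖x‖ / ϱ) ^ c * κ ϱ ^ N = C0 κ ‖x‖ ^ c ϱ ^ (N - c) ≤ C0 lam ^ (N - c) κ ‖x‖ ^ N`
(`‖A i x‖ ≤ ϱ x ≤ lam ‖x‖ < s'`). For `x ∈ Z` use continuity and `interior Z = ∅`
(`interior_eq_empty_iff_dense_compl`). Iterate: `‖w x‖ ≤ κ / 2 ^ l ‖x‖ ^ N` for all `l`.
`uniq_of_contr`: by `jets_zero`, `Ord k w` for all `k`. By compactness of the unit sphere, `Contr ρ`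
with `t = 1 / 4` and continuity there is a finite set `G ⊂ Γ` such that every `x` has a `γ ∈ G` with
`‖ρ γ x‖ ≤ ‖x‖ / 2` (cover the sphere by the open sets `{y | ‖ρ γ y‖ < 1 / 2}`; homogeneity). Let
`b` bound `‖(ρ γ)⁻¹‖` for `γ ∈ G`, and let `N` be so large that `b * (3 / 4) ^ N ≤ 1 / 2`. Choose
`s > 0` such that for `‖x‖ < s` and all `γ ∈ G`: `w (F γ x) = ρ γ (w x)` and
`‖F γ x - ρ γ x‖ ≤ ‖x‖ / 4` (derivative at `0`), and `‖w x‖ ≤ κ ‖x‖ ^ N`. Then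
`‖w x‖ ≤ b ‖w (F γ x)‖ ≤ b κ (3 / 4 ‖x‖) ^ N ≤ κ / 2 ‖x‖ ^ N`. Iterate.
`lin_of_normal`: `φ` from `D1.Lin`; for `γ : Γ` let `w x := (ρ γ)⁻¹ (φ (D.F γ x)) - φ x`: smooth,
`w 0 = 0`, derivative `(ρ γ)⁻¹ ∘ id ∘ ρ γ - id = 0`. For `g ∈ H`, with `g' := γ g γ⁻¹ ∈ H`, near `0`:
`F γ (F g x) = F (γ g) x = F (g' γ) x = F g' (F γ x)` (`F_mul` twice), so
`w (F g x) = (ρ γ)⁻¹ (ρ g' (φ (F γ x))) - ρ g (φ x) = ρ g (w x)`. `huniq` gives `w = 0` near `0`.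
-/

open scoped ContDiff Topology
open Metric Filter

namespace LatLin

section
variable {E : Type*} [NormedAddCommGroup E] [InnerProductSpace ℝ E] [FiniteDimensional ℝ E]
  {Γ : Type*} [Group Γ] {M : Type*} [TopologicalSpace M] [MulAction Γ M]
  {ρ : Γ →* (E ≃L[ℝ] E)}

private theorem ord2_of_smooth {f : E → E} (hf : ContDiff ℝ ∞ f) (h0 : f 0 = 0)
    (hd : HasFDerivAt f (0 : E →L[ℝ] E) 0) : Ord 2 f := by
  have h1 : fderiv ℝ f 0 = 0 := hd.fderiv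
  have h2 : ContDiff ℝ ∞ (fderiv ℝ f) := (contDiff_infty_iff_fderiv.1 hf).2
  have h3 : (fun x => fderiv ℝ f x - fderiv ℝ f 0) =O[𝓝 (0 : E)] fun x => x - 0 :=
    ((h2.differentiable (by simp)) 0).isBigO_sub
  obtain ⟨C, hC⟩ := h3.bound
  simp only [h1, sub_zero] at hC
  obtain ⟨s, hs, hsC⟩ := Metric.eventually_nhds_iff_ball.1 hC
  refine ⟨C, ?_⟩
  filter_upwards [ball_mem_nhds (0 : E) hs] with x hx
  have hxs : ‖x‖ < s := by simpa using hx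
  have hb : ∀ y ∈ closedBall (0 : E) ‖x‖, ‖fderiv ℝ f y‖ ≤ |C| * ‖x‖ := by
    intro y hy
    have hy' : ‖y‖ ≤ ‖x‖ := by simpa using hy
    refine (hsC y (by simpa using hy'.trans_lt hxs)).trans ?_
    calc C * ‖y‖ ≤ |C| * ‖y‖ := by gcongr; exact le_abs_self _
      _ ≤ |C| * ‖x‖ := by gcongr
  have h4 := (convex_closedBall (0 : E) ‖x‖).norm_image_sub_le_of_norm_fderiv_le (𝕜 := ℝ)
    (fun y _ => (hf.differentiable (by simp)) y) hb
    (mem_closedBall_self (norm_nonneg x)) (show x ∈ closedBall (0 : E) ‖x‖ by simp)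
  have hC0 : 0 ≤ C ∨ x = 0 := by
    rcases eq_or_ne x 0 with h | h
    · exact Or.inr h
    · left
      have := (norm_nonneg _).trans (hsC x hx)
      exact nonneg_of_mul_nonneg_left this (norm_pos_iff.2 h)
  rcases hC0 with hC0 | hx0
  · rw [h0, sub_zero, sub_zero, abs_of_nonneg hC0] at h4
    calc ‖f x‖ ≤ C * ‖x‖ * ‖x‖ := h4
      _ = C * ‖x‖ ^ 2 := by ring
  · subst hx0
    rw [h0]
    simp

private theorem ord_of_le {k l : ℕ} (hkl : k ≤ l) {f : E → E} (h : Ord l f) : Ord k f := by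
  obtain ⟨C, hC⟩ := h
  refine ⟨|C|, ?_⟩
  filter_upwards [hC, closedBall_mem_nhds (0 : E) (show (0 : ℝ) < 1 by norm_num)] with x hx hx1
  have hx1' : ‖x‖ ≤ 1 := by simpa using hx1
  calc ‖f x‖ ≤ C * ‖x‖ ^ l := hx
    _ ≤ |C| * ‖x‖ ^ k :=
      mul_le_mul (le_abs_self _) (pow_le_pow_of_le_one (norm_nonneg _) hx1' hkl)
        (pow_nonneg (norm_nonneg _) _) (abs_nonneg _)

private theorem hom_lip {k : ℕ} {p : E → E} (hp : HomMap (k + 1) p) (R : ℝ) :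
    ∃ L : ℝ, 0 ≤ L ∧ ∀ a b : E, ∀ t : ℝ, 0 ≤ t → ‖a‖ ≤ R * t → ‖b‖ ≤ R * t →
      ‖p a - p b‖ ≤ L * t ^ k * ‖a - b‖ := by
  have hc : ContinuousOn (fun y => ‖fderiv ℝ p y‖) (closedBall (0 : E) R) :=
    ((hp.1.continuous_fderiv (by simp)).norm).continuousOn
  obtain ⟨L, hL⟩ := (isCompact_closedBall (0 : E) R).bddAbove_image hc
  refine ⟨max L 0, le_max_right _ _, fun a b t ht ha hb => ?_⟩
  have hb' : ∀ y ∈ closedBall (0 : E) R, ‖fderiv ℝ p y‖ ≤ max L 0 := fun y hy =>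
    (hL ⟨y, hy, rfl⟩).trans (le_max_left _ _)
  rcases ht.eq_or_lt with h0 | h0
  · subst h0
    rw [mul_zero] at ha hb
    have ha0 : a = 0 := norm_le_zero_iff.1 ha
    have hb0 : b = 0 := norm_le_zero_iff.1 hb
    rw [ha0, hb0]
    simp
  · have e1 : a = t • (t⁻¹ • a) := by rw [smul_smul, mul_inv_cancel₀ h0.ne', one_smul]
    have e2 : b = t • (t⁻¹ • b) := by rw [smul_smul, mul_inv_cancel₀ h0.ne', one_smul]
    have ha' : t⁻¹ • a ∈ closedBall (0 : E) R := by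
      rw [mem_closedBall, dist_zero_right, norm_smul, norm_inv, Real.norm_of_nonneg ht,
        inv_mul_le_iff₀ h0, mul_comm]
      exact ha
    have hb'' : t⁻¹ • b ∈ closedBall (0 : E) R := by
      rw [mem_closedBall, dist_zero_right, norm_smul, norm_inv, Real.norm_of_nonneg ht,
        inv_mul_le_iff₀ h0, mul_comm]
      exact hb
    have h4 := (convex_closedBall (0 : E) R).norm_image_sub_le_of_norm_fderiv_le (𝕜 := ℝ)
      (fun y _ => (hp.1.differentiable (by simp)) y) hb' hb'' ha'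
    have h5 : p a - p b = t ^ (k + 1) • (p (t⁻¹ • a) - p (t⁻¹ • b)) := by
      rw [smul_sub, ← hp.2, ← hp.2, ← e1, ← e2]
    rw [h5, norm_smul, norm_pow, Real.norm_of_nonneg ht]
    have h6 : ‖t⁻¹ • a - t⁻¹ • b‖ = t⁻¹ * ‖a - b‖ := by
      rw [← smul_sub, norm_smul, norm_inv, Real.norm_of_nonneg ht]
    rw [h6] at h4
    calc t ^ (k + 1) * ‖p (t⁻¹ • a) - p (t⁻¹ • b)‖
        ≤ t ^ (k + 1) * (max L 0 * (t⁻¹ * ‖a - b‖)) := by gcongr
      _ = max L 0 * t ^ k * ‖a - b‖ := by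
        rw [pow_succ]
        field_simp

private theorem F_bound (D : LocData (M := M) ρ) (γ : Γ) : ∃ C : ℝ, 0 ≤ C ∧
    ∀ᶠ x in 𝓝 (0 : E), ‖D.F γ x‖ ≤ C * ‖x‖ := by
  have h1 := (D.F_deriv γ).isBigO_sub
  obtain ⟨C, hC0, hC⟩ := h1.exists_nonneg
  refine ⟨C, hC0, ?_⟩
  filter_upwards [hC.bound] with x hx
  simpa [D.F_zero γ] using hx

private theorem F_ord2 (D : LocData (M := M) ρ) (γ : Γ) : Ord 2 (fun x => D.F γ x - ρ γ x) := by
  apply ord2_of_smooth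
  · exact (D.F_smooth γ).sub ((ρ γ : E ≃L[ℝ] E).contDiff)
  · rw [D.F_zero γ, map_zero, sub_zero]
  · have h := (D.F_deriv γ).sub ((ρ γ : E ≃L[ℝ] E).hasFDerivAt (x := (0 : E)))
    rw [sub_self] at h
    exact h

theorem jets_zero (D : LocData (M := M) ρ) (hN : NoInv ρ) (w : E → E) (hw : ContDiff ℝ ∞ w)
    (h0 : w 0 = 0) (hd : HasFDerivAt w (0 : E →L[ℝ] E) 0)
    (heq : ∀ γ, ∀ᶠ x in 𝓝 (0 : E), w (D.F γ x) = ρ γ (w x)) (k : ℕ) : Ord k w := by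
  have hbase : Ord 2 w := ord2_of_smooth hw h0 hd
  have hstep : ∀ n : ℕ, Ord (n + 2) w := by
    intro n
    induction n with
    | zero => exact hbase
    | succ n ih =>
      obtain ⟨p, hp, hpo⟩ := ord_lead hw ih
      have hpz : ∀ x, p x = 0 := by
        refine hN (n + 2) (by omega) p hp fun γ x => ?_
        -- the map `q` has order `n + 3`
        set q : E → E := fun x => p (ρ γ x) - ρ γ (p x) with hq
        have hqh : HomMap (n + 2) q := by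
          refine ⟨(hp.1.comp (ρ γ : E ≃L[ℝ] E).contDiff).sub
            ((ρ γ : E ≃L[ℝ] E).contDiff.comp hp.1), fun t x => ?_⟩
          simp only [hq, map_smul, hp.2, smul_sub]
        have hqo : Ord (n + 2 + 1) q := by
          obtain ⟨CF, hCF0, hCF⟩ := F_bound D γ
          obtain ⟨C2, hC2⟩ := F_ord2 D γ
          obtain ⟨C1, hC1⟩ := hpo
          set R : ℝ := max CF ‖(ρ γ : E →L[ℝ] E)‖ with hR
          obtain ⟨L, hL0, hL⟩ := hom_lip (k := n + 1) hp R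
          refine ⟨L * |C2| + |C1| * CF ^ (n + 2 + 1) +
            ‖(ρ γ : E →L[ℝ] E)‖ * |C1|, ?_⟩
          have hten : Tendsto (D.F γ) (𝓝 0) (𝓝 0) := D.F_tendsto γ
          filter_upwards [hCF, hC2, hC1, hten.eventually hC1, heq γ] with x x1 x2 x3 x4 x5
          have e1 : q x = (p (ρ γ x) - p (D.F γ x)) - (w (D.F γ x) - p (D.F γ x)) +
              ρ γ (w x - p x) := by
            simp only [hq, map_sub]
            rw [x5]
            abel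
          have b1 : ‖p (ρ γ x) - p (D.F γ x)‖ ≤ L * |C2| * ‖x‖ ^ (n + 2 + 1) := by
            have h1 := hL (ρ γ x) (D.F γ x) ‖x‖ (norm_nonneg _)
              (((ρ γ : E →L[ℝ] E).le_opNorm x).trans (by gcongr; exact le_max_right _ _))
              (x1.trans (by gcongr; exact le_max_left _ _))
            have h2 : ‖ρ γ x - D.F γ x‖ ≤ |C2| * ‖x‖ ^ 2 := by
              rw [norm_sub_rev]
              exact x2.trans (by gcongr; exact le_abs_self _)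
            calc ‖p (ρ γ x) - p (D.F γ x)‖ ≤ L * ‖x‖ ^ (n + 1) * ‖ρ γ x - D.F γ x‖ := h1
              _ ≤ L * ‖x‖ ^ (n + 1) * (|C2| * ‖x‖ ^ 2) := by gcongr
              _ = L * |C2| * ‖x‖ ^ (n + 2 + 1) := by ring
          have b2 : ‖w (D.F γ x) - p (D.F γ x)‖ ≤ |C1| * CF ^ (n + 2 + 1) * ‖x‖ ^ (n + 2 + 1) := by
            calc ‖w (D.F γ x) - p (D.F γ x)‖ ≤ C1 * ‖D.F γ x‖ ^ (n + 2 + 1) := x4
              _ ≤ |C1| * (CF * ‖x‖) ^ (n + 2 + 1) := by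
                gcongr
                exact le_abs_self _
              _ = |C1| * CF ^ (n + 2 + 1) * ‖x‖ ^ (n + 2 + 1) := by rw [mul_pow]; ring
          have b3 : ‖ρ γ (w x - p x)‖ ≤ ‖(ρ γ : E →L[ℝ] E)‖ * |C1| * ‖x‖ ^ (n + 2 + 1) := by
            calc ‖ρ γ (w x - p x)‖ ≤ ‖(ρ γ : E →L[ℝ] E)‖ * ‖w x - p x‖ :=
                  (ρ γ : E →L[ℝ] E).le_opNorm _
              _ ≤ ‖(ρ γ : E →L[ℝ] E)‖ * (|C1| * ‖x‖ ^ (n + 2 + 1)) := by
                gcongr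
                exact x3.trans (by gcongr; exact le_abs_self _)
              _ = _ := by ring
          rw [e1]
          refine (norm_add_le _ _).trans ?_
          refine (add_le_add (norm_sub_le _ _) le_rfl).trans ?_
          rw [add_mul, add_mul]
          exact add_le_add (add_le_add b1 b2) b3
        have := homMap_eq_zero hqh hqo x
        exact sub_eq_zero.1 this
      obtain ⟨C1, hC1⟩ := hpo
      refine ⟨C1, ?_⟩
      filter_upwards [hC1] with x hx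
      rw [hpz x, sub_zero] at hx
      exact hx
  exact ord_of_le (Nat.le_add_right k 2) (hstep k)

/-- iterating the bound -/
private theorem zero_of_iter {w : E → E} {N : ℕ} {s κ : ℝ}
    (h : ∀ x ∈ ball (0 : E) s, ‖w x‖ ≤ κ * ‖x‖ ^ N)
    (hstep : ∀ κ' : ℝ, (∀ x ∈ ball (0 : E) s, ‖w x‖ ≤ κ' * ‖x‖ ^ N) → 0 ≤ κ' →
      ∀ x ∈ ball (0 : E) s, ‖w x‖ ≤ κ' / 2 * ‖x‖ ^ N) (hκ : 0 ≤ κ) :
    ∀ x ∈ ball (0 : E) s, w x = 0 := by
  have h1 : ∀ l : ℕ, ∀ x ∈ ball (0 : E) s, ‖w x‖ ≤ κ / 2 ^ l * ‖x‖ ^ N := by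
    intro l
    induction l with
    | zero => simpa using h
    | succ l ih =>
      intro x hx
      have := hstep (κ / 2 ^ l) ih (by positivity) x hx
      rw [pow_succ, ← div_div]
      exact this
  intro x hx
  have h2 : Tendsto (fun l : ℕ => κ / 2 ^ l * ‖x‖ ^ N) atTop (𝓝 0) := by
    have h3 : Tendsto (fun l : ℕ => κ * (1 / 2 : ℝ) ^ l * ‖x‖ ^ N) atTop (𝓝 (κ * 0 * ‖x‖ ^ N)) :=
      ((tendsto_pow_atTop_nhds_zero_of_lt_one (by norm_num) (by norm_num)).const_mul κ).mul_const _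
    rw [mul_zero, zero_mul] at h3
    refine h3.congr fun l => ?_
    rw [one_div, inv_pow, div_eq_mul_inv]
  have h3 : ‖w x‖ ≤ 0 := ge_of_tendsto' h2 fun l => h1 l x hx
  exact norm_le_zero_iff.1 h3

private theorem exists_ball_bound {w : E → E} {N : ℕ} (h : Ord N w) :
    ∃ s κ : ℝ, 0 < s ∧ 0 ≤ κ ∧ ∀ x ∈ ball (0 : E) s, ‖w x‖ ≤ κ * ‖x‖ ^ N := by
  obtain ⟨C, hC⟩ := h
  obtain ⟨s, hs, hsC⟩ := Metric.eventually_nhds_iff_ball.1 hC
  exact ⟨s, |C|, hs, abs_nonneg _, fun x hx =>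
    (hsC x hx).trans (by gcongr; exact le_abs_self _)⟩

theorem uniq_of_TData {D : LocData (M := M) ρ} (T : TData D) (hN : NoInv ρ) (w : E → E)
    (hw : ContDiff ℝ ∞ w) (h0 : w 0 = 0) (hd : HasFDerivAt w (0 : E →L[ℝ] E) 0)
    (heq : ∀ γ, ∀ᶠ x in 𝓝 (0 : E), w (D.F γ x) = ρ γ (w x)) (s : ℝ) (hs : 0 < s)
    (hb : ∀ x ∈ ball (0 : E) s \ T.Z, ∀ i ∈ T.act x, w (T.A i x) = ρ (T.g i) (w x)) :
    ∀ᶠ x in 𝓝 (0 : E), w x = 0 := by
  obtain ⟨Cg, c, hg⟩ := T.g_bound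
  have htend := tendsto_pow_atTop_nhds_zero_of_lt_one T.lam_pos.le T.lam_lt
  obtain ⟨n0, hn0⟩ : ∃ n0 : ℕ, |Cg| * T.lam ^ n0 ≤ 1 / 2 := by
    have h1 : Tendsto (fun n : ℕ => |Cg| * T.lam ^ n) atTop (𝓝 (|Cg| * 0)) :=
      htend.const_mul |Cg|
    rw [mul_zero] at h1
    have h2 := h1.eventually (Iic_mem_nhds (show (0 : ℝ) < 1 / 2 by norm_num))
    obtain ⟨n0, hn0⟩ := h2.exists
    exact ⟨n0, hn0⟩
  obtain ⟨s1, κ, hs1, hκ, hκb⟩ := exists_ball_bound (jets_zero D hN w hw h0 hd heq (c + n0))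
  set s' := min s1 (min s T.r) with hs'
  have hs'0 : 0 < s' := lt_min hs1 (lt_min hs T.r_pos)
  have hmain : ∀ x ∈ ball (0 : E) s', w x = 0 := by
    refine zero_of_iter (N := c + n0) (κ := κ)
      (fun x hx => hκb x (ball_subset_ball (min_le_left _ _) hx)) ?_ hκ
    intro κ' h1 hκ' 
    -- off `Z`
    have hoff : ∀ x ∈ ball (0 : E) s' \ T.Z, ‖w x‖ ≤ κ' / 2 * ‖x‖ ^ (c + n0) := by
      intro x hx
      have hxs : x ∈ ball (0 : E) s \ T.Z :=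
        ⟨ball_subset_ball ((min_le_right _ _).trans (min_le_left _ _)) hx.1, hx.2⟩
      have hxr : x ∈ ball (0 : E) T.r \ T.Z :=
        ⟨ball_subset_ball ((min_le_right _ _).trans (min_le_right _ _)) hx.1, hx.2⟩
      obtain ⟨i, hi⟩ : (T.act x).Nonempty := by
        rw [Finset.nonempty_iff_ne_empty]
        intro he
        have := T.w_sum x hxr
        rw [he, Finset.sum_empty] at this
        exact zero_ne_one this
      have hϱ := T.ϱ_pos x hxr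
      have hϱ2 := T.ϱ_le x hxr
      have hx0 : 0 < ‖x‖ := by
        rcases (norm_nonneg x).eq_or_lt with h | h
        · rw [← h, mul_zero] at hϱ2
          linarith
        · exact h
      have hAx : ‖T.A i x‖ < s' := by
        have h2 : ‖x‖ < s' := by simpa using hx.1
        calc ‖T.A i x‖ ≤ T.ϱ x := T.A_le x hxr i hi
          _ ≤ T.lam * ‖x‖ := hϱ2
          _ ≤ 1 * ‖x‖ := by gcongr; exact T.lam_lt.le
          _ < s' := by rw [one_mul]; exact h2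
      have hw1 : ‖w (T.A i x)‖ ≤ κ' * T.ϱ x ^ (c + n0) := by
        refine (h1 _ (by simpa using hAx)).trans ?_
        gcongr
        exact T.A_le x hxr i hi
      have hw2 : w x = ((ρ (T.g i))⁻¹ : E ≃L[ℝ] E) (w (T.A i x)) := by
        rw [hb x hxs i hi]
        have h3 : ((ρ (T.g i))⁻¹ * ρ (T.g i)) (w x) = w x := by rw [inv_mul_cancel]; rfl
        exact h3.symm
      have hw3 : ‖w x‖ ≤ sz (ρ (T.g i)) * ‖w (T.A i x)‖ := by
        conv_lhs => rw [hw2]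
        refine ((((ρ (T.g i))⁻¹ : E ≃L[ℝ] E) : E →L[ℝ] E).le_opNorm _).trans ?_
        gcongr
        exact le_max_right _ _
      calc ‖w x‖ ≤ sz (ρ (T.g i)) * ‖w (T.A i x)‖ := hw3
        _ ≤ (|Cg| * (‖x‖ / T.ϱ x) ^ c) * (κ' * T.ϱ x ^ (c + n0)) := by
          have h4 : sz (ρ (T.g i)) ≤ |Cg| * (‖x‖ / T.ϱ x) ^ c :=
            (hg x hxr i hi).trans (by gcongr; exact le_abs_self _)
          have h5 : 0 ≤ |Cg| * (‖x‖ / T.ϱ x) ^ c := by positivity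
          exact mul_le_mul h4 hw1 (norm_nonneg _) h5
        _ = |Cg| * κ' * ‖x‖ ^ c * T.ϱ x ^ n0 := by
          rw [div_pow, pow_add]
          field_simp
        _ ≤ |Cg| * κ' * ‖x‖ ^ c * (T.lam * ‖x‖) ^ n0 := by gcongr
        _ = |Cg| * T.lam ^ n0 * (κ' * ‖x‖ ^ (c + n0)) := by rw [mul_pow, pow_add]; ring
        _ ≤ 1 / 2 * (κ' * ‖x‖ ^ (c + n0)) := by gcongr
        _ = κ' / 2 * ‖x‖ ^ (c + n0) := by ring
    intro x hx
    have hdense : Dense T.Zᶜ := interior_eq_empty_iff_dense_compl.1 T.Z_int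
    have hcl : x ∈ closure (ball (0 : E) s' ∩ T.Zᶜ) :=
      hdense.open_subset_closure_inter isOpen_ball hx
    have hclosed : IsClosed {x : E | ‖w x‖ ≤ κ' / 2 * ‖x‖ ^ (c + n0)} :=
      isClosed_le hw.continuous.norm (continuous_const.mul (continuous_norm.pow _))
    exact hclosed.closure_subset_iff.2 (fun y hy => hoff y hy) hcl
  filter_upwards [ball_mem_nhds (0 : E) hs'0] with x hx
  exact hmain x hx

private theorem exists_finset (hC : Contr ρ) : ∃ G : Finset Γ, ∀ x : E, x ≠ 0 →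
    ∃ γ ∈ G, ‖ρ γ x‖ ≤ ‖x‖ / 2 := by
  have hcomp : IsCompact (sphere (0 : E) 1) := isCompact_sphere _ _
  obtain ⟨G, hG⟩ := hcomp.elim_finite_subcover (fun γ : Γ => {y : E | ‖ρ γ y‖ < 1 / 2})
    (fun γ => isOpen_lt ((ρ γ : E ≃L[ℝ] E).continuous.norm) continuous_const)
    (fun x _ => by
      obtain ⟨γ, hγ⟩ := hC x (1 / 4) (by norm_num)
      refine Set.mem_iUnion.2 ⟨γ, ?_⟩
      show ‖ρ γ x‖ < 1 / 2
      linarith)
  refine ⟨G, fun x hx => ?_⟩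
  have hx0 : 0 < ‖x‖ := norm_pos_iff.2 hx
  have h1 : ‖x‖⁻¹ • x ∈ sphere (0 : E) 1 := by
    rw [mem_sphere, dist_zero_right, norm_smul, norm_inv, norm_norm, inv_mul_cancel₀ hx0.ne']
  obtain ⟨γ, hγ, h2⟩ := Set.mem_iUnion₂.1 (hG h1)
  refine ⟨γ, hγ, ?_⟩
  have h3 : ‖ρ γ (‖x‖⁻¹ • x)‖ < 1 / 2 := h2
  rw [map_smul, norm_smul, norm_inv, norm_norm, inv_mul_lt_iff₀ hx0] at h3
  linarith

theorem uniq_of_contr (D : LocData (M := M) ρ) (hN : NoInv ρ) (hC : Contr ρ) : D.Unique := by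
  intro w hw h0 hd heq
  obtain ⟨G, hG⟩ := exists_finset hC
  set b : ℝ := ∑ γ ∈ G, ‖(((ρ γ)⁻¹ : E ≃L[ℝ] E) : E →L[ℝ] E)‖ with hb
  have hb0 : 0 ≤ b := Finset.sum_nonneg fun _ _ => norm_nonneg _
  have hbγ : ∀ γ ∈ G, ‖(((ρ γ)⁻¹ : E ≃L[ℝ] E) : E →L[ℝ] E)‖ ≤ b := fun γ hγ =>
    Finset.single_le_sum (f := fun γ => ‖(((ρ γ)⁻¹ : E ≃L[ℝ] E) : E →L[ℝ] E)‖)
      (fun _ _ => norm_nonneg _) hγ
  obtain ⟨N, hNb⟩ : ∃ N : ℕ, b * (3 / 4 : ℝ) ^ N ≤ 1 / 2 := by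
    have h1 : Tendsto (fun n : ℕ => b * (3 / 4 : ℝ) ^ n) atTop (𝓝 (b * 0)) :=
      (tendsto_pow_atTop_nhds_zero_of_lt_one (by norm_num) (by norm_num)).const_mul b
    rw [mul_zero] at h1
    exact (h1.eventually (Iic_mem_nhds (show (0 : ℝ) < 1 / 2 by norm_num))).exists
  obtain ⟨s1, κ, hs1, hκ, hκb⟩ := exists_ball_bound (jets_zero D hN w hw h0 hd heq N)
  have hev : ∀ᶠ x in 𝓝 (0 : E), ∀ γ ∈ G, w (D.F γ x) = ρ γ (w x) ∧
      ‖D.F γ x - ρ γ x‖ ≤ ‖x‖ / 4 := by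
    rw [Filter.eventually_all_finset]
    intro γ _
    have h1 : (fun x => D.F γ x - D.F γ 0 - ρ γ (x - 0)) =o[𝓝 (0 : E)] fun x => x - 0 :=
      (D.F_deriv γ).isLittleO
    have h2 := h1.bound (show (0 : ℝ) < 1 / 4 by norm_num)
    filter_upwards [heq γ, h2] with x hx1 hx2
    refine ⟨hx1, ?_⟩
    rw [D.F_zero γ, sub_zero, sub_zero] at hx2
    linarith
  obtain ⟨s2, hs2, hs2G⟩ := Metric.eventually_nhds_iff_ball.1 hev
  set s' := min s1 s2 with hs'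
  have hs'0 : 0 < s' := lt_min hs1 hs2
  have hmain : ∀ x ∈ ball (0 : E) s', w x = 0 := by
    refine zero_of_iter (N := N) (κ := κ)
      (fun x hx => hκb x (ball_subset_ball (min_le_left _ _) hx)) ?_ hκ
    intro κ' h1 hκ' x hx
    rcases eq_or_ne x 0 with hx0 | hx0
    · rw [hx0, h0, norm_zero]
      positivity
    · obtain ⟨γ, hγ, hγx⟩ := hG x hx0
      obtain ⟨e1, e2⟩ := hs2G x (ball_subset_ball (min_le_right _ _) hx) γ hγ
      have hx' : ‖x‖ < s' := by simpa using hx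
      have hF : ‖D.F γ x‖ ≤ 3 / 4 * ‖x‖ := by
        calc ‖D.F γ x‖ = ‖(D.F γ x - ρ γ x) + ρ γ x‖ := by rw [sub_add_cancel]
          _ ≤ ‖x‖ / 4 + ‖x‖ / 2 := (norm_add_le _ _).trans (add_le_add e2 hγx)
          _ = 3 / 4 * ‖x‖ := by ring
      have hF' : D.F γ x ∈ ball (0 : E) s' := by
        rw [mem_ball, dist_zero_right]
        have := norm_nonneg x
        linarith
      have hw2 : w x = ((ρ γ)⁻¹ : E ≃L[ℝ] E) (w (D.F γ x)) := by
        rw [e1]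
        have h3 : ((ρ γ)⁻¹ * ρ γ) (w x) = w x := by rw [inv_mul_cancel]; rfl
        exact h3.symm
      calc ‖w x‖ = ‖((ρ γ)⁻¹ : E ≃L[ℝ] E) (w (D.F γ x))‖ := by rw [← hw2]
        _ ≤ ‖(((ρ γ)⁻¹ : E ≃L[ℝ] E) : E →L[ℝ] E)‖ * ‖w (D.F γ x)‖ :=
          (((ρ γ)⁻¹ : E ≃L[ℝ] E) : E →L[ℝ] E).le_opNorm _
        _ ≤ b * (κ' * (3 / 4 * ‖x‖) ^ N) := by
          have h4 : ‖w (D.F γ x)‖ ≤ κ' * (3 / 4 * ‖x‖) ^ N :=
            (h1 _ hF').trans (by gcongr)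
          exact mul_le_mul (hbγ γ hγ) h4 (norm_nonneg _) hb0
        _ = b * (3 / 4) ^ N * (κ' * ‖x‖ ^ N) := by rw [mul_pow]; ring
        _ ≤ 1 / 2 * (κ' * ‖x‖ ^ N) := by gcongr
        _ = κ' / 2 * ‖x‖ ^ N := by ring
  filter_upwards [ball_mem_nhds (0 : E) hs'0] with x hx
  exact hmain x hx

theorem lin_of_normal (D : LocData (M := M) ρ) (H : Subgroup Γ) [H.Normal]
    (D1 : LocData (M := M) (ρ.comp H.subtype)) (hF : ∀ γ : H, D1.F γ = D.F (γ : Γ))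
    (hlin : D1.Lin) (huniq : D1.Unique) : D.Lin := by
  obtain ⟨φ, hφ, hφ0, hφd, hφe⟩ := hlin
  refine ⟨φ, hφ, hφ0, hφd, fun γ => ?_⟩
  set w : E → E := fun x => ((ρ γ)⁻¹ : E ≃L[ℝ] E) (φ (D.F γ x)) - φ x with hw
  have hws : ContDiff ℝ ∞ w :=
    (((ρ γ)⁻¹ : E ≃L[ℝ] E).contDiff.comp (hφ.comp (D.F_smooth γ))).sub hφ
  have hw0 : w 0 = 0 := by
    simp only [hw, D.F_zero γ, hφ0, map_zero, sub_zero]
  have hinv : (((ρ γ)⁻¹ : E ≃L[ℝ] E) : E →L[ℝ] E).comp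
      ((ContinuousLinearMap.id ℝ E).comp (ρ γ : E →L[ℝ] E)) = ContinuousLinearMap.id ℝ E := by
    ext x
    have h3 : ((ρ γ)⁻¹ * ρ γ) x = x := by rw [inv_mul_cancel]; rfl
    exact h3
  have hwd : HasFDerivAt w (0 : E →L[ℝ] E) 0 := by
    have h1 : HasFDerivAt φ (ContinuousLinearMap.id ℝ E) (D.F γ 0) := by
      rw [D.F_zero γ]; exact hφd
    have h2 : HasFDerivAt (fun x => φ (D.F γ x))
        ((ContinuousLinearMap.id ℝ E).comp (ρ γ : E →L[ℝ] E)) 0 := h1.comp 0 (D.F_deriv γ)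
    have h3 : HasFDerivAt (fun x => ((ρ γ)⁻¹ : E ≃L[ℝ] E) (φ (D.F γ x)))
        ((((ρ γ)⁻¹ : E ≃L[ℝ] E) : E →L[ℝ] E).comp
          ((ContinuousLinearMap.id ℝ E).comp (ρ γ : E →L[ℝ] E))) 0 :=
      (((ρ γ)⁻¹ : E ≃L[ℝ] E).hasFDerivAt).comp 0 h2
    rw [hinv] at h3
    have h4 := h3.sub hφd
    rw [sub_self] at h4
    exact h4
  have hmain := huniq w hws hw0 hwd (fun g => by
    have hg' : γ * (g : Γ) * γ⁻¹ ∈ H := Subgroup.Normal.conj_mem inferInstance _ g.2 γ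
    set g' : H := ⟨γ * (g : Γ) * γ⁻¹, hg'⟩ with hg'def
    have e1 : γ * (g : Γ) = (g' : Γ) * γ := by
      simp [hg'def]
    have hφg := hφe g
    have hφg' := (D.F_tendsto γ).eventually (hφe g')
    filter_upwards [D.F_mul γ (g : Γ), D.F_mul (g' : Γ) γ, hφg, hφg'] with x x1 x2 x3 x4
    rw [hF] at x3 x4 ⊢
    have e2 : D.F γ (D.F (g : Γ) x) = D.F (g' : Γ) (D.F γ x) := by
      rw [← x1, ← x2, e1]
    show ((ρ γ)⁻¹ : E ≃L[ℝ] E) (φ (D.F γ (D.F (g : Γ) x))) - φ (D.F (g : Γ) x) =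
      (ρ (g : Γ)) (((ρ γ)⁻¹ : E ≃L[ℝ] E) (φ (D.F γ x)) - φ x)
    rw [e2, x4, x3, map_sub]
    congr 1
    show ((ρ γ)⁻¹ * ρ (g' : Γ)) (φ (D.F γ x)) = (ρ (g : Γ) * (ρ γ)⁻¹) (φ (D.F γ x))
    have e3 : (ρ γ)⁻¹ * ρ (g' : Γ) = ρ (g : Γ) * (ρ γ)⁻¹ := by
      rw [← map_inv, ← map_mul, ← map_mul]
      congr 1
      rw [hg'def]
      group
    rw [e3])
  filter_upwards [hmain] with x hx
  have h1 : ((ρ γ)⁻¹ : E ≃L[ℝ] E) (φ (D.F γ x)) = φ x := sub_eq_zero.1 hx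
  rw [← h1]
  have h3 : (ρ γ * (ρ γ)⁻¹) (φ (D.F γ x)) = φ (D.F γ x) := by rw [mul_inv_cancel]; rfl
  exact h3.symm

end
end LatLin
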