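import Pool.Agent.Lib.MP_2392aa_gt.C.Form
import Pool.Agent.Lib.MP_2392aa_gt.C.Uniq
import Pool.Agent.Lib.MP_2392aa_gt.C.TOp
import Pool.Agent.Lib.MP_2392aa_gt.C.EqN
import Pool.Agent.Lib.MP_2392aa_gt.C.TN

/-!
MP_2392aa_gt, core, module CoreN (about 100 lines): the analytic theorem for groups without
exceptional rays, from the stubs.

PROOF. `lin_of_gen`: the set of `γ` with `∀ᶠ x, φ (F γ x) = ρ γ (φ x)` is a subgroup: `1` (`F 1 = id`
near `0`: `F_mul 1 1` and injectivity, or `F_act 1`, `F_zero`, injectivity of `χ`), products by `F_mul` and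
`F_tendsto`, inverses: from the statement for `γ` at the point `F γ⁻¹ y`. It contains `S`.
`φ 0 = 0` and the derivative of `φ` at `0` from flatness of `φ - id` (`iteratedFDeriv` of orders 0, 1).
`core_N`: `exists_flat` gives `D'`; `equi_N` gives `lam0`, `exists_TData_N` gives `T`, `exists_sol` gives `φ`.
`Unique`: `uniq_of_contr`.
-/

open scoped ContDiff Topology
open Metric Filter

namespace LatLin

section
variable {E : Type*} [NormedAddCommGroup E] [InnerProductSpace ℝ E] [FiniteDimensional ℝ E]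
  {Γ : Type*} [Group Γ] {M : Type*} [TopologicalSpace M] [MulAction Γ M]
  {ρ : Γ →* (E ≃L[ℝ] E)}

theorem lin_of_gen (D : LocData (M := M) ρ) (φ : E → E) (hφ : ContDiff ℝ ∞ φ)
    (hf : FlatAt (fun x => φ x - x) 0) (S : Set Γ) (hS : Subgroup.closure S = ⊤)
    (h : ∀ σ ∈ S, ∀ᶠ x in 𝓝 (0 : E), φ (D.F σ x) = ρ σ (φ x)) : D.Lin := by
  have hball : ball (0 : E) D.r0 ∈ 𝓝 (0 : E) := ball_mem_nhds 0 D.r0_pos
  have hone : ∀ᶠ y in 𝓝 (0 : E), D.F 1 y = y := by
    filter_upwards [D.F_act 1, hball, (D.F_tendsto 1).eventually hball] with y h1 h2 h3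
    rw [one_smul] at h1
    exact (D.inj h2 h3 h1).symm
  have hall : ∀ γ : Γ, ∀ᶠ x in 𝓝 (0 : E), φ (D.F γ x) = ρ γ (φ x) := by
    intro γ
    have hγ : γ ∈ Subgroup.closure S := by
      rw [hS]
      exact Subgroup.mem_top γ
    induction hγ using Subgroup.closure_induction with
    | mem σ hσ => exact h σ hσ
    | one =>
      filter_upwards [hone] with y hy
      rw [hy, map_one]
      rfl
    | mul a b _ _ ha hb =>
      filter_upwards [D.F_mul a b, hb, (D.F_tendsto b).eventually ha] with y h1 h2 h3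
      rw [h1, h3, h2, map_mul]
      rfl
    | inv a _ ha =>
      filter_upwards [D.F_mul a a⁻¹, hone, (D.F_tendsto a⁻¹).eventually ha] with y h1 h2 h3
      rw [mul_inv_cancel, h2] at h1
      rw [← h1] at h3
      have h4 : ρ a⁻¹ (φ y) = ρ a⁻¹ (ρ a (φ (D.F a⁻¹ y))) := by rw [h3]
      rw [h4]
      have h5 : ρ a⁻¹ (ρ a (φ (D.F a⁻¹ y))) = (ρ a⁻¹ * ρ a) (φ (D.F a⁻¹ y)) := rfl
      rw [h5, ← map_mul, inv_mul_cancel, map_one]
      rfl
  have hf0 : φ 0 = 0 := by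
    have h1 := hf 0
    have h2 : ‖iteratedFDeriv ℝ 0 (fun x => φ x - x) 0‖ = ‖φ 0 - 0‖ := norm_iteratedFDeriv_zero
    rw [h1, norm_zero, sub_zero] at h2
    exact norm_eq_zero.mp h2.symm
  have hd0 : HasFDerivAt φ (ContinuousLinearMap.id ℝ E) 0 := by
    have h1 := hf 1
    have h2 : ‖iteratedFDeriv ℝ 1 (fun x => φ x - x) 0‖ = ‖fderiv ℝ (fun x => φ x - x) 0‖ :=
      norm_iteratedFDeriv_one _
    rw [h1, norm_zero] at h2
    have h3 : fderiv ℝ (fun x => φ x - x) 0 = 0 := norm_eq_zero.mp h2.symm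
    have h4 : DifferentiableAt ℝ φ 0 := hφ.contDiffAt.differentiableAt (by decide)
    have h5 : HasFDerivAt (fun x => φ x - x) (fderiv ℝ φ 0 - ContinuousLinearMap.id ℝ E) 0 :=
      h4.hasFDerivAt.sub (hasFDerivAt_id 0)
    rw [h5.fderiv, sub_eq_zero] at h3
    rw [← h3]
    exact h4.hasFDerivAt
  exact ⟨φ, hφ, hf0, hd0, hall⟩

theorem core_N [Nontrivial E] (hNo : NoInv ρ) (hFL : FormLin ρ) (hCt : Contr ρ) (S : Set Γ)
    (hS : S.Finite) (hg : Subgroup.closure S = ⊤) (hC : Conn ρ S) (D : LocData (M := M) ρ) :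
    D.Lin ∧ D.Unique := by
  obtain ⟨D', hflat, hL, hU⟩ := exists_flat D hFL
  refine ⟨hL ?_, uniq_of_contr D hNo hCt⟩
  obtain ⟨lam0, hlam0, heq⟩ := equi_N D' hflat S hS hC
  obtain ⟨T, hfin, hA, hZ, hlam⟩ := exists_TData_N D' hflat hCt lam0 hlam0
  obtain ⟨s, φ, hsol⟩ := T.exists_sol
  exact lin_of_gen D' φ hsol.smooth hsol.flat S hg (heq T hfin hA hZ hlam s φ hsol)

end
end LatLin
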