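import Pool.Agent.Lib.MP_2392aa_gt.C.Ifc

/-!
MP_2392aa_gt, core, module Borel (about 200 lines): the lemma of E. Borel.

PROOF. Let `b` be a smooth bump function, `b = 1` on `ball 0 1`, support in `ball 0 2`
(`ContDiffBump`), and `q j := b • p j`, a smooth map with compact support; let `B j ≥ 1` be a bound
of all `‖iteratedFDeriv ℝ i (q j) x‖`, `i ≤ j`, `x : E`. Put `ε j := (2 ^ j * B j)⁻¹ ≤ 1` and
`u j x := ε j ^ j • q j ((ε j)⁻¹ • x) = b (x / ε j) • p j x` (homogeneity). Then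
`‖iteratedFDeriv ℝ i (u j) x‖ ≤ ε j ^ (j - i) * B j ≤ 2 ^ (-j)` for `i < j`
(chain rule with the linear map `x ↦ (ε j)⁻¹ • x`, `iteratedFDeriv_comp_const_smul` or
`ContinuousLinearMap.norm_iteratedFDeriv_comp_right_le`...). So `h := ∑' j, u j` is smooth:
`contDiff_tsum` (for `i ≥ j` use some other bound of `u j`, a smooth map with compact support; there
are only finitely many such `j` for fixed `i`), and derivatives of the tails are the sums of the
derivatives. For fixed `k`: near `0`, `u j = p j` for `j ≤ k`, so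
`h - ∑ j ≤ k, p j = ∑' j > k, u j =: t` near `0`, and `iteratedFDeriv ℝ i (u j) 0 = 0` for
`i ≤ k < j` because `u j = p j` near `0` and `‖p j x‖ ≤ C ‖x‖ ^ j`; simplest: estimate directly
`‖u j x‖ ≤ ‖x‖ ^ (k + 1) * 2 ^ (-j) * const` for `j > k`: from
`‖q j y‖ ≤ B' j ‖y‖ ^ j` (homogeneity, `|b| ≤ 1`), support in `‖x‖ ≤ 2 ε j`, hence
`‖u j x‖ ≤ B' j ‖x‖ ^ j ≤ B' j (2 ε j) ^ (j - k - 1) ‖x‖ ^ (k + 1)`; for `j ≥ k + 2` this is
summable if `ε j` was chosen with moreover `ε j ≤ (4 ^ j * (B' j + 1))⁻¹`. So `Ord (k + 1)` follows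
without derivatives.
-/

open scoped ContDiff Topology
open Metric

namespace LatLin

section
variable {E : Type*} [NormedAddCommGroup E] [InnerProductSpace ℝ E] [FiniteDimensional ℝ E]

theorem borel_bd (b : ContDiffBump (0 : E)) (j : ℕ) (P : E → E) (hP : ContDiff ℝ ∞ P) :
    ∃ B : ℝ, 1 ≤ B ∧ ∀ i ≤ j, ∀ y, ‖iteratedFDeriv ℝ i (fun y => b y • P y) y‖ ≤ B := by
  have hq : ContDiff ℝ ∞ (fun y => b y • P y) := b.contDiff.smul hP
  have hs : HasCompactSupport (fun y => b y • P y) := b.hasCompactSupport.smul_right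
  have h1 : ∀ i : ℕ, ∃ C : ℝ, ∀ y, ‖iteratedFDeriv ℝ i (fun y => b y • P y) y‖ ≤ C := by
    intro i
    have hc : Continuous (iteratedFDeriv ℝ i (fun y => b y • P y)) :=
      hq.continuous_iteratedFDeriv (by exact_mod_cast le_top)
    exact hc.bounded_above_of_compact_support (hs.iteratedFDeriv i)
  choose C hC using h1
  refine ⟨1 + ∑ i ∈ Finset.range (j + 1), |C i|, ?_, ?_⟩
  · have : 0 ≤ ∑ i ∈ Finset.range (j + 1), |C i| := Finset.sum_nonneg fun i _ => abs_nonneg _
    linarith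
  · intro i hi y
    have h2 : |C i| ≤ ∑ i ∈ Finset.range (j + 1), |C i| :=
      Finset.single_le_sum (f := fun i => |C i|) (fun i _ => abs_nonneg _)
        (Finset.mem_range.2 (by omega))
    have h3 := hC i y
    have h4 := le_abs_self (C i)
    linarith

theorem borel_hom (j : ℕ) (P : E → E) (hP : HomMap j P) :
    ∃ B : ℝ, 0 ≤ B ∧ ∀ x, ‖P x‖ ≤ B * ‖x‖ ^ j := by
  obtain ⟨C, hC⟩ := (isCompact_closedBall (0 : E) 1).exists_bound_of_continuousOn
    hP.1.continuous.continuousOn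
  refine ⟨|C|, abs_nonneg _, fun x => ?_⟩
  by_cases hx : x = 0
  · subst hx
    have h0 := hC 0 (by simp)
    by_cases hj : j = 0
    · subst hj
      simp only [norm_zero, pow_zero, mul_one]
      exact h0.trans (le_abs_self _)
    · have h1 := hP.2 0 0
      rw [zero_pow hj, zero_smul, zero_smul] at h1
      rw [h1]
      simp [hj]
  · have hn : ‖x‖ ≠ 0 := norm_ne_zero_iff.2 hx
    have h1 := hP.2 ‖x‖ (‖x‖⁻¹ • x)
    rw [smul_smul, mul_inv_cancel₀ hn, one_smul] at h1
    have h2 := hC (‖x‖⁻¹ • x) (by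
      rw [mem_closedBall_zero_iff, norm_smul, norm_inv, norm_norm, inv_mul_cancel₀ hn])
    rw [h1, norm_smul, norm_pow, norm_norm, mul_comm]
    exact mul_le_mul_of_nonneg_right (h2.trans (le_abs_self _)) (by positivity)

theorem borel (p : ℕ → E → E) (hp : ∀ k, HomMap k (p k)) :
    ∃ h : E → E, ContDiff ℝ ∞ h ∧
      ∀ k : ℕ, Ord (k + 1) (fun x => h x - ∑ j ∈ Finset.range (k + 1), p j x) := by
  let b : ContDiffBump (0 : E) := ⟨1, 2, one_pos, one_lt_two⟩
  have hb1 : b.rIn = 1 := rfl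
  have hb2 : b.rOut = 2 := rfl
  choose B hB1 hB using fun j => borel_bd b j (p j) (hp j).1
  choose B' hB'0 hB' using fun j => borel_hom j (p j) (hp j)
  let ε : ℕ → ℝ := fun j => min ((2 ^ j * B j)⁻¹) ((4 ^ j * (B' j + 1))⁻¹)
  have hBp : ∀ j, 0 < B j := fun j => lt_of_lt_of_le one_pos (hB1 j)
  have hBp' : ∀ j, 0 < B' j + 1 := fun j => by have := hB'0 j; linarith
  have hε0 : ∀ j, 0 < ε j := fun j => by
    have h1 := hBp j
    have h2 := hBp' j
    exact lt_min (by positivity) (by positivity)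
  have hε1 : ∀ j, ε j * B j ≤ (1 / 2) ^ j := fun j => by
    have h1 := hBp j
    calc ε j * B j ≤ (2 ^ j * B j)⁻¹ * B j :=
          mul_le_mul_of_nonneg_right (min_le_left _ _) h1.le
      _ = (1 / 2) ^ j := by
          rw [mul_inv, mul_assoc, inv_mul_cancel₀ h1.ne', mul_one, one_div, inv_pow]
  have hε2 : ∀ j, ε j * (B' j) ≤ (1 / 4) ^ j := fun j => by
    have h1 := hBp' j
    calc ε j * B' j ≤ ε j * (B' j + 1) :=
          mul_le_mul_of_nonneg_left (by linarith) (hε0 j).le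
      _ ≤ (4 ^ j * (B' j + 1))⁻¹ * (B' j + 1) :=
          mul_le_mul_of_nonneg_right (min_le_right _ _) h1.le
      _ = (1 / 4) ^ j := by
          rw [mul_inv, mul_assoc, inv_mul_cancel₀ h1.ne', mul_one, one_div, inv_pow]
  have hεle : ∀ j, ε j ≤ 1 := fun j => by
    have h1 := hε1 j
    have h2 : ((1 : ℝ) / 2) ^ j ≤ 1 := pow_le_one₀ (by norm_num) (by norm_num)
    nlinarith [hε0 j, hB1 j]
  let u : ℕ → E → E := fun j x => b ((ε j)⁻¹ • x) • p j x
  have hu : ∀ j, u j = fun x => (ε j) ^ j • (fun z => (fun y => b y • p j y) ((ε j)⁻¹ • z)) x := by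
    intro j
    funext x
    have hne : ε j ≠ 0 := (hε0 j).ne'
    simp only [u]
    rw [(hp j).2, smul_comm ((ε j) ^ j), smul_smul ((ε j) ^ j), ← mul_pow, mul_inv_cancel₀ hne,
      one_pow, one_smul]
  have husm : ∀ j, ContDiff ℝ ∞ (u j) := by
    intro j
    have h1 : ContDiff ℝ ∞ (fun x : E => b ((ε j)⁻¹ • x)) :=
      b.contDiff.comp (contDiff_const_smul _)
    exact h1.smul (hp j).1
  have hder : ∀ i j : ℕ, i < j → ∀ x, ‖iteratedFDeriv ℝ i (u j) x‖ ≤ (1 / 2) ^ j := by
    intro i j hij x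
    have hq : ContDiff ℝ ∞ (fun y => b y • p j y) := b.contDiff.smul (hp j).1
    have hqi : ContDiff ℝ i (fun y => b y • p j y) := hq.of_le (by exact_mod_cast le_top)
    have h2 : ContDiffAt ℝ i (fun z => (fun y => b y • p j y) ((ε j)⁻¹ • z)) x :=
      (hqi.comp (contDiff_const_smul _)).contDiffAt
    rw [hu j, iteratedFDeriv_const_smul_apply' h2, iteratedFDeriv_comp_const_smul _ hqi]
    simp only [norm_smul]
    rw [norm_pow, norm_pow, norm_inv, Real.norm_of_nonneg (hε0 j).le]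
    have h3 := hB j i hij.le ((ε j)⁻¹ • x)
    have hne : ε j ≠ 0 := (hε0 j).ne'
    have h4 : ε j ^ j * (ε j)⁻¹ ^ i = ε j ^ (j - i) := by
      rw [inv_pow, pow_sub₀ _ hne hij.le]
    rw [← mul_assoc, h4]
    have h5 : ε j ^ (j - i) ≤ ε j := by
      calc ε j ^ (j - i) ≤ ε j ^ 1 := pow_le_pow_of_le_one (hε0 j).le (hεle j) (by omega)
        _ = ε j := pow_one _
    calc ε j ^ (j - i) * ‖iteratedFDeriv ℝ i (fun y => b y • p j y) ((ε j)⁻¹ • x)‖
        ≤ ε j * B j := mul_le_mul h5 h3 (norm_nonneg _) (hε0 j).le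
      _ ≤ _ := hε1 j
  refine ⟨fun x => ∑' j, u j x, ?_, ?_⟩
  · refine contDiff_tsum_of_eventually (v := fun _ j => (1 / 2 : ℝ) ^ j) husm
      (fun k _ => summable_geometric_of_lt_one (by norm_num) (by norm_num)) ?_
    intro k _
    rw [Nat.cofinite_eq_atTop]
    filter_upwards [Filter.eventually_gt_atTop k] with j hj x
    exact hder k j hj x
  · intro k
    refine ⟨B' (k + 1) + 2, ?_⟩
    have hnear : ∀ᶠ x in 𝓝 (0 : E), ∀ j ∈ Finset.range (k + 2), ‖x‖ ≤ ε j := by
      rw [Filter.eventually_all_finset]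
      intro j _
      have : closedBall (0 : E) (ε j) ∈ 𝓝 (0 : E) := closedBall_mem_nhds _ (hε0 j)
      filter_upwards [this] with x hx
      exact mem_closedBall_zero_iff.1 hx
    filter_upwards [hnear] with x hx
    have hx1 : ‖x‖ ≤ 1 := (hx 0 (Finset.mem_range.2 (by omega))).trans (hεle 0)
    have hup : ∀ j ∈ Finset.range (k + 2), u j x = p j x := by
      intro j hj
      have h1 : b ((ε j)⁻¹ • x) = 1 := by
        apply b.one_of_mem_closedBall
        rw [hb1, mem_closedBall_zero_iff, norm_smul, norm_inv, Real.norm_of_nonneg (hε0 j).le,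
          inv_mul_le_iff₀ (hε0 j), mul_one]
        exact hx j hj
      simp only [u, h1, one_smul]
    have htail : ∀ j, ‖u (j + (k + 2)) x‖ ≤ ‖x‖ ^ (k + 1) * (1 / 2) ^ j := by
      intro j
      set J := j + (k + 2) with hJ
      by_cases h0 : b ((ε J)⁻¹ • x) = 0
      · simp only [u, h0, zero_smul, norm_zero]
        positivity
      · have h1 : ‖x‖ < 2 * ε J := by
          by_contra hcon
          rw [not_lt] at hcon
          apply h0
          apply b.zero_of_le_dist
          rw [hb2, dist_zero_right, norm_smul, norm_inv, Real.norm_of_nonneg (hε0 J).le,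
            le_inv_mul_iff₀ (hε0 J)]
          linarith
        have h2 : ‖u J x‖ ≤ ‖p J x‖ := by
          simp only [u]
          rw [norm_smul, Real.norm_of_nonneg b.nonneg]
          exact mul_le_of_le_one_left (norm_nonneg _) b.le_one
        have h3 := hB' J x
        have h4 : ‖x‖ ^ J = ‖x‖ ^ (k + 1) * ‖x‖ ^ (j + 1) := by
          rw [← pow_add]; congr 1; omega
        have h5 : ‖x‖ ^ (j + 1) ≤ 2 * ε J := by
          calc ‖x‖ ^ (j + 1) ≤ ‖x‖ ^ 1 :=
                pow_le_pow_of_le_one (norm_nonneg _) hx1 (by omega)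
            _ = ‖x‖ := pow_one _
            _ ≤ 2 * ε J := h1.le
        have h6 := hε2 J
        have h7 : (2 : ℝ) * (1 / 4) ^ J ≤ (1 / 2) ^ j := by
          have e1 : (1 / 4 : ℝ) ^ J ≤ (1 / 4) ^ (j + 1) :=
            pow_le_pow_of_le_one (by norm_num) (by norm_num) (by omega)
          have e2 : (1 / 4 : ℝ) ^ j ≤ (1 / 2) ^ j :=
            pow_le_pow_left₀ (by norm_num) (by norm_num) _
          have e3 : (0 : ℝ) ≤ (1 / 4 : ℝ) ^ j := by positivity
          rw [pow_succ] at e1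
          nlinarith
        calc ‖u J x‖ ≤ B' J * (‖x‖ ^ (k + 1) * ‖x‖ ^ (j + 1)) := by
              rw [← h4]; exact h2.trans h3
          _ = ‖x‖ ^ (k + 1) * (B' J * ‖x‖ ^ (j + 1)) := by ring
          _ ≤ ‖x‖ ^ (k + 1) * (B' J * (2 * ε J)) := by
              refine mul_le_mul_of_nonneg_left ?_ (by positivity)
              exact mul_le_mul_of_nonneg_left h5 (hB'0 J)
          _ ≤ ‖x‖ ^ (k + 1) * (1 / 2) ^ j := by
              refine mul_le_mul_of_nonneg_left ?_ (by positivity)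
              nlinarith
    have hgs : Summable fun j : ℕ => ‖x‖ ^ (k + 1) * (1 / 2 : ℝ) ^ j :=
      (summable_geometric_of_lt_one (by norm_num) (by norm_num)).mul_left _
    have hsum : Summable fun j => u j x :=
      (summable_nat_add_iff (k + 2)).1 (Summable.of_norm_bounded hgs htail)
    have hg : HasSum (fun j : ℕ => ‖x‖ ^ (k + 1) * (1 / 2 : ℝ) ^ j) (‖x‖ ^ (k + 1) * 2) := by
      have := hasSum_geometric_two
      exact this.mul_left _
    have htl := tsum_of_norm_bounded hg htail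
    have hsplit := hsum.sum_add_tsum_nat_add (k + 2)
    rw [Finset.sum_congr rfl hup, Finset.sum_range_succ] at hsplit
    have hlast := hB' (k + 1) x
    have e : (∑' j, u j x) - ∑ j ∈ Finset.range (k + 1), p j x
        = p (k + 1) x + ∑' j, u (j + (k + 2)) x := by
      rw [← hsplit]; abel
    rw [e]
    calc ‖p (k + 1) x + ∑' j, u (j + (k + 2)) x‖
        ≤ ‖p (k + 1) x‖ + ‖∑' j, u (j + (k + 2)) x‖ := norm_add_le _ _
      _ ≤ B' (k + 1) * ‖x‖ ^ (k + 1) + ‖x‖ ^ (k + 1) * 2 := add_le_add hlast htl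
      _ = (B' (k + 1) + 2) * ‖x‖ ^ (k + 1) := by ring

end
end LatLin
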