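import Pool.Agent.Lib.MP_2392aa_gt.C.Jet
import Pool.Agent.Lib.MP_2392aa_gt.C.Borel
import Pool.Agent.Lib.MP_2392aa_gt.C.Grp

/-!
MP_2392aa_gt, core, module Form (about 300 lines): formal linearization and the lemma of Borel give
coordinates in which the action is linear up to flat maps.

PROOFS. `Ord` calculus (private lemmas): sums, `Ord (k+1) → Ord k`, post-composition with a
continuous linear map, and `Ord k f → Ord k (f ∘ g)` if `g` is continuous at `0`, `g 0 = 0` and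
differentiable at `0` (`‖g x‖ ≤ C ‖x‖`). For smooth `F` with `F 0 = 0` and derivative `L` at `0`:
`Ord 2 (F - L)`. For `HomMap k p`, `k ≥ 1`, and `g`, `g'` with `‖g x‖, ‖g' x‖ ≤ C ‖x‖` and
`Ord 2 (g - g')`: `Ord (k+1) (p ∘ g - p ∘ g')` (mean value inequality on the segment from `g' x` to
`g x`, `‖fderiv ℝ p y‖ ≤ C ‖y‖ ^ (k-1)` because `fderiv ℝ p` is homogeneous of degree `k-1`: same
argument as `homMap_ord`, or: `ord_of` the derivative).
STEP. Claim: if `h` is smooth, `h 0 = 0`, derivative `id` at `0`, `k ≥ 2` and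
`∀ γ, Ord k (h ∘ F γ - ρ γ ∘ h)`, then there is a `HomMap k p` with
`∀ γ, Ord (k+1) ((h+p) ∘ F γ - ρ γ ∘ (h+p))`. Proof: `r γ := h ∘ F γ - ρ γ ∘ h` is smooth; `c γ` its
leading part (`ord_lead`). By `F_mul`, near `0`: `r (γ δ) x = r γ (F δ x) + ρ γ (r δ x)`, so
`c (γ δ) x - c γ (ρ δ x) - ρ γ (c δ x)` is `Ord (k+1)` (uses the calculus and `F δ - ρ δ ∈ Ord 2`)
and a `HomMap k`, hence `0` (`homMap_eq_zero`). By `FormLin ρ`: `c γ x = ρ γ (p x) - p (ρ γ x)`, and
`(h+p) ∘ F γ - ρ γ ∘ (h+p) = (r γ - c γ) + (p ∘ F γ - p ∘ ρ γ)` is `Ord (k+1)`.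
START: `h = id`: `Ord 2 (F γ - ρ γ)`.
RECURSION: maps `p j` (`p 0 = 0`, `p 1 = id`, `p j` for `j ≥ 2` from the claim) such that
`h k := ∑ j < k+1, p j` satisfies `∀ γ, Ord (k+1) (h k ∘ F γ - ρ γ ∘ h k)` for all `k ≥ 1` (dependent
choice: `Nat.rec` in the subtype of pairs, or `exists_nat_rec`-style lemma; `HomMap 1 id`,
`HomMap k 0`). `borel` gives a smooth `h` with `Ord (k+1) (h - h k)` for all `k`. Then `h 0 = 0`,
derivative `id` (from `k = 1`), and `h ∘ F γ - ρ γ ∘ h` is `Ord (k+1)` for every `k`.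
`exists_flat`: `change_coord` with this `h`; `D'.F γ - ρ γ` is smooth and, near `0`, equal to
`(h ∘ F γ - ρ γ ∘ h) ∘ v` for the local inverse `v` of `h` (`‖v y‖ ≤ 2 ‖y‖` near `0`); avoiding `v`:
`h` maps neighbourhoods of `0` onto neighbourhoods of `0` (`HasStrictFDerivAt.map_nhds_eq_of_equiv`
or `local_inv`), and `‖x‖ ≤ 2 ‖h x‖` near `0`. Then `flat_of_ord`.
-/

open scoped ContDiff Topology
open Metric Filter

namespace LatLin

section
variable {E : Type*} [NormedAddCommGroup E] [InnerProductSpace ℝ E] [FiniteDimensional ℝ E]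

private lemma ord_congr' {k : ℕ} {f g : E → E} (hf : Ord k f) (h : ∀ᶠ x in 𝓝 (0 : E), g x = f x) :
    Ord k g := by
  obtain ⟨C, hC⟩ := hf
  refine ⟨C, ?_⟩
  filter_upwards [hC, h] with x h1 h2
  rw [h2]
  exact h1

private lemma ord_nn {k : ℕ} {f : E → E} (hf : Ord k f) :
    ∃ C : ℝ, 0 ≤ C ∧ ∀ᶠ x in 𝓝 (0 : E), ‖f x‖ ≤ C * ‖x‖ ^ k := by
  obtain ⟨C, hC⟩ := hf
  refine ⟨|C|, abs_nonneg _, ?_⟩
  filter_upwards [hC] with x h1
  exact h1.trans (mul_le_mul_of_nonneg_right (le_abs_self C) (by positivity))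

private lemma ord_add {k : ℕ} {f g : E → E} (hf : Ord k f) (hg : Ord k g) :
    Ord k (fun x => f x + g x) := by
  obtain ⟨C, hC⟩ := hf
  obtain ⟨D, hD⟩ := hg
  refine ⟨C + D, ?_⟩
  filter_upwards [hC, hD] with x h1 h2
  calc ‖f x + g x‖ ≤ ‖f x‖ + ‖g x‖ := norm_add_le _ _
    _ ≤ C * ‖x‖ ^ k + D * ‖x‖ ^ k := add_le_add h1 h2
    _ = (C + D) * ‖x‖ ^ k := by ring

private lemma ord_neg {k : ℕ} {f : E → E} (hf : Ord k f) : Ord k (fun x => - f x) := by
  obtain ⟨C, hC⟩ := hf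
  refine ⟨C, ?_⟩
  filter_upwards [hC] with x h1
  rw [norm_neg]
  exact h1

private lemma ord_sub {k : ℕ} {f g : E → E} (hf : Ord k f) (hg : Ord k g) :
    Ord k (fun x => f x - g x) := by
  simpa [sub_eq_add_neg] using ord_add hf (ord_neg hg)

private lemma ord_down {k : ℕ} {f : E → E} (hf : Ord (k + 1) f) : Ord k f := by
  obtain ⟨C, hC0, hC⟩ := ord_nn hf
  refine ⟨C, ?_⟩
  filter_upwards [hC, ball_mem_nhds (0 : E) one_pos] with x h1 h2
  have hx : ‖x‖ ≤ 1 := by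
    have := mem_ball_zero_iff.mp h2
    exact this.le
  refine h1.trans (mul_le_mul_of_nonneg_left ?_ hC0)
  rw [pow_succ]
  exact mul_le_of_le_one_right (by positivity) hx

private lemma ord_clm {k : ℕ} {f : E → E} (L : E →L[ℝ] E) (hf : Ord k f) :
    Ord k (fun x => L (f x)) := by
  obtain ⟨C, hC⟩ := hf
  refine ⟨‖L‖ * C, ?_⟩
  filter_upwards [hC] with x h1
  calc ‖L (f x)‖ ≤ ‖L‖ * ‖f x‖ := L.le_opNorm _
    _ ≤ ‖L‖ * (C * ‖x‖ ^ k) := mul_le_mul_of_nonneg_left h1 (norm_nonneg _)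
    _ = ‖L‖ * C * ‖x‖ ^ k := by ring

private lemma ord_comp {k : ℕ} {f g : E → E} (hf : Ord k f) (hg : Ord 1 g)
    (ht : Tendsto g (𝓝 0) (𝓝 0)) : Ord k (fun x => f (g x)) := by
  obtain ⟨C, hC0, hC⟩ := ord_nn hf
  obtain ⟨D, hD0, hD⟩ := ord_nn hg
  refine ⟨C * D ^ k, ?_⟩
  filter_upwards [ht.eventually hC, hD] with x h1 h2
  calc ‖f (g x)‖ ≤ C * ‖g x‖ ^ k := h1
    _ ≤ C * (D * ‖x‖ ^ 1) ^ k :=
        mul_le_mul_of_nonneg_left (pow_le_pow_left₀ (norm_nonneg _) h2 k) hC0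
    _ = C * D ^ k * ‖x‖ ^ k := by rw [pow_one, mul_pow]; ring

private lemma ord_one_of_deriv {g : E → E} {L : E →L[ℝ] E} (h : HasFDerivAt g L 0)
    (h0 : g 0 = 0) : Ord 1 g := by
  have := h.isBigO_sub
  obtain ⟨C, hC⟩ := this.bound
  refine ⟨C, ?_⟩
  filter_upwards [hC] with x h1
  simpa [h0] using h1

private lemma deriv_zero_of_ord {g : E → E} (h : Ord 2 g) : HasFDerivAt g (0 : E →L[ℝ] E) 0 := by
  obtain ⟨C, hC⟩ := h
  refine Asymptotics.IsBigO.hasFDerivAt (n := 2) ?_ (by norm_num)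
  refine Asymptotics.IsBigO.of_bound C ?_
  filter_upwards [hC] with x h1
  simpa using h1

private lemma homMap_zero_at {k : ℕ} (hk : 1 ≤ k) {p : E → E} (hp : HomMap k p) : p 0 = 0 := by
  have := hp.2 0 0
  rw [zero_smul, zero_pow (by omega), zero_smul] at this
  exact this

private lemma homMap_Ord {k : ℕ} {p : E → E} (hp : HomMap k p) : Ord k p := by
  obtain ⟨C, _, hC⟩ := homMap_ord hp
  exact ⟨C, Eventually.of_forall hC⟩

private lemma ord_two {F : E → E} {L : E →L[ℝ] E} (hs : ContDiff ℝ ∞ F) (h0 : F 0 = 0)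
    (hd : HasFDerivAt F L 0) : Ord 2 (fun x => F x - L x) := by
  have hs' : ContDiff ℝ ∞ (fun x => F x - L x) := hs.sub L.contDiff
  have hd' : HasFDerivAt (fun x => F x - L x) (0 : E →L[ℝ] E) 0 := by
    have := hd.fun_sub (L.hasFDerivAt (x := (0 : E)))
    rw [sub_self] at this
    exact this
  have h1 : Ord 1 (fun x => F x - L x) := ord_one_of_deriv hd' (by simp [h0])
  obtain ⟨p, hp, ho⟩ := ord_lead hs' h1
  have hpd : HasFDerivAt p (0 : E →L[ℝ] E) 0 := by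
    have h2 := hd'.fun_sub (deriv_zero_of_ord ho)
    rw [sub_self] at h2
    have e : (fun x => F x - L x - (F x - L x - p x)) = p := by
      funext x
      abel
    rw [e] at h2
    exact h2
  have hp0 : ∀ x, p x = 0 := by
    intro x
    have h3 : HasDerivAt (fun t : ℝ => t • x) x 0 := by
      simpa using (hasDerivAt_id (0 : ℝ)).smul_const x
    have h4 : HasFDerivAt p (0 : E →L[ℝ] E) ((0 : ℝ) • x) := by
      rw [zero_smul]; exact hpd
    have h5 : HasDerivAt (fun t : ℝ => p (t • x)) ((0 : E →L[ℝ] E) x) 0 :=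
      h4.comp_hasDerivAt (0 : ℝ) h3
    have h6 : HasDerivAt (fun t : ℝ => p (t • x)) (p x) 0 := by
      have : (fun t : ℝ => p (t • x)) = fun t : ℝ => t • p x := by
        funext t
        rw [hp.2 t x, pow_one]
      rw [this]
      simpa using (hasDerivAt_id (0 : ℝ)).smul_const (p x)
    have := h6.unique h5
    simpa using this
  refine ord_congr' ho (Eventually.of_forall fun x => ?_)
  simp [hp0 x]

private lemma homMap_lip {k : ℕ} (hk : 1 ≤ k) {p : E → E} (hp : HomMap k p) :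
    ∃ C : ℝ, 0 ≤ C ∧ ∀ a b : E, ‖p a - p b‖ ≤ C * (‖a‖ + ‖b‖) ^ (k - 1) * ‖a - b‖ := by
  have hcont : Continuous (fderiv ℝ p) := hp.1.continuous_fderiv (by simp)
  obtain ⟨C, hC⟩ := (isCompact_closedBall (0 : E) 1).exists_bound_of_continuousOn hcont.continuousOn
  have hC0 : 0 ≤ C := (norm_nonneg _).trans (hC 0 (by simp))
  have hdiff : Differentiable ℝ p := hp.1.differentiable (by simp)
  have hl : ∀ a ∈ closedBall (0 : E) 1, ∀ b ∈ closedBall (0 : E) 1, ‖p a - p b‖ ≤ C * ‖a - b‖ := by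
    intro a ha b hb
    exact (convex_closedBall (0 : E) 1).norm_image_sub_le_of_norm_fderiv_le
      (fun x _ => hdiff x) (fun x hx => hC x hx) hb ha
  refine ⟨C, hC0, fun a b => ?_⟩
  set R := ‖a‖ + ‖b‖ with hR
  rcases eq_or_lt_of_le (show 0 ≤ R by positivity) with h0 | hpos
  · have ha : ‖a‖ = 0 := by have := norm_nonneg a; have := norm_nonneg b; linarith
    have hb : ‖b‖ = 0 := by have := norm_nonneg a; have := norm_nonneg b; linarith
    rw [norm_eq_zero] at ha hb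
    rw [ha, hb]
    simp
  · have haR : ‖R⁻¹ • a‖ ≤ 1 := by
      rw [norm_smul, norm_inv, Real.norm_of_nonneg hpos.le, inv_mul_le_iff₀ hpos]
      have := norm_nonneg b
      linarith
    have hbR : ‖R⁻¹ • b‖ ≤ 1 := by
      rw [norm_smul, norm_inv, Real.norm_of_nonneg hpos.le, inv_mul_le_iff₀ hpos]
      have := norm_nonneg a
      linarith
    have h1 := hl (R⁻¹ • a) (by simpa using haR) (R⁻¹ • b) (by simpa using hbR)
    have ea : p a = R ^ k • p (R⁻¹ • a) := by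
      rw [← hp.2, smul_smul, mul_inv_cancel₀ hpos.ne', one_smul]
    have eb : p b = R ^ k • p (R⁻¹ • b) := by
      rw [← hp.2, smul_smul, mul_inv_cancel₀ hpos.ne', one_smul]
    rw [ea, eb, ← smul_sub, norm_smul, Real.norm_of_nonneg (by positivity)]
    rw [← smul_sub, norm_smul, norm_inv, Real.norm_of_nonneg hpos.le] at h1
    obtain ⟨m, rfl⟩ : ∃ m, k = m + 1 := ⟨k - 1, by omega⟩
    calc R ^ (m + 1) * ‖p (R⁻¹ • a) - p (R⁻¹ • b)‖
        ≤ R ^ (m + 1) * (C * (R⁻¹ * ‖a - b‖)) := mul_le_mul_of_nonneg_left h1 (by positivity)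
      _ = C * R ^ (m + 1 - 1) * ‖a - b‖ := by
        rw [Nat.add_sub_cancel, pow_succ]
        field_simp

private lemma homMap_comp_sub {k : ℕ} (hk : 1 ≤ k) {p g g' : E → E} (hp : HomMap k p)
    (hg : Ord 1 g) (hg' : Ord 1 g') (h : Ord 2 (fun x => g x - g' x)) :
    Ord (k + 1) (fun x => p (g x) - p (g' x)) := by
  obtain ⟨C, hC0, hC⟩ := homMap_lip hk hp
  obtain ⟨A, hA0, hA⟩ := ord_nn hg
  obtain ⟨B, hB0, hB⟩ := ord_nn hg'
  obtain ⟨D, hD0, hD⟩ := ord_nn h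
  refine ⟨C * (A + B) ^ (k - 1) * D, ?_⟩
  filter_upwards [hA, hB, hD] with x h1 h2 h3
  obtain ⟨m, rfl⟩ : ∃ m, k = m + 1 := ⟨k - 1, by omega⟩
  rw [Nat.add_sub_cancel]
  have h4 : ‖g x‖ + ‖g' x‖ ≤ (A + B) * ‖x‖ := by
    rw [pow_one] at h1 h2
    linarith
  have h5 := hC (g x) (g' x)
  rw [Nat.add_sub_cancel] at h5
  calc ‖p (g x) - p (g' x)‖ ≤ C * (‖g x‖ + ‖g' x‖) ^ m * ‖g x - g' x‖ := h5
    _ ≤ C * ((A + B) * ‖x‖) ^ m * (D * ‖x‖ ^ 2) := by gcongr
    _ = C * (A + B) ^ m * D * ‖x‖ ^ (m + 1 + 1) := by rw [mul_pow]; ring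

omit [InnerProductSpace ℝ E] [FiniteDimensional ℝ E] in
private lemma smul_ord_sum {P : ℕ → E → E} {H : ℕ → E → E} (h0 : ∀ x, P 0 x + P 1 x = H 0 x)
    (hs : ∀ n x, P (n + 2) x = H (n + 1) x - H n x) (n : ℕ) (x : E) :
    ∑ j ∈ Finset.range (n + 2), P j x = H n x := by
  induction n with
  | zero => simp [Finset.sum_range_succ, h0]
  | succ n ih =>
    rw [Finset.sum_range_succ, ih, hs]
    abel

end

section
variable {E : Type*} [NormedAddCommGroup E] [InnerProductSpace ℝ E] [FiniteDimensional ℝ E]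
  {Γ : Type*} [Group Γ] {M : Type*} [TopologicalSpace M] [MulAction Γ M]
  {ρ : Γ →* (E ≃L[ℝ] E)}

private lemma formal_step (D : LocData (M := M) ρ) (hF : FormLin ρ) {k : ℕ} (hk : 2 ≤ k)
    {h : E → E} (hs : ContDiff ℝ ∞ h)
    (ho : ∀ γ, Ord k (fun x => h (D.F γ x) - ρ γ (h x))) :
    ∃ p : E → E, HomMap k p ∧
      ∀ γ, Ord (k + 1) (fun x => (h (D.F γ x) + p (D.F γ x)) - ρ γ (h x + p x)) := by
  have hFo : ∀ γ, Ord 1 (D.F γ) := fun γ => ord_one_of_deriv (D.F_deriv γ) (D.F_zero γ)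
  have hρo : ∀ γ, Ord 1 (fun x => ρ γ x) := fun γ =>
    ord_one_of_deriv (g := fun x => ρ γ x) ((ρ γ : E →L[ℝ] E).hasFDerivAt (x := (0 : E)))
      (by simp)
  have hF2 : ∀ γ, Ord 2 (fun x => D.F γ x - ρ γ x) := fun γ =>
    ord_two (D.F_smooth γ) (D.F_zero γ) (D.F_deriv γ)
  have hrs : ∀ γ, ContDiff ℝ ∞ (fun x => h (D.F γ x) - ρ γ (h x)) := fun γ =>
    (hs.comp (D.F_smooth γ)).sub ((ρ γ : E →L[ℝ] E).contDiff.comp hs)
  choose c hc1 hc2 using fun γ => ord_lead (hrs γ) (ho γ)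
  have hcoc : ∀ γ δ x, c (γ * δ) x = c γ (ρ δ x) + ρ γ (c δ x) := by
    intro γ δ
    have hom : HomMap k (fun x => c (γ * δ) x - (c γ (ρ δ x) + ρ γ (c δ x))) := by
      refine ⟨((hc1 _).1).sub ((((hc1 γ).1).comp (ρ δ : E →L[ℝ] E).contDiff).add
        ((ρ γ : E →L[ℝ] E).contDiff.comp (hc1 δ).1)), fun t x => ?_⟩
      simp only [(hc1 _).2, map_smul, smul_sub, smul_add]
    have hord : Ord (k + 1) (fun x => c (γ * δ) x - (c γ (ρ δ x) + ρ γ (c δ x))) := by
      have e1 := ord_neg (hc2 (γ * δ))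
      have e2 := ord_comp (hc2 γ) (hFo δ) (D.F_tendsto δ)
      have e3 := homMap_comp_sub (by omega) (hc1 γ) (hFo δ) (hρo δ) (hF2 δ)
      have e4 := ord_clm (ρ γ : E →L[ℝ] E) (hc2 δ)
      refine ord_congr' (ord_add (ord_add (ord_add e1 e2) e3) e4) ?_
      filter_upwards [D.F_mul γ δ] with x hx
      simp only [hx, map_mul, ContinuousLinearEquiv.coe_coe, map_sub]
      have : (ρ γ * ρ δ) (h x) = ρ γ (ρ δ (h x)) := rfl
      rw [this]
      abel
    intro x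
    have := homMap_eq_zero hom hord x
    exact sub_eq_zero.mp this
  obtain ⟨p, hp, hpc⟩ := hF k hk c hc1 hcoc
  refine ⟨p, hp, fun γ => ?_⟩
  have e3 := homMap_comp_sub (by omega) hp (hFo γ) (hρo γ) (hF2 γ)
  refine ord_congr' (ord_add (hc2 γ) e3) (Eventually.of_forall fun x => ?_)
  simp only [hpc γ x, map_add]
  abel

theorem exists_flat_coord (D : LocData (M := M) ρ) (hF : FormLin ρ) :
    ∃ h : E → E, ContDiff ℝ ∞ h ∧ h 0 = 0 ∧ HasFDerivAt h (ContinuousLinearMap.id ℝ E) 0 ∧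
      ∀ (γ : Γ) (k : ℕ), Ord k (fun x => h (D.F γ x) - ρ γ (h x)) := by
  have hFo : ∀ γ, Ord 1 (D.F γ) := fun γ => ord_one_of_deriv (D.F_deriv γ) (D.F_zero γ)
  let T : ℕ → Type _ := fun n => {h : E → E // ContDiff ℝ ∞ h ∧ h 0 = 0 ∧
    HasFDerivAt h (ContinuousLinearMap.id ℝ E) 0 ∧
    ∀ γ, Ord (n + 2) (fun x => h (D.F γ x) - ρ γ (h x))}
  have key : ∀ (n : ℕ) (h : T n), ∃ h' : T (n + 1), HomMap (n + 2) (fun x => h'.1 x - h.1 x) := by
    rintro n ⟨h, hs, h0, hd, ho⟩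
    obtain ⟨p, hp, hpo⟩ := formal_step D hF (by omega) hs ho
    have hpd : HasFDerivAt p (0 : E →L[ℝ] E) 0 := by
      have : ∀ m, Ord (m + 2) p → Ord 2 p := by
        intro m
        induction m with
        | zero => exact fun h => h
        | succ m ih => exact fun h => ih (ord_down h)
      exact deriv_zero_of_ord (this n (homMap_Ord hp))
    refine ⟨⟨fun x => h x + p x, hs.add hp.1, ?_, ?_, hpo⟩, ?_⟩
    · simp [h0, homMap_zero_at (by omega) hp]
    · have := hd.fun_add hpd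
      rw [add_zero] at this
      exact this
    · simpa using hp
  choose nx hnx using key
  let H0 : T 0 := ⟨fun x => x, contDiff_id, rfl, hasFDerivAt_id 0, fun γ =>
    ord_two (D.F_smooth γ) (D.F_zero γ) (D.F_deriv γ)⟩
  let H : ∀ n, T n := fun n => Nat.rec H0 (fun n h => nx n h) n
  have hH0 : (H 0).1 = fun x => x := rfl
  have hH : ∀ n, HomMap (n + 2) (fun x => (H (n + 1)).1 x - (H n).1 x) := fun n => hnx n (H n)
  let P : ℕ → E → E := fun j => match j with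
    | 0 => fun _ => 0
    | 1 => fun x => x
    | (n + 2) => fun x => (H (n + 1)).1 x - (H n).1 x
  have hP : ∀ k, HomMap k (P k) := by
    intro k
    match k with
    | 0 => exact ⟨contDiff_const, fun t x => by simp [P]⟩
    | 1 => exact ⟨contDiff_id, fun t x => by simp [P]⟩
    | (n + 2) => exact hH n
  have hsum : ∀ n x, ∑ j ∈ Finset.range (n + 2), P j x = (H n).1 x := fun n x =>
    smul_ord_sum (P := P) (H := fun n => (H n).1) (fun x => by simp [P, hH0])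
      (fun n x => rfl) n x
  obtain ⟨h, hs, hb⟩ := borel P hP
  have hb' : ∀ n, Ord (n + 2) (fun x => h x - (H n).1 x) := by
    intro n
    have := hb (n + 1)
    simp only [show n + 1 + 1 = n + 2 from rfl, hsum] at this
    exact this
  have h0 : h 0 = 0 := by
    obtain ⟨C, hC⟩ := hb' 0
    have := hC.self_of_nhds
    simp only [hH0, norm_zero] at this
    norm_num at this
    exact this
  refine ⟨h, hs, h0, ?_, ?_⟩
  · have h1 := (deriv_zero_of_ord (hb' 0)).add (hasFDerivAt_id (0 : E) (𝕜 := ℝ))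
    have : (fun x => h x - (H 0).1 x) + id = h := by
      funext x
      simp [hH0]
    rw [this, zero_add] at h1
    exact h1
  · intro γ k
    have e1 := ord_comp (hb' k) (hFo γ) (D.F_tendsto γ)
    have e2 := (H k).2.2.2.2 γ
    have e3 := ord_clm (ρ γ : E →L[ℝ] E) (hb' k)
    have e4 : Ord (k + 2) (fun x => h (D.F γ x) - ρ γ (h x)) := by
      refine ord_congr' (ord_sub (ord_add e1 e2) e3) (Eventually.of_forall fun x => ?_)
      simp only [ContinuousLinearEquiv.coe_coe, map_sub]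
      abel
    exact ord_down (ord_down e4)

theorem exists_flat (D : LocData (M := M) ρ) (hF : FormLin ρ) :
    ∃ D' : LocData (M := M) ρ, D'.IsFlat ∧ (D'.Lin → D.Lin) ∧ (D'.Unique → D.Unique) := by
  obtain ⟨h, hs, h0, hd, ho⟩ := exists_flat_coord D hF
  obtain ⟨D', _, hF', hL, hU⟩ := D.change_coord h hs h0 hd
  refine ⟨D', fun γ => ?_, hL, hU⟩
  have hsm : ContDiff ℝ ∞ (fun x => D'.F γ x - ρ γ x) :=
    (D'.F_smooth γ).sub (ρ γ : E →L[ℝ] E).contDiff
  have : CompleteSpace E := FiniteDimensional.complete ℝ E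
  have hstrict : HasStrictFDerivAt h ((ContinuousLinearEquiv.refl ℝ E : E ≃L[ℝ] E) : E →L[ℝ] E) 0 :=
    (hs.contDiffAt (x := (0 : E))).hasStrictFDerivAt' hd (by simp)
  have hmap : map h (𝓝 0) = 𝓝 (0 : E) := by
    have := hstrict.map_nhds_eq_of_equiv
    rwa [h0] at this
  have hlow : ∀ᶠ x in 𝓝 (0 : E), ‖x‖ ≤ 2 * ‖h x‖ := by
    have h1 := hd.isLittleO.def (c := 1 / 2) (by norm_num)
    filter_upwards [h1] with x hx
    simp only [h0, sub_zero, ContinuousLinearMap.id_apply] at hx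
    have h2 : ‖x‖ - ‖h x‖ ≤ ‖h x - x‖ := by
      have := norm_sub_norm_le x (h x)
      rwa [norm_sub_rev] at this
    linarith
  refine flat_of_ord hsm fun k => ?_
  obtain ⟨C, hC0, hC⟩ := ord_nn (ho γ k)
  refine ⟨C * 2 ^ k, ?_⟩
  rw [← hmap, eventually_map]
  filter_upwards [hC, hlow, hF' γ] with x h1 h2 h3
  rw [h3]
  calc ‖h (D.F γ x) - ρ γ (h x)‖ ≤ C * ‖x‖ ^ k := h1
    _ ≤ C * (2 * ‖h x‖) ^ k :=
        mul_le_mul_of_nonneg_left (pow_le_pow_left₀ (norm_nonneg _) h2 k) hC0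
    _ = C * 2 ^ k * ‖h x‖ ^ k := by rw [mul_pow]; ring

end
end LatLin
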