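import Pool.Agent.Lib.MP_2392aa_gt.C.Jet
import Pool.Agent.Lib.MP_2392aa_gt.C.Grp

/-!
MP_2392aa_gt, core, module Track (about 200 lines): real positions along a chain of generators.

PROOFS.
`track`: for `s ∈ S` (finite) there is `r1 ∈ (0, min 1 r0)` with `s • χ y = χ (F s y)` for
`‖y‖ < r1` (`F_act`), and by `flat_bound_set` (with `K = {0}`, `z = 0`, `j = 0`) constants with
`‖F s y - ρ s y‖ ≤ C ‖y‖ ^ N` for `‖y‖ < r1`. Define `xs 0 = x0`,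
`xs (k+1) = F (δ (k+1) * (δ k)⁻¹) (xs k)` for all `k`. With `e k := xs k - ρ (δ k) x`:
`e (k+1) = ρ s (e k) + (F s - ρ s) (xs k)`, `s = δ (k+1) (δ k)⁻¹`, so for `k ≤ m`
`e k = ρ (δ k (δ 0)⁻¹) (e 0) + ∑ l < k, ρ (δ k (δ (l+1))⁻¹) (g l)`, `g l := (F s - ρ s) (xs l)`
(prove this identity first, by induction, for all `k`). Strong induction on `k ≤ m`: if
`‖xs l‖ ≤ 2 c` for `l < k` then `‖g l‖ ≤ C (2 c) ^ N` and
`‖e k‖ ≤ K ε + k K C (2 c) ^ N ≤ K (ε + m C (2 c) ^ N) ≤ c`, hence `‖xs k‖ ≤ 2 c`. `χ`: induction.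
`chain_cost`: telescoping sum:
`(ρ (δ (k+1)))⁻¹ (φ (xs (k+1))) - (ρ (δ k))⁻¹ (φ (xs k))
 = (ρ (δ (k+1)))⁻¹ (φ (F s (xs k)) - ρ s (φ (xs k)))` with `s = δ (k+1) (δ k)⁻¹`.
-/

open scoped ContDiff Topology
open Metric Filter

namespace LatLin

section
variable {E : Type*} [NormedAddCommGroup E] [InnerProductSpace ℝ E] [FiniteDimensional ℝ E]
  {Γ : Type*} [Group Γ] {M : Type*} [TopologicalSpace M] [MulAction Γ M]
  {ρ : Γ →* (E ≃L[ℝ] E)}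

omit [FiniteDimensional ℝ E] in
private theorem rho_mul_apply (a b : Γ) (x : E) : ρ (a * b) x = ρ a (ρ b x) := by
  rw [map_mul]; rfl

omit [FiniteDimensional ℝ E] in
private theorem track_sum (D : LocData (M := M) ρ) (δ : ℕ → Γ) (x : E) (xs : ℕ → E)
    (hxs : ∀ k, xs (k + 1) = D.F (δ (k + 1) * (δ k)⁻¹) (xs k)) (k : ℕ) :
    xs k - ρ (δ k) x = ρ (δ k * (δ 0)⁻¹) (xs 0 - ρ (δ 0) x) +
      ∑ l ∈ Finset.range k, ρ (δ k * (δ (l + 1))⁻¹)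
        (D.F (δ (l + 1) * (δ l)⁻¹) (xs l) - ρ (δ (l + 1) * (δ l)⁻¹) (xs l)) := by
  induction k with
  | zero =>
    have h1 : ρ (δ 0 * (δ 0)⁻¹) (xs 0 - ρ (δ 0) x) = xs 0 - ρ (δ 0) x := by
      rw [mul_inv_cancel, map_one]; rfl
    rw [h1]; simp
  | succ k ih =>
    have e1 : xs (k + 1) - ρ (δ (k + 1)) x =
        (D.F (δ (k + 1) * (δ k)⁻¹) (xs k) - ρ (δ (k + 1) * (δ k)⁻¹) (xs k)) +
          ρ (δ (k + 1) * (δ k)⁻¹) (xs k - ρ (δ k) x) := by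
      rw [map_sub, ← rho_mul_apply, hxs k]
      rw [show δ (k + 1) * (δ k)⁻¹ * δ k = δ (k + 1) by group]
      abel
    rw [e1, ih, Finset.sum_range_succ, map_add, map_sum, ← rho_mul_apply]
    have e2 : δ (k + 1) * (δ k)⁻¹ * (δ k * (δ 0)⁻¹) = δ (k + 1) * (δ 0)⁻¹ := by group
    rw [e2]
    have e3 : ∀ l ∈ Finset.range k, ρ (δ (k + 1) * (δ k)⁻¹) (ρ (δ k * (δ (l + 1))⁻¹)
        (D.F (δ (l + 1) * (δ l)⁻¹) (xs l) - ρ (δ (l + 1) * (δ l)⁻¹) (xs l))) =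
        ρ (δ (k + 1) * (δ (l + 1))⁻¹)
        (D.F (δ (l + 1) * (δ l)⁻¹) (xs l) - ρ (δ (l + 1) * (δ l)⁻¹) (xs l)) := by
      intro l _
      rw [← rho_mul_apply]
      rw [show δ (k + 1) * (δ k)⁻¹ * (δ k * (δ (l + 1))⁻¹) = δ (k + 1) * (δ (l + 1))⁻¹ by group]
    rw [Finset.sum_congr rfl e3]
    have e4 : ρ (δ (k + 1) * (δ (k + 1))⁻¹)
        (D.F (δ (k + 1) * (δ k)⁻¹) (xs k) - ρ (δ (k + 1) * (δ k)⁻¹) (xs k)) =
        (D.F (δ (k + 1) * (δ k)⁻¹) (xs k) - ρ (δ (k + 1) * (δ k)⁻¹) (xs k)) := by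
      rw [mul_inv_cancel, map_one]; rfl
    rw [e4]
    abel

theorem track (D : LocData (M := M) ρ) (hD : D.IsFlat) (S : Set Γ) (hS : S.Finite) :
    ∃ r1 : ℝ, 0 < r1 ∧ r1 ≤ D.r0 ∧ r1 ≤ 1 ∧ ∀ N : ℕ, ∃ C : ℝ, 0 ≤ C ∧
      ∀ (x x0 : E) (m : ℕ) (δ : ℕ → Γ) (c K ε : ℝ), 0 ≤ ε → 1 ≤ K →
        (∀ k < m, δ (k + 1) * (δ k)⁻¹ ∈ S) → (∀ k ≤ m, ‖ρ (δ k) x‖ ≤ c) →
        (∀ k l, k ≤ l → l ≤ m → ‖(ρ (δ l * (δ k)⁻¹) : E →L[ℝ] E)‖ ≤ K) →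
        ‖x0 - ρ (δ 0) x‖ ≤ ε → D.χ x0 = δ 0 • D.χ x → 2 * c < r1 →
        K * (ε + m * C * (2 * c) ^ N) ≤ c →
        ∃ xs : ℕ → E, xs 0 = x0 ∧ (∀ k < m, xs (k + 1) = D.F (δ (k + 1) * (δ k)⁻¹) (xs k)) ∧
          ∀ k ≤ m, ‖xs k - ρ (δ k) x‖ ≤ K * (ε + m * C * (2 * c) ^ N) ∧ ‖xs k‖ ≤ 2 * c ∧
            D.χ (xs k) = δ k • D.χ x := by
  have hev : ∀ᶠ y in 𝓝 (0 : E), ∀ s ∈ S, s • D.χ y = D.χ (D.F s y) :=
    (Filter.eventually_all_finite hS).2 (fun s _ => D.F_act s)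
  obtain ⟨r, hr, hact⟩ := Metric.eventually_nhds_iff_ball.1 hev
  have hr0 := D.r0_pos
  refine ⟨min (min r D.r0) 1, lt_min (lt_min hr hr0) one_pos,
    (min_le_left _ _).trans (min_le_right _ _), min_le_right _ _, ?_⟩
  set r1 : ℝ := min (min r D.r0) 1 with hr1
  have hr1r : r1 ≤ r := (min_le_left _ _).trans (min_le_left _ _)
  intro N
  have hb : ∀ s : Γ, ∃ C : ℝ, 0 ≤ C ∧ ∀ y ∈ ball (0 : E) r1, ‖D.F s y - ρ s y‖ ≤ C * ‖y‖ ^ N := by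
    intro s
    have hsm : ContDiff ℝ ∞ (fun y => D.F s y - ρ s y) :=
      (D.F_smooth s).sub (ρ s : E →L[ℝ] E).contDiff
    obtain ⟨C, hC0, hC⟩ := flat_bound_set (fun y => D.F s y - ρ s y) hsm {0}
      (by intro z hz k; rw [Set.mem_singleton_iff.1 hz]; exact hD s k) 0 N r1
    refine ⟨C, hC0, ?_⟩
    intro y hy
    have h := hC y hy 0 rfl (mem_ball_self (lt_min (lt_min hr hr0) one_pos))
    rw [norm_iteratedFDeriv_zero, sub_zero] at h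
    exact h
  choose Cf hCf0 hCf using hb
  set C : ℝ := ∑ s ∈ hS.toFinset, Cf s with hCdef
  have hC0 : 0 ≤ C := Finset.sum_nonneg (fun s _ => hCf0 s)
  have hCs : ∀ s ∈ S, ∀ y ∈ ball (0 : E) r1, ‖D.F s y - ρ s y‖ ≤ C * ‖y‖ ^ N := by
    intro s hs y hy
    refine (hCf s y hy).trans ?_
    apply mul_le_mul_of_nonneg_right _ (by positivity)
    exact Finset.single_le_sum (f := Cf) (fun i _ => hCf0 i) (hS.mem_toFinset.2 hs)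
  refine ⟨C, hC0, ?_⟩
  intro x x0 m δ c K ε hε hK hδ hc hKb h0 hχ0 hcr hKc
  let xs : ℕ → E := fun k => Nat.rec x0 (fun k y => D.F (δ (k + 1) * (δ k)⁻¹) y) k
  have hxs0 : xs 0 = x0 := rfl
  have hxs : ∀ k, xs (k + 1) = D.F (δ (k + 1) * (δ k)⁻¹) (xs k) := fun k => rfl
  have hc0 : 0 ≤ c := (norm_nonneg _).trans (hc 0 (Nat.zero_le m))
  refine ⟨xs, hxs0, fun k _ => hxs k, ?_⟩
  intro k
  induction k using Nat.strong_induction_on with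
  | _ k ih =>
    intro hk
    have hg : ∀ l ∈ Finset.range k, ‖ρ (δ k * (δ (l + 1))⁻¹)
        (D.F (δ (l + 1) * (δ l)⁻¹) (xs l) - ρ (δ (l + 1) * (δ l)⁻¹) (xs l))‖ ≤
        K * (C * (2 * c) ^ N) := by
      intro l hl
      have hl' : l < k := Finset.mem_range.1 hl
      obtain ⟨_, hl2, _⟩ := ih l hl' (by omega)
      have hmem : xs l ∈ ball (0 : E) r1 := by
        rw [mem_ball_zero_iff]; exact lt_of_le_of_lt hl2 hcr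
      have h1 := hCs _ (hδ l (by omega)) (xs l) hmem
      have h2 : ‖D.F (δ (l + 1) * (δ l)⁻¹) (xs l) - ρ (δ (l + 1) * (δ l)⁻¹) (xs l)‖ ≤
          C * (2 * c) ^ N := by
        refine h1.trans ?_
        apply mul_le_mul_of_nonneg_left _ hC0
        exact pow_le_pow_left₀ (norm_nonneg _) hl2 N
      have h3 : ‖(ρ (δ k * (δ (l + 1))⁻¹) : E →L[ℝ] E)‖ ≤ K := hKb (l + 1) k (by omega) hk
      refine ((ρ (δ k * (δ (l + 1))⁻¹) : E →L[ℝ] E).le_opNorm _).trans ?_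
      exact mul_le_mul h3 h2 (norm_nonneg _) (by linarith)
    have hfirst : ‖ρ (δ k * (δ 0)⁻¹) (xs 0 - ρ (δ 0) x)‖ ≤ K * ε := by
      calc ‖ρ (δ k * (δ 0)⁻¹) (xs 0 - ρ (δ 0) x)‖
          ≤ ‖(ρ (δ k * (δ 0)⁻¹) : E →L[ℝ] E)‖ * ‖xs 0 - ρ (δ 0) x‖ :=
            (ρ (δ k * (δ 0)⁻¹) : E →L[ℝ] E).le_opNorm _
        _ ≤ K * ε := mul_le_mul (hKb 0 k (Nat.zero_le k) hk) h0 (norm_nonneg _) (by linarith)
    have hpw : 0 ≤ C * (2 * c) ^ N := mul_nonneg hC0 (by positivity)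
    have he : ‖xs k - ρ (δ k) x‖ ≤ K * (ε + m * C * (2 * c) ^ N) := by
      rw [track_sum D δ x xs hxs k]
      calc ‖ρ (δ k * (δ 0)⁻¹) (xs 0 - ρ (δ 0) x) +
            ∑ l ∈ Finset.range k, ρ (δ k * (δ (l + 1))⁻¹)
              (D.F (δ (l + 1) * (δ l)⁻¹) (xs l) - ρ (δ (l + 1) * (δ l)⁻¹) (xs l))‖
          ≤ K * ε + ∑ l ∈ Finset.range k, K * (C * (2 * c) ^ N) :=
            (norm_add_le _ _).trans (add_le_add hfirst (norm_sum_le_of_le _ hg))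
        _ = K * (ε + k * (C * (2 * c) ^ N)) := by
            rw [Finset.sum_const, Finset.card_range, nsmul_eq_mul]; ring
        _ ≤ K * (ε + m * (C * (2 * c) ^ N)) := by
            apply mul_le_mul_of_nonneg_left _ (by linarith)
            have : (k : ℝ) ≤ m := by exact_mod_cast hk
            have := mul_le_mul_of_nonneg_right this hpw
            linarith
        _ = K * (ε + m * C * (2 * c) ^ N) := by ring
    refine ⟨he, ?_, ?_⟩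
    · have h1 : xs k = (xs k - ρ (δ k) x) + ρ (δ k) x := by abel
      rw [h1]
      refine (norm_add_le _ _).trans ?_
      have := hc k hk
      linarith
    · cases k with
      | zero => exact hχ0
      | succ j =>
        obtain ⟨_, hj2, hj3⟩ := ih j (Nat.lt_succ_self j) (by omega)
        have hmem : xs j ∈ ball (0 : E) r := by
          rw [mem_ball_zero_iff]
          exact lt_of_lt_of_le (lt_of_le_of_lt hj2 hcr) hr1r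
        rw [hxs j, ← hact (xs j) hmem _ (hδ j (by omega)), hj3, smul_smul]
        congr 1
        group

theorem chain_cost (D : LocData (M := M) ρ) (φ : E → E) (S : Set Γ) (κ r1 : ℝ) (N : ℕ)
    (hE : ∀ s ∈ S, ∀ y ∈ ball (0 : E) r1, ‖φ (D.F s y) - ρ s (φ y)‖ ≤ κ * ‖y‖ ^ N)
    (m : ℕ) (δ : ℕ → Γ) (hδ : ∀ k < m, δ (k + 1) * (δ k)⁻¹ ∈ S) (xs : ℕ → E)
    (hxs : ∀ k < m, xs (k + 1) = D.F (δ (k + 1) * (δ k)⁻¹) (xs k))
    (hr : ∀ k ≤ m, xs k ∈ ball (0 : E) r1) :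
    ‖(ρ (δ m))⁻¹ (φ (xs m)) - (ρ (δ 0))⁻¹ (φ (xs 0))‖ ≤
      ∑ k ∈ Finset.range m,
        ‖(((ρ (δ (k + 1)))⁻¹ : E ≃L[ℝ] E) : E →L[ℝ] E)‖ * (κ * ‖xs k‖ ^ N) := by
  rw [← Finset.sum_range_sub (fun k => (ρ (δ k))⁻¹ (φ (xs k))) m]
  apply norm_sum_le_of_le
  intro k hk
  have hk' : k < m := Finset.mem_range.1 hk
  have h1 : (ρ (δ (k + 1)))⁻¹ (φ (xs (k + 1))) - (ρ (δ k))⁻¹ (φ (xs k)) =
      (ρ (δ (k + 1)))⁻¹ (φ (D.F (δ (k + 1) * (δ k)⁻¹) (xs k)) -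
        ρ (δ (k + 1) * (δ k)⁻¹) (φ (xs k))) := by
    rw [map_sub, hxs k hk']
    congr 1
    rw [← map_inv, ← map_inv, ← rho_mul_apply]
    congr 2
    group
  rw [h1]
  calc ‖(ρ (δ (k + 1)))⁻¹ (φ (D.F (δ (k + 1) * (δ k)⁻¹) (xs k)) -
        ρ (δ (k + 1) * (δ k)⁻¹) (φ (xs k)))‖
      ≤ ‖(((ρ (δ (k + 1)))⁻¹ : E ≃L[ℝ] E) : E →L[ℝ] E)‖ *
        ‖φ (D.F (δ (k + 1) * (δ k)⁻¹) (xs k)) - ρ (δ (k + 1) * (δ k)⁻¹) (φ (xs k))‖ :=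
        (((ρ (δ (k + 1)))⁻¹ : E ≃L[ℝ] E) : E →L[ℝ] E).le_opNorm _
    _ ≤ _ := by
        apply mul_le_mul_of_nonneg_left _ (norm_nonneg _)
        exact hE _ (hδ k hk') _ (hr k hk'.le)

end
end LatLin
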