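import Pool.Agent.Lib.MP_2392aa_gt.C.CexDef

/-!
MP_2392aa_gt, module CexA (about 200 lines): the linear action of a subgroup of finite index of
`SL_n(ℤ)` on the complement of the nonzero integral vectors.

PROOF of `cexZ_exists`. `M : TopologicalSpace.Opens (En (Fin n))` is the complement of
`C = {x | x ≠ 0 ∧ ∀ i, ∃ m : ℤ, x i = m}`. `C` is closed: distinct points of `C` have distance at least
`1` (or: the integral vectors are the image of a closed set, `x ↦ x i` continuous and `Set.range Int.cast`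
closed in `ℝ` (`Int.isClosedEmbedding_coe_real`), and `0` has the neighbourhood `ball 0 1` which meets
the integral vectors only in `0`, a nonzero integral vector has norm at least one).
`C` is invariant under `slG (Fin n) g`, `g ∈ SLnZ n`, and the inverse. The action: `γ • x := ⟨slG _ γ x, _⟩`.
Smoothness of `x ↦ γ • x`: `TopologicalSpace.Opens` inherits the charts (restrictions of the identity),
`contMDiff_subtype_val` etc.; for a map into an open subset see `ContMDiff` lemmas for open embeddings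
(`IsOpenEmbedding`/`contMDiffAt_subtype_iff`), or directly with charts.
Derivative: unfold `mfderiv` (`MDifferentiableAt` from smoothness): `writtenInExtChartAt` of
`x ↦ γ • x` at `p = ⟨0, _⟩` agrees near `0` with `slG _ γ`, its derivative at `0` is `slG _ γ`.
Fixed points: if `γ • x = x` for all `γ ∈ Γ`: `Γ` contains for `i ≠ j` an elementary matrix
`1 + N E_ij`, `N ≠ 0` (`Γ` has finite index in `SLnZ n`: pigeonhole, a power of `1 + E_ij` lies in `Γ`,
`Subgroup.exists_pow_mem_of_relIndex_ne_zero` or `Subgroup.exists_pow_mem_of_index_ne_zero`), so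
`x j = 0` for all `j` (`n ≥ 2`).
-/

open scoped ContDiff Topology Manifold
open LatN (En)

namespace LatLin

section
variable {n : ℕ}

private theorem slG_coord (g : Matrix.SpecialLinearGroup (Fin n) ℝ) (x : En (Fin n)) (i : Fin n) :
    (slG (Fin n) g x) i = ∑ j, g.1 i j * x j := by
  change (Matrix.toEuclideanCLM (n := Fin n) (𝕜 := ℝ) g.1 x) i = _
  rw [Matrix.ofLp_toEuclideanCLM]
  rfl

private theorem intV_slG {g : Matrix.SpecialLinearGroup (Fin n) ℝ} (hg : g ∈ SLnZ n)
    {x : En (Fin n)} (hx : x ∈ intV n) : slG (Fin n) g x ∈ intV n := by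
  obtain ⟨h, rfl⟩ := hg
  refine ⟨fun h0 => hx.1 ((slG (Fin n) _).injective (by rw [h0, map_zero])), fun i => ?_⟩
  choose m hm using hx.2
  refine ⟨∑ j, h.1 i j * m j, ?_⟩
  rw [slG_coord]
  push_cast
  refine Finset.sum_congr rfl fun j _ => ?_
  rw [hm]
  rfl

private theorem isClosed_intV : IsClosed (intV n) := by
  have h : intV n = {x : En (Fin n) | ∀ i, x i ∈ Set.range ((↑) : ℤ → ℝ)} ∩
      (Metric.ball (0 : En (Fin n)) 1)ᶜ := by
    ext x
    constructor
    · rintro ⟨h1, h2⟩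
      refine ⟨fun i => ?_, ?_⟩
      · obtain ⟨m, hm⟩ := h2 i
        exact ⟨m, hm.symm⟩
      · intro hx
        rw [mem_ball_zero_iff] at hx
        apply h1
        ext i
        obtain ⟨m, hm⟩ := h2 i
        have h3 : ‖x i‖ ≤ ‖x‖ := PiLp.norm_apply_le x i
        rw [hm, Real.norm_eq_abs] at h3
        have h4 : |(m : ℝ)| < 1 := lt_of_le_of_lt h3 hx
        have h5 : |m| < 1 := by exact_mod_cast h4
        have h6 : m = 0 := Int.abs_lt_one_iff.1 h5
        rw [hm, h6]
        simp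
    · rintro ⟨h1, h2⟩
      refine ⟨fun h0 => h2 ?_, fun i => ?_⟩
      · rw [h0]
        exact Metric.mem_ball_self one_pos
      · obtain ⟨m, hm⟩ := h1 i
        exact ⟨m, hm.symm⟩
  rw [h]
  refine IsClosed.inter ?_ Metric.isOpen_ball.isClosed_compl
  rw [Set.ofPred_forall]
  refine isClosed_iInter fun i => ?_
  exact Int.isClosedEmbedding_coe_real.isClosed_range.preimage
    (show Continuous fun x : En (Fin n) => x i by fun_prop)

private theorem notin_slG {g : Matrix.SpecialLinearGroup (Fin n) ℝ} (hg : g ∈ SLnZ n)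
    {x : En (Fin n)} (hx : x ∉ intV n) : slG (Fin n) g x ∉ intV n := by
  intro h
  apply hx
  have h1 := intV_slG ((SLnZ n).inv_mem hg) h
  have h2 : slG (Fin n) g⁻¹ (slG (Fin n) g x) = x := by
    change (slG (Fin n) g⁻¹ * slG (Fin n) g) x = x
    rw [← map_mul, inv_mul_cancel, map_one]
    rfl
  rwa [h2] at h1

private theorem pow_transv {i j : Fin n} (hij : i ≠ j) (k : ℕ) :
    ((Matrix.SpecialLinearGroup.transvection hij (1 : ℤ)) ^ k).1 =
      Matrix.transvection i j (k : ℤ) := by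
  induction k with
  | zero => simp [Matrix.transvection]
  | succ k ih =>
    rw [pow_succ, Matrix.SpecialLinearGroup.coe_mul, ih]
    change Matrix.transvection i j (k : ℤ) * Matrix.transvection i j (1 : ℤ) = _
    rw [Matrix.transvection_mul_transvection_same _ _ hij]
    push_cast
    rfl

/-- the linear action on the complement of the nonzero integral vectors -/
theorem cexZ_exists (hn : 2 ≤ n) (Γ : Subgroup (Matrix.SpecialLinearGroup (Fin n) ℝ))
    (h1 : Γ ≤ SLnZ n) (h2 : Γ.relIndex (SLnZ n) ≠ 0) :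
    ∃ (M : TopologicalSpace.Opens (En (Fin n))) (_ : MulAction Γ M) (p : M),
      (∀ x : En (Fin n), x ∈ M ↔ x ∉ intV n) ∧ (p : En (Fin n)) = 0 ∧
      (∀ (γ : Γ) (x : M), ((γ • x : M) : En (Fin n)) = slG (Fin n) γ (x : En (Fin n))) ∧
      (∀ γ : Γ, ContMDiff 𝓘(ℝ, En (Fin n)) 𝓘(ℝ, En (Fin n)) ∞ (fun x : M => γ • x)) ∧
      (∀ γ : Γ, γ • p = p) ∧ (∀ x : M, (∀ γ : Γ, γ • x = x) → x = p) ∧
      ∀ (γ : Γ) (v : En (Fin n)), (mfderiv 𝓘(ℝ, En (Fin n)) 𝓘(ℝ, En (Fin n))
        (fun x : M => γ • x) p : En (Fin n) →L[ℝ] En (Fin n)) v = slG (Fin n) γ v := by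
  let M : TopologicalSpace.Opens (En (Fin n)) := ⟨(intV n)ᶜ, isClosed_intV.isOpen_compl⟩
  let act : MulAction Γ M :=
    { smul := fun γ x => ⟨slG (Fin n) γ.1 x.1, notin_slG (h1 γ.2) x.2⟩
      one_smul := fun x => Subtype.ext (by
        change slG (Fin n) (1 : Matrix.SpecialLinearGroup (Fin n) ℝ) x.1 = x.1
        rw [map_one]
        rfl)
      mul_smul := fun γ δ x => Subtype.ext (by
        change slG (Fin n) (γ.1 * δ.1) x.1 = slG (Fin n) γ.1 (slG (Fin n) δ.1 x.1)
        rw [map_mul]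
        rfl) }
  have hp0 : (0 : En (Fin n)) ∈ M := fun h => h.1 rfl
  let p : M := ⟨0, hp0⟩
  have hact : ∀ (γ : Γ) (x : M), ((γ • x : M) : En (Fin n)) = slG (Fin n) γ (x : En (Fin n)) :=
    fun γ x => rfl
  have hfix : ∀ γ : Γ, γ • p = p := fun γ => Subtype.ext (by
    rw [hact]
    exact map_zero _)
  have hsm : ∀ γ : Γ, ContMDiff 𝓘(ℝ, En (Fin n)) 𝓘(ℝ, En (Fin n)) ∞ (fun x : M => γ • x) := by
    intro γ x
    rw [← ContMDiffAt.subtypeVal_comp_iff]
    have h3 : ContMDiff 𝓘(ℝ, En (Fin n)) 𝓘(ℝ, En (Fin n)) ∞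
        (fun x : M => slG (Fin n) γ.1 (x : En (Fin n))) :=
      (slG (Fin n) γ.1).contDiff.contMDiff.comp contMDiff_subtype_val
    exact h3 x
  refine ⟨M, act, p, fun x => Iff.rfl, rfl, hact, hsm, hfix, ?_, ?_⟩
  · intro x hx
    apply Subtype.ext
    change (x : En (Fin n)) = 0
    ext j
    have : Nontrivial (Fin n) := Fin.nontrivial_iff_two_le.2 hn
    obtain ⟨i, hij⟩ := exists_ne j
    have hg : Matrix.SpecialLinearGroup.map (n := Fin n) (Int.castRingHom ℝ)
        (Matrix.SpecialLinearGroup.transvection hij 1) ∈ SLnZ n := ⟨_, rfl⟩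
    obtain ⟨k, hk, -, hkΓ, -⟩ := Subgroup.exists_pow_mem_of_relIndex_ne_zero h2 hg
    rw [← map_pow] at hkΓ
    have h4 := congrArg (fun y : M => (y : En (Fin n)) i) (hx ⟨_, hkΓ⟩)
    change (slG (Fin n) (Matrix.SpecialLinearGroup.map (n := Fin n) (Int.castRingHom ℝ)
      ((Matrix.SpecialLinearGroup.transvection hij 1) ^ k)) (x : En (Fin n))) i =
      (x : En (Fin n)) i at h4
    rw [slG_coord] at h4
    have h5 : ∀ l, (Matrix.SpecialLinearGroup.map (n := Fin n) (Int.castRingHom ℝ)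
        ((Matrix.SpecialLinearGroup.transvection hij 1) ^ k)).1 i l =
        (if i = l then 1 else 0) + (if j = l then (k : ℝ) else 0) := by
      intro l
      change (((((Matrix.SpecialLinearGroup.transvection hij (1 : ℤ)) ^ k).1 i l : ℤ)) : ℝ) = _
      rw [pow_transv hij k]
      simp only [Matrix.transvection, Matrix.add_apply, Matrix.one_apply, Matrix.single_apply,
        true_and]
      push_cast
      rfl
    simp only [h5, add_mul, ite_mul, one_mul, zero_mul, Finset.sum_add_distrib,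
      Finset.sum_ite_eq, Finset.mem_univ, if_true] at h4
    have h6 : (k : ℝ) * (x : En (Fin n)) j = 0 := by linarith
    have h7 : (k : ℝ) ≠ 0 := by exact_mod_cast hk.ne'
    exact (mul_eq_zero.1 h6).resolve_left h7
  · intro γ v
    have hmd : MDifferentiableAt 𝓘(ℝ, En (Fin n)) 𝓘(ℝ, En (Fin n)) (fun x : M => γ • x) p :=
      (hsm γ p).mdifferentiableAt (by simp)
    have hD : HasMFDerivAt 𝓘(ℝ, En (Fin n)) 𝓘(ℝ, En (Fin n)) (fun x : M => γ • x) p
        (slG (Fin n) γ.1 : En (Fin n) →L[ℝ] En (Fin n)) := by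
      refine ⟨hmd.continuousAt, ?_⟩
      have he : ∀ (q z : M), extChartAt 𝓘(ℝ, En (Fin n)) q z = (z : En (Fin n)) := fun q z => rfl
      have h3 : ∀ᶠ y in 𝓝 (0 : En (Fin n)),
          writtenInExtChartAt 𝓘(ℝ, En (Fin n)) 𝓘(ℝ, En (Fin n)) p (fun x : M => γ • x) y =
            slG (Fin n) γ.1 y := by
        have h4 : (extChartAt 𝓘(ℝ, En (Fin n)) p).target ∈ 𝓝 (0 : En (Fin n)) :=
          extChartAt_target_mem_nhds (I := 𝓘(ℝ, En (Fin n))) p
        filter_upwards [h4] with y hy
        have h5 := (extChartAt 𝓘(ℝ, En (Fin n)) p).right_inv hy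
        rw [he] at h5
        change extChartAt 𝓘(ℝ, En (Fin n)) (γ • p)
          (γ • ((extChartAt 𝓘(ℝ, En (Fin n)) p).symm y)) = _
        rw [he, hact, h5]
      have h6 : HasFDerivAt (writtenInExtChartAt 𝓘(ℝ, En (Fin n)) 𝓘(ℝ, En (Fin n)) p
          (fun x : M => γ • x)) (slG (Fin n) γ.1 : En (Fin n) →L[ℝ] En (Fin n))
          (0 : En (Fin n)) :=
        (slG (Fin n) γ.1).hasFDerivAt.congr_of_eventuallyEq h3
      exact h6.hasFDerivWithinAt
    rw [hD.mfderiv]
    rfl

end
end LatLin
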