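import Pool.Agent.Lib.MP_2392aa_gt.C.FinB

/-! MP_2392aa_gt: definition for the counterexample to the second question. -/

open LatN (En)

namespace LatLin

/-- the nonzero integral vectors -/
def intV (n : ℕ) : Set (En (Fin n)) := {x | x ≠ 0 ∧ ∀ i, ∃ m : ℤ, x i = m}

end LatLin
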