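import Mathlib

/-!
MP_2392aa_gt: the free subgroup of finite index of `SL_2(ℤ)` generated by the matrices
`[[1, 2], [0, 1]]` and `[[1, 0], [2, 1]]` (helper81).
-/

open scoped Pointwise
open scoped Function

namespace LatLin

/-- first generator -/
def SA : Matrix.SpecialLinearGroup (Fin 2) ℤ := ⟨!![1, 2; 0, 1], by decide⟩

/-- second generator -/
def SB : Matrix.SpecialLinearGroup (Fin 2) ℤ := ⟨!![1, 0; 2, 1], by decide⟩

/-- the generators -/
def sGen (b : Bool) : Matrix.SpecialLinearGroup (Fin 2) ℤ := if b then SA else SB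

/-- the homomorphism of the free group -/
def san : FreeGroup Bool →* Matrix.SpecialLinearGroup (Fin 2) ℤ := FreeGroup.lift sGen

/-- ping-pong sets -/
def pX (b : Bool) : Set (Matrix.SpecialLinearGroup (Fin 2) ℤ) :=
  {g | 0 ≤ g.1 0 0 * g.1 1 0 ∧ if b then (g.1 1 0) ^ 2 ≤ (g.1 0 0) ^ 2 else
    (g.1 0 0) ^ 2 < (g.1 1 0) ^ 2}

/-- ping-pong sets -/
def pY (b : Bool) : Set (Matrix.SpecialLinearGroup (Fin 2) ℤ) :=
  {g | g.1 0 0 * g.1 1 0 < 0 ∧ if b then (g.1 1 0) ^ 2 < (g.1 0 0) ^ 2 else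
    (g.1 0 0) ^ 2 ≤ (g.1 1 0) ^ 2}

private theorem pA1 {x y : ℤ} (h : ¬ (x * y < 0 ∧ y ^ 2 < x ^ 2)) :
    0 ≤ (x + 2 * y) * y ∧ y ^ 2 ≤ (x + 2 * y) ^ 2 := by
  by_cases h0 : x * y < 0
  · have h1 : x ^ 2 ≤ y ^ 2 := by
      by_contra h2
      exact h ⟨h0, not_le.1 h2⟩
    rcases lt_trichotomy y 0 with hy | hy | hy
    · obtain ⟨h3, h4⟩ := abs_le_of_sq_le_sq' (by rwa [neg_sq] : x ^ 2 ≤ (-y) ^ 2) (by linarith)
      constructor
      · nlinarith
      · nlinarith [mul_nonneg (by linarith : 0 ≤ -y - x) (by linarith : 0 ≤ -x - 3 * y)]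
    · rw [hy, mul_zero] at h0
      exact absurd h0 (lt_irrefl 0)
    · obtain ⟨h3, h4⟩ := abs_le_of_sq_le_sq' h1 hy.le
      constructor
      · nlinarith
      · nlinarith [mul_nonneg (by linarith : 0 ≤ y + x) (by linarith : 0 ≤ x + 3 * y)]
  · push Not at h0
    constructor <;> nlinarith [sq_nonneg x, sq_nonneg y]

private theorem pA2 {x y : ℤ} (h : ¬ (0 ≤ x * y ∧ y ^ 2 ≤ x ^ 2)) :
    (x - 2 * y) * y < 0 ∧ y ^ 2 < (x - 2 * y) ^ 2 := by
  by_cases h0 : x * y < 0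
  · have hy : 0 < y ^ 2 := by
      rcases eq_or_ne y 0 with rfl | hy
      · rw [mul_zero] at h0
        exact absurd h0 (lt_irrefl 0)
      · positivity
    constructor <;> nlinarith [sq_nonneg x]
  · push Not at h0
    have h1 : x ^ 2 < y ^ 2 := by
      by_contra h2
      exact h ⟨h0, not_lt.1 h2⟩
    rcases lt_trichotomy y 0 with hy | hy | hy
    · obtain ⟨h3, h4⟩ := abs_lt_of_sq_lt_sq' (by rwa [neg_sq] : x ^ 2 < (-y) ^ 2) (by linarith)
      have hx : x ≤ 0 := by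
        by_contra hx
        nlinarith
      constructor
      · nlinarith
      · nlinarith [mul_pos (by linarith : 0 < x - y) (by linarith : 0 < x - 3 * y)]
    · rw [hy] at h1
      nlinarith [sq_nonneg x]
    · obtain ⟨h3, h4⟩ := abs_lt_of_sq_lt_sq' h1 hy.le
      have hx : 0 ≤ x := by
        by_contra hx
        nlinarith
      constructor
      · nlinarith
      · nlinarith [mul_pos (by linarith : 0 < y - x) (by linarith : 0 < 3 * y - x)]

private theorem pB1 {x y : ℤ} (hn : 0 < x ^ 2 + y ^ 2) (h : ¬ (x * y < 0 ∧ x ^ 2 ≤ y ^ 2)) :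
    0 ≤ x * (2 * x + y) ∧ x ^ 2 < (2 * x + y) ^ 2 := by
  by_cases h0 : x * y < 0
  · have h1 : y ^ 2 < x ^ 2 := by
      by_contra h2
      exact h ⟨h0, not_lt.1 h2⟩
    rcases lt_trichotomy x 0 with hx | hx | hx
    · obtain ⟨h3, h4⟩ := abs_lt_of_sq_lt_sq' (by rwa [neg_sq] : y ^ 2 < (-x) ^ 2) (by linarith)
      constructor
      · nlinarith
      · nlinarith [mul_pos (by linarith : 0 < -x - y) (by linarith : 0 < -y - 3 * x)]
    · rw [hx, zero_mul] at h0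
      exact absurd h0 (lt_irrefl 0)
    · obtain ⟨h3, h4⟩ := abs_lt_of_sq_lt_sq' h1 hx.le
      constructor
      · nlinarith
      · nlinarith [mul_pos (by linarith : 0 < y + x) (by linarith : 0 < y + 3 * x)]
  · push Not at h0
    constructor <;> nlinarith [sq_nonneg x, sq_nonneg y]

private theorem pB2 {x y : ℤ} (hn : 0 < x ^ 2 + y ^ 2) (h : ¬ (0 ≤ x * y ∧ x ^ 2 < y ^ 2)) :
    x * (y - 2 * x) < 0 ∧ x ^ 2 ≤ (y - 2 * x) ^ 2 := by
  by_cases h0 : x * y < 0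
  · constructor <;> nlinarith [sq_nonneg x, sq_nonneg y]
  · push Not at h0
    have h1 : y ^ 2 ≤ x ^ 2 := by
      by_contra h2
      exact h ⟨h0, not_le.1 h2⟩
    rcases lt_trichotomy x 0 with hx | hx | hx
    · obtain ⟨h3, h4⟩ := abs_le_of_sq_le_sq' (by rwa [neg_sq] : y ^ 2 ≤ (-x) ^ 2) (by linarith)
      have hy : y ≤ 0 := by
        by_contra hy
        nlinarith
      constructor
      · nlinarith
      · nlinarith [mul_nonneg (by linarith : 0 ≤ y - x) (by linarith : 0 ≤ y - 3 * x)]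
    · rw [hx] at h1 hn
      nlinarith [sq_nonneg y]
    · obtain ⟨h3, h4⟩ := abs_le_of_sq_le_sq' h1 hx.le
      have hy : 0 ≤ y := by
        by_contra hy
        nlinarith
      constructor
      · nlinarith
      · nlinarith [mul_nonneg (by linarith : 0 ≤ x - y) (by linarith : 0 ≤ 3 * x - y)]

private theorem col_pos (g : Matrix.SpecialLinearGroup (Fin 2) ℤ) :
    0 < (g.1 0 0) ^ 2 + (g.1 1 0) ^ 2 := by
  have h := g.2
  rw [Matrix.det_fin_two] at h
  rcases eq_or_ne (g.1 0 0) 0 with h0 | h0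
  · rcases eq_or_ne (g.1 1 0) 0 with h1 | h1
    · rw [h0, h1] at h
      simp at h
    · positivity
  · positivity

private theorem SA_inv : (SA⁻¹).1 = !![1, -2; 0, 1] := by
  rw [show (SA⁻¹).1 = Matrix.adjugate SA.1 from rfl]
  decide

private theorem SB_inv : (SB⁻¹).1 = !![1, 0; -2, 1] := by
  rw [show (SB⁻¹).1 = Matrix.adjugate SB.1 from rfl]
  decide

private theorem A_col (g : Matrix.SpecialLinearGroup (Fin 2) ℤ) :
    (SA * g).1 0 0 = g.1 0 0 + 2 * g.1 1 0 ∧ (SA * g).1 1 0 = g.1 1 0 := by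
  change (SA.1 * g.1) 0 0 = _ ∧ (SA.1 * g.1) 1 0 = _
  simp [SA, Matrix.mul_apply, Fin.sum_univ_two]

private theorem A_col' (g : Matrix.SpecialLinearGroup (Fin 2) ℤ) :
    (SA⁻¹ * g).1 0 0 = g.1 0 0 - 2 * g.1 1 0 ∧ (SA⁻¹ * g).1 1 0 = g.1 1 0 := by
  change ((SA⁻¹).1 * g.1) 0 0 = _ ∧ ((SA⁻¹).1 * g.1) 1 0 = _
  rw [SA_inv]
  simp [Matrix.mul_apply, Fin.sum_univ_two]
  ring

private theorem B_col (g : Matrix.SpecialLinearGroup (Fin 2) ℤ) :
    (SB * g).1 0 0 = g.1 0 0 ∧ (SB * g).1 1 0 = 2 * g.1 0 0 + g.1 1 0 := by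
  change (SB.1 * g.1) 0 0 = _ ∧ (SB.1 * g.1) 1 0 = _
  simp [SB, Matrix.mul_apply, Fin.sum_univ_two]

private theorem B_col' (g : Matrix.SpecialLinearGroup (Fin 2) ℤ) :
    (SB⁻¹ * g).1 0 0 = g.1 0 0 ∧ (SB⁻¹ * g).1 1 0 = g.1 1 0 - 2 * g.1 0 0 := by
  change ((SB⁻¹).1 * g.1) 0 0 = _ ∧ ((SB⁻¹).1 * g.1) 1 0 = _
  rw [SB_inv]
  simp [Matrix.mul_apply, Fin.sum_univ_two]
  ring

theorem san_injective : Function.Injective san := by
  refine FreeGroup.injective_lift_of_ping_pong (α := Matrix.SpecialLinearGroup (Fin 2) ℤ)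
    sGen pX pY ?_ ?_ ?_ ?_ ?_ ?_
  · intro b
    cases b
    · refine ⟨⟨!![0, -1; 1, 0], by decide⟩, ?_⟩
      constructor
      · decide
      · decide
    · refine ⟨1, ?_⟩
      constructor
      · decide
      · decide
  · intro b c hbc
    rw [Function.onFun, Set.disjoint_left]
    rintro g ⟨h1, h2⟩ ⟨h3, h4⟩
    cases b <;> cases c <;> simp at hbc h2 h4 <;> linarith
  · intro b c hbc
    rw [Function.onFun, Set.disjoint_left]
    rintro g ⟨h1, h2⟩ ⟨h3, h4⟩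
    cases b <;> cases c <;> simp at hbc h2 h4 <;> linarith
  · intro b c
    rw [Set.disjoint_left]
    rintro g ⟨h1, h2⟩ ⟨h3, h4⟩
    exact absurd h3 (not_lt.2 h1)
  · rintro b _ ⟨g, hg, rfl⟩
    change sGen b * g ∈ pX b
    cases b
    · obtain ⟨e1, e2⟩ := B_col g
      have h := pB1 (col_pos g) hg
      change 0 ≤ (SB * g).1 0 0 * (SB * g).1 1 0 ∧ ((SB * g).1 0 0) ^ 2 < ((SB * g).1 1 0) ^ 2
      rw [e1, e2]
      exact h
    · obtain ⟨e1, e2⟩ := A_col g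
      have h := pA1 hg
      change 0 ≤ (SA * g).1 0 0 * (SA * g).1 1 0 ∧ ((SA * g).1 1 0) ^ 2 ≤ ((SA * g).1 0 0) ^ 2
      rw [e1, e2]
      exact h
  · rintro b _ ⟨g, hg, rfl⟩
    change (sGen b)⁻¹ * g ∈ pY b
    cases b
    · obtain ⟨e1, e2⟩ := B_col' g
      have h := pB2 (col_pos g) hg
      change (SB⁻¹ * g).1 0 0 * (SB⁻¹ * g).1 1 0 < 0 ∧
        ((SB⁻¹ * g).1 0 0) ^ 2 ≤ ((SB⁻¹ * g).1 1 0) ^ 2
      rw [e1, e2]
      exact h
    · obtain ⟨e1, e2⟩ := A_col' g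
      have h := pA2 hg
      change (SA⁻¹ * g).1 0 0 * (SA⁻¹ * g).1 1 0 < 0 ∧
        ((SA⁻¹ * g).1 1 0) ^ 2 < ((SA⁻¹ * g).1 0 0) ^ 2
      rw [e1, e2]
      exact h

theorem SA_mem : SA ∈ san.range := ⟨FreeGroup.of true, by simp [san, sGen]⟩

theorem SB_mem : SB ∈ san.range := ⟨FreeGroup.of false, by simp [san, sGen]⟩

/-- coset representatives -/
def sRep : List (Matrix.SpecialLinearGroup (Fin 2) ℤ) :=
  [1, ⟨!![0, -1; 1, 0], by decide⟩, ⟨!![1, 1; 0, 1], by decide⟩, ⟨!![0, 1; -1, 0], by decide⟩,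
    ⟨!![-1, 0; 0, -1], by decide⟩, ⟨!![0, -1; 1, 1], by decide⟩, ⟨!![1, -1; 1, 0], by decide⟩,
    ⟨!![-1, 1; -1, 0], by decide⟩, ⟨!![0, 1; -1, -1], by decide⟩, ⟨!![-1, -1; 0, -1], by decide⟩,
    ⟨!![-1, 0; 1, -1], by decide⟩, ⟨!![1, 0; -1, 1], by decide⟩]

/-- short elements of the group -/
def sWord : List (Matrix.SpecialLinearGroup (Fin 2) ℤ) := [1, SA, SA⁻¹, SB, SB⁻¹]

theorem sWord_mem : ∀ w ∈ sWord, w ∈ san.range := by
  intro w hw
  simp only [sWord, List.mem_cons, List.not_mem_nil, or_false] at hw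
  rcases hw with rfl | rfl | rfl | rfl | rfl
  · exact Subgroup.one_mem _
  · exact SA_mem
  · exact Subgroup.inv_mem _ SA_mem
  · exact SB_mem
  · exact Subgroup.inv_mem _ SB_mem

theorem sTab : ∀ r ∈ sRep, ∀ s ∈ [ModularGroup.S, ModularGroup.S⁻¹, ModularGroup.T, ModularGroup.T⁻¹],
    ∃ w ∈ sWord, ∃ r' ∈ sRep, (r * s).1 = (w * r').1 := by
  decide

theorem sTab' (g : Matrix.SpecialLinearGroup (Fin 2) ℤ)
    (hg : ∃ w ∈ san.range, ∃ r ∈ sRep, g = w * r) (s : Matrix.SpecialLinearGroup (Fin 2) ℤ)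
    (hs : s ∈ [ModularGroup.S, ModularGroup.S⁻¹, ModularGroup.T, ModularGroup.T⁻¹]) :
    ∃ w ∈ san.range, ∃ r ∈ sRep, g * s = w * r := by
  obtain ⟨w, hw, r, hr, rfl⟩ := hg
  obtain ⟨w', hw', r', hr', h⟩ := sTab r hr s hs
  refine ⟨w * w', Subgroup.mul_mem _ hw (sWord_mem w' hw'), r', hr', ?_⟩
  have h' : r * s = w' * r' := Subtype.ext h
  rw [mul_assoc, h', mul_assoc]

theorem san_cover (g : Matrix.SpecialLinearGroup (Fin 2) ℤ) :
    ∃ w ∈ san.range, ∃ r ∈ sRep, g = w * r := by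
  have hg : g ∈ Subgroup.closure {ModularGroup.S, ModularGroup.T} := by
    rw [SpecialLinearGroup.SL2Z_generators]
    trivial
  induction hg using Subgroup.closure_induction_right with
  | one => exact ⟨1, Subgroup.one_mem _, 1, by simp [sRep], by simp⟩
  | mul_right x hx y hy ih =>
    refine sTab' x ih y ?_
    rcases hy with rfl | rfl <;> simp
  | mul_inv_cancel x hx y hy ih =>
    refine sTab' x ih y⁻¹ ?_
    rcases hy with rfl | rfl <;> simp

theorem san_finiteIndex : san.range.FiniteIndex := by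
  have h1 : Finite (Matrix.SpecialLinearGroup (Fin 2) ℤ ⧸ san.range) := by
    refine Set.finite_univ_iff.1 ((sRep.finite_toSet.image
      fun r => (QuotientGroup.mk r⁻¹ : Matrix.SpecialLinearGroup (Fin 2) ℤ ⧸ san.range)).subset ?_)
    intro q _
    obtain ⟨g, rfl⟩ := QuotientGroup.mk_surjective q
    obtain ⟨w, hw, r, hr, h⟩ := san_cover g⁻¹
    refine ⟨r, hr, ?_⟩
    dsimp only
    rw [QuotientGroup.eq, inv_inv]
    have h2 : r * g = w⁻¹ := by
      have h3 : g = r⁻¹ * w⁻¹ := by rw [← mul_inv_rev, ← h, inv_inv]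
      rw [h3, mul_inv_cancel_left]
    rw [h2]
    exact Subgroup.inv_mem _ hw
  exact Subgroup.finiteIndex_of_finite_quotient

end LatLin
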