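import Pool.Agent.Lib.MP_2392aa_gt.C.FinB
import Pool.Agent.Lib.MP_2392aa_gt.C.SanZ

/-!
MP_2392aa_gt: the first question has a negative answer for `n = 2` (helper81). The free group
generated by the matrices `[[1, 2], [0, 1]]` and `[[1, 0], [2, 1]]` acts on the plane: the second
generator acts linearly, the first one by `(x, y) ↦ (x + 2 (y + x ^ 3), y + x ^ 3)`.
-/

open scoped ContDiff Topology Manifold
open LatN (En)
open Filter

namespace LatLin

/-- the plane -/
abbrev P2 : Type := En (Fin 2)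

/-- a point of the plane -/
noncomputable def pt (x y : ℝ) : P2 := !₂[x, y]

@[simp] theorem pt_zero (x y : ℝ) : pt x y 0 = x := rfl
@[simp] theorem pt_one (x y : ℝ) : pt x y 1 = y := rfl

theorem P2_ext {v w : P2} (h0 : v 0 = w 0) (h1 : v 1 = w 1) : v = w := by
  ext i
  fin_cases i
  · exact h0
  · exact h1

/-- the nonlinear generator -/
noncomputable def permA : Equiv.Perm P2 where
  toFun v := pt (v 0 + 2 * (v 1 + v 0 ^ 3)) (v 1 + v 0 ^ 3)
  invFun v := pt (v 0 - 2 * v 1) (v 1 - (v 0 - 2 * v 1) ^ 3)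
  left_inv v := by
    apply P2_ext
    · simp
    · simp
  right_inv v := by
    apply P2_ext
    · simp
    · simp

/-- the linear generator -/
noncomputable def permB : Equiv.Perm P2 where
  toFun v := pt (v 0) (2 * v 0 + v 1)
  invFun v := pt (v 0) (v 1 - 2 * v 0)
  left_inv v := by
    apply P2_ext
    · simp
    · simp
  right_inv v := by
    apply P2_ext
    · simp
    · simp

/-- the action of the free group -/
noncomputable def actF : FreeGroup Bool →* Equiv.Perm P2 :=
  FreeGroup.lift fun b => if b then permA else permB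

/-- the linear action of the free group -/
noncomputable def linF : FreeGroup Bool →* (P2 ≃L[ℝ] P2) :=
  (slG (Fin 2)).comp ((Matrix.SpecialLinearGroup.map (n := Fin 2) (Int.castRingHom ℝ)).comp san)

theorem contDiff_pt {f g : P2 → ℝ} (hf : ContDiff ℝ ∞ f) (hg : ContDiff ℝ ∞ g) :
    ContDiff ℝ ∞ fun v => pt (f v) (g v) := by
  rw [contDiff_euclidean]
  intro i
  fin_cases i
  · exact hf
  · exact hg

theorem slG_two (g : Matrix.SpecialLinearGroup (Fin 2) ℝ) (v : P2) :
    slG (Fin 2) g v = pt (g.1 0 0 * v 0 + g.1 0 1 * v 1) (g.1 1 0 * v 0 + g.1 1 1 * v 1) := by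
  have h : ∀ i, (slG (Fin 2) g v) i = (g.1.mulVec v.ofLp) i := fun i => rfl
  apply P2_ext
  · rw [h, Matrix.mulVec, dotProduct, Fin.sum_univ_two]
    rfl
  · rw [h, Matrix.mulVec, dotProduct, Fin.sum_univ_two]
    rfl

/-- the properties of an element of the action -/
def Pr (w : FreeGroup Bool) : Prop :=
  ContDiff ℝ ∞ (actF w) ∧ actF w 0 = 0 ∧ HasFDerivAt (actF w) (linF w : P2 →L[ℝ] P2) 0

theorem Pr.mul {w w' : FreeGroup Bool} (h : Pr w) (h' : Pr w') : Pr (w * w') := by
  obtain ⟨h1, h2, h3⟩ := h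
  obtain ⟨h1', h2', h3'⟩ := h'
  have h4 : ⇑(actF (w * w')) = actF w ∘ actF w' := by
    rw [map_mul]
    rfl
  refine ⟨?_, ?_, ?_⟩
  · rw [h4]
    exact h1.comp h1'
  · rw [h4, Function.comp_apply, h2', h2]
  · rw [h4]
    have h5 : HasFDerivAt (actF w) (linF w : P2 →L[ℝ] P2) (actF w' 0) := by rwa [h2']
    have h6 := h5.comp 0 h3'
    rw [map_mul]
    exact h6

theorem Pr.inv {w : FreeGroup Bool} (h : Pr w) (hs : ContDiff ℝ ∞ (actF w⁻¹)) : Pr w⁻¹ := by
  obtain ⟨h1, h2, h3⟩ := h
  have h4 : ∀ x, actF w⁻¹ (actF w x) = x := by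
    intro x
    rw [map_inv]
    exact (actF w).symm_apply_apply x
  have h0 : actF w⁻¹ 0 = 0 := by
    have := h4 0
    rwa [h2] at this
  refine ⟨hs, h0, ?_⟩
  have h5 : HasFDerivAt (actF w⁻¹) (fderiv ℝ (actF w⁻¹) 0) 0 :=
    ((hs.contDiffAt (x := 0)).differentiableAt (by simp)).hasFDerivAt
  have h6 : HasFDerivAt (fun x => actF w⁻¹ (actF w x))
      ((fderiv ℝ (actF w⁻¹) 0).comp (linF w : P2 →L[ℝ] P2)) 0 := by
    have h7 : HasFDerivAt (actF w⁻¹) (fderiv ℝ (actF w⁻¹) 0) (actF w 0) := by rwa [h2]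
    exact h7.comp 0 h3
  have h8 : HasFDerivAt (fun x => actF w⁻¹ (actF w x)) (ContinuousLinearMap.id ℝ P2) 0 := by
    have : (fun x => actF w⁻¹ (actF w x)) = fun x => x := funext h4
    rw [this]
    exact hasFDerivAt_id 0
  have h9 := h6.unique h8
  have h10 : fderiv ℝ (actF w⁻¹) 0 = (linF w⁻¹ : P2 →L[ℝ] P2) := by
    ext1 x
    have h11 := congrArg (fun T : P2 →L[ℝ] P2 => T ((linF w).symm x)) h9
    have h12 : (fderiv ℝ (actF w⁻¹) 0) ((linF w) ((linF w).symm x)) = (linF w).symm x := h11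
    rw [(linF w).apply_symm_apply] at h12
    rw [h12, map_inv]
    rfl
  rwa [h10] at h5

theorem actF_true : actF (FreeGroup.of true) = permA := by simp [actF]
theorem actF_false : actF (FreeGroup.of false) = permB := by simp [actF]

theorem linF_true (v : P2) : linF (FreeGroup.of true) v = pt (v 0 + 2 * v 1) (v 1) := by
  have h : linF (FreeGroup.of true) = slG (Fin 2)
      (Matrix.SpecialLinearGroup.map (n := Fin 2) (Int.castRingHom ℝ) SA) := by
    simp [linF, san, sGen]
  rw [h, slG_two]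
  have h2 : ∀ i j, (Matrix.SpecialLinearGroup.map (n := Fin 2) (Int.castRingHom ℝ) SA).1 i j =
    ((SA.1 i j : ℤ) : ℝ) := fun i j => rfl
  rw [h2, h2, h2, h2]
  simp [SA]

theorem linF_false (v : P2) : linF (FreeGroup.of false) v = pt (v 0) (2 * v 0 + v 1) := by
  have h : linF (FreeGroup.of false) = slG (Fin 2)
      (Matrix.SpecialLinearGroup.map (n := Fin 2) (Int.castRingHom ℝ) SB) := by
    simp [linF, san, sGen]
  rw [h, slG_two]
  have h2 : ∀ i j, (Matrix.SpecialLinearGroup.map (n := Fin 2) (Int.castRingHom ℝ) SB).1 i j =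
    ((SB.1 i j : ℤ) : ℝ) := fun i j => rfl
  rw [h2, h2, h2, h2]
  simp [SB]

theorem smooth_co (i : Fin 2) : ContDiff ℝ ∞ fun v : P2 => v i :=
  contDiff_euclidean.1 contDiff_id i

theorem pr_true : Pr (FreeGroup.of true) := by
  refine ⟨?_, ?_, ?_⟩
  · rw [actF_true]
    exact contDiff_pt ((smooth_co 0).add (contDiff_const.mul ((smooth_co 1).add
      ((smooth_co 0).pow 3)))) ((smooth_co 1).add ((smooth_co 0).pow 3))
  · rw [actF_true]
    apply P2_ext
    · simp [permA]
    · simp [permA]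
  · have h1 : ⇑(actF (FreeGroup.of true)) = fun v : P2 =>
        linF (FreeGroup.of true) v + (v 0) ^ 3 • pt 2 1 := by
      rw [actF_true]
      funext v
      rw [linF_true]
      apply P2_ext
      · simp [permA]
        ring
      · simp [permA]
    have h2 : HasFDerivAt (fun v : P2 => v 0) (EuclideanSpace.proj (0 : Fin 2) : P2 →L[ℝ] ℝ) 0 :=
      (EuclideanSpace.proj (0 : Fin 2) : P2 →L[ℝ] ℝ).hasFDerivAt
    have h3 : HasFDerivAt (fun v : P2 => (v 0) ^ 3 • pt 2 1) (0 : P2 →L[ℝ] P2) 0 := by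
      have h4 := (h2.pow 3).smul_const (pt 2 1)
      have h6 : (((3 • WithLp.ofLp (0 : P2) 0 ^ (3 - 1)) •
          (EuclideanSpace.proj (0 : Fin 2) : P2 →L[ℝ] ℝ)).smulRight (pt 2 1)) =
          (0 : P2 →L[ℝ] P2) := by
        ext1 x
        simp
      rw [h6] at h4
      exact h4
    have h5 := ((linF (FreeGroup.of true) : P2 ≃L[ℝ] P2).hasFDerivAt (x := 0)).add h3
    rw [h1]
    rwa [add_zero] at h5

theorem pr_true_inv : Pr (FreeGroup.of true)⁻¹ := by
  refine pr_true.inv ?_
  rw [map_inv, actF_true]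
  change ContDiff ℝ ∞ fun v : P2 => pt (v 0 - 2 * v 1) (v 1 - (v 0 - 2 * v 1) ^ 3)
  have h := (smooth_co 0).sub (contDiff_const (c := (2 : ℝ)).mul (smooth_co 1))
  exact contDiff_pt h ((smooth_co 1).sub (h.pow 3))

theorem pr_false : Pr (FreeGroup.of false) := by
  have h1 : ⇑(actF (FreeGroup.of false)) = linF (FreeGroup.of false) := by
    rw [actF_false]
    funext v
    rw [linF_false]
    rfl
  refine ⟨?_, ?_, ?_⟩
  · rw [h1]
    exact (linF (FreeGroup.of false) : P2 ≃L[ℝ] P2).contDiff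
  · rw [h1, map_zero]
  · rw [h1]
    exact (linF (FreeGroup.of false) : P2 ≃L[ℝ] P2).hasFDerivAt

theorem pr_false_inv : Pr (FreeGroup.of false)⁻¹ := by
  refine pr_false.inv ?_
  rw [map_inv, actF_false]
  change ContDiff ℝ ∞ fun v : P2 => pt (v 0) (v 1 - 2 * v 0)
  exact contDiff_pt (smooth_co 0) ((smooth_co 1).sub (contDiff_const.mul (smooth_co 0)))

theorem pr_one : Pr 1 := by
  refine ⟨?_, ?_, ?_⟩
  · rw [map_one]
    exact contDiff_id
  · rw [map_one]
    rfl
  · rw [map_one, map_one]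
    exact hasFDerivAt_id 0

theorem pr_all (w : FreeGroup Bool) : Pr w := by
  induction w using FreeGroup.induction_on with
  | C1 => exact pr_one
  | of b =>
    cases b
    · exact pr_false
    · exact pr_true
  | inv_of b _ =>
    cases b
    · exact pr_false_inv
    · exact pr_true_inv
  | mul x y hx hy => exact hx.mul hy

/-- the group -/
noncomputable def Gam2 : Subgroup (Matrix.SpecialLinearGroup (Fin 2) ℝ) :=
  san.range.map (Matrix.SpecialLinearGroup.map (n := Fin 2) (Int.castRingHom ℝ))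

/-- the group is free -/
noncomputable def isoG : FreeGroup Bool ≃* Gam2 :=
  (MonoidHom.ofInjective san_injective).trans
    (san.range.equivMapOfInjective
      (Matrix.SpecialLinearGroup.map (n := Fin 2) (Int.castRingHom ℝ)) mapZ_injective)

theorem isoG_lin (w : FreeGroup Bool) : slG (Fin 2) (isoG w : Gam2).1 = linF w := rfl

/-- the action of the group on the plane -/
noncomputable def actG : MulAction Gam2 P2 :=
  MulAction.compHom P2 (actF.comp isoG.symm.toMonoidHom)

theorem actG_apply (w : FreeGroup Bool) (x : P2) : actG.toSMul.smul (isoG w) x = actF w x := by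
  change actF (isoG.symm (isoG w)) x = _
  rw [MulEquiv.symm_apply_apply]

theorem permA_fix (x : P2) (hx : permA x = x) : x = 0 := by
  have h0 : x 0 + 2 * (x 1 + x 0 ^ 3) = x 0 := congrArg (fun v : P2 => v 0) hx
  have h1 : x 1 + x 0 ^ 3 = x 1 := congrArg (fun v : P2 => v 1) hx
  have h2 : x 0 ^ 3 = 0 := by linarith
  have h3 : x 0 = 0 := by simpa using h2
  have h4 : x 1 = 0 := by
    rw [h2] at h0
    linarith
  exact P2_ext h3 h4

theorem not_lin (e : OpenPartialHomeomorph P2 P2) (he0 : 0 ∈ e.source) (he00 : e 0 = 0)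
    (h2 : ∀ᶠ x : P2 in 𝓝 0, e (permA x) = linF (FreeGroup.of true) (e x)) : False := by
  have hT0 : (0 : P2) ∈ e.target := by
    rw [← he00]
    exact e.map_source he0
  have hes0 : e.symm 0 = 0 := by
    have := e.left_inv he0
    rwa [he00] at this
  have hst : Tendsto e.symm (𝓝 0) (𝓝 0) := by
    have := (e.symm.continuousAt hT0).tendsto
    rwa [hes0] at this
  have hlt : Tendsto (fun t : ℝ => pt t 0) (𝓝 0) (𝓝 0) := by
    have h3 : (fun t : ℝ => pt t 0) = fun t : ℝ => t • pt 1 0 := by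
      funext t
      apply P2_ext <;> simp
    rw [h3]
    have h4 : Continuous fun t : ℝ => t • pt 1 0 := continuous_id.smul continuous_const
    have h5 := h4.tendsto 0
    rwa [zero_smul] at h5
  have hA : Tendsto permA (𝓝 0) (𝓝 0) := by
    have h3 := (pr_true.1.continuous.tendsto 0)
    rw [pr_true.2.1, actF_true] at h3
    exact h3
  have hz : Tendsto (fun t : ℝ => e.symm (pt t 0)) (𝓝 0) (𝓝 0) := hst.comp hlt
  have h3 : ∀ᶠ t : ℝ in 𝓝 0, pt t 0 = 0 := by
    filter_upwards [hz.eventually h2, hlt.eventually (e.open_target.mem_nhds hT0),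
      (hA.comp hz).eventually (e.open_source.mem_nhds he0)] with t k1 k2 k3
    rw [e.right_inv k2] at k1
    have k4 : linF (FreeGroup.of true) (pt t 0) = pt t 0 := by
      rw [linF_true]
      apply P2_ext <;> simp
    rw [k4] at k1
    have k5 : permA (e.symm (pt t 0)) = e.symm (pt t 0) := by
      have k6 := e.left_inv k3
      change e.symm (e (permA (e.symm (pt t 0)))) = permA (e.symm (pt t 0)) at k6
      rw [k1] at k6
      exact k6.symm
    have k6 := permA_fix _ k5
    rw [← e.right_inv k2, k6, he00]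
  have h4 : ∀ᶠ t : ℝ in 𝓝 0, t = 0 := by
    filter_upwards [h3] with t ht
    have := congrArg (fun v : P2 => v 0) ht
    exact this
  obtain ⟨ε, hε, h5⟩ := Metric.eventually_nhds_iff.1 h4
  have h6 := h5 (y := ε / 2) (by
    rw [Real.dist_eq, sub_zero, abs_of_pos (by linarith)]
    linarith)
  linarith

/-- a smooth action of a free subgroup of finite index of `SL_2(ℤ)` on the plane for which `0` is
the only fixed point, with standard derivative at `0`, which is not linearizable near `0` -/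
theorem two_example : ∃ (Γ : Subgroup (Matrix.SpecialLinearGroup (Fin 2) ℝ)) (M : Type)
    (_ : TopologicalSpace M) (_ : T2Space M) (_ : SecondCountableTopology M)
    (_ : ChartedSpace (En (Fin 2)) M)
    (_ : IsManifold 𝓘(ℝ, En (Fin 2)) ∞ M) (_ : MulAction Γ M) (p : M),
    Γ ≤ SLnZ 2 ∧ Γ.relIndex (SLnZ 2) ≠ 0 ∧
    (∀ γ : Γ, ContMDiff 𝓘(ℝ, En (Fin 2)) 𝓘(ℝ, En (Fin 2)) ∞ (fun x : M => γ • x)) ∧
    (∀ γ : Γ, γ • p = p) ∧ (∀ x : M, (∀ γ : Γ, γ • x = x) → x = p) ∧
    (∀ (γ : Γ) (v : En (Fin 2)), (mfderiv 𝓘(ℝ, En (Fin 2)) 𝓘(ℝ, En (Fin 2))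
      (fun x : M => γ • x) p : En (Fin 2) →L[ℝ] En (Fin 2)) v = slG (Fin 2) γ.1 v) ∧
    ¬ LinNear p ((slG (Fin 2)).comp Γ.subtype) := by
  have hfun : ∀ w : FreeGroup Bool, (fun x : P2 => actG.toSMul.smul (isoG w) x) = actF w :=
    fun w => funext (actG_apply w)
  refine ⟨Gam2, P2, inferInstance, inferInstance, inferInstance, inferInstance, inferInstance,
    actG, (0 : P2),
    ?_, ?_, ?_, ?_, ?_, ?_, ?_⟩
  · exact Subgroup.map_le_range _ _
  · rw [Gam2, SLnZ, MonoidHom.range_eq_map (Matrix.SpecialLinearGroup.map (n := Fin 2) _),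
      Subgroup.relIndex_map_map_of_injective _ _ mapZ_injective, Subgroup.relIndex_top_right]
    exact san_finiteIndex.index_ne_zero
  · intro γ
    obtain ⟨w, rfl⟩ := isoG.surjective γ
    change ContMDiff 𝓘(ℝ, En (Fin 2)) 𝓘(ℝ, En (Fin 2)) ∞
      (fun x : P2 => actG.toSMul.smul (isoG w) x)
    rw [hfun]
    exact (pr_all w).1.contMDiff
  · intro γ
    obtain ⟨w, rfl⟩ := isoG.surjective γ
    exact (actG_apply w 0).trans (pr_all w).2.1
  · intro x hx
    have h1 : actG.toSMul.smul (isoG (FreeGroup.of true)) x = x := hx (isoG (FreeGroup.of true))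
    rw [actG_apply, actF_true] at h1
    exact permA_fix x h1
  · intro γ v
    obtain ⟨w, rfl⟩ := isoG.surjective γ
    change (mfderiv 𝓘(ℝ, En (Fin 2)) 𝓘(ℝ, En (Fin 2))
      (fun x : P2 => actG.toSMul.smul (isoG w) x) 0 : En (Fin 2) →L[ℝ] En (Fin 2)) v = _
    rw [hfun, mfderiv_eq_fderiv, (pr_all w).2.2.fderiv]
    rfl
  · rintro ⟨e, he0, he00, hes, het, hev⟩
    refine not_lin e he0 he00 ?_
    filter_upwards [hev (isoG (FreeGroup.of true))] with x hx
    have h1 : e (actG.toSMul.smul (isoG (FreeGroup.of true)) x) =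
      linF (FreeGroup.of true) (e x) := hx
    rw [actG_apply, actF_true] at h1
    exact h1

end LatLin
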