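import Pool.Agent.Lib.MP_2392aa_gt.C.FinI
import Pool.Agent.Lib.MP_2392aa_gt.L.FLB
import Pool.Agent.Lib.MP_2392aa_gt.B.CoreB

/-!
MP_2392aa_gt, assembly: subgroups of finite index of `SL_n(ℤ)` (helper81).
-/

open scoped ContDiff Topology
open LatN (En dualSL DivO blkO blo unitI IsOrd)

namespace LatLin

/-- the ring of integers as a ring of `1 × 1` matrices -/
def Z1 : Subring (Matrix Unit Unit ℝ) := (Int.castRingHom (Matrix Unit Unit ℝ)).range

theorem mem_Z1 (x : Matrix Unit Unit ℝ) : x ∈ Z1 ↔ ∃ m : ℤ, x () () = m := by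
  constructor
  · rintro ⟨m, rfl⟩
    refine ⟨m, ?_⟩
    rw [eq_intCast, Matrix.intCast_apply, if_pos rfl]
  · rintro ⟨m, hm⟩
    refine ⟨m, ?_⟩
    ext i j
    rw [hm, eq_intCast, Matrix.intCast_apply, if_pos (Subsingleton.elim _ _)]

theorem divO_Z1 : DivO Unit Z1 where
  ord := by
    refine ⟨Matrix.stdBasis ℝ Unit Unit, fun x => ?_⟩
    have h1 : Set.range (Matrix.stdBasis ℝ Unit Unit) = {1} := by
      ext y
      simp only [Set.mem_range, Set.mem_singleton_iff, Prod.exists]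
      constructor
      · rintro ⟨i, j, rfl⟩
        rw [Matrix.stdBasis_eq_single]
        ext a b
        simp [Matrix.single]
      · rintro rfl
        refine ⟨(), (), ?_⟩
        rw [Matrix.stdBasis_eq_single]
        ext a b
        simp [Matrix.single]
    rw [h1, Submodule.mem_span_singleton, mem_Z1]
    constructor
    · rintro ⟨m, hm⟩
      refine ⟨m, ?_⟩
      ext i j
      rw [hm]
      simp
    · rintro ⟨m, rfl⟩
      exact ⟨m, by simp⟩
  div := by
    intro x _ h0 hd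
    apply h0
    ext i j
    rw [Matrix.det_unique] at hd
    exact hd

section
variable {n : ℕ}

/-- integer matrices of determinant one as real matrices with `1 × 1` blocks -/
noncomputable def jZ (n : ℕ) :
    Matrix.SpecialLinearGroup (Fin n) ℤ →* Matrix.SpecialLinearGroup (Fin n × Unit) ℝ where
  toFun g := ⟨(Matrix.SpecialLinearGroup.map (Int.castRingHom ℝ) g).1.submatrix
    (Equiv.prodPUnit (Fin n)) (Equiv.prodPUnit (Fin n)), by
      rw [Matrix.det_submatrix_equiv_self]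
      exact (Matrix.SpecialLinearGroup.map (Int.castRingHom ℝ) g).2⟩
  map_one' := by
    apply Subtype.ext
    change (Matrix.SpecialLinearGroup.map (Int.castRingHom ℝ) 1).1.submatrix
      (Equiv.prodPUnit (Fin n)) (Equiv.prodPUnit (Fin n)) = 1
    rw [map_one, Matrix.SpecialLinearGroup.coe_one, Matrix.submatrix_one_equiv]
  map_mul' g h := by
    apply Subtype.ext
    change (Matrix.SpecialLinearGroup.map (Int.castRingHom ℝ) (g * h)).1.submatrix
      (Equiv.prodPUnit (Fin n)) (Equiv.prodPUnit (Fin n)) =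
      (Matrix.SpecialLinearGroup.map (Int.castRingHom ℝ) g).1.submatrix
      (Equiv.prodPUnit (Fin n)) (Equiv.prodPUnit (Fin n)) *
      (Matrix.SpecialLinearGroup.map (Int.castRingHom ℝ) h).1.submatrix
      (Equiv.prodPUnit (Fin n)) (Equiv.prodPUnit (Fin n))
    rw [map_mul, Matrix.SpecialLinearGroup.coe_mul, Matrix.submatrix_mul_equiv]

theorem jZ_apply (g : Matrix.SpecialLinearGroup (Fin n) ℤ) (i j : Fin n × Unit) :
    (jZ n g).1 i j = ((g.1 i.1 j.1 : ℤ) : ℝ) := rfl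

theorem jZ_injective : Function.Injective (jZ n) := by
  intro a b h
  ext i j
  have h1 := congrArg (fun x : Matrix.SpecialLinearGroup (Fin n × Unit) ℝ =>
    x.1 (i, ()) (j, ())) h
  have h2 : ((a.1 i j : ℤ) : ℝ) = ((b.1 i j : ℤ) : ℝ) := h1
  exact_mod_cast h2

theorem range_jZ : (jZ n).range = unitI (blkO (Fin n) Z1) := by
  ext x
  constructor
  · rintro ⟨g, rfl⟩
    refine ⟨fun i j => ?_, fun i j => ?_⟩
    · rw [mem_Z1]
      exact ⟨g.1 i j, rfl⟩
    · rw [mem_Z1, ← map_inv]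
      exact ⟨(g⁻¹).1 i j, rfl⟩
  · rintro ⟨h1, -⟩
    have h2 : ∀ i j : Fin n, ∃ m : ℤ, x.1 (i, ()) (j, ()) = m := fun i j => by
      have := h1 i j
      rw [mem_Z1] at this
      exact this
    choose m hm using h2
    have h3 : x.1 = (((Int.castRingHom ℝ).mapMatrix (Matrix.of m)).submatrix
        (Equiv.prodPUnit (Fin n)) (Equiv.prodPUnit (Fin n))) := by
      ext ⟨i, _⟩ ⟨j, _⟩
      exact hm i j
    have h4 : (Matrix.of m).det = 1 := by
      have h5 := x.2
      rw [h3, Matrix.det_submatrix_equiv_self, ← RingHom.map_det, eq_intCast] at h5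
      exact_mod_cast h5
    exact ⟨⟨Matrix.of m, h4⟩, Subtype.ext h3.symm⟩

/-- the identification of Euclidean spaces -/
noncomputable def LZ (n : ℕ) : EuclideanSpace ℝ (Fin n) ≃L[ℝ] En (Fin n × Unit) :=
  (LinearIsometryEquiv.piLpCongrLeft 2 ℝ ℝ (Equiv.prodPUnit (Fin n)).symm).toContinuousLinearEquiv

theorem LZ_apply (x : EuclideanSpace ℝ (Fin n)) (i : Fin n × Unit) : LZ n x i = x i.1 := rfl

theorem LZ_rho (g : Matrix.SpecialLinearGroup (Fin n) ℤ) (x : EuclideanSpace ℝ (Fin n)) :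
    LZ n (B.rhoZ n g x) = slG (Fin n × Unit) (jZ n g) (LZ n x) := by
  ext i
  rw [LZ_apply, B.rhoZ_apply]
  change _ = ((jZ n g).1.mulVec (LZ n x).ofLp) i
  rw [Matrix.mulVec, dotProduct, Fintype.sum_prod_type]
  simp only [Finset.univ_unique, PUnit.default_eq_unit, Finset.sum_singleton, jZ_apply]
  rfl

theorem noInv_rhoG {k : ℕ} (hk : 2 ≤ k) (Γ : Subgroup (B.SLZ (k + 1))) [Γ.FiniteIndex] :
    NoInv (B.rhoG Γ) ∧ FormLin (B.rhoG Γ) := by
  have h1 : Γ.map (jZ (k + 1)) ≤ unitI (blkO (Fin (k + 1)) Z1) := by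
    rw [← range_jZ]
    exact Subgroup.map_le_range _ _
  have h2 : (Γ.map (jZ (k + 1))).relIndex (unitI (blkO (Fin (k + 1)) Z1)) ≠ 0 := by
    rw [← range_jZ, MonoidHom.range_eq_map, Subgroup.relIndex_map_map_of_injective _ _ jZ_injective,
      Subgroup.relIndex_top_right]
    exact Subgroup.FiniteIndex.index_ne_zero
  have hC := cc_map _ h1 h2
  have hμ : 3 ≤ Fintype.card (Fin (k + 1)) := by
    rw [Fintype.card_fin]
    omega
  have hN : NoInv (stdR (Γ.map (jZ (k + 1)))) := noInv_stdR _ fun j hj w hw =>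
    noinv_CC divO_Z1 (by omega) hC j hj w hw
  have hF : FormLin (stdR (Γ.map (jZ (k + 1)))) := formLin_stdR _ fun j hj b hb =>
    fl_B divO_Z1 hμ hC j hj b hb
  have h : ∀ (γ : Γ) (x : B.EE (k + 1)), LZ (k + 1) (B.rhoG Γ γ x) =
      stdR (Γ.map (jZ (k + 1))) (Γ.equivMapOfInjective (jZ (k + 1)) jZ_injective γ)
        (LZ (k + 1) x) := fun γ x => LZ_rho γ.1 x
  exact ⟨noInv_transport (LZ (k + 1)) _ (B.rhoG Γ) _ h hN,
    formLin_transport (LZ (k + 1)) _ (B.rhoG Γ) _ h hF⟩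

/-- subgroups of finite index of `SL_n(ℤ)`, `n ≥ 3` -/
theorem linG_rhoG.{v} {k : ℕ} (hk : 2 ≤ k) (Γ : Subgroup (B.SLZ (k + 1))) [Γ.FiniteIndex] :
    LinG.{v} (B.rhoG Γ) := by
  obtain ⟨h1, h2⟩ := noInv_rhoG hk Γ
  intro M _ _ D
  exact B.core_B hk Γ h1 h2 D

/-- the group `SL_n(ℤ)` inside `SL_n(ℝ)` -/
noncomputable def SLnZ (n : ℕ) : Subgroup (Matrix.SpecialLinearGroup (Fin n) ℝ) :=
  (Matrix.SpecialLinearGroup.map (n := Fin n) (Int.castRingHom ℝ)).range

theorem mapZ_injective : Function.Injective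
    (Matrix.SpecialLinearGroup.map (n := Fin n) (Int.castRingHom ℝ)) := by
  intro a b h
  ext i j
  have h1 := congrArg (fun x : Matrix.SpecialLinearGroup (Fin n) ℝ => x.1 i j) h
  have h2 : ((a.1 i j : ℤ) : ℝ) = ((b.1 i j : ℤ) : ℝ) := h1
  exact_mod_cast h2

theorem linG_B.{v} (hn : 3 ≤ n) (G1 : Subgroup (Matrix.SpecialLinearGroup (Fin n) ℝ))
    (h1 : G1 ≤ SLnZ n) (h2 : G1.relIndex (SLnZ n) ≠ 0) : LinG.{v} (stdR G1) := by
  obtain ⟨k, rfl⟩ : ∃ k, n = k + 1 := ⟨n - 1, by omega⟩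
  set c := Matrix.SpecialLinearGroup.map (n := Fin (k + 1)) (Int.castRingHom ℝ) with hc
  have hmap : (G1.comap c).map c = G1 := by
    rw [Subgroup.map_comap_eq]
    exact inf_eq_right.2 h1
  have : (G1.comap c).FiniteIndex := ⟨by
    rw [Subgroup.index_comap]
    exact h2⟩
  have hL := linG_rhoG.{v} (show 2 ≤ k by omega) (G1.comap c)
  let f : (G1.comap c) ≃* G1 := ((G1.comap c).equivMapOfInjective c mapZ_injective).trans
    (MulEquiv.subgroupCongr hmap)
  refine LinG.transport (ContinuousLinearEquiv.refl ℝ _) f.symm (stdR G1)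
    (B.rhoG (G1.comap c)) ?_ hL
  intro γ x
  obtain ⟨δ, rfl⟩ := f.surjective γ
  rw [MulEquiv.symm_apply_apply]
  change stdR G1 (f δ) x = B.rhoZ (k + 1) δ.1 x
  ext i
  rw [B.rhoZ_apply]
  rfl

theorem dual_dual {ν : Type*} [Fintype ν] [DecidableEq ν] (g : Matrix.SpecialLinearGroup ν ℝ) :
    dualSL ν (dualSL ν g) = g := by
  apply Subtype.ext
  change (dualSL ν g)⁻¹.1.transpose = g.1
  rw [← map_inv]
  change (g⁻¹)⁻¹.1.transpose.transpose = g.1
  rw [inv_inv, Matrix.transpose_transpose]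

theorem map_dual_SLnZ : (SLnZ n).map (dualSL (Fin n)) = SLnZ n := by
  have h1 : ∀ x ∈ SLnZ n, dualSL (Fin n) x ∈ SLnZ n := by
    rintro _ ⟨g, rfl⟩
    refine ⟨⟨((g⁻¹ : Matrix.SpecialLinearGroup (Fin n) ℤ) : Matrix (Fin n) (Fin n) ℤ).transpose, by
      rw [Matrix.det_transpose]; exact (g⁻¹).2⟩, ?_⟩
    apply Subtype.ext
    change _ = (Matrix.SpecialLinearGroup.map (Int.castRingHom ℝ) g)⁻¹.1.transpose
    rw [← map_inv]
    ext i j
    rfl
  ext x
  constructor
  · rintro ⟨y, hy, rfl⟩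
    exact h1 y hy
  · intro hx
    exact ⟨dualSL (Fin n) x, h1 x hx, dual_dual x⟩

end
end LatLin
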