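import Pool.Agent.Lib.MP_2392aa_gt.C.Ifc
import Pool.Agent.Lib.MP_2392aa_gt.L.ArDef

/-!
MP_2392aa_gt, assembly: definitions (helper81).
-/

open scoped ContDiff Topology Manifold
open LatN (En dualSL)

namespace LatLin

/-- every action whose derivative at a fixed point is `ρ` is smoothly linearizable near the fixed
point, and the linearization is unique to infinite order -/
def LinG.{v, u, w} {E : Type u} [NormedAddCommGroup E] [NormedSpace ℝ E] {Γ : Type w} [Group Γ]
    (ρ : Γ →* (E ≃L[ℝ] E)) : Prop :=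
  ∀ (M : Type v) [TopologicalSpace M] [MulAction Γ M] (D : LocData (M := M) ρ),
    D.Lin ∧ D.Unique

section
variable {ν : Type*} [Fintype ν] [DecidableEq ν]

/-- the standard representation of a group of matrices of determinant one -/
noncomputable def stdR (G : Subgroup (Matrix.SpecialLinearGroup ν ℝ)) :
    G →* (En ν ≃L[ℝ] En ν) := (slG ν).comp G.subtype

/-- conjugation of a matrix of determinant one by an invertible matrix -/
noncomputable def cjSL (g : GL ν ℝ) :
    Matrix.SpecialLinearGroup ν ℝ →* Matrix.SpecialLinearGroup ν ℝ where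
  toFun a := ⟨g.1 * a.1 * (g⁻¹).1, by
    rw [Matrix.det_mul, Matrix.det_mul, a.2, mul_one, ← Matrix.det_mul, Units.mul_inv,
      Matrix.det_one]⟩
  map_one' := by
    apply Subtype.ext
    simp
  map_mul' a b := by
    apply Subtype.ext
    simp only [Matrix.SpecialLinearGroup.coe_mul]
    have h : (g⁻¹).1 * g.1 = (1 : Matrix ν ν ℝ) := Units.inv_mul g
    calc g.1 * (a.1 * b.1) * (g⁻¹).1 = g.1 * a.1 * 1 * b.1 * (g⁻¹).1 := by
          simp only [mul_one, mul_assoc]
      _ = g.1 * a.1 * ((g⁻¹).1 * g.1) * b.1 * (g⁻¹).1 := by rw [h]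
      _ = g.1 * a.1 * (g⁻¹).1 * (g.1 * b.1 * (g⁻¹).1) := by simp only [mul_assoc]

end

/-- an action of a group `S` on a manifold is linearizable near the fixed point `p` (germs): there is
a smooth chart around `p` in which every element of the group agrees near `p` with its derivative -/
def LinNear {E : Type*} [NormedAddCommGroup E] [NormedSpace ℝ E] {M : Type*} [TopologicalSpace M]
    [ChartedSpace E M] {S : Type*} [Group S] [MulAction S M] (p : M) (ρ : S →* (E ≃L[ℝ] E)) :
    Prop :=
  ∃ e : OpenPartialHomeomorph M E, p ∈ e.source ∧ e p = 0 ∧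
    ContMDiffOn 𝓘(ℝ, E) 𝓘(ℝ, E) ∞ e e.source ∧ ContMDiffOn 𝓘(ℝ, E) 𝓘(ℝ, E) ∞ e.symm e.target ∧
    ∀ γ : S, ∀ᶠ x in 𝓝 p, e (γ • x) = ρ γ (e x)

end LatLin
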