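import Pool.Agent.Lib.MP_2392aa_gt.C.FinP

/-!
MP_2392aa_gt, assembly: reindexing, and the passage from a model to commensurable groups (helper81).
-/

open scoped ContDiff Topology Manifold
open LatN (En dualSL InjRel DivO blkO blo unitI IsOrd)
open Metric Filter

namespace LatLin

section
universe v u u'
variable {ν : Type u} [Fintype ν] [DecidableEq ν] {ν' : Type u'} [Fintype ν'] [DecidableEq ν']

/-- reindexing of matrices of determinant one -/
def reSL (e : ν ≃ ν') : Matrix.SpecialLinearGroup ν ℝ ≃* Matrix.SpecialLinearGroup ν' ℝ where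
  toFun g := ⟨Matrix.reindex e e g.1, by rw [Matrix.det_reindex_self]; exact g.2⟩
  invFun g := ⟨Matrix.reindex e.symm e.symm g.1, by rw [Matrix.det_reindex_self]; exact g.2⟩
  left_inv g := by
    apply Subtype.ext
    ext i j
    simp
  right_inv g := by
    apply Subtype.ext
    ext i j
    simp
  map_mul' g h := by
    apply Subtype.ext
    change Matrix.reindex e e (g.1 * h.1) = Matrix.reindex e e g.1 * Matrix.reindex e e h.1
    simp [Matrix.submatrix_mul_equiv]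

theorem reSL_apply (e : ν ≃ ν') (g : Matrix.SpecialLinearGroup ν ℝ) (i j : ν') :
    (reSL e g).1 i j = g.1 (e.symm i) (e.symm j) := rfl

/-- reindexing of Euclidean space -/
noncomputable def reE (e : ν ≃ ν') : En ν ≃L[ℝ] En ν' :=
  (LinearIsometryEquiv.piLpCongrLeft 2 ℝ ℝ e).toContinuousLinearEquiv

theorem reE_apply (e : ν ≃ ν') (x : En ν) (i : ν') : reE e x i = x (e.symm i) := rfl

theorem slG_co (g : Matrix.SpecialLinearGroup ν ℝ) (x : En ν) (i : ν) :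
    slG ν g x i = ∑ j, g.1 i j * x j := rfl

theorem reE_slG (e : ν ≃ ν') (g : Matrix.SpecialLinearGroup ν ℝ) (x : En ν) :
    reE e (slG ν g x) = slG ν' (reSL e g) (reE e x) := by
  ext i
  rw [reE_apply, slG_co, slG_co]
  simp only [reE_apply, reSL_apply]
  exact (Equiv.sum_comp e.symm (fun j => g.1 (e.symm i) j * x j)).symm

theorem reSL_dual (e : ν ≃ ν') (g : Matrix.SpecialLinearGroup ν ℝ) :
    reSL e (dualSL ν g) = dualSL ν' (reSL e g) := by
  apply Subtype.ext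
  change (reSL e (dualSL ν g)).1 = (reSL e g)⁻¹.1.transpose
  rw [← map_inv]
  ext i j
  rfl

theorem PU.reindex (e : ν ≃ ν') (G1 : Subgroup (Matrix.SpecialLinearGroup ν ℝ))
    (h : PU.{v} (stdR (G1.map (reSL e).toMonoidHom))) : PU.{v} (stdR G1) :=
  PU.transport (reE e) ((reSL e).subgroupMap G1) (stdR G1) (stdR (G1.map (reSL e).toMonoidHom))
    (fun γ x => reE_slG e γ.1 x) h

theorem PG.reindex (e : ν ≃ ν') (G1 : Subgroup (Matrix.SpecialLinearGroup ν ℝ))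
    (h : PG.{v} (stdR (G1.map (reSL e).toMonoidHom))) : PG.{v} (stdR G1) :=
  PG.transport (reE e) ((reSL e).subgroupMap G1) (stdR G1) (stdR (G1.map (reSL e).toMonoidHom))
    (fun γ x => reE_slG e γ.1 x) h

/-- all subgroups of finite index of `Λ` and of the dual group -/
def AllU (Λ : Subgroup (Matrix.SpecialLinearGroup ν ℝ)) : Prop :=
  ∀ G1 : Subgroup (Matrix.SpecialLinearGroup ν ℝ),
    ((G1 ≤ Λ ∧ G1.relIndex Λ ≠ 0) ∨
      (G1 ≤ Λ.map (dualSL ν) ∧ G1.relIndex (Λ.map (dualSL ν)) ≠ 0)) → PU.{v} (stdR G1)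

/-- all subgroups of finite index of `Λ` and of the dual group -/
def AllG (Λ : Subgroup (Matrix.SpecialLinearGroup ν ℝ)) : Prop :=
  ∀ G1 : Subgroup (Matrix.SpecialLinearGroup ν ℝ),
    ((G1 ≤ Λ ∧ G1.relIndex Λ ≠ 0) ∨
      (G1 ≤ Λ.map (dualSL ν) ∧ G1.relIndex (Λ.map (dualSL ν)) ≠ 0)) → PG.{v} (stdR G1)

theorem AllG.allU {Λ : Subgroup (Matrix.SpecialLinearGroup ν ℝ)} (h : AllG.{v} Λ) : AllU.{v} Λ :=
  fun G1 h1 => (h G1 h1).1

private theorem re_cond (e : ν ≃ ν') (Λ G1 : Subgroup (Matrix.SpecialLinearGroup ν ℝ))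
    (h : ((G1 ≤ Λ ∧ G1.relIndex Λ ≠ 0) ∨
      (G1 ≤ Λ.map (dualSL ν) ∧ G1.relIndex (Λ.map (dualSL ν)) ≠ 0))) :
    ((G1.map (reSL e).toMonoidHom ≤ Λ.map (reSL e).toMonoidHom ∧
      (G1.map (reSL e).toMonoidHom).relIndex (Λ.map (reSL e).toMonoidHom) ≠ 0) ∨
      (G1.map (reSL e).toMonoidHom ≤ (Λ.map (reSL e).toMonoidHom).map (dualSL ν') ∧
        (G1.map (reSL e).toMonoidHom).relIndex
          ((Λ.map (reSL e).toMonoidHom).map (dualSL ν')) ≠ 0)) := by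
  have hinj : Function.Injective (reSL (ν := ν) (ν' := ν') e).toMonoidHom := (reSL e).injective
  have hd : (Λ.map (reSL e).toMonoidHom).map (dualSL ν') =
      (Λ.map (dualSL ν)).map (reSL e).toMonoidHom := by
    rw [Subgroup.map_map, Subgroup.map_map]
    congr 1
    ext1 g
    exact (reSL_dual e g).symm
  rw [hd]
  rcases h with ⟨h1, h2⟩ | ⟨h1, h2⟩
  · left
    refine ⟨Subgroup.map_mono h1, ?_⟩
    rw [Subgroup.relIndex_map_map_of_injective _ _ hinj]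
    exact h2
  · right
    refine ⟨Subgroup.map_mono h1, ?_⟩
    rw [Subgroup.relIndex_map_map_of_injective _ _ hinj]
    exact h2

theorem AllU.reindex (e : ν ≃ ν') (Λ : Subgroup (Matrix.SpecialLinearGroup ν ℝ))
    (h : AllU.{v} (Λ.map (reSL e).toMonoidHom)) : AllU.{v} Λ :=
  fun G1 h1 => PU.reindex e G1 (h _ (re_cond e Λ G1 h1))

theorem AllG.reindex (e : ν ≃ ν') (Λ : Subgroup (Matrix.SpecialLinearGroup ν ℝ))
    (h : AllG.{v} (Λ.map (reSL e).toMonoidHom)) : AllG.{v} Λ :=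
  fun G1 h1 => PG.reindex e G1 (h _ (re_cond e Λ G1 h1))

end

section
universe v u w x
variable {E : Type u} [NormedAddCommGroup E] [InnerProductSpace ℝ E] [FiniteDimensional ℝ E]
  {ν : Type x} [Fintype ν] [DecidableEq ν]

/-- the derivative representation is the inclusion or its dual, up to conjugation and signs -/
def DerSD {S : Type w} [Group S] (j : S →* Matrix.SpecialLinearGroup ν ℝ)
    (ρ : S →* (E ≃L[ℝ] E)) : Prop :=
  ∃ (L0 : E ≃L[ℝ] En ν) (ε : S → ℝ), (∀ γ, ε γ = 1 ∨ ε γ = -1) ∧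
    ((∀ γ x, L0 (ρ γ x) = ε γ • slG ν (j γ) (L0 x)) ∨
      ∀ γ x, L0 (ρ γ x) = ε γ • slG ν (dualSL ν (j γ)) (L0 x))

variable {Γ Λ : Subgroup (Matrix.SpecialLinearGroup ν ℝ)}

/-- the inclusion of a subgroup of `Γ` -/
def incS (S : Subgroup Γ) : S →* Matrix.SpecialLinearGroup ν ℝ := Γ.subtype.comp S.subtype

theorem incS_injective (S : Subgroup Γ) : Function.Injective (incS S) := by
  intro a b h
  exact Subtype.ext (Subtype.ext h)

theorem range_incS (S : Subgroup Γ) : (incS S).range = S.map Γ.subtype := by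
  ext x
  constructor
  · rintro ⟨y, rfl⟩
    exact ⟨y.1, y.2, rfl⟩
  · rintro ⟨y, hy, rfl⟩
    exact ⟨⟨y, hy⟩, rfl⟩

theorem incS_comm (g : GL ν ℝ) (h1 : (Λ.map (cjSL g)).relIndex Γ ≠ 0)
    (h2 : Γ.relIndex (Λ.map (cjSL g)) ≠ 0) (S : Subgroup Γ) [S.FiniteIndex] :
    (Λ.map (cjSL g)).relIndex (incS S).range ≠ 0 ∧
      (incS S).range.relIndex (Λ.map (cjSL g)) ≠ 0 := by
  have h3 : (incS S).range ≤ Γ := by
    rw [range_incS]
    exact Subgroup.map_subtype_le S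
  have h4 : (incS S).range.relIndex Γ ≠ 0 := by
    rw [range_incS, Subgroup.relIndex, Subgroup.subgroupOf,
      Subgroup.comap_map_eq_self_of_injective Γ.subtype_injective]
    exact Subgroup.FiniteIndex.index_ne_zero
  exact ⟨fun h => h1 (Subgroup.relIndex_eq_zero_of_le_right h3 h),
    Subgroup.relIndex_ne_zero_trans h4 h2⟩

theorem pu_comm (hΛ : AllU.{v} Λ) (g : GL ν ℝ) (h1 : (Λ.map (cjSL g)).relIndex Γ ≠ 0)
    (h2 : Γ.relIndex (Λ.map (cjSL g)) ≠ 0) (S : Subgroup Γ) [S.FiniteIndex]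
    (ρ : S →* (E ≃L[ℝ] E)) (hρ : DerSD (incS S) ρ) : PU.{v} ρ := by
  obtain ⟨L0, ε, hε, h⟩ := hρ
  obtain ⟨h3, h4⟩ := incS_comm g h1 h2 S
  exact pu_model (incS S) (incS_injective S) Λ g h3 h4 ρ L0 ε hε h
    (fun G1 k1 k2 => hΛ G1 (Or.inl ⟨k1, k2⟩)) fun G1 k1 k2 => hΛ G1 (Or.inr ⟨k1, k2⟩)

theorem pg_comm (hΛ : AllG.{v} Λ) (g : GL ν ℝ) (h1 : (Λ.map (cjSL g)).relIndex Γ ≠ 0)
    (h2 : Γ.relIndex (Λ.map (cjSL g)) ≠ 0) (S : Subgroup Γ) [S.FiniteIndex]
    (ρ : S →* (E ≃L[ℝ] E)) (hρ : DerSD (incS S) ρ) : PG.{v} ρ := by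
  obtain ⟨L0, ε, hε, h⟩ := hρ
  obtain ⟨h3, h4⟩ := incS_comm g h1 h2 S
  exact pg_model (incS S) (incS_injective S) Λ g h3 h4 ρ L0 ε hε h
    (fun G1 k1 k2 => hΛ G1 (Or.inl ⟨k1, k2⟩)) fun G1 k1 k2 => hΛ G1 (Or.inr ⟨k1, k2⟩)

end
end LatLin
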