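import Pool.Agent.Lib.MP_2392aa_gt.C.FinE

/-!
MP_2392aa_gt, assembly: the models (helper81).
-/

open scoped ContDiff Topology Manifold
open LatN (En dualSL InjRel DivO blkO blo unitI unitO trI trO IsOrd OutO)
open Metric Filter

namespace LatLin

universe v u

theorem allU_SLnZ {n : ℕ} (hn : 3 ≤ n) : AllU.{v} (SLnZ n) := by
  rintro G1 (⟨h1, h2⟩ | ⟨h1, h2⟩)
  · exact pu_B hn G1 h1 h2
  · rw [map_dual_SLnZ] at h1 h2
    exact pu_B hn G1 h1 h2

theorem allG_inner {μ δ : Type u} [Fintype μ] [DecidableEq μ] [Fintype δ] [DecidableEq δ]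
    (hinj : ∀ D1 : Subring (Matrix δ δ ℝ), DivO δ D1 →
      ∀ G1 : Subgroup (Matrix.SpecialLinearGroup (μ × δ) ℝ), G1 ≤ unitI (blkO μ D1) →
        G1.relIndex (unitI (blkO μ D1)) ≠ 0 → InjRel (stdR G1))
    {D0 : Subring (Matrix δ δ ℝ)} (hD : DivO δ D0)
    (hδ : 2 ≤ Fintype.card δ) (hμ : 2 ≤ Fintype.card μ) :
    AllG.{v} (unitI (blkO μ D0)) := by
  rintro G1 (⟨h1, h2⟩ | ⟨h1, h2⟩)
  · exact pg_inner hD hδ hμ G1 h1 h2 (hinj D0 hD G1 h1 h2)
  · rw [map_dual_blk] at h1 h2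
    exact pg_inner (divO_tr hD) hδ hμ G1 h1 h2 (hinj _ (divO_tr hD) G1 h1 h2)

theorem allG_outer {ν : Type u} [Fintype ν] [DecidableEq ν] (hn : 3 ≤ Fintype.card ν)
    (hfl : ∀ O : Subring (LatN.DM ν), OutO ν O →
      (∃ g ∈ unitO O, g ≠ 1 ∧ IsNilpotent (g.1 - 1)) →
      ∀ G1 : Subgroup (Matrix.SpecialLinearGroup ν ℝ), G1 ≤ unitO O →
        G1.relIndex (unitO O) ≠ 0 → NoInv (stdR G1) ∧ FormLin (stdR G1) ∧ InjRel (stdR G1))
    {O : Subring (LatN.DM ν)} (hO : OutO ν O)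
    (hg : ∃ g ∈ unitO O, g ≠ 1 ∧ IsNilpotent (g.1 - 1)) : AllG.{v} (unitO O) := by
  have hν : Nonempty ν := Fintype.card_pos_iff.1 (by omega)
  rintro G1 (⟨h1, h2⟩ | ⟨h1, h2⟩)
  · obtain ⟨k1, k2, k3⟩ := hfl O hO hg G1 h1 h2
    exact pg_of_parts G1 k1 k2 (LatN.noHorn_outO hn hO h1 h2) k3
  · rw [LatN.map_dual_unitO] at h1 h2
    have hg' : ∃ g ∈ unitO (trO O), g ≠ 1 ∧ IsNilpotent (g.1 - 1) := by
      obtain ⟨g, hg, hg1, hgn⟩ := hg
      refine ⟨dualSL ν g, ?_, ?_, ?_⟩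
      · rw [← LatN.map_dual_unitO]
        exact ⟨g, hg, rfl⟩
      · intro h
        apply hg1
        rw [← dual_dual g, h, map_one]
      · change IsNilpotent ((g⁻¹).1.transpose - 1)
        obtain ⟨N, hN⟩ := hgn
        have h3 : (g⁻¹).1.transpose - 1 = ((g⁻¹).1 - 1).transpose := by
          rw [Matrix.transpose_sub, Matrix.transpose_one]
        have h4 : (g⁻¹).1 - 1 = (g⁻¹).1 * (-(g.1 - 1)) := by
          rw [mul_neg, mul_sub, mul_one, ← Matrix.SpecialLinearGroup.coe_mul, inv_mul_cancel,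
            Matrix.SpecialLinearGroup.coe_one]
          abel
        have h5 : Commute (g⁻¹).1 (-(g.1 - 1)) := by
          refine Commute.neg_right (Commute.sub_right ?_ (Commute.one_right _))
          change (g⁻¹).1 * g.1 = g.1 * (g⁻¹).1
          rw [← Matrix.SpecialLinearGroup.coe_mul, ← Matrix.SpecialLinearGroup.coe_mul,
            inv_mul_cancel, mul_inv_cancel]
        refine ⟨N, ?_⟩
        rw [h3, ← Matrix.transpose_pow, h4, h5.mul_pow, neg_pow, hN, mul_zero, mul_zero,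
          Matrix.transpose_zero]
    obtain ⟨k1, k2, k3⟩ := hfl (trO O) hO.tr hg' G1 h1 h2
    exact pg_of_parts G1 k1 k2 (LatN.noHorn_outO hn hO.tr h1 h2) k3

theorem allU_inner {μ δ : Type u} [Fintype μ] [DecidableEq μ] [Fintype δ] [DecidableEq δ]
    {D0 : Subring (Matrix δ δ ℝ)} (hD : DivO δ D0)
    (hδ : 2 ≤ Fintype.card δ) (hμ : 2 ≤ Fintype.card μ) :
    AllU.{v} (unitI (blkO μ D0)) := by
  have hδ0 : Nonempty δ := Fintype.card_pos_iff.1 (by omega)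
  have hμ0 : Nonempty μ := Fintype.card_pos_iff.1 (by omega)
  have key : ∀ D1 : Subring (Matrix δ δ ℝ), DivO δ D1 →
      ∀ G1 : Subgroup (Matrix.SpecialLinearGroup (μ × δ) ℝ), G1 ≤ unitI (blkO μ D1) →
        G1.relIndex (unitI (blkO μ D1)) ≠ 0 → PU.{v} (stdR G1) := by
    intro D1 hD1 G1 h1 h2
    have hC := cc_map G1 h1 h2
    refine pu_of_parts G1 (noInv_stdR G1 fun k hk w hw => noinv_CC hD1 hμ hC k hk w hw)
      (formLin_stdR G1 fun k hk b hb => fl_inner hD1 hδ hμ hC k hk b hb) ?_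
    exact LatN.noHorn_innO (by rw [Fintype.card_prod]; nlinarith) (LatN.blkO_inn hD1 hδ) h1 h2
  rintro G1 (⟨h1, h2⟩ | ⟨h1, h2⟩)
  · exact key D0 hD G1 h1 h2
  · rw [map_dual_blk] at h1 h2
    exact key _ (divO_tr hD) G1 h1 h2

theorem exists_unip_tr {ν : Type u} [Fintype ν] [DecidableEq ν] {O : Subring (LatN.DM ν)}
    (hg : ∃ g ∈ unitO O, g ≠ 1 ∧ IsNilpotent (g.1 - 1)) :
    ∃ g ∈ unitO (trO O), g ≠ 1 ∧ IsNilpotent (g.1 - 1) := by
  obtain ⟨g, hg, hg1, hgn⟩ := hg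
  refine ⟨dualSL ν g, ?_, ?_, ?_⟩
  · rw [← LatN.map_dual_unitO]
    exact ⟨g, hg, rfl⟩
  · intro h
    apply hg1
    rw [← dual_dual g, h, map_one]
  · change IsNilpotent ((g⁻¹).1.transpose - 1)
    obtain ⟨N, hN⟩ := hgn
    have h3 : (g⁻¹).1.transpose - 1 = ((g⁻¹).1 - 1).transpose := by
      rw [Matrix.transpose_sub, Matrix.transpose_one]
    have h4 : (g⁻¹).1 - 1 = (g⁻¹).1 * (-(g.1 - 1)) := by
      rw [mul_neg, mul_sub, mul_one, ← Matrix.SpecialLinearGroup.coe_mul, inv_mul_cancel,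
        Matrix.SpecialLinearGroup.coe_one]
      abel
    have h5 : Commute (g⁻¹).1 (-(g.1 - 1)) := by
      refine Commute.neg_right (Commute.sub_right ?_ (Commute.one_right _))
      change (g⁻¹).1 * g.1 = g.1 * (g⁻¹).1
      rw [← Matrix.SpecialLinearGroup.coe_mul, ← Matrix.SpecialLinearGroup.coe_mul,
        inv_mul_cancel, mul_inv_cancel]
    refine ⟨N, ?_⟩
    rw [h3, ← Matrix.transpose_pow, h4, h5.mul_pow, neg_pow, hN, mul_zero, mul_zero,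
      Matrix.transpose_zero]

theorem allU_outer {ν : Type u} [Fintype ν] [DecidableEq ν] (hn : 3 ≤ Fintype.card ν)
    (hfl : ∀ O : Subring (LatN.DM ν), OutO ν O →
      (∃ g ∈ unitO O, g ≠ 1 ∧ IsNilpotent (g.1 - 1)) →
      ∀ G1 : Subgroup (Matrix.SpecialLinearGroup ν ℝ), G1 ≤ unitO O →
        G1.relIndex (unitO O) ≠ 0 → NoInv (stdR G1) ∧ FormLin (stdR G1))
    {O : Subring (LatN.DM ν)} (hO : OutO ν O)
    (hg : ∃ g ∈ unitO O, g ≠ 1 ∧ IsNilpotent (g.1 - 1)) : AllU.{v} (unitO O) := by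
  have hν : Nonempty ν := Fintype.card_pos_iff.1 (by omega)
  rintro G1 (⟨h1, h2⟩ | ⟨h1, h2⟩)
  · obtain ⟨k1, k2⟩ := hfl O hO hg G1 h1 h2
    exact pu_of_parts G1 k1 k2 (LatN.noHorn_outO hn hO h1 h2)
  · rw [LatN.map_dual_unitO] at h1 h2
    obtain ⟨k1, k2⟩ := hfl (trO O) hO.tr (exists_unip_tr hg) G1 h1 h2
    exact pu_of_parts G1 k1 k2 (LatN.noHorn_outO hn hO.tr h1 h2)

end LatLin
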