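import Pool.Agent.Lib.MP_2392aa_gt.C.FinDef
import Pool.Agent.Lib.MP_2392aa_gt.C.Grp
import Pool.Agent.Lib.MP_2392aa_gt.C.Uniq

/-!
MP_2392aa_gt, assembly, module FinG (about 220 lines): the property `LinG` passes along isomorphisms
and from normal subgroups.

PROOFS.
`LinG.transport`: let `D : LocData ρ` on `M`. Let `Γ'` act on `M` by `γ' • m := f.symm γ' • m`
(`MulAction.compHom M f.symm.toMonoidHom`, as a local instance, use `letI`/explicit instance
arguments). `D' : LocData ρ'`: `χ' := D.χ ∘ L.symm`, `r0'` with `L.symm '' ball 0 r0' ⊆ ball 0 D.r0`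
(`r0' := D.r0 / (‖L.symm‖ + 1)`), `F' γ' := L ∘ D.F (f.symm γ') ∘ L.symm`, smooth, derivative
`L ∘ ρ (f.symm γ') ∘ L.symm = ρ' γ'` at `0`, `F_act` from `D.F_act` by continuity of `L.symm` at `0`.
From `φ'` for `D'`: `φ := L.symm ∘ φ' ∘ L`. `Unique`: from `w` for `D` the map `L ∘ w ∘ L.symm` for `D'`.
`LinG.of_normal`: `D.restrict H` gives `D1` with `D1.F γ = D.F γ`; `h M D1` gives `D1.Lin` and
`D1.Unique`; `lin_of_normal` gives `D.Lin`; `D.Unique`: an equivariant germ for `Γ` is equivariant for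
`H`.
-/

open scoped ContDiff Topology
open Metric Filter

namespace LatLin

section
universe v u u' w w'
variable {E : Type u} [NormedAddCommGroup E] [InnerProductSpace ℝ E] [FiniteDimensional ℝ E]
  {E' : Type u'} [NormedAddCommGroup E'] [InnerProductSpace ℝ E'] [FiniteDimensional ℝ E']
  {Γ : Type w} [Group Γ] {Γ' : Type w'} [Group Γ']

theorem LinG.transport (L : E ≃L[ℝ] E') (f : Γ ≃* Γ') (ρ : Γ →* (E ≃L[ℝ] E))
    (ρ' : Γ' →* (E' ≃L[ℝ] E')) (h : ∀ γ x, L (ρ γ x) = ρ' (f γ) (L x)) (hρ : LinG.{v} ρ') :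
    LinG.{v} ρ := by
  intro M iT iA D
  let act' : MulAction Γ' M := MulAction.compHom M f.symm.toMonoidHom
  have hact : ∀ (γ' : Γ') (m : M), γ' • m = f.symm γ' • m := fun _ _ => rfl
  have hLt : Tendsto L (𝓝 0) (𝓝 0) := by
    have h1 := L.continuous.tendsto 0
    rwa [map_zero] at h1
  have hLst : Tendsto L.symm (𝓝 0) (𝓝 0) := by
    have h1 := L.symm.continuous.tendsto 0
    rwa [map_zero] at h1
  have hpos : 0 < ‖(L.symm : E' →L[ℝ] E)‖ + 1 := by positivity
  have hball : ∀ y ∈ ball (0 : E') (D.r0 / (‖(L.symm : E' →L[ℝ] E)‖ + 1)),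
      L.symm y ∈ ball (0 : E) D.r0 := by
    intro y hy
    rw [mem_ball_zero_iff] at hy ⊢
    rw [lt_div_iff₀ hpos] at hy
    have h1 : ‖L.symm y‖ ≤ ‖(L.symm : E' →L[ℝ] E)‖ * ‖y‖ :=
      (L.symm : E' →L[ℝ] E).le_opNorm y
    nlinarith [norm_nonneg y]
  have hderL : HasFDerivAt L (L : E →L[ℝ] E') 0 := L.hasFDerivAt
  have hderS : HasFDerivAt L.symm (L.symm : E' →L[ℝ] E) 0 := L.symm.hasFDerivAt
  have hsw : ∀ (γ : Γ) (z : E'), L (ρ γ (L.symm z)) = ρ' (f γ) z := by
    intro γ z
    rw [h, L.apply_symm_apply]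
  let D' : LocData (M := M) ρ' :=
    { χ := fun y => D.χ (L.symm y)
      r0 := D.r0 / (‖(L.symm : E' →L[ℝ] E)‖ + 1)
      r0_pos := div_pos D.r0_pos hpos
      inj := by
        intro y hy y' hy' hyy
        exact L.symm.injective (D.inj (hball y hy) (hball y' hy') hyy)
      cont := D.cont.comp L.symm.continuous.continuousOn hball
      F := fun γ' y => L (D.F (f.symm γ') (L.symm y))
      F_smooth := fun γ' => L.contDiff.comp ((D.F_smooth _).comp L.symm.contDiff)
      F_zero := fun γ' => by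
        rw [map_zero, D.F_zero, map_zero]
      F_deriv := by
        intro γ'
        have h1 : HasFDerivAt (D.F (f.symm γ')) (ρ (f.symm γ') : E →L[ℝ] E) (L.symm 0) := by
          rw [map_zero]
          exact D.F_deriv _
        have h2 := h1.comp (0 : E') hderS
        have h3 : HasFDerivAt L (L : E →L[ℝ] E') ((D.F (f.symm γ') ∘ L.symm) 0) := by
          rw [Function.comp_apply, map_zero, D.F_zero]
          exact hderL
        have h4 := h3.comp (0 : E') h2
        have h5 : (L : E →L[ℝ] E').comp (((ρ (f.symm γ') : E ≃L[ℝ] E) : E →L[ℝ] E).comp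
            (L.symm : E' →L[ℝ] E)) = ((ρ' γ' : E' ≃L[ℝ] E') : E' →L[ℝ] E') := by
          ext1 z
          have h6 := hsw (f.symm γ') z
          rw [f.apply_symm_apply] at h6
          exact h6
        rw [h5] at h4
        exact h4
      F_act := by
        intro γ'
        filter_upwards [hLst.eventually (D.F_act (f.symm γ'))] with y hy
        rw [hact, hy, L.symm_apply_apply] }
  have hDF : ∀ (γ : Γ) (x : E), D'.F (f γ) (L x) = L (D.F γ x) := by
    intro γ x
    change L (D.F (f.symm (f γ)) (L.symm (L x))) = _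
    rw [f.symm_apply_apply, L.symm_apply_apply]
  obtain ⟨⟨φ', hs, h0, hd, hφ⟩, hU⟩ := hρ M D'
  refine ⟨⟨fun x => L.symm (φ' (L x)), L.symm.contDiff.comp (hs.comp L.contDiff), ?_, ?_,
    fun γ => ?_⟩, ?_⟩
  · dsimp only
    rw [map_zero, h0, map_zero]
  · have h1 : HasFDerivAt φ' (ContinuousLinearMap.id ℝ E') (L 0) := by
      rw [map_zero]
      exact hd
    have h2 := h1.comp (0 : E) hderL
    have h3 : HasFDerivAt L.symm (L.symm : E' →L[ℝ] E) ((φ' ∘ L) 0) := by
      rw [Function.comp_apply, map_zero, h0]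
      exact hderS
    have h4 := h3.comp (0 : E) h2
    have h5 : (L.symm : E' →L[ℝ] E).comp ((ContinuousLinearMap.id ℝ E').comp
        (L : E →L[ℝ] E')) = ContinuousLinearMap.id ℝ E := by
      ext1 z
      exact L.symm_apply_apply z
    rw [h5] at h4
    exact h4
  · filter_upwards [hLt.eventually (hφ (f γ))] with x hx
    rw [hDF] at hx
    rw [hx, ← hsw, L.symm_apply_apply]
  · intro w hws hw0 hwd hw
    have h1 : ∀ᶠ y in 𝓝 (0 : E'), L (w (L.symm y)) = 0 := by
      refine hU (fun y => L (w (L.symm y))) (L.contDiff.comp (hws.comp L.symm.contDiff)) ?_ ?_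
        fun γ' => ?_
      · rw [map_zero, hw0, map_zero]
      · have h1 : HasFDerivAt w (0 : E →L[ℝ] E) (L.symm 0) := by
          rw [map_zero]
          exact hwd
        have h2 := h1.comp (0 : E') hderS
        have h3 : HasFDerivAt L (L : E →L[ℝ] E') ((w ∘ L.symm) 0) := by
          rw [Function.comp_apply, map_zero, hw0]
          exact hderL
        have h4 := h3.comp (0 : E') h2
        rw [ContinuousLinearMap.zero_comp, ContinuousLinearMap.comp_zero] at h4
        exact h4
      · obtain ⟨γ, rfl⟩ := f.surjective γ'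
        filter_upwards [hLst.eventually (hw γ)] with y hy
        have h6 := hDF γ (L.symm y)
        rw [L.apply_symm_apply] at h6
        rw [h6, L.symm_apply_apply, hy, ← hsw, L.symm_apply_apply]
    filter_upwards [hLt.eventually h1] with x hx
    rw [L.symm_apply_apply] at hx
    exact L.map_eq_zero_iff.1 hx

theorem LinG.of_normal (ρ : Γ →* (E ≃L[ℝ] E)) (H : Subgroup Γ) [H.Normal]
    (h : LinG.{v} (ρ.comp H.subtype)) : LinG.{v} ρ := by
  intro M iT iA D
  obtain ⟨D1, -, -, hF⟩ := D.restrict H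
  obtain ⟨hL, hU⟩ := h M D1
  refine ⟨lin_of_normal D H D1 hF hL hU, ?_⟩
  intro w hws hw0 hwd hw
  refine hU w hws hw0 hwd fun γ => ?_
  rw [hF]
  exact hw (γ : Γ)

end
end LatLin
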