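import Pool.Agent.Lib.MP_2392aa_gt.C.FinM
import Pool.Agent.Lib.MP_2392aa_gt.C.CoreN
import Pool.Agent.Lib.MP_2392aa_gt.L.FLI
import Pool.Agent.Lib.MP_2392aa_gt.L.ToForm
import Pool.Agent.Lib.LatN.ToIfc
import Pool.Agent.Lib.LatN.OrdT

/-!
MP_2392aa_gt, assembly: lattices of inner type with blocks of size at least two (helper81).
-/

open scoped ContDiff Topology
open LatN (En dualSL DivO blkO unitI trI IsOrd)

namespace LatLin

section
variable {ν : Type*} [Fintype ν] [DecidableEq ν]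

theorem slG_apply (g : Matrix.SpecialLinearGroup ν ℝ) (x : En ν) : slG ν g x = om g.1 x := rfl

theorem slG_injective : Function.Injective (slG ν) := by
  intro a b h
  apply Subtype.ext
  have h1 : om a.1 = om b.1 := by
    ext x : 1
    rw [← slG_apply, ← slG_apply, h]
  exact (Matrix.toEuclideanCLM (n := ν) (𝕜 := ℝ)).injective h1

/-- the isomorphism of a matrix group with its group of operators -/
noncomputable def eqG (G1 : Subgroup (Matrix.SpecialLinearGroup ν ℝ)) : G1 ≃* G1.map (slG ν) :=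
  G1.equivMapOfInjective (slG ν) slG_injective

theorem formLin_stdR (G1 : Subgroup (Matrix.SpecialLinearGroup ν ℝ))
    (h : ∀ k : ℕ, 2 ≤ k → ∀ b : GE (En ν) → HM (En ν) k, IsCoc (G1.map (slG ν)) b →
      ∃ w : HM (En ν) k, Triv b w ((G1.map (slG ν) : Subgroup (GE (En ν))) : Set (GE (En ν)))) :
    FormLin (stdR G1) :=
  formLin_transport (ContinuousLinearEquiv.refl ℝ (En ν)) (eqG G1) (stdR G1)
    (G1.map (slG ν)).subtype (fun _ _ => rfl) (formLin_of _ h)

theorem noInv_stdR (G1 : Subgroup (Matrix.SpecialLinearGroup ν ℝ))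
    (h : ∀ k : ℕ, 2 ≤ k → ∀ w : HM (En ν) k, (∀ g ∈ G1.map (slG ν), pi k g w = w) → w = 0) :
    NoInv (stdR G1) :=
  noInv_transport (ContinuousLinearEquiv.refl ℝ (En ν)) (eqG G1) (stdR G1)
    (G1.map (slG ν)).subtype (fun _ _ => rfl) (noInv_of _ h)

theorem stdR_injective (G1 : Subgroup (Matrix.SpecialLinearGroup ν ℝ)) :
    Function.Injective (stdR G1) := by
  intro a b h
  exact Subtype.ext (slG_injective h)

theorem range_stdR (G1 : Subgroup (Matrix.SpecialLinearGroup ν ℝ)) :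
    ((LatN.autU (En ν)).comp (stdR G1)).range = G1.map (LatN.toGE ν) := by
  ext A
  constructor
  · rintro ⟨g, rfl⟩
    refine ⟨g.1, g.2, ?_⟩
    ext x : 2
    rfl
  · rintro ⟨g, hg, rfl⟩
    refine ⟨⟨g, hg⟩, ?_⟩
    ext x : 2
    rfl

/-- contraction and connectedness from `NoHorn` -/
theorem contr_conn_stdR [Nonempty ν] (G1 : Subgroup (Matrix.SpecialLinearGroup ν ℝ))
    (h : LatN.NoHorn (G1.map (LatN.toGE ν))) :
    Contr (stdR G1) ∧ ∃ S : Set G1, S.Finite ∧ Subgroup.closure S = ⊤ ∧ Conn (stdR G1) S := by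
  have : Nontrivial (En ν) := by
    obtain ⟨i⟩ := ‹Nonempty ν›
    refine ⟨0, EuclideanSpace.single i 1, fun h0 => ?_⟩
    have := congrArg (fun v : En ν => v i) h0
    simp at this
  exact LatN.contr_conn (stdR G1) (stdR_injective G1) (by rw [range_stdR]; exact h)

theorem linG_of_parts.{v} [Nonempty ν] (G1 : Subgroup (Matrix.SpecialLinearGroup ν ℝ))
    (h1 : NoInv (stdR G1)) (h2 : FormLin (stdR G1))
    (h : LatN.NoHorn (G1.map (LatN.toGE ν))) : LinG.{v} (stdR G1) := by
  have : Nontrivial (En ν) := by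
    obtain ⟨i⟩ := ‹Nonempty ν›
    refine ⟨0, EuclideanSpace.single i 1, fun h0 => ?_⟩
    have := congrArg (fun v : En ν => v i) h0
    simp at this
  obtain ⟨h3, S, hS, hg, hC⟩ := contr_conn_stdR G1 h
  intro M _ _ D
  exact core_N h1 h2 h3 S hS hg hC D

end

section
universe u
variable {μ δ : Type u} [Fintype μ] [DecidableEq μ] [Fintype δ] [DecidableEq δ]
  {D0 : Subring (Matrix δ δ ℝ)}

theorem divO_tr (hD : DivO δ D0) : DivO δ (trI D0) where
  ord := hD.ord.tr
  div := by
    intro x hx h0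
    have h1 : x.transpose ≠ 0 := by
      intro h
      exact h0 (by simpa using congrArg Matrix.transpose h)
    have := hD.div _ hx h1
    rwa [Matrix.det_transpose] at this

theorem trI_blkO : trI (blkO μ D0) = blkO μ (trI D0) := by
  ext x
  constructor
  · intro h i j
    exact h j i
  · intro h i j
    exact h j i

theorem map_dual_blk :
    (unitI (blkO μ D0)).map (dualSL (μ × δ)) = unitI (blkO μ (trI D0)) := by
  rw [LatN.map_dual_unitI, trI_blkO]

theorem linG_inner.{v} (hD : DivO δ D0) (hδ : 2 ≤ Fintype.card δ) (hμ : 2 ≤ Fintype.card μ)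
    (G1 : Subgroup (Matrix.SpecialLinearGroup (μ × δ) ℝ)) (h1 : G1 ≤ unitI (blkO μ D0))
    (h2 : G1.relIndex (unitI (blkO μ D0)) ≠ 0) : LinG.{v} (stdR G1) := by
  have hδ0 : Nonempty δ := Fintype.card_pos_iff.1 (by omega)
  have hμ0 : Nonempty μ := Fintype.card_pos_iff.1 (by omega)
  have hC := cc_map G1 h1 h2
  refine linG_of_parts G1 (noInv_stdR G1 fun k hk w hw => noinv_CC hD hμ hC k hk w hw)
    (formLin_stdR G1 fun k hk b hb => fl_inner hD hδ hμ hC k hk b hb) ?_
  exact LatN.noHorn_innO (by rw [Fintype.card_prod]; nlinarith) (LatN.blkO_inn hD hδ) h1 h2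

end
end LatLin
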