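import Pool.Agent.Lib.MP_2392aa_gt.C.FinDef

/-!
MP_2392aa_gt, assembly, module FinR (about 300 lines): reduction to a subgroup of finite index of the
model lattice (signs, duality, conjugation, commensurability). Pure group theory and linear algebra.

PROOF of `exists_red`. Let `B a := slG ν a` in the first case, `slG ν (dualSL ν a)` in the second, so
`L0 (ρ γ x) = ε γ • B (j γ) (L0 x)`. `ε` is multiplicative: compare `ρ (γ δ)` and `ρ γ ρ δ` at a vector
with `B (j (γ δ)) (L0 x) ≠ 0` (if `E` is trivial take `ε` to be `1`; or treat `Subsingleton E`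
separately: all maps are equal, use `ε = 1`). `S1 := {ε = 1}` is a subgroup of index at most `2`.
`S2 := {γ | j γ ∈ Λ.map (cjSL g)}` has finite index, because
`(Λ.map (cjSL g)).relIndex j.range ≠ 0` (`Subgroup.relIndex_comap`). `H := (S1 ⊓ S2).normalCore`, normal of
finite index. `cjSL g` is injective; for `γ ∈ H` let `λ γ ∈ Λ` be the element with
`cjSL g (λ γ) = j γ`, i.e. `λ γ = cjSL g⁻¹ (j γ)`; `γ ↦ λ γ` is an injective homomorphism `H → Λ`; let
`G1` be its range (first case), or the range of `γ ↦ dualSL ν (λ γ)` (second case; `dualSL ν` is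
injective). FINITE INDEX of `G1` in `Λ` (resp. `Λ.map (dualSL ν)`): `H` has finite index in `S`, so `j(H)`
in `j.range`; `j.range.relIndex (Λ.map (cjSL g)) ≠ 0`; so `j(H) ≤ Λ.map (cjSL g)` has finite index there
(`Subgroup.relIndex_ne_zero_trans`), apply the isomorphism `cjSL g⁻¹`. `L`: first case
`L := (operator of g⁻¹) ∘ L0`: `g⁻¹ (j γ) x = (λ γ) g⁻¹ x`. Second case: `dualSL (g a g⁻¹) =
gᵀ⁻¹ dualSL(a) gᵀ`, `L := (operator of gᵀ) ∘ L0`.
`linG_model`: `exists_red`, `LinG.transport`, `LinG.of_normal`.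
-/

open scoped ContDiff Topology
open LatN (En dualSL)

namespace LatLin

section
universe v u w x
variable {ν : Type x} [Fintype ν] [DecidableEq ν] {E : Type u} [NormedAddCommGroup E]
  [InnerProductSpace ℝ E] [FiniteDimensional ℝ E] {S : Type w} [Group S]

private theorem slG_apply (a : Matrix.SpecialLinearGroup ν ℝ) (x : En ν) :
    slG ν a x = om a.1 x := rfl

private theorem om_om (A B : Matrix ν ν ℝ) (x : En ν) : om A (om B x) = om (A * B) x := by
  unfold om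
  rw [map_mul]
  rfl

private theorem om_one_apply (x : En ν) : om (1 : Matrix ν ν ℝ) x = x := by
  unfold om
  rw [map_one]
  rfl

private theorem cj_coe (g : GL ν ℝ) (a : Matrix.SpecialLinearGroup ν ℝ) :
    (cjSL g a).1 = g.1 * a.1 * (g⁻¹).1 := rfl

private theorem inv_mul_coe (g : GL ν ℝ) : (g⁻¹).1 * g.1 = (1 : Matrix ν ν ℝ) := Units.inv_mul g

private theorem mul_inv_coe (g : GL ν ℝ) : g.1 * (g⁻¹).1 = (1 : Matrix ν ν ℝ) := Units.mul_inv g

private theorem cj_inv_cj (g : GL ν ℝ) (a : Matrix.SpecialLinearGroup ν ℝ) :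
    cjSL g⁻¹ (cjSL g a) = a := by
  apply Subtype.ext
  rw [cj_coe, cj_coe, inv_inv]
  calc (g⁻¹).1 * (g.1 * a.1 * (g⁻¹).1) * g.1
      = ((g⁻¹).1 * g.1) * a.1 * ((g⁻¹).1 * g.1) := by simp only [mul_assoc]
    _ = a.1 := by rw [inv_mul_coe, one_mul, mul_one]

private theorem cj_cj_inv (g : GL ν ℝ) (a : Matrix.SpecialLinearGroup ν ℝ) :
    cjSL g (cjSL g⁻¹ a) = a := by
  have h := cj_inv_cj g⁻¹ a
  rwa [inv_inv] at h

private theorem cj_inj (g : GL ν ℝ) : Function.Injective (cjSL g) :=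
  Function.LeftInverse.injective (cj_inv_cj g)

private theorem dual_coe (a : Matrix.SpecialLinearGroup ν ℝ) :
    (dualSL ν a).1 = (a⁻¹).1.transpose := rfl

private theorem dual_inj : Function.Injective (dualSL ν) := by
  intro a b h
  have h1 := congrArg (fun z : Matrix.SpecialLinearGroup ν ℝ => z.1.transpose) h
  simp only [dual_coe, Matrix.transpose_transpose] at h1
  exact inv_injective (Subtype.ext h1)

/-- the common part of the two cases -/
private theorem red_core (j : S →* Matrix.SpecialLinearGroup ν ℝ) (hj : Function.Injective j)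
    (Λ : Subgroup (Matrix.SpecialLinearGroup ν ℝ)) (g : GL ν ℝ)
    (h1 : (Λ.map (cjSL g)).relIndex j.range ≠ 0) (h2 : j.range.relIndex (Λ.map (cjSL g)) ≠ 0)
    (ρ : S →* (E ≃L[ℝ] E)) (L0 : E ≃L[ℝ] En ν) (ε : S → ℝ) (hε : ∀ γ, ε γ = 1 ∨ ε γ = -1)
    (B : Matrix.SpecialLinearGroup ν ℝ →* Matrix.SpecialLinearGroup ν ℝ)
    (hB : Function.Injective B) (hρ : ∀ γ x, L0 (ρ γ x) = ε γ • slG ν (B (j γ)) (L0 x))
    (P Q : Matrix ν ν ℝ) (hPQ : P * Q = 1) (hQP : Q * P = 1)
    (hP : ∀ a, P * (B (cjSL g a)).1 = (B a).1 * P) :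
    ∃ H : Subgroup S, H.Normal ∧ H.FiniteIndex ∧ ∃ G1 : Subgroup (Matrix.SpecialLinearGroup ν ℝ),
      (G1 ≤ Λ.map B ∧ G1.relIndex (Λ.map B) ≠ 0) ∧
      ∃ (f : H ≃* G1) (L : E ≃L[ℝ] En ν), ∀ (h : H) (x : E), L (ρ h x) = stdR G1 (f h) (L x) := by
  let S1 : Subgroup S :=
    { carrier := {γ | ∀ x, L0 (ρ γ x) = slG ν (B (j γ)) (L0 x)}
      mul_mem' := by
        intro a b ha hb x
        rw [map_mul, map_mul, map_mul, map_mul]
        change L0 (ρ a (ρ b x)) = slG ν (B (j a)) (slG ν (B (j b)) (L0 x))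
        rw [ha, hb]
      one_mem' := by
        intro x
        rw [map_one, map_one, map_one, map_one]
        rfl
      inv_mem' := by
        intro a ha x
        have h3 := ha (ρ a⁻¹ x)
        have h4 : ρ a (ρ a⁻¹ x) = x := by
          change (ρ a * ρ a⁻¹) x = x
          rw [← map_mul, mul_inv_cancel, map_one]
          rfl
        rw [h4] at h3
        rw [h3]
        change _ = (slG ν (B (j a⁻¹)) * slG ν (B (j a))) (L0 (ρ a⁻¹ x))
        rw [← map_mul, ← map_mul, ← map_mul, inv_mul_cancel, map_one, map_one, map_one]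
        rfl }
  have hS1 : ∀ γ, γ ∈ S1 ↔ ∀ x, L0 (ρ γ x) = slG ν (B (j γ)) (L0 x) := fun γ => Iff.rfl
  have hneg : ∀ γ, γ ∉ S1 → ∀ x, L0 (ρ γ x) = -slG ν (B (j γ)) (L0 x) := by
    intro γ hγ x
    rcases hε γ with he | he
    · exfalso
      apply hγ
      intro y
      rw [hρ, he, one_smul]
    · rw [hρ, he, neg_one_smul]
  have hneg2 : ∀ γ δ, γ ∉ S1 → δ ∉ S1 → γ * δ ∈ S1 := by
    intro γ δ hγ hδ x
    rw [map_mul, map_mul, map_mul, map_mul]
    change L0 (ρ γ (ρ δ x)) = slG ν (B (j γ)) (slG ν (B (j δ)) (L0 x))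
    rw [hneg γ hγ, hneg δ hδ, map_neg, neg_neg]
  have hfin1 : S1.FiniteIndex := by
    by_cases htop : S1 = ⊤
    · rw [htop]
      infer_instance
    · obtain ⟨a, ha⟩ : ∃ a, a ∉ S1 := by
        by_contra hc
        push Not at hc
        exact htop (eq_top_iff.2 fun x _ => hc x)
      have hi : S1.index = 2 := by
        rw [Subgroup.index_eq_two_iff]
        refine ⟨a, fun b => ?_⟩
        by_cases hb : b ∈ S1
        · exact Or.inr ⟨hb, fun hc => ha ((Subgroup.mul_mem_cancel_left S1 hb).1 hc)⟩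
        · exact Or.inl ⟨hneg2 b a hb ha, hb⟩
      exact ⟨by rw [hi]; norm_num⟩
  have hfin2 : ((Λ.map (cjSL g)).comap j).FiniteIndex := by
    refine ⟨?_⟩
    rw [Subgroup.index_comap]
    exact h1
  let H : Subgroup S := (S1 ⊓ (Λ.map (cjSL g)).comap j).normalCore
  have hHfin : H.FiniteIndex := by
    change ((S1 ⊓ (Λ.map (cjSL g)).comap j).normalCore).FiniteIndex
    infer_instance
  have hHle : H ≤ S1 ⊓ (Λ.map (cjSL g)).comap j := Subgroup.normalCore_le _
  obtain ⟨lam, hlam⟩ : ∃ lam : S →* Matrix.SpecialLinearGroup ν ℝ,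
      lam = (cjSL g⁻¹).comp j := ⟨_, rfl⟩
  have hlaminj : Function.Injective lam := by
    rw [hlam]
    exact (cj_inj g⁻¹).comp hj
  have hlamj : ∀ γ, cjSL g (lam γ) = j γ := by
    intro γ
    rw [hlam]
    exact cj_cj_inv g (j γ)
  have hmemΛ : ∀ γ ∈ H, lam γ ∈ Λ := by
    intro γ hγ
    obtain ⟨a, ha, hae⟩ := (hHle hγ).2
    have h3 : lam γ = a := by
      apply cj_inj g
      rw [hlamj]
      exact hae.symm
    rw [h3]
    exact ha
  have hΦ : Function.Injective (B.comp lam) := hB.comp hlaminj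
  have hmap : H.map (B.comp lam) = (H.map lam).map B := (Subgroup.map_map H B lam).symm
  have hmapj : (H.map lam).map (cjSL g) = H.map j := by
    rw [Subgroup.map_map]
    congr 1
    ext1 γ
    exact hlamj γ
  refine ⟨H, Subgroup.normalCore_normal _, hHfin, H.map (B.comp lam), ⟨?_, ?_⟩,
    Subgroup.equivMapOfInjective H (B.comp lam) hΦ,
    L0.trans (ContinuousLinearEquiv.equivOfInverse (om P) (om Q)
      (fun x => by rw [om_om, hQP, om_one_apply]) (fun x => by rw [om_om, hPQ, om_one_apply])),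
    ?_⟩
  · rw [hmap]
    refine Subgroup.map_mono ?_
    rintro _ ⟨γ, hγ, rfl⟩
    exact hmemΛ γ hγ
  · rw [hmap, Subgroup.relIndex_map_map_of_injective _ _ hB,
      ← Subgroup.relIndex_map_map_of_injective _ _ (cj_inj g), hmapj]
    refine Subgroup.relIndex_ne_zero_trans ?_ h2
    rw [MonoidHom.range_eq_map, Subgroup.relIndex_map_map_of_injective _ _ hj,
      Subgroup.relIndex_top_right]
    exact hHfin.index_ne_zero
  · intro h x
    have h3 : L0 (ρ h x) = slG ν (B (j h)) (L0 x) := (hS1 h).1 (hHle h.2).1 x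
    change om P (L0 (ρ h x)) = slG ν (B (lam h)) (om P (L0 x))
    rw [h3, slG_apply, slG_apply, om_om, om_om, ← hlamj, hP]

theorem exists_red (j : S →* Matrix.SpecialLinearGroup ν ℝ) (hj : Function.Injective j)
    (Λ : Subgroup (Matrix.SpecialLinearGroup ν ℝ)) (g : GL ν ℝ)
    (h1 : (Λ.map (cjSL g)).relIndex j.range ≠ 0) (h2 : j.range.relIndex (Λ.map (cjSL g)) ≠ 0)
    (ρ : S →* (E ≃L[ℝ] E)) (L0 : E ≃L[ℝ] En ν) (ε : S → ℝ) (hε : ∀ γ, ε γ = 1 ∨ ε γ = -1)
    (hρ : (∀ γ x, L0 (ρ γ x) = ε γ • slG ν (j γ) (L0 x)) ∨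
      ∀ γ x, L0 (ρ γ x) = ε γ • slG ν (dualSL ν (j γ)) (L0 x)) :
    ∃ H : Subgroup S, H.Normal ∧ H.FiniteIndex ∧ ∃ G1 : Subgroup (Matrix.SpecialLinearGroup ν ℝ),
      ((G1 ≤ Λ ∧ G1.relIndex Λ ≠ 0) ∨
        (G1 ≤ Λ.map (dualSL ν) ∧ G1.relIndex (Λ.map (dualSL ν)) ≠ 0)) ∧
      ∃ (f : H ≃* G1) (L : E ≃L[ℝ] En ν), ∀ (h : H) (x : E), L (ρ h x) = stdR G1 (f h) (L x) := by
  rcases hρ with hρ | hρ
  · obtain ⟨H, hn, hf, G1, ⟨h3, h4⟩, f, L, hL⟩ := red_core j hj Λ g h1 h2 ρ L0 ε hε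
      (MonoidHom.id _) Function.injective_id hρ (g⁻¹).1 g.1 (inv_mul_coe g) (mul_inv_coe g)
      (fun a => by
        change (g⁻¹).1 * (g.1 * a.1 * (g⁻¹).1) = a.1 * (g⁻¹).1
        rw [← mul_assoc, ← mul_assoc, inv_mul_coe, one_mul])
    rw [Subgroup.map_id] at h3 h4
    exact ⟨H, hn, hf, G1, Or.inl ⟨h3, h4⟩, f, L, hL⟩
  · obtain ⟨H, hn, hf, G1, ⟨h3, h4⟩, f, L, hL⟩ := red_core j hj Λ g h1 h2 ρ L0 ε hε
      (dualSL ν) dual_inj hρ g.1.transpose (g⁻¹).1.transpose
      (by rw [← Matrix.transpose_mul, inv_mul_coe, Matrix.transpose_one])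
      (by rw [← Matrix.transpose_mul, mul_inv_coe, Matrix.transpose_one])
      (fun a => by
        have h5 : ((cjSL g a)⁻¹ : Matrix.SpecialLinearGroup ν ℝ).1
            = g.1 * (a⁻¹ : Matrix.SpecialLinearGroup ν ℝ).1 * (g⁻¹).1 := by
          rw [← map_inv]
          rfl
        rw [dual_coe, dual_coe, h5, Matrix.transpose_mul, Matrix.transpose_mul, ← mul_assoc,
          ← Matrix.transpose_mul g⁻¹.1, inv_mul_coe, Matrix.transpose_one, one_mul])
    exact ⟨H, hn, hf, G1, Or.inr ⟨h3, h4⟩, f, L, hL⟩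

end
end LatLin
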