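import Pool.Agent.Lib.MP_2392aa_gt.C.FinG
import Pool.Agent.Lib.MP_2392aa_gt.C.FinR

/-!
MP_2392aa_gt, assembly, module FinM (about 250 lines): the manifold level.

PROOFS.
`linG_model`: `exists_red`, `LinG.transport`, `LinG.of_normal`.
`near_of_linG`: as in `global_lin_of` (Mfd.lean): `exists_locData hs p hp ρ hρ` gives `D` with
`D.χ = chi p`, `ball 0 D.r0 ⊆ dom E p`. From `D.Lin`: `φ`, `φ (D.F γ x) = ρ γ (φ x)` near `0`.
`local_inv φ` gives a radius `s ≤ D.r0` such that `φ` is injective on `ball 0 s` with smooth inverse `v`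
on the open set `φ '' ball 0 s`. The chart: `e x := φ (extChartAt p x - extChartAt p p)` on the open set
`chi p '' ball 0 s` (open as in `global_lin_of`: it is the set of `x` in the chart domain with
`extChartAt p x - extChartAt p p ∈ ball 0 s`), inverse `z ↦ chi p (v z)` on `φ '' ball 0 s`. `e p = φ 0 = 0`.
For `x = chi p y` near `p`: `γ • x = chi p (D.F γ y)` (`F_act`), so
`e (γ • x) = φ (D.F γ y) = ρ γ (φ y) = ρ γ (e x)`.
-/

open scoped ContDiff Topology Manifold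
open LatN (En dualSL)
open Metric Filter

namespace LatLin

section
universe v u w x
variable {E : Type u} [NormedAddCommGroup E] [InnerProductSpace ℝ E] [FiniteDimensional ℝ E]
  {S : Type w} [Group S]

theorem linG_model {ν : Type x} [Fintype ν] [DecidableEq ν]
    (j : S →* Matrix.SpecialLinearGroup ν ℝ) (hj : Function.Injective j)
    (Λ : Subgroup (Matrix.SpecialLinearGroup ν ℝ)) (g : GL ν ℝ)
    (h1 : (Λ.map (cjSL g)).relIndex j.range ≠ 0) (h2 : j.range.relIndex (Λ.map (cjSL g)) ≠ 0)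
    (ρ : S →* (E ≃L[ℝ] E)) (L0 : E ≃L[ℝ] En ν) (ε : S → ℝ) (hε : ∀ γ, ε γ = 1 ∨ ε γ = -1)
    (hρ : (∀ γ x, L0 (ρ γ x) = ε γ • slG ν (j γ) (L0 x)) ∨
      ∀ γ x, L0 (ρ γ x) = ε γ • slG ν (dualSL ν (j γ)) (L0 x))
    (hΛ : ∀ G1 : Subgroup (Matrix.SpecialLinearGroup ν ℝ), G1 ≤ Λ → G1.relIndex Λ ≠ 0 →
      LinG.{v} (stdR G1))
    (hΛ' : ∀ G1 : Subgroup (Matrix.SpecialLinearGroup ν ℝ), G1 ≤ Λ.map (dualSL ν) →
      G1.relIndex (Λ.map (dualSL ν)) ≠ 0 → LinG.{v} (stdR G1)) : LinG.{v} ρ := by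
  obtain ⟨H, hn, _, G1, hG1, f, L, hL⟩ := exists_red j hj Λ g h1 h2 ρ L0 ε hε hρ
  have hstd : LinG.{v} (stdR G1) := by
    rcases hG1 with ⟨h3, h4⟩ | ⟨h3, h4⟩
    · exact hΛ G1 h3 h4
    · exact hΛ' G1 h3 h4
  have := hn
  exact LinG.of_normal ρ H (LinG.transport L f (ρ.comp H.subtype) (stdR G1) hL hstd)

theorem near_of_linG {M : Type v} [TopologicalSpace M] [ChartedSpace E M]
    [IsManifold 𝓘(ℝ, E) ∞ M] [MulAction S M]
    (hs : ∀ γ : S, ContMDiff 𝓘(ℝ, E) 𝓘(ℝ, E) ∞ (fun x : M => γ • x))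
    (p : M) (hp : ∀ γ : S, γ • p = p) (ρ : S →* (E ≃L[ℝ] E))
    (hρ : ∀ (γ : S) (v : E),
      (mfderiv 𝓘(ℝ, E) 𝓘(ℝ, E) (fun x : M => γ • x) p : E →L[ℝ] E) v = ρ γ v)
    (h : LinG.{v} ρ) : LinNear (M := M) p ρ := by
  obtain ⟨D, hDχ, hDr⟩ := exists_locData hs p hp ρ hρ
  obtain ⟨⟨φ, hφs, hφ0, hφd, hφ⟩, _⟩ := h M D
  obtain ⟨s, hs0, hsr, v, hvo, hvu, hvs⟩ := local_inv φ D.r0_pos hφs.contDiffOn hφd
  have hdom : ball (0 : E) s ⊆ dom E p := (ball_subset_ball hsr).trans hDr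
  set c : M → E := fun x => extChartAt 𝓘(ℝ, E) p x - extChartAt 𝓘(ℝ, E) p p with hc
  have hcchi : ∀ y ∈ dom E p, c (chi p y) = y := fun y hy => chart_chi p hy
  have hsrc : chi p '' ball (0 : E) s = (extChartAt 𝓘(ℝ, E) p).source ∩ c ⁻¹' ball 0 s := by
    ext x
    constructor
    · rintro ⟨y, hy, rfl⟩
      refine ⟨chi_mem_source p (hdom hy), ?_⟩
      rw [Set.mem_preimage, hcchi y (hdom hy)]
      exact hy
    · rintro ⟨hx, hcx⟩
      exact ⟨c x, hcx, (chi_chart p hx).1⟩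
  have hcs : ContMDiffOn 𝓘(ℝ, E) 𝓘(ℝ, E) ∞ c (extChartAt 𝓘(ℝ, E) p).source := chart_smooth p
  have hsrco : IsOpen (chi p '' ball (0 : E) s) := by
    rw [hsrc]
    exact hcs.continuousOn.isOpen_inter_preimage (isOpen_extChartAt_source p) isOpen_ball
  have hvmem : ∀ z ∈ φ '' ball (0 : E) s, v z ∈ ball (0 : E) s := by
    rintro z ⟨y, hy, rfl⟩
    rw [hvu y hy]
    exact hy
  have hes : ContMDiffOn 𝓘(ℝ, E) 𝓘(ℝ, E) ∞ (fun x => φ (c x)) (chi p '' ball (0 : E) s) := by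
    refine (hφs.contMDiff).comp_contMDiffOn (hcs.mono ?_)
    rw [hsrc]
    exact Set.inter_subset_left
  have hei : ContMDiffOn 𝓘(ℝ, E) 𝓘(ℝ, E) ∞ (fun z => chi (E := E) p (v z))
      (φ '' ball (0 : E) s) :=
    (chi_smooth p).comp (contMDiffOn_iff_contDiffOn.2 hvs) fun z hz => hdom (hvmem z hz)
  let e : OpenPartialHomeomorph M E :=
    { toFun := fun x => φ (c x)
      invFun := fun z => chi p (v z)
      source := chi p '' ball (0 : E) s
      target := φ '' ball (0 : E) s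
      map_source' := by
        rintro x ⟨y, hy, rfl⟩
        exact ⟨y, hy, by rw [hcchi y (hdom hy)]⟩
      map_target' := fun z hz => ⟨v z, hvmem z hz, rfl⟩
      left_inv' := by
        rintro x ⟨y, hy, rfl⟩
        rw [hcchi y (hdom hy), hvu y hy]
      right_inv' := by
        rintro z ⟨y, hy, rfl⟩
        rw [hvu y hy, hcchi y (hdom hy)]
      open_source := hsrco
      open_target := hvo
      continuousOn_toFun := hes.continuousOn
      continuousOn_invFun := hei.continuousOn }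
  have he : ∀ x, e x = φ (c x) := fun x => rfl
  have hcp : c p = 0 := by
    simp only [hc, sub_self]
  refine ⟨e, ⟨0, mem_ball_self hs0, chi_zero p⟩, ?_, hes, hei, fun γ => ?_⟩
  · rw [he, hcp, hφ0]
  · have hF0 : ∀ᶠ y in 𝓝 (0 : E), D.F γ y ∈ dom E p := by
      have h1 : ContinuousAt (D.F γ) 0 := (D.F_smooth γ).continuous.continuousAt
      refine h1.eventually_mem ?_
      rw [D.F_zero γ]
      exact (isOpen_dom p).mem_nhds (zero_mem_dom p)
    have hev : ∀ᶠ y in 𝓝 (0 : E), e (γ • chi p y) = ρ γ (e (chi p y)) := by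
      filter_upwards [hφ γ, D.F_act γ, hF0, (isOpen_dom p).mem_nhds (zero_mem_dom (E := E) p)]
        with y h1 h2 h3 h4
      rw [hDχ] at h2
      rw [h2, he, he, hcchi _ h3, hcchi y h4, h1]
    have hcc : ContinuousAt c p :=
      hcs.continuousOn.continuousAt ((isOpen_extChartAt_source p).mem_nhds
        (mem_extChartAt_source p))
    have hev' : ∀ᶠ x in 𝓝 p, e (γ • chi p (c x)) = ρ γ (e (chi p (c x))) := by
      rw [← hcp] at hev
      exact Tendsto.eventually (p := fun y => e (γ • chi p y) = ρ γ (e (chi p y))) hcc hev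
    filter_upwards [hev', (isOpen_extChartAt_source (I := 𝓘(ℝ, E)) p).mem_nhds
      (mem_extChartAt_source p)] with x h1 h2
    have h3 : chi p (c x) = x := (chi_chart p h2).1
    rwa [h3] at h1

end
end LatLin
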