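import Pool.Agent.Lib.MP_2392aa_gt.C.FinI
import Pool.Agent.Lib.MP_2392aa_gt.C.FinB
import Pool.Agent.Lib.LatN.StrongLoc
import Pool.Agent.Lib.LatN.Glob2

/-!
MP_2392aa_gt, assembly: uniform local linearization and global linearization (helper81).
-/

open scoped ContDiff Topology Manifold
open LatN (En dualSL InjRel DivO blkO unitI IsOrd)
open Metric Filter

namespace LatLin

section
universe v u u' w w'
variable {E : Type u} [NormedAddCommGroup E] [InnerProductSpace ℝ E] [FiniteDimensional ℝ E]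
  {E' : Type u'} [NormedAddCommGroup E'] [InnerProductSpace ℝ E'] [FiniteDimensional ℝ E']
  {Γ : Type w} [Group Γ] {Γ' : Type w'} [Group Γ']

/-- a subgroup of finite index is connected -/
def ConnF (ρ : Γ →* (E ≃L[ℝ] E)) : Prop :=
  ∃ H : Subgroup Γ, H.FiniteIndex ∧ ∃ S : Set H, S.Finite ∧ Conn (ρ.comp H.subtype) S

theorem Conn.transport (L : E ≃L[ℝ] E') (f : Γ ≃* Γ') (ρ : Γ →* (E ≃L[ℝ] E))
    (ρ' : Γ' →* (E' ≃L[ℝ] E')) (h : ∀ γ x, L (ρ γ x) = ρ' (f γ) (L x)) {S : Set Γ'}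
    (hS : Conn ρ' S) : Conn ρ (f ⁻¹' S) := by
  obtain ⟨C, hC, hc⟩ := hS
  have h1 : ∀ x, ‖L x‖ ≤ (‖(L : E →L[ℝ] E')‖ + 1) * ‖x‖ := by
    intro x
    have := (L : E →L[ℝ] E').le_opNorm x
    have h2 : ‖(L : E →L[ℝ] E') x‖ = ‖L x‖ := rfl
    nlinarith [norm_nonneg x]
  have h2 : ∀ y, ‖L.symm y‖ ≤ (‖(L.symm : E' →L[ℝ] E)‖ + 1) * ‖y‖ := by
    intro x
    have := (L.symm : E' →L[ℝ] E).le_opNorm x
    have h2 : ‖(L.symm : E' →L[ℝ] E) x‖ = ‖L.symm x‖ := rfl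
    nlinarith [norm_nonneg x]
  set a := ‖(L : E →L[ℝ] E')‖ + 1
  set b := ‖(L.symm : E' →L[ℝ] E)‖ + 1
  have ha : 0 < a := by positivity
  have hb : 0 < b := by positivity
  refine ⟨b * C * a, by positivity, fun x t g g' ht hg hg' => ?_⟩
  have hg1 : ‖ρ' (f g) (L x)‖ ≤ a * t := by
    rw [← h]
    exact (h1 _).trans (mul_le_mul_of_nonneg_left hg ha.le)
  have hg2 : ‖ρ' (f g') (L x)‖ ≤ a * t := by
    rw [← h]
    exact (h1 _).trans (mul_le_mul_of_nonneg_left hg' ha.le)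
  have h3 := hc (L x) (a * t) (f g) (f g') (by positivity) hg1 hg2
  have h4 : ∀ d : Γ', ‖ρ' d (L x)‖ ≤ C * (a * t) → ‖ρ (f.symm d) x‖ ≤ b * C * a * t := by
    intro d hd
    have h5 : ρ (f.symm d) x = L.symm (ρ' d (L x)) := by
      have h6 := h (f.symm d) x
      rw [f.apply_symm_apply] at h6
      rw [← h6, L.symm_apply_apply]
    rw [h5]
    calc ‖L.symm (ρ' d (L x))‖ ≤ b * ‖ρ' d (L x)‖ := h2 _
      _ ≤ b * (C * (a * t)) := mul_le_mul_of_nonneg_left hd hb.le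
      _ = b * C * a * t := by ring
  have h5 : ∀ c d, Step ρ' S (L x) (C * (a * t)) c d →
      Step ρ (f ⁻¹' S) x (b * C * a * t) (f.symm c) (f.symm d) := by
    rintro c d ⟨k1, k2, s, hs, k3⟩
    refine ⟨h4 c k1, h4 d k2, f.symm s, ?_, ?_⟩
    · rw [Set.mem_preimage, f.apply_symm_apply]
      exact hs
    · rw [k3, map_mul]
  have h6 : Relation.ReflTransGen (Step ρ (f ⁻¹' S) x (b * C * a * t)) (f.symm (f g))
      (f.symm (f g')) := Relation.ReflTransGen.lift f.symm (fun c d => h5 c d) _ _ h3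
  rwa [f.symm_apply_apply, f.symm_apply_apply] at h6

theorem ConnF.transport (L : E ≃L[ℝ] E') (f : Γ ≃* Γ') (ρ : Γ →* (E ≃L[ℝ] E))
    (ρ' : Γ' →* (E' ≃L[ℝ] E')) (h : ∀ γ x, L (ρ γ x) = ρ' (f γ) (L x)) (hρ : ConnF ρ') :
    ConnF ρ := by
  obtain ⟨H', hH, S', hS', hC⟩ := hρ
  refine ⟨H'.map f.symm.toMonoidHom, ⟨?_⟩, ?_⟩
  · have h1 := Subgroup.index_map_equiv H' f.symm
    intro h0
    exact hH.index_ne_zero (h1.symm.trans h0)
  · let g : H'.map f.symm.toMonoidHom ≃* H' := (f.symm.subgroupMap H').symm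
    have hg : ∀ x : H'.map f.symm.toMonoidHom, ((g x : H') : Γ') = f x := by
      intro x
      obtain ⟨y, rfl⟩ := (f.symm.subgroupMap H').surjective x
      change (((f.symm.subgroupMap H').symm ((f.symm.subgroupMap H') y) : H') : Γ') = _
      rw [MulEquiv.symm_apply_apply]
      change (y : Γ') = f (f.symm y)
      rw [f.apply_symm_apply]
    refine ⟨g ⁻¹' S', hS'.preimage g.injective.injOn, ?_⟩
    refine Conn.transport L g _ _ (fun γ x => ?_) hC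
    change L (ρ (γ : Γ) x) = ρ' ((g γ : H') : Γ') (L x)
    rw [hg]
    exact h _ _

theorem ConnF.of_sub (ρ : Γ →* (E ≃L[ℝ] E)) (H : Subgroup Γ) [hH : H.FiniteIndex]
    (h : ConnF (ρ.comp H.subtype)) : ConnF ρ := by
  obtain ⟨H', hH', S', hS', hC⟩ := h
  refine ⟨H'.map H.subtype, ⟨?_⟩, ?_⟩
  · rw [Subgroup.index_map_subtype]
    exact mul_ne_zero hH'.index_ne_zero hH.index_ne_zero
  · let g : H' ≃* H'.map H.subtype := H'.equivMapOfInjective H.subtype H.subtype_injective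
    have hg : ∀ x : H', ((g x : H'.map H.subtype) : Γ) = ((x : H) : Γ) := fun x => rfl
    have hg' : ∀ x : H'.map H.subtype, (((g.symm x : H') : H) : Γ) = x := by
      intro x
      rw [← hg, g.apply_symm_apply]
    refine ⟨g.symm ⁻¹' S', hS'.preimage g.symm.injective.injOn, ?_⟩
    refine Conn.transport (ContinuousLinearEquiv.refl ℝ E) g.symm _ _ (fun γ x => ?_) hC
    change ρ (γ : Γ) x = ρ (((g.symm γ : H') : H) : Γ) x
    rw [hg']

theorem Contr.transport (L : E ≃L[ℝ] E') (f : Γ ≃* Γ') (ρ : Γ →* (E ≃L[ℝ] E))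
    (ρ' : Γ' →* (E' ≃L[ℝ] E')) (h : ∀ γ x, L (ρ γ x) = ρ' (f γ) (L x)) (hρ : Contr ρ') :
    Contr ρ := by
  intro x t ht
  have hb : 0 < ‖(L.symm : E' →L[ℝ] E)‖ + 1 := by positivity
  obtain ⟨γ', hγ'⟩ := hρ (L x) (t / (‖(L.symm : E' →L[ℝ] E)‖ + 1)) (by positivity)
  refine ⟨f.symm γ', ?_⟩
  have h5 : ρ (f.symm γ') x = L.symm (ρ' γ' (L x)) := by
    have h6 := h (f.symm γ') x
    rw [f.apply_symm_apply] at h6
    rw [← h6, L.symm_apply_apply]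
  have h7 := (L.symm : E' →L[ℝ] E).le_opNorm (ρ' γ' (L x))
  have h2 : ‖(L.symm : E' →L[ℝ] E) (ρ' γ' (L x))‖ = ‖L.symm (ρ' γ' (L x))‖ := rfl
  rw [h5]
  rw [le_div_iff₀ hb] at hγ'
  nlinarith [norm_nonneg (ρ' γ' (L x))]

theorem Contr.of_sub (ρ : Γ →* (E ≃L[ℝ] E)) (H : Subgroup Γ)
    (h : Contr (ρ.comp H.subtype)) : Contr ρ := by
  intro x t ht
  obtain ⟨γ, hγ⟩ := h x t ht
  exact ⟨γ, hγ⟩

theorem injRel_transport (L : E ≃L[ℝ] E') (f : Γ ≃* Γ') (ρ : Γ →* (E ≃L[ℝ] E))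
    (ρ' : Γ' →* (E' ≃L[ℝ] E')) (h : ∀ γ x, L (ρ γ x) = ρ' (f γ) (L x)) (hρ : InjRel ρ') :
    InjRel ρ := by
  intro R hR hinv hloc hop x y hxy
  have h5 : ∀ (γ' : Γ') (z : E'), L.symm (ρ' γ' z) = ρ (f.symm γ') (L.symm z) := by
    intro γ' z
    have h6 := h (f.symm γ') (L.symm z)
    rw [f.apply_symm_apply, L.apply_symm_apply] at h6
    rw [← h6, L.symm_apply_apply]
  have h1 := hρ (fun a b => R (L.symm a) (L.symm b))
    ⟨fun a => hR.refl _, fun hab => hR.symm hab, fun hab hbc => hR.trans hab hbc⟩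
    (fun γ' a b hab => by
      rw [h5, h5]
      exact hinv _ _ _ hab)
    (fun z => by
      obtain ⟨N, hN, hN'⟩ := hloc (L.symm z)
      refine ⟨L.symm ⁻¹' N, L.symm.continuous.continuousAt.preimage_mem_nhds hN,
        fun a ha b hb hab => ?_⟩
      exact L.symm.injective (hN' _ ha _ hb hab))
    (fun a b hab N hN => by
      have h7 := hop _ _ hab (L ⁻¹' N) (L.continuous.continuousAt.preimage_mem_nhds (by
        rwa [L.apply_symm_apply]))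
      filter_upwards [L.symm.continuous.continuousAt.eventually h7] with a' ha'
      obtain ⟨b', hb', hab'⟩ := ha'
      refine ⟨L b', hb', ?_⟩
      rwa [L.symm_apply_apply])
    (L x) (L y) (by
      rwa [L.symm_apply_apply, L.symm_apply_apply])
  exact L.injective h1

theorem injRel_of_sub (ρ : Γ →* (E ≃L[ℝ] E)) (H : Subgroup Γ)
    (h : InjRel (ρ.comp H.subtype)) : InjRel ρ := by
  intro R hR hinv hloc hop x y hxy
  exact h R hR (fun γ a b hab => hinv γ a b hab) hloc hop x y hxy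

/-- local linearization, on one neighbourhood for all group elements -/
def PU (ρ : Γ →* (E ≃L[ℝ] E)) : Prop := LinG.{v} ρ ∧ ConnF ρ

/-- global linearization -/
def PG (ρ : Γ →* (E ≃L[ℝ] E)) : Prop := PU.{v} ρ ∧ Contr ρ ∧ InjRel ρ

theorem PU.transport (L : E ≃L[ℝ] E') (f : Γ ≃* Γ') (ρ : Γ →* (E ≃L[ℝ] E))
    (ρ' : Γ' →* (E' ≃L[ℝ] E')) (h : ∀ γ x, L (ρ γ x) = ρ' (f γ) (L x)) (hρ : PU.{v} ρ') :
    PU.{v} ρ := ⟨LinG.transport L f ρ ρ' h hρ.1, ConnF.transport L f ρ ρ' h hρ.2⟩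

theorem PG.transport (L : E ≃L[ℝ] E') (f : Γ ≃* Γ') (ρ : Γ →* (E ≃L[ℝ] E))
    (ρ' : Γ' →* (E' ≃L[ℝ] E')) (h : ∀ γ x, L (ρ γ x) = ρ' (f γ) (L x)) (hρ : PG.{v} ρ') :
    PG.{v} ρ :=
  ⟨PU.transport L f ρ ρ' h hρ.1, Contr.transport L f ρ ρ' h hρ.2.1,
    injRel_transport L f ρ ρ' h hρ.2.2⟩

theorem PU.of_normal (ρ : Γ →* (E ≃L[ℝ] E)) (H : Subgroup Γ) [H.Normal] [H.FiniteIndex]
    (h : PU.{v} (ρ.comp H.subtype)) : PU.{v} ρ :=
  ⟨LinG.of_normal ρ H h.1, ConnF.of_sub ρ H h.2⟩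

theorem PG.of_normal (ρ : Γ →* (E ≃L[ℝ] E)) (H : Subgroup Γ) [H.Normal] [H.FiniteIndex]
    (h : PG.{v} (ρ.comp H.subtype)) : PG.{v} ρ :=
  ⟨PU.of_normal ρ H h.1, Contr.of_sub ρ H h.2.1, injRel_of_sub ρ H h.2.2⟩

end

section
universe v u w x
variable {E : Type u} [NormedAddCommGroup E] [InnerProductSpace ℝ E] [FiniteDimensional ℝ E]
  {S : Type w} [Group S]

theorem pu_model {ν : Type x} [Fintype ν] [DecidableEq ν]
    (j : S →* Matrix.SpecialLinearGroup ν ℝ) (hj : Function.Injective j)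
    (Λ : Subgroup (Matrix.SpecialLinearGroup ν ℝ)) (g : GL ν ℝ)
    (h1 : (Λ.map (cjSL g)).relIndex j.range ≠ 0) (h2 : j.range.relIndex (Λ.map (cjSL g)) ≠ 0)
    (ρ : S →* (E ≃L[ℝ] E)) (L0 : E ≃L[ℝ] En ν) (ε : S → ℝ) (hε : ∀ γ, ε γ = 1 ∨ ε γ = -1)
    (hρ : (∀ γ x, L0 (ρ γ x) = ε γ • slG ν (j γ) (L0 x)) ∨
      ∀ γ x, L0 (ρ γ x) = ε γ • slG ν (dualSL ν (j γ)) (L0 x))
    (hΛ : ∀ G1 : Subgroup (Matrix.SpecialLinearGroup ν ℝ), G1 ≤ Λ → G1.relIndex Λ ≠ 0 →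
      PU.{v} (stdR G1))
    (hΛ' : ∀ G1 : Subgroup (Matrix.SpecialLinearGroup ν ℝ), G1 ≤ Λ.map (dualSL ν) →
      G1.relIndex (Λ.map (dualSL ν)) ≠ 0 → PU.{v} (stdR G1)) : PU.{v} ρ := by
  obtain ⟨H, hn, hfi, G1, hG1, f, L, hL⟩ := exists_red j hj Λ g h1 h2 ρ L0 ε hε hρ
  have hstd : PU.{v} (stdR G1) := by
    rcases hG1 with ⟨h3, h4⟩ | ⟨h3, h4⟩
    · exact hΛ G1 h3 h4
    · exact hΛ' G1 h3 h4
  have := hn
  have := hfi
  exact PU.of_normal ρ H (PU.transport L f (ρ.comp H.subtype) (stdR G1) hL hstd)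

theorem pg_model {ν : Type x} [Fintype ν] [DecidableEq ν]
    (j : S →* Matrix.SpecialLinearGroup ν ℝ) (hj : Function.Injective j)
    (Λ : Subgroup (Matrix.SpecialLinearGroup ν ℝ)) (g : GL ν ℝ)
    (h1 : (Λ.map (cjSL g)).relIndex j.range ≠ 0) (h2 : j.range.relIndex (Λ.map (cjSL g)) ≠ 0)
    (ρ : S →* (E ≃L[ℝ] E)) (L0 : E ≃L[ℝ] En ν) (ε : S → ℝ) (hε : ∀ γ, ε γ = 1 ∨ ε γ = -1)
    (hρ : (∀ γ x, L0 (ρ γ x) = ε γ • slG ν (j γ) (L0 x)) ∨
      ∀ γ x, L0 (ρ γ x) = ε γ • slG ν (dualSL ν (j γ)) (L0 x))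
    (hΛ : ∀ G1 : Subgroup (Matrix.SpecialLinearGroup ν ℝ), G1 ≤ Λ → G1.relIndex Λ ≠ 0 →
      PG.{v} (stdR G1))
    (hΛ' : ∀ G1 : Subgroup (Matrix.SpecialLinearGroup ν ℝ), G1 ≤ Λ.map (dualSL ν) →
      G1.relIndex (Λ.map (dualSL ν)) ≠ 0 → PG.{v} (stdR G1)) : PG.{v} ρ := by
  obtain ⟨H, hn, hfi, G1, hG1, f, L, hL⟩ := exists_red j hj Λ g h1 h2 ρ L0 ε hε hρ
  have hstd : PG.{v} (stdR G1) := by
    rcases hG1 with ⟨h3, h4⟩ | ⟨h3, h4⟩
    · exact hΛ G1 h3 h4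
    · exact hΛ' G1 h3 h4
  have := hn
  have := hfi
  exact PG.of_normal ρ H (PG.transport L f (ρ.comp H.subtype) (stdR G1) hL hstd)

/-- there is a smooth chart around `p` in which every element of the group agrees with its
derivative, as long as it does not leave the chart -/
def UnifNear {M : Type v} [TopologicalSpace M] [ChartedSpace E M] [MulAction S M] (p : M)
    (ρ : S →* (E ≃L[ℝ] E)) : Prop :=
  ∃ e : OpenPartialHomeomorph M E, p ∈ e.source ∧ e p = 0 ∧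
    ContMDiffOn 𝓘(ℝ, E) 𝓘(ℝ, E) ∞ e e.source ∧ ContMDiffOn 𝓘(ℝ, E) 𝓘(ℝ, E) ∞ e.symm e.target ∧
    ∀ γ : S, ∀ x ∈ e.source, ρ γ (e x) ∈ e.target → γ • x ∈ e.source ∧ e (γ • x) = ρ γ (e x)


/-- the chart from a local linearization on a ball -/
theorem unif_of {M : Type v} [TopologicalSpace M] [ChartedSpace E M]
    [IsManifold 𝓘(ℝ, E) ∞ M] [MulAction S M]
    (hs : ∀ γ : S, ContMDiff 𝓘(ℝ, E) 𝓘(ℝ, E) ∞ (fun x : M => γ • x))
    (p : M) (hp : ∀ γ : S, γ • p = p) (ρ : S →* (E ≃L[ℝ] E))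
    (hρ : ∀ (γ : S) (v : E),
      (mfderiv 𝓘(ℝ, E) 𝓘(ℝ, E) (fun x : M => γ • x) p : E →L[ℝ] E) v = ρ γ v)
    (h : PU.{v} ρ) : UnifNear (M := M) p ρ := by
  obtain ⟨hG, H, hH, Sg, hSg, hC⟩ := h
  obtain ⟨D, hDχ, hDr⟩ := exists_locData hs p hp ρ hρ
  have := hH
  obtain ⟨r, hr, u, hu, hud, hu0, hur, heq⟩ := LatN.strong_loc D (hG M D).1 H Sg hSg hC
  obtain ⟨s, hs0, hsr, v, hvo, hvu, hvs⟩ := local_inv u hr hu hud
  rw [hDχ] at heq
  have hBr : ball (0 : E) s ⊆ ball 0 r := ball_subset_ball hsr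
  have hudom : ∀ z ∈ ball (0 : E) s, u z ∈ dom E p := fun z hz => hDr (hur z (hBr hz))
  set X : E → M := fun z => chi p (u z) with hX
  have heq' : ∀ (γ : S) (z : E), z ∈ ball (0 : E) s → ρ γ z ∈ ball (0 : E) s →
      γ • X z = X (ρ γ z) := fun γ z hz hz' => heq γ z (hBr hz) (hBr hz')
  have hXs : ContMDiffOn 𝓘(ℝ, E) 𝓘(ℝ, E) ∞ X (ball 0 s) :=
    (chi_smooth p).comp ((contMDiffOn_iff_contDiffOn.2 hu).mono hBr) hudom
  set θ : M → E := fun x => v (extChartAt 𝓘(ℝ, E) p x - extChartAt 𝓘(ℝ, E) p p) with hθ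
  have hW : X '' ball 0 s = (extChartAt 𝓘(ℝ, E) p).source ∩
      (fun x => extChartAt 𝓘(ℝ, E) p x - extChartAt 𝓘(ℝ, E) p p) ⁻¹' (u '' ball 0 s) := by
    ext x
    constructor
    · rintro ⟨z, hz, rfl⟩
      refine ⟨chi_mem_source p (hudom z hz), ?_⟩
      simp only [Set.mem_preimage, hX]
      rw [chart_chi p (hudom z hz)]
      exact ⟨z, hz, rfl⟩
    · rintro ⟨hx, z, hz, hzx⟩
      refine ⟨z, hz, ?_⟩
      simp only [hX]
      rw [hzx]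
      exact (chi_chart p hx).1
  have hWo : IsOpen (X '' ball 0 s) := by
    rw [hW]
    exact (chart_smooth p).continuousOn.isOpen_inter_preimage (isOpen_extChartAt_source p) hvo
  have hθX : ∀ z ∈ ball (0 : E) s, θ (X z) = z := by
    intro z hz
    simp only [hθ, hX]
    rw [chart_chi p (hudom z hz), hvu z hz]
  have hθs : ContMDiffOn 𝓘(ℝ, E) 𝓘(ℝ, E) ∞ θ (X '' ball 0 s) := by
    have h1 := (contMDiffOn_iff_contDiffOn.2 hvs)
    refine h1.comp ((chart_smooth p).mono ?_) ?_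
    · rw [hW]; exact Set.inter_subset_left
    · rw [hW]; exact fun x hx => hx.2
  have hX0 : X 0 = p := by
    simp only [hX, hu0, chi_zero]
  let e : OpenPartialHomeomorph M E :=
    { toFun := θ
      invFun := X
      source := X '' ball 0 s
      target := ball 0 s
      map_source' := by
        rintro x ⟨z, hz, rfl⟩
        rw [hθX z hz]
        exact hz
      map_target' := fun z hz => ⟨z, hz, rfl⟩
      left_inv' := by
        rintro x ⟨z, hz, rfl⟩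
        rw [hθX z hz]
      right_inv' := fun z hz => hθX z hz
      open_source := hWo
      open_target := isOpen_ball
      continuousOn_toFun := hθs.continuousOn
      continuousOn_invFun := hXs.continuousOn }
  refine ⟨e, ⟨0, mem_ball_self hs0, hX0⟩, ?_, hθs, hXs, ?_⟩
  · change θ p = 0
    rw [← hX0, hθX 0 (mem_ball_self hs0)]
  · rintro γ x ⟨z, hz, rfl⟩ hx
    change ρ γ (θ (X z)) ∈ ball (0 : E) s at hx
    rw [hθX z hz] at hx
    change γ • X z ∈ X '' ball 0 s ∧ θ (γ • X z) = ρ γ (θ (X z))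
    rw [hθX z hz, heq' γ z hz hx, hθX _ hx]
    exact ⟨⟨_, hx, rfl⟩, rfl⟩

theorem global_of {M : Type v} [TopologicalSpace M] [ChartedSpace E M]
    [IsManifold 𝓘(ℝ, E) ∞ M] [MulAction S M]
    (hs : ∀ γ : S, ContMDiff 𝓘(ℝ, E) 𝓘(ℝ, E) ∞ (fun x : M => γ • x))
    (p : M) (hp : ∀ γ : S, γ • p = p) (ρ : S →* (E ≃L[ℝ] E))
    (hρ : ∀ (γ : S) (v : E),
      (mfderiv 𝓘(ℝ, E) 𝓘(ℝ, E) (fun x : M => γ • x) p : E →L[ℝ] E) v = ρ γ v)
    (h : PG.{v} ρ) :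
    ∃ (U : Set M) (φ : M → E) (ψ : E → M), IsOpen U ∧ p ∈ U ∧
      (∀ (γ : S) (x : M), x ∈ U → γ • x ∈ U) ∧
      ContMDiffOn 𝓘(ℝ, E) 𝓘(ℝ, E) ∞ φ U ∧ ContMDiff 𝓘(ℝ, E) 𝓘(ℝ, E) ∞ ψ ∧
      (∀ v, ψ v ∈ U ∧ φ (ψ v) = v) ∧ (∀ x ∈ U, ψ (φ x) = x) ∧ φ p = 0 ∧
      ∀ (γ : S), ∀ x ∈ U, φ (γ • x) = ρ γ (φ x) := by
  obtain ⟨⟨hG, H, hH, Sg, hSg, hC⟩, hct, hinj⟩ := h
  have := hH
  refine global_lin_rel hs p hp ρ hρ (fun D => LatN.strong_loc D (hG M D).1 H Sg hSg hC) ?_ hinj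
  intro z r hr
  obtain ⟨γ, hγ⟩ := hct z (r / 2) (by positivity)
  exact ⟨γ, lt_of_le_of_lt hγ (by linarith)⟩

end

section
variable {ν : Type*} [Fintype ν] [DecidableEq ν]

theorem pu_of_parts.{v} [Nonempty ν] (G1 : Subgroup (Matrix.SpecialLinearGroup ν ℝ))
    (h1 : NoInv (stdR G1)) (h2 : FormLin (stdR G1))
    (h : LatN.NoHorn (G1.map (LatN.toGE ν))) : PU.{v} (stdR G1) := by
  refine ⟨linG_of_parts G1 h1 h2 h, ?_⟩
  obtain ⟨-, S, hS, hg, hC⟩ := contr_conn_stdR G1 h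
  refine ⟨⊤, inferInstance, (fun x : (⊤ : Subgroup G1) => (x : G1)) ⁻¹' S,
    hS.preimage Subtype.coe_injective.injOn, ?_⟩
  exact Conn.transport (ContinuousLinearEquiv.refl ℝ _) Subgroup.topEquiv _ (stdR G1)
    (fun _ _ => rfl) hC

theorem pg_of_parts.{v} [Nonempty ν] (G1 : Subgroup (Matrix.SpecialLinearGroup ν ℝ))
    (h1 : NoInv (stdR G1)) (h2 : FormLin (stdR G1))
    (h : LatN.NoHorn (G1.map (LatN.toGE ν))) (h3 : InjRel (stdR G1)) : PG.{v} (stdR G1) :=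
  ⟨pu_of_parts G1 h1 h2 h, (contr_conn_stdR G1 h).1, h3⟩

end

section
universe u
variable {μ δ : Type u} [Fintype μ] [DecidableEq μ] [Fintype δ] [DecidableEq δ]
  {D0 : Subring (Matrix δ δ ℝ)}

theorem pg_inner.{v} (hD : DivO δ D0) (hδ : 2 ≤ Fintype.card δ) (hμ : 2 ≤ Fintype.card μ)
    (G1 : Subgroup (Matrix.SpecialLinearGroup (μ × δ) ℝ)) (h1 : G1 ≤ unitI (blkO μ D0))
    (h2 : G1.relIndex (unitI (blkO μ D0)) ≠ 0) (h3 : InjRel (stdR G1)) :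
    PG.{v} (stdR G1) := by
  have hδ0 : Nonempty δ := Fintype.card_pos_iff.1 (by omega)
  have hμ0 : Nonempty μ := Fintype.card_pos_iff.1 (by omega)
  have hC := cc_map G1 h1 h2
  refine pg_of_parts G1 (noInv_stdR G1 fun k hk w hw => noinv_CC hD hμ hC k hk w hw)
    (formLin_stdR G1 fun k hk b hb => fl_inner hD hδ hμ hC k hk b hb) ?_ h3
  exact LatN.noHorn_innO (by rw [Fintype.card_prod]; nlinarith) (LatN.blkO_inn hD hδ) h1 h2

end

section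
universe v
variable {n : ℕ}

theorem connF_rhoG {k : ℕ} (Γ : Subgroup (B.SLZ (k + 1))) [Γ.FiniteIndex] :
    ConnF (B.rhoG Γ) := by
  obtain ⟨S, C, hS, hC⟩ := B.conn_B Γ
  refine ⟨⊤, inferInstance, (fun x : (⊤ : Subgroup Γ) => ((x : Γ) : B.SLZ (k + 1))) ⁻¹' S,
    (S.finite_toSet).preimage
      (Subtype.coe_injective.comp Subtype.coe_injective).injOn, ?_⟩
  have h : Conn (B.rhoG Γ) ((fun x : Γ => (x : B.SLZ (k + 1))) ⁻¹' S) := by
    refine ⟨C + 1, by positivity, fun x t g g' ht hg hg' => ?_⟩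
    obtain ⟨m, γ, -, h0, hm, hst, hall⟩ := hC (max 2 (B.nrm ((g' : B.SLZ (k + 1)) * (g : B.SLZ (k + 1))⁻¹)))
      t x g g' g.2 g'.2 (le_max_left _ _) hg hg' (le_max_right _ _)
    have key : ∀ i, i ≤ m → ∀ hγ : γ i ∈ Γ,
        Relation.ReflTransGen (Step (B.rhoG Γ) ((fun x : Γ => (x : B.SLZ (k + 1))) ⁻¹' S) x
          ((C + 1) * t)) g ⟨γ i, hγ⟩ := by
      intro i
      induction i with
      | zero =>
        intro _ hγ
        have : (⟨γ 0, hγ⟩ : Γ) = g := Subtype.ext h0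
        rw [this]
      | succ i ih =>
        intro hi hγ
        have hγi := (hall i (by omega)).1
        refine (ih (by omega) hγi).tail ⟨?_, ?_, ⟨γ (i + 1) * (γ i)⁻¹, Γ.mul_mem hγ (Γ.inv_mem hγi)⟩,
          hst i (by omega), ?_⟩
        · have := (hall i (by omega)).2.1
          change ‖B.rhoZ _ (γ i) x‖ ≤ _
          nlinarith
        · have := (hall (i + 1) hi).2.1
          change ‖B.rhoZ _ (γ (i + 1)) x‖ ≤ _
          nlinarith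
        · exact Subtype.ext (by simp)
    have h6 : γ m ∈ Γ := by rw [hm]; exact g'.2
    have h7 := key m le_rfl h6
    have h5 : (⟨γ m, h6⟩ : Γ) = g' := Subtype.ext hm
    rwa [h5] at h7
  exact Conn.transport (ContinuousLinearEquiv.refl ℝ _) Subgroup.topEquiv _ (B.rhoG Γ)
    (fun _ _ => rfl) h

theorem pu_B (hn : 3 ≤ n) (G1 : Subgroup (Matrix.SpecialLinearGroup (Fin n) ℝ))
    (h1 : G1 ≤ SLnZ n) (h2 : G1.relIndex (SLnZ n) ≠ 0) : PU.{v} (stdR G1) := by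
  obtain ⟨k, rfl⟩ : ∃ k, n = k + 1 := ⟨n - 1, by omega⟩
  set c := Matrix.SpecialLinearGroup.map (n := Fin (k + 1)) (Int.castRingHom ℝ) with hc
  have hmap : (G1.comap c).map c = G1 := by
    rw [Subgroup.map_comap_eq]
    exact inf_eq_right.2 h1
  have : (G1.comap c).FiniteIndex := ⟨by
    rw [Subgroup.index_comap]
    exact h2⟩
  have hL : PU.{v} (B.rhoG (G1.comap c)) :=
    ⟨linG_rhoG.{v} (show 2 ≤ k by omega) (G1.comap c), connF_rhoG _⟩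
  let f : (G1.comap c) ≃* G1 := ((G1.comap c).equivMapOfInjective c mapZ_injective).trans
    (MulEquiv.subgroupCongr hmap)
  refine PU.transport (ContinuousLinearEquiv.refl ℝ _) f.symm (stdR G1)
    (B.rhoG (G1.comap c)) ?_ hL
  intro γ x
  obtain ⟨δ, rfl⟩ := f.surjective γ
  rw [MulEquiv.symm_apply_apply]
  change stdR G1 (f δ) x = B.rhoZ (k + 1) δ.1 x
  ext i
  rw [B.rhoZ_apply]
  rfl

end
end LatLin
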