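import Pool.Agent.Lib.MP_2392aa_gt.C.FinF
import Pool.Agent.Lib.MP_2392aa_gt.Glob
import Pool.Agent.Lib.MP_2392aa_gt.Transfer
import Pool.Agent.Lib.MP_2392aa_gt.DerivHom

/-!
MP_2392aa_gt, assembly: periodic points of actions on manifolds (helper81).
-/

open scoped ContDiff Topology Manifold
open LatN (En dualSL)

namespace LatLin

section
universe v u x
variable {E : Type u} [NormedAddCommGroup E] [InnerProductSpace ℝ E] [FiniteDimensional ℝ E]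
  {ν : Type x} [Fintype ν] [DecidableEq ν]

/-- the derivative at `p` of the action of a group element -/
noncomputable def dAt (E : Type u) [NormedAddCommGroup E] [NormedSpace ℝ E] {M : Type v}
    [TopologicalSpace M] [ChartedSpace E M] {G : Type*} [Group G] [MulAction G M] (γ : G) (p : M) :
    E →L[ℝ] E :=
  mfderiv 𝓘(ℝ, E) 𝓘(ℝ, E) (fun x : M => γ • x) p

/-- the derivative representation of the stabilizer is the inclusion or its dual, up to conjugation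
and signs -/
def SDAt (E : Type u) [NormedAddCommGroup E] [NormedSpace ℝ E] {M : Type v}
    [TopologicalSpace M] [ChartedSpace E M] (Γ : Subgroup (Matrix.SpecialLinearGroup ν ℝ))
    [MulAction Γ M] (p : M) : Prop :=
  ∃ (L : E ≃ₗ[ℝ] (ν → ℝ)) (ε : Γ → ℝ), (∀ γ, ε γ = 1 ∨ ε γ = -1) ∧
    ((∀ γ ∈ MulAction.stabilizer Γ p, ∀ v, L (dAt E γ p v) = ε γ • γ.1.1.mulVec (L v)) ∨
      (∀ γ ∈ MulAction.stabilizer Γ p, ∀ v,
        L (dAt E γ p v) = ε γ • (γ⁻¹).1.1.transpose.mulVec (L v)))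

/-- local linearization on one neighbourhood for all elements of the stabilizer -/
def UnifAt (E : Type u) [NormedAddCommGroup E] [NormedSpace ℝ E] {M : Type v}
    [TopologicalSpace M] [ChartedSpace E M] (G : Type*) [Group G] [MulAction G M] (p : M) : Prop :=
  ∃ e : OpenPartialHomeomorph M E, p ∈ e.source ∧ e p = 0 ∧
    ContMDiffOn 𝓘(ℝ, E) 𝓘(ℝ, E) ∞ e e.source ∧ ContMDiffOn 𝓘(ℝ, E) 𝓘(ℝ, E) ∞ e.symm e.target ∧
    ∀ γ ∈ MulAction.stabilizer G p, ∀ x ∈ e.source, dAt E γ p (e x) ∈ e.target →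
      γ • x ∈ e.source ∧ e (γ • x) = dAt E γ p (e x)

/-- linearization on an invariant neighbourhood -/
def GlobAt (E : Type u) [NormedAddCommGroup E] [NormedSpace ℝ E] {M : Type v}
    [TopologicalSpace M] [ChartedSpace E M] (G : Type*) [Group G] [MulAction G M] (p : M) : Prop :=
  ∃ (U : Set M) (φ : M → E) (ψ : E → M), IsOpen U ∧ p ∈ U ∧
    (∀ γ ∈ MulAction.stabilizer G p, ∀ x ∈ U, γ • x ∈ U) ∧
    ContMDiffOn 𝓘(ℝ, E) 𝓘(ℝ, E) ∞ φ U ∧ ContMDiff 𝓘(ℝ, E) 𝓘(ℝ, E) ∞ ψ ∧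
    (∀ v, ψ v ∈ U ∧ φ (ψ v) = v) ∧ (∀ x ∈ U, ψ (φ x) = x) ∧ φ p = 0 ∧
    ∀ γ ∈ MulAction.stabilizer G p, ∀ x ∈ U, φ (γ • x) = dAt E γ p (φ x)

theorem GlobAt.unifAt {M : Type v} [TopologicalSpace M] [ChartedSpace E M] {G : Type*} [Group G]
    [MulAction G M] {p : M} (h : GlobAt E G p) : UnifAt E G p := by
  obtain ⟨U, φ, ψ, h1, h2, h3, h4, h5, h6, h7, h8, h9⟩ := h
  let e : OpenPartialHomeomorph M E :=
    { toFun := φ
      invFun := ψ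
      source := U
      target := Set.univ
      map_source' := fun _ _ => trivial
      map_target' := fun z _ => (h6 z).1
      left_inv' := fun x hx => h7 x hx
      right_inv' := fun z _ => (h6 z).2
      open_source := h1
      open_target := isOpen_univ
      continuousOn_toFun := h4.continuousOn
      continuousOn_invFun := h5.continuous.continuousOn }
  exact ⟨e, h2, h8, h4, h5.contMDiffOn, fun γ hγ x hx _ => ⟨h3 γ hγ x hx, h9 γ hγ x hx⟩⟩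

variable {Γ Λ : Subgroup (Matrix.SpecialLinearGroup ν ℝ)} {M : Type v} [TopologicalSpace M]
  [ChartedSpace E M] [IsManifold 𝓘(ℝ, E) ∞ M] [MulAction Γ M]

theorem stab_fi (p : M) (hper : (MulAction.orbit Γ p).Finite) :
    (MulAction.stabilizer Γ p).FiniteIndex := by
  have h1 : Finite (MulAction.orbit Γ p) := hper
  have h2 : Finite (Γ ⧸ MulAction.stabilizer Γ p) :=
    Finite.of_equiv _ (MulAction.orbitEquivQuotientStabilizer Γ p)
  exact Subgroup.finiteIndex_of_finite_quotient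

theorem exists_rho (hs : ∀ γ : Γ, ContMDiff 𝓘(ℝ, E) 𝓘(ℝ, E) ∞ (fun x : M => γ • x)) (p : M)
    (hder : SDAt E Γ p) :
    ∃ ρ : MulAction.stabilizer Γ p →* (E ≃L[ℝ] E),
      (∀ (γ : MulAction.stabilizer Γ p) (v : E), dAt E γ p v = ρ γ v) ∧
      DerSD (incS (MulAction.stabilizer Γ p)) ρ := by
  have hpfix : ∀ γ : MulAction.stabilizer Γ p, γ • p = p := fun γ => γ.2
  have hs' : ∀ γ : MulAction.stabilizer Γ p,
      ContMDiff 𝓘(ℝ, E) 𝓘(ℝ, E) ∞ (fun x : M => γ • x) := fun γ => hs γ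
  obtain ⟨ρ, hρ⟩ := exists_derivHom hs' p hpfix
  refine ⟨ρ, hρ, ?_⟩
  obtain ⟨L0, ε, hε, h⟩ := hder
  let L : E ≃L[ℝ] En ν :=
    (L0.trans (WithLp.linearEquiv 2 ℝ (ν → ℝ)).symm).toContinuousLinearEquiv
  refine ⟨L, fun γ => ε (γ : Γ), fun γ => hε γ, ?_⟩
  rcases h with h | h
  · left
    intro γ v
    rw [← hρ γ v]
    exact congrArg (WithLp.toLp 2) (h γ γ.2 v)
  · right
    intro γ v
    rw [← hρ γ v]
    exact congrArg (WithLp.toLp 2) (h γ γ.2 v)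

theorem unifAt_lat (hΛ : AllU.{v} Λ) (g : GL ν ℝ) (h1 : (Λ.map (cjSL g)).relIndex Γ ≠ 0)
    (h2 : Γ.relIndex (Λ.map (cjSL g)) ≠ 0)
    (hs : ∀ γ : Γ, ContMDiff 𝓘(ℝ, E) 𝓘(ℝ, E) ∞ (fun x : M => γ • x)) (p : M)
    (hper : (MulAction.orbit Γ p).Finite) (hder : SDAt E Γ p) : UnifAt E Γ p := by
  have hfi := stab_fi p hper
  obtain ⟨ρ, hρ, hSD⟩ := exists_rho hs p hder
  have hpfix : ∀ γ : MulAction.stabilizer Γ p, γ • p = p := fun γ => γ.2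
  have hs' : ∀ γ : MulAction.stabilizer Γ p,
      ContMDiff 𝓘(ℝ, E) 𝓘(ℝ, E) ∞ (fun x : M => γ • x) := fun γ => hs γ
  obtain ⟨e, k1, k2, k3, k4, k5⟩ := unif_of hs' p hpfix ρ hρ
    (pu_comm hΛ g h1 h2 (MulAction.stabilizer Γ p) ρ hSD)
  refine ⟨e, k1, k2, k3, k4, fun γ hγ x hx hx' => ?_⟩
  have k6 : dAt E γ p (e x) = ρ ⟨γ, hγ⟩ (e x) := hρ ⟨γ, hγ⟩ (e x)
  rw [k6] at hx' ⊢
  exact k5 ⟨γ, hγ⟩ x hx hx'

theorem globAt_lat (hΛ : AllG.{v} Λ) (g : GL ν ℝ) (h1 : (Λ.map (cjSL g)).relIndex Γ ≠ 0)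
    (h2 : Γ.relIndex (Λ.map (cjSL g)) ≠ 0)
    (hs : ∀ γ : Γ, ContMDiff 𝓘(ℝ, E) 𝓘(ℝ, E) ∞ (fun x : M => γ • x)) (p : M)
    (hper : (MulAction.orbit Γ p).Finite) (hder : SDAt E Γ p) : GlobAt E Γ p := by
  have hfi := stab_fi p hper
  obtain ⟨ρ, hρ, hSD⟩ := exists_rho hs p hder
  have hpfix : ∀ γ : MulAction.stabilizer Γ p, γ • p = p := fun γ => γ.2
  have hs' : ∀ γ : MulAction.stabilizer Γ p,
      ContMDiff 𝓘(ℝ, E) 𝓘(ℝ, E) ∞ (fun x : M => γ • x) := fun γ => hs γ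
  obtain ⟨U, φ, ψ, k1, k2, k3, k4, k5, k6, k7, k8, k9⟩ := global_of hs' p hpfix ρ hρ
    (pg_comm hΛ g h1 h2 (MulAction.stabilizer Γ p) ρ hSD)
  refine ⟨U, φ, ψ, k1, k2, fun γ hγ x hx => k3 ⟨γ, hγ⟩ x hx, k4, k5, k6, k7, k8,
    fun γ hγ x hx => ?_⟩
  have k10 : dAt E γ p (φ x) = ρ ⟨γ, hγ⟩ (φ x) := hρ ⟨γ, hγ⟩ (φ x)
  rw [k10]
  exact k9 ⟨γ, hγ⟩ x hx

end

section
universe v u
variable {E : Type u} [NormedAddCommGroup E] [InnerProductSpace ℝ E] [FiniteDimensional ℝ E]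

theorem globAt_cocompact {n : ℕ} (hn : 3 ≤ n)
    (Γ : Subgroup (Matrix.SpecialLinearGroup (Fin n) ℝ))
    [DiscreteTopology Γ] [CompactSpace (Matrix.SpecialLinearGroup (Fin n) ℝ ⧸ Γ)]
    {M : Type v} [TopologicalSpace M] [T2Space M] [ChartedSpace E M] [IsManifold 𝓘(ℝ, E) ∞ M]
    [MulAction Γ M] (hs : ∀ γ : Γ, ContMDiff 𝓘(ℝ, E) 𝓘(ℝ, E) ∞ (fun x : M => γ • x)) (p : M)
    (hper : (MulAction.orbit Γ p).Finite) (hder : SDAt E Γ p) : GlobAt E Γ p := by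
  have hfi := stab_fi p hper
  obtain ⟨L0, ε, hε, h⟩ := hder
  let L : E ≃L[ℝ] EuclideanSpace ℝ (Fin n) :=
    (L0.trans (WithLp.linearEquiv 2 ℝ (Fin n → ℝ)).symm).toContinuousLinearEquiv
  have hpfix : ∀ γ : MulAction.stabilizer Γ p, γ • p = p := fun γ => γ.2
  have hs' : ∀ γ : MulAction.stabilizer Γ p,
      ContMDiff 𝓘(ℝ, E) 𝓘(ℝ, E) ∞ (fun x : M => γ • x) := fun γ => hs γ
  obtain ⟨ρ, hρ⟩ := exists_derivHom hs' p hpfix
  obtain ⟨hfin, hcoc⟩ := lattice_props_gen n Γ (MulAction.stabilizer Γ p) L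
    (fun γ => ε (γ : Γ)) (fun γ => hε γ) ρ (by
    rcases h with h | h
    · left
      intro γ v
      rw [← hρ γ v]
      exact congrArg (WithLp.toLp 2) (h γ γ.2 v)
    · right
      intro γ v
      rw [← hρ γ v]
      exact congrArg (WithLp.toLp 2) (h γ γ.2 v))
  have hdim : Module.finrank ℝ E = n := by
    rw [L0.finrank_eq, Module.finrank_fin_fun]
  obtain ⟨U, φ, ψ, k1, k2, k3, k4, k5, k6, k7, k8, k9⟩ :=
    global_lin (by rw [hdim]; exact hn) hs' p hpfix ρ hρ hfin hcoc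
  refine ⟨U, φ, ψ, k1, k2, fun γ hγ x hx => k3 ⟨γ, hγ⟩ x hx, k4, k5, k6, k7, k8,
    fun γ hγ x hx => ?_⟩
  have k10 := k9 ⟨γ, hγ⟩ x hx
  rw [← hρ] at k10
  exact k10

end
end LatLin
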