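import Pool.Agent.Lib.MP_2392aa_gt.Mfd

/-!
MP_2392aa_gt, non-cocompact lattices: interface of the analytic core (helper81).

`E` is a finite dimensional Euclidean space, `Γ` a group acting on `M` with a fixed point,
`D : LocData ρ` its local description near the fixed point, `ρ` its derivative representation.
-/

open scoped ContDiff Topology
open Metric

namespace LatLin

section
variable {E : Type*} [NormedAddCommGroup E] [NormedSpace ℝ E] {Γ : Type*} [Group Γ]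

/-- all derivatives of `f` vanish at `x` -/
def FlatAt (f : E → E) (x : E) : Prop := ∀ k : ℕ, iteratedFDeriv ℝ k f x = 0

/-- smooth homogeneous maps of degree `k` (these are the homogeneous polynomial maps) -/
def HomMap (k : ℕ) (p : E → E) : Prop :=
  ContDiff ℝ ∞ p ∧ ∀ (t : ℝ) (x : E), p (t • x) = t ^ k • p x

/-- `f` vanishes to order `k` at `0` -/
def Ord (k : ℕ) (f : E → E) : Prop := ∃ C : ℝ, ∀ᶠ x in 𝓝 (0 : E), ‖f x‖ ≤ C * ‖x‖ ^ k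

/-- there are no equivariant homogeneous maps of degree at least two -/
def NoInv (ρ : Γ →* (E ≃L[ℝ] E)) : Prop :=
  ∀ k : ℕ, 2 ≤ k → ∀ p : E → E, HomMap k p → (∀ γ x, p (ρ γ x) = ρ γ (p x)) → ∀ x, p x = 0

/-- every cocycle in homogeneous maps of degree at least two is a coboundary -/
def FormLin (ρ : Γ →* (E ≃L[ℝ] E)) : Prop :=
  ∀ k : ℕ, 2 ≤ k → ∀ c : Γ → E → E, (∀ γ, HomMap k (c γ)) →
    (∀ γ δ x, c (γ * δ) x = c γ (ρ δ x) + ρ γ (c δ x)) →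
    ∃ p : E → E, HomMap k p ∧ ∀ γ x, c γ x = ρ γ (p x) - p (ρ γ x)

/-- every vector can be contracted -/
def Contr (ρ : Γ →* (E ≃L[ℝ] E)) : Prop := ∀ x : E, ∀ t > 0, ∃ γ : Γ, ‖ρ γ x‖ ≤ t

/-- one step of a chain of generators which keeps `x` in the ball of radius `c` -/
def Step (ρ : Γ →* (E ≃L[ℝ] E)) (S : Set Γ) (x : E) (c : ℝ) (a b : Γ) : Prop :=
  ‖ρ a x‖ ≤ c ∧ ‖ρ b x‖ ≤ c ∧ ∃ s ∈ S, b = s * a

/-- connectedness: any two elements which move `x` into the ball of radius `t` are joined by a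
chain of generators which keeps `x` in the ball of radius `C * t` -/
def Conn (ρ : Γ →* (E ≃L[ℝ] E)) (S : Set Γ) : Prop :=
  ∃ C > 0, ∀ (x : E) (t : ℝ) (g g' : Γ), 0 < t → ‖ρ g x‖ ≤ t → ‖ρ g' x‖ ≤ t →
    Relation.ReflTransGen (Step ρ S x (C * t)) g g'

variable {M : Type*} [TopologicalSpace M] [MulAction Γ M] {ρ : Γ →* (E ≃L[ℝ] E)}

/-- the action is linear up to flat maps -/
def LocData.IsFlat (D : LocData (M := M) ρ) : Prop := ∀ γ, FlatAt (fun x => D.F γ x - ρ γ x) 0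

/-- the action is smoothly linearizable near the fixed point (as germs) -/
def LocData.Lin (D : LocData (M := M) ρ) : Prop :=
  ∃ φ : E → E, ContDiff ℝ ∞ φ ∧ φ 0 = 0 ∧ HasFDerivAt φ (ContinuousLinearMap.id ℝ E) 0 ∧
    ∀ γ, ∀ᶠ x in 𝓝 (0 : E), φ (D.F γ x) = ρ γ (φ x)

/-- an equivariant germ which vanishes to second order vanishes -/
def LocData.Unique (D : LocData (M := M) ρ) : Prop :=
  ∀ w : E → E, ContDiff ℝ ∞ w → w 0 = 0 → HasFDerivAt w (0 : E →L[ℝ] E) 0 →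
    (∀ γ, ∀ᶠ x in 𝓝 (0 : E), w (D.F γ x) = ρ γ (w x)) → ∀ᶠ x in 𝓝 (0 : E), w x = 0

/-- Data for the operator `T φ (x) = ∑ i, w i x • (ρ (g i))⁻¹ (φ (A i x))`.
`Z` is the closed set (the origin, and exceptional rays) where no branch is needed, `ϱ x` is the
scale at which the branches land. -/
structure TData (D : LocData (M := M) ρ) where
  ι : Type
  g : ι → Γ
  A : ι → E → E
  w : ι → E → ℝ
  act : E → Finset ι
  Z : Set E
  ϱ : E → ℝ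
  r : ℝ
  lam : ℝ
  K : ℕ
  r_pos : 0 < r
  r_le : r ≤ 1
  r_le' : r ≤ D.r0
  lam_pos : 0 < lam
  lam_lt : lam < 1
  Z_closed : IsClosed Z
  zero_mem : (0 : E) ∈ Z
  Z_int : interior Z = ∅
  ϱ_pos : ∀ x ∈ ball (0 : E) r \ Z, 0 < ϱ x
  ϱ_le : ∀ x ∈ ball (0 : E) r \ Z, ϱ x ≤ lam * ‖x‖
  ϱ_Z : ∃ C : ℝ, ∀ x ∈ ball (0 : E) r \ Z, ∀ z ∈ Z, ϱ x ≤ C * ‖x - z‖
  A_smooth : ∀ i, ContDiff ℝ ∞ (A i)
  w_smooth : ∀ i, ContDiffOn ℝ ∞ (w i) (ball 0 r \ Z)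
  w_nonneg : ∀ i x, 0 ≤ w i x
  act_card : ∀ x ∈ ball (0 : E) r \ Z, (act x).card ≤ K
  act_nhds : ∀ x ∈ ball (0 : E) r \ Z, ∀ᶠ y in 𝓝 x, ∀ i, i ∉ act x → w i y = 0
  w_sum : ∀ x ∈ ball (0 : E) r \ Z, ∑ i ∈ act x, w i x = 1
  w_bound : ∀ j : ℕ, ∃ (C : ℝ) (c : ℕ), ∀ x ∈ ball (0 : E) r \ Z, ∀ i ∈ act x,
    ‖iteratedFDeriv ℝ j (w i) x‖ ≤ C * (‖x‖ / ϱ x) ^ c / ϱ x ^ j
  g_bound : ∃ (C : ℝ) (c : ℕ), ∀ x ∈ ball (0 : E) r \ Z, ∀ i ∈ act x,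
    sz (ρ (g i)) ≤ C * (‖x‖ / ϱ x) ^ c
  A_flat : ∀ j N : ℕ, ∃ C : ℝ, ∀ x ∈ ball (0 : E) r \ Z, ∀ i ∈ act x,
    ‖iteratedFDeriv ℝ j (fun y => A i y - ρ (g i) y) x‖ ≤ C * ϱ x ^ N
  A_le : ∀ x ∈ ball (0 : E) r \ Z, ∀ i ∈ act x, ‖A i x‖ ≤ ϱ x
  A_act : ∀ x ∈ ball (0 : E) r \ Z, ∀ i ∈ act x, g i • D.χ x = D.χ (A i x)

/-- the two properties of the fixed point `φ` of the operator `T` on the ball of radius `s` -/
structure TData.IsSol {D : LocData (M := M) ρ} (T : TData D) (s : ℝ) (φ : E → E) : Prop where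
  s_pos : 0 < s
  s_le : s ≤ T.r
  smooth : ContDiff ℝ ∞ φ
  flat : FlatAt (fun x => φ x - x) 0
  onZ : ∀ x ∈ T.Z, φ x = x
  fix : ∀ x ∈ ball (0 : E) s \ T.Z,
    φ x = ∑ i ∈ T.act x, T.w i x • (ρ (T.g i))⁻¹ (φ (T.A i x))

end
end LatLin
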