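import Pool.Agent.Lib.MP_2392aa_gt.C.Ifc

/-!
MP_2392aa_gt, core: the operator of a `TData` and the classes of maps on which it contracts.
-/

open scoped ContDiff Topology
open Metric

namespace LatLin

section
variable {E : Type*} [NormedAddCommGroup E] [InnerProductSpace ℝ E] [FiniteDimensional ℝ E]
  {Γ : Type*} [Group Γ] {M : Type*} [TopologicalSpace M] [MulAction Γ M]
  {ρ : Γ →* (E ≃L[ℝ] E)}

/-- `C^m` maps supported in the ball of radius `r` with `‖D^j u x‖ ≤ κ ‖x‖^(N-j)` -/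
structure Cls (r : ℝ) (m N : ℕ) (κ : ℝ) (u : E → E) : Prop where
  smooth : ContDiff ℝ m u
  supp : ∀ x, x ∉ ball (0 : E) r → u x = 0
  bound : ∀ j ≤ m, ∀ x, ‖iteratedFDeriv ℝ j u x‖ ≤ κ * ‖x‖ ^ (N - j)

namespace TData
variable {D : LocData (M := M) ρ} (T : TData D)

/-- the cutoff function, equal to one on the ball of radius `r / 4`, zero off the ball of radius
`r / 2` -/
noncomputable def bump : ContDiffBump (0 : E) :=
  ⟨T.r / 4, T.r / 2, by have := T.r_pos; positivity, by have := T.r_pos; linarith⟩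

open Classical in
/-- the linear operator: `bump x • ∑ w_i x • (ρ g_i)⁻¹ (u (A_i x))` -/
noncomputable def op (u : E → E) (x : E) : E :=
  if x ∈ ball (0 : E) T.r \ T.Z then
    T.bump x • ∑ i ∈ T.act x, T.w i x • (ρ (T.g i))⁻¹ (u (T.A i x))
  else 0

open Classical in
/-- the defect: `bump x • ∑ w_i x • (ρ g_i)⁻¹ (A_i x - ρ g_i x)` -/
noncomputable def dfc (x : E) : E :=
  if x ∈ ball (0 : E) T.r \ T.Z then
    T.bump x • ∑ i ∈ T.act x, T.w i x • (ρ (T.g i))⁻¹ (T.A i x - ρ (T.g i) x)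
  else 0

end TData

end
end LatLin
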