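import Pool.Agent.Lib.MP_2392aa_gt.C.OpDef
import Pool.Agent.Lib.MP_2392aa_gt.C.Ext0

/-!
MP_2392aa_gt, core, module TLoc: local analysis of sums over the active indices.
-/

open scoped ContDiff Topology
open Metric Filter

namespace LatLin

section
variable {E : Type*} [NormedAddCommGroup E] [InnerProductSpace ℝ E] [FiniteDimensional ℝ E]
  {Γ : Type*} [Group Γ] {M : Type*} [TopologicalSpace M] [MulAction Γ M]
  {ρ : Γ →* (E ≃L[ℝ] E)} {D : LocData (M := M) ρ}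

private theorem Y_open (T : TData D) : IsOpen (ball (0 : E) T.r \ T.Z) :=
  isOpen_ball.sdiff T.Z_closed

private theorem Y_facts (T : TData D) {x : E} (hx : x ∈ ball (0 : E) T.r \ T.Z) :
    0 < ‖x‖ ∧ ‖x‖ ≤ 1 ∧ 0 < T.ϱ x ∧ T.ϱ x ≤ 1 ∧ 1 ≤ ‖x‖ / T.ϱ x := by
  have h1 : 0 < ‖x‖ := by
    rw [norm_pos_iff]
    rintro rfl
    exact hx.2 T.zero_mem
  have h2 : ‖x‖ < T.r := mem_ball_zero_iff.1 hx.1
  have h3 := T.r_le
  have h4 := T.ϱ_pos x hx
  have h5 := T.ϱ_le x hx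
  have h6 := T.lam_lt
  have h7 := T.lam_pos
  have h8 : T.lam * ‖x‖ ≤ ‖x‖ := by nlinarith
  refine ⟨h1, by linarith, h4, by linarith, ?_⟩
  rw [one_le_div h4]
  linarith

theorem TData.act_sum (T : TData D) (G : T.ι → E → E) (x : E) (hx : x ∈ ball (0 : E) T.r \ T.Z) :
    ∀ᶠ y in 𝓝 x, y ∈ ball (0 : E) T.r \ T.Z ∧
      ∑ i ∈ T.act y, T.w i y • (ρ (T.g i))⁻¹ (G i y) =
        ∑ i ∈ T.act x, T.w i y • (ρ (T.g i))⁻¹ (G i y) := by
  classical
  filter_upwards [(Y_open T).mem_nhds hx, T.act_nhds x hx] with y hy h1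
  refine ⟨hy, ?_⟩
  have h2 := (T.act_nhds y hy).self_of_nhds
  have e1 : ∑ i ∈ T.act y, T.w i y • (ρ (T.g i))⁻¹ (G i y) =
      ∑ i ∈ T.act x ∪ T.act y, T.w i y • (ρ (T.g i))⁻¹ (G i y) :=
    Finset.sum_subset Finset.subset_union_right
      (fun i _ hi => by rw [h2 i hi, zero_smul])
  have e2 : ∑ i ∈ T.act x, T.w i y • (ρ (T.g i))⁻¹ (G i y) =
      ∑ i ∈ T.act x ∪ T.act y, T.w i y • (ρ (T.g i))⁻¹ (G i y) :=
    Finset.sum_subset Finset.subset_union_left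
      (fun i _ hi => by rw [h1 i hi, zero_smul])
  rw [e1, e2]

private theorem leib {F : Type*} [NormedAddCommGroup F] [NormedSpace ℝ F] {m : ℕ} {s : Set E}
    (hs : IsOpen s) {f : E → ℝ} {g : E → F} (hf : ContDiffOn ℝ m f s) (hg : ContDiffOn ℝ m g s)
    {x : E} (hx : x ∈ s) {j N : ℕ} (hj : j ≤ m) (hN : m ≤ N) {A B r : ℝ} (hr : 0 < r)
    (hA : ∀ a ≤ j, ‖iteratedFDeriv ℝ a f x‖ ≤ A / r ^ a)
    (hB : ∀ a ≤ j, ‖iteratedFDeriv ℝ a g x‖ ≤ B * r ^ (N - a)) :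
    ‖iteratedFDeriv ℝ j (fun y => f y • g y) x‖ ≤ 2 ^ m * (A * B) * r ^ (N - j) := by
  have h := norm_iteratedFDerivWithin_smul_le hf hg hs.uniqueDiffOn hx (n := j)
    (by exact_mod_cast hj)
  simp only [iteratedFDerivWithin_of_isOpen _ hs hx] at h
  have hA0 : 0 ≤ A := by
    have := (norm_nonneg _).trans (hA 0 (Nat.zero_le _))
    simpa using this
  have hB0 : 0 ≤ B := by
    have := (norm_nonneg _).trans (hB 0 (Nat.zero_le _))
    exact nonneg_of_mul_nonneg_left this (by positivity)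
  have hterm : ∀ a ∈ Finset.range (j + 1),
      (j.choose a : ℝ) * ‖iteratedFDeriv ℝ a f x‖ * ‖iteratedFDeriv ℝ (j - a) g x‖ ≤
        (j.choose a : ℝ) * (A * B * r ^ (N - j)) := by
    intro a ha
    have ha' : a ≤ j := by simpa [Nat.lt_succ_iff] using ha
    have e : N - (j - a) = (N - j) + a := by omega
    have h1 := hA a ha'
    have h2 := hB (j - a) (Nat.sub_le _ _)
    rw [e, pow_add] at h2
    have h3 : ‖iteratedFDeriv ℝ a f x‖ * ‖iteratedFDeriv ℝ (j - a) g x‖ ≤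
        A / r ^ a * (B * (r ^ (N - j) * r ^ a)) :=
      mul_le_mul h1 h2 (norm_nonneg _) (by positivity)
    have h4 : A / r ^ a * (B * (r ^ (N - j) * r ^ a)) = A * B * r ^ (N - j) := by
      have : r ^ a ≠ 0 := by positivity
      field_simp
    rw [h4] at h3
    rw [mul_assoc]
    exact mul_le_mul_of_nonneg_left h3 (by positivity)
  have h5 := h.trans (Finset.sum_le_sum hterm)
  rw [← Finset.sum_mul, ← Nat.cast_sum, Nat.sum_range_choose] at h5
  refine h5.trans ?_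
  push_cast
  have h6 : (2 : ℝ) ^ j ≤ 2 ^ m := pow_le_pow_right₀ (by norm_num) hj
  calc (2 : ℝ) ^ j * (A * B * r ^ (N - j)) ≤ 2 ^ m * (A * B * r ^ (N - j)) :=
        mul_le_mul_of_nonneg_right h6 (by positivity)
    _ = 2 ^ m * (A * B) * r ^ (N - j) := by ring

private theorem left_le {F G : Type*} [NormedAddCommGroup F] [NormedSpace ℝ F]
    [NormedAddCommGroup G] [NormedSpace ℝ G] (L : F →L[ℝ] G) {f : E → F} {x : E} {m : ℕ}
    (hf : ContDiffAt ℝ m f x) {j : ℕ} (hj : j ≤ m) :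
    ‖iteratedFDeriv ℝ j (fun y => L (f y)) x‖ ≤ ‖L‖ * ‖iteratedFDeriv ℝ j f x‖ := by
  have h := L.iteratedFDeriv_comp_left hf (i := j) (by exact_mod_cast hj)
  have h' : iteratedFDeriv ℝ j (fun y => L (f y)) x =
      L.compContinuousMultilinearMap (iteratedFDeriv ℝ j f x) := h
  rw [h']
  exact L.norm_compContinuousMultilinearMap_le _

private theorem w_unif (T : TData D) (m : ℕ) : ∃ (C : ℝ) (c : ℕ), 0 ≤ C ∧
    ∀ x ∈ ball (0 : E) T.r \ T.Z, ∀ i ∈ T.act x, ∀ j ≤ m,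
      ‖iteratedFDeriv ℝ j (T.w i) x‖ ≤ C * (‖x‖ / T.ϱ x) ^ c / T.ϱ x ^ j := by
  choose C c h using T.w_bound
  refine ⟨∑ j ∈ Finset.range (m + 1), |C j|, ∑ j ∈ Finset.range (m + 1), c j,
    Finset.sum_nonneg fun _ _ => abs_nonneg _, fun x hx i hi j hj => ?_⟩
  obtain ⟨-, -, h3, -, h5⟩ := Y_facts T hx
  have hjm : j ∈ Finset.range (m + 1) := Finset.mem_range.2 (by omega)
  have a1 : C j ≤ ∑ j ∈ Finset.range (m + 1), |C j| :=
    (le_abs_self _).trans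
      (Finset.single_le_sum (f := fun j => |C j|) (fun _ _ => abs_nonneg _) hjm)
  have a2 : c j ≤ ∑ j ∈ Finset.range (m + 1), c j :=
    Finset.single_le_sum (f := c) (fun _ _ => Nat.zero_le _) hjm
  refine (h j x hx i hi).trans ?_
  gcongr

private theorem bump_unif (T : TData D) (m : ℕ) : ∃ C : ℝ, 0 ≤ C ∧
    ∀ x ∈ ball (0 : E) T.r, ∀ j ≤ m, ‖iteratedFDeriv ℝ j T.bump x‖ ≤ C := by
  have hb : ContDiff ℝ ∞ T.bump := T.bump.contDiff
  have h : ∀ j : ℕ, ∃ C : ℝ, ∀ x ∈ closedBall (0 : E) T.r, ‖iteratedFDeriv ℝ j T.bump x‖ ≤ C :=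
    fun j => (isCompact_closedBall (0 : E) T.r).exists_bound_of_continuousOn
      (hb.continuous_iteratedFDeriv (m := j) (mod_cast le_top)).continuousOn
  choose C h using h
  refine ⟨∑ j ∈ Finset.range (m + 1), |C j|,
    Finset.sum_nonneg fun _ _ => abs_nonneg _, fun x hx j hj => ?_⟩
  have hjm : j ∈ Finset.range (m + 1) := Finset.mem_range.2 (by omega)
  exact (h j x (ball_subset_closedBall hx)).trans ((le_abs_self _).trans
    (Finset.single_le_sum (f := fun j => |C j|) (fun _ _ => abs_nonneg _) hjm))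

open Classical in
theorem TData.sum_bound (T : TData D) (m : ℕ) : ∃ (C : ℝ) (c : ℕ), 0 ≤ C ∧
    ∀ (d N : ℕ) (κ : ℝ) (G : T.ι → E → E), m + c + d + 2 ≤ N → 0 ≤ κ →
      (∀ i, ContDiff ℝ m (G i)) →
      (∀ x ∈ ball (0 : E) T.r \ T.Z, ∀ i ∈ T.act x, ∀ j ≤ m,
        ‖iteratedFDeriv ℝ j (G i) x‖ ≤ κ * (‖x‖ / T.ϱ x) ^ d * T.ϱ x ^ (N - j)) →
      Cls T.r m N (C * κ * T.lam ^ (N - m - c - d)) (fun x =>
        if x ∈ ball (0 : E) T.r \ T.Z then
          T.bump x • ∑ i ∈ T.act x, T.w i x • (ρ (T.g i))⁻¹ (G i x)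
        else 0) := by
  obtain ⟨Cw, cw, hCw, hw⟩ := w_unif T m
  obtain ⟨Cb, hCb, hb⟩ := bump_unif T m
  obtain ⟨Cg', cg, hg'⟩ := T.g_bound
  obtain ⟨Cg, hCg, hg⟩ : ∃ Cg : ℝ, 0 ≤ Cg ∧ ∀ x ∈ ball (0 : E) T.r \ T.Z, ∀ i ∈ T.act x,
      sz (ρ (T.g i)) ≤ Cg * (‖x‖ / T.ϱ x) ^ cg := by
    refine ⟨max Cg' 0, le_max_right _ _, fun x hx i hi => (hg' x hx i hi).trans ?_⟩
    obtain ⟨-, -, h3, -, h5⟩ := Y_facts T hx
    gcongr
    exact le_max_left _ _
  obtain ⟨CZ, hCZ⟩ := T.ϱ_Z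
  set C1 : ℝ := 2 ^ m * (Cb * (T.K * (2 ^ m * (Cw * Cg)))) with hC1
  refine ⟨C1, cw + cg, by positivity, fun d N κ G hN hκ hG hGb => ?_⟩
  set V : E → E := fun x => if x ∈ ball (0 : E) T.r \ T.Z then
          T.bump x • ∑ i ∈ T.act x, T.w i x • (ρ (T.g i))⁻¹ (G i x)
        else 0 with hV
  have hYo := Y_open T
  -- local form
  have hloc : ∀ x ∈ ball (0 : E) T.r \ T.Z, V =ᶠ[𝓝 x] fun y =>
      T.bump y • ∑ i ∈ T.act x, T.w i y • ((ρ (T.g i))⁻¹ : E ≃L[ℝ] E) (G i y) := by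
    intro x hx
    filter_upwards [T.act_sum G x hx] with y hy
    rw [hV]
    simp only
    rw [if_pos hy.1, hy.2]
  have hterm : ∀ i, ContDiffOn ℝ m (fun y => T.w i y • ((ρ (T.g i))⁻¹ : E ≃L[ℝ] E) (G i y))
      (ball (0 : E) T.r \ T.Z) := by
    intro i
    exact ((T.w_smooth i).of_le (mod_cast le_top)).smul
      (((ρ (T.g i))⁻¹ : E ≃L[ℝ] E).contDiff.comp (hG i)).contDiffOn
  have hsum : ∀ x, ContDiffOn ℝ m
      (fun y => ∑ i ∈ T.act x, T.w i y • ((ρ (T.g i))⁻¹ : E ≃L[ℝ] E) (G i y))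
      (ball (0 : E) T.r \ T.Z) := fun x => ContDiffOn.sum fun i _ => hterm i
  have hbump : ContDiffOn ℝ m T.bump (ball (0 : E) T.r \ T.Z) := by
    have : ContDiff ℝ m T.bump := T.bump.contDiff
    exact this.contDiffOn
  have hVY : ContDiffOn ℝ m V (ball (0 : E) T.r \ T.Z) := by
    intro x hx
    refine ContDiffAt.contDiffWithinAt ?_
    refine ContDiffAt.congr_of_eventuallyEq ?_ (hloc x hx)
    exact (hbump.smul (hsum x)).contDiffAt (hYo.mem_nhds hx)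
  -- bound of the derivatives on `Y`
  have hbd : ∀ x ∈ ball (0 : E) T.r \ T.Z, ∀ j ≤ m, ‖iteratedFDeriv ℝ j V x‖ ≤
      C1 * κ * (‖x‖ / T.ϱ x) ^ (cw + cg + d) * T.ϱ x ^ (N - j) := by
    intro x hx j hj
    obtain ⟨h1, h2, h3, h4, h5⟩ := Y_facts T hx
    rw [((hloc x hx).iteratedFDeriv ℝ j).eq_of_nhds]
    set q := ‖x‖ / T.ϱ x with hq
    have hU : ∀ a ≤ m, ‖iteratedFDeriv ℝ a
        (fun y => ∑ i ∈ T.act x, T.w i y • ((ρ (T.g i))⁻¹ : E ≃L[ℝ] E) (G i y)) x‖ ≤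
        (T.K * (2 ^ m * ((Cw * q ^ cw) * (Cg * q ^ cg * (κ * q ^ d))))) * T.ϱ x ^ (N - a) := by
      intro a ha
      rw [iteratedFDeriv_fun_sum_apply (fun i _ => ((hterm i).contDiffAt (hYo.mem_nhds hx)).of_le
        (by exact_mod_cast ha))]
      refine (norm_sum_le _ _).trans ?_
      have hone : ∀ i ∈ T.act x, ‖iteratedFDeriv ℝ a
          (fun y => T.w i y • ((ρ (T.g i))⁻¹ : E ≃L[ℝ] E) (G i y)) x‖ ≤
          2 ^ m * ((Cw * q ^ cw) * (Cg * q ^ cg * (κ * q ^ d))) * T.ϱ x ^ (N - a) := by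
        intro i hi
        refine leib hYo ((T.w_smooth i).of_le (mod_cast le_top))
          (((ρ (T.g i))⁻¹ : E ≃L[ℝ] E).contDiff.comp (hG i)).contDiffOn hx ha (by omega) h3
          (fun b hb' => hw x hx i hi b (by omega)) (fun b hb' => ?_)
        have hl := left_le (((ρ (T.g i))⁻¹ : E ≃L[ℝ] E) : E →L[ℝ] E)
          ((hG i).contDiffAt (x := x)) (j := b) (by omega)
        have hs : ‖(((ρ (T.g i))⁻¹ : E ≃L[ℝ] E) : E →L[ℝ] E)‖ ≤ Cg * q ^ cg :=
          (le_max_right _ _).trans (hg x hx i hi)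
        have hgb := hGb x hx i hi b (by omega)
        calc ‖iteratedFDeriv ℝ b (⇑((ρ (T.g i))⁻¹ : E ≃L[ℝ] E) ∘ G i) x‖
            ≤ ‖(((ρ (T.g i))⁻¹ : E ≃L[ℝ] E) : E →L[ℝ] E)‖ * ‖iteratedFDeriv ℝ b (G i) x‖ := hl
          _ ≤ (Cg * q ^ cg) * (κ * q ^ d * T.ϱ x ^ (N - b)) :=
              mul_le_mul hs hgb (norm_nonneg _) (by positivity)
          _ = Cg * q ^ cg * (κ * q ^ d) * T.ϱ x ^ (N - b) := by ring
      refine (Finset.sum_le_sum hone).trans ?_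
      rw [Finset.sum_const, nsmul_eq_mul]
      have hc : ((T.act x).card : ℝ) ≤ T.K := by exact_mod_cast T.act_card x hx
      calc ((T.act x).card : ℝ) * (2 ^ m * ((Cw * q ^ cw) * (Cg * q ^ cg * (κ * q ^ d))) *
            T.ϱ x ^ (N - a)) ≤ T.K * (2 ^ m * ((Cw * q ^ cw) * (Cg * q ^ cg * (κ * q ^ d))) *
            T.ϱ x ^ (N - a)) := mul_le_mul_of_nonneg_right hc (by positivity)
        _ = _ := by ring
    have hfin := leib hYo hbump (hsum x) hx hj (by omega : m ≤ N) h3 (A := Cb)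
      (fun a ha => (hb x hx.1 a (by omega)).trans ?_) (fun a ha => hU a (by omega))
    · refine hfin.trans (le_of_eq ?_)
      rw [hC1, pow_add, pow_add]
      ring
    · rw [le_div_iff₀ (by positivity)]
      exact mul_le_of_le_one_right hCb (pow_le_one₀ h3.le h4)
  -- off `Y` and off `Z`
  have hoff : ∀ x, x ∉ ball (0 : E) T.r → V =ᶠ[𝓝 x] fun _ => 0 := by
    intro x hx
    have hr := T.r_pos
    have hx' : T.r ≤ ‖x‖ := by simpa [mem_ball_zero_iff] using hx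
    have ho : IsOpen {y : E | T.r / 2 < ‖y‖} := isOpen_lt continuous_const continuous_norm
    filter_upwards [ho.mem_nhds (show T.r / 2 < ‖x‖ by linarith)] with y hy
    rw [hV]
    simp only
    split_ifs with h
    · have : T.bump y = 0 := by
        refine T.bump.zero_of_le_dist ?_
        rw [dist_zero_right]
        exact hy.le
      rw [this, zero_smul]
    · rfl
  have hVZ : ∀ z ∈ T.Z, V z = 0 := fun z hz => by
    rw [hV]
    simp only
    rw [if_neg fun h => h.2 hz]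
  have hVc : ContDiffOn ℝ m V T.Zᶜ := by
    intro x hx
    refine ContDiffAt.contDiffWithinAt ?_
    by_cases hxb : x ∈ ball (0 : E) T.r
    · exact hVY.contDiffAt (hYo.mem_nhds ⟨hxb, hx⟩)
    · exact contDiffAt_const.congr_of_eventuallyEq (hoff x hxb)
  have hoff' : ∀ x, x ∉ ball (0 : E) T.r → ∀ j, iteratedFDeriv ℝ j V x = 0 := by
    intro x hx j
    rw [((hoff x hx).iteratedFDeriv ℝ j).eq_of_nhds]
    simp
  -- bound with powers of `ϱ`
  have hbd2 : ∀ x ∈ ball (0 : E) T.r \ T.Z, ∀ j ≤ m, ‖iteratedFDeriv ℝ j V x‖ ≤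
      C1 * κ * (‖x‖ ^ (cw + cg + d) * T.ϱ x ^ (N - j - (cw + cg + d))) := by
    intro x hx j hj
    obtain ⟨h1, h2, h3, h4, h5⟩ := Y_facts T hx
    refine (hbd x hx j hj).trans (le_of_eq ?_)
    have e : N - j = (N - j - (cw + cg + d)) + (cw + cg + d) := by omega
    rw [e, pow_add (T.ϱ x), Nat.add_sub_cancel, div_pow]
    have : T.ϱ x ^ (cw + cg + d) ≠ 0 := by positivity
    field_simp
  have hmain := ext_zero m T.Z T.Z_closed V hVc hVZ (C1 * κ * CZ ^ 2) (by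
    intro j hj x hx z hz
    by_cases hxb : x ∈ ball (0 : E) T.r
    · have hxY : x ∈ ball (0 : E) T.r \ T.Z := ⟨hxb, hx⟩
      obtain ⟨h1, h2, h3, h4, h5⟩ := Y_facts T hxY
      have hk := hCZ x hxY z hz
      have a1 : ‖x‖ ^ (cw + cg + d) ≤ 1 := pow_le_one₀ h1.le h2
      have a2 : T.ϱ x ^ (N - j - (cw + cg + d)) ≤ T.ϱ x ^ 2 :=
        pow_le_pow_of_le_one h3.le h4 (by omega)
      have a3 : T.ϱ x ^ 2 ≤ (CZ * ‖x - z‖) ^ 2 := pow_le_pow_left₀ h3.le hk 2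
      calc ‖iteratedFDeriv ℝ j V x‖
          ≤ C1 * κ * (‖x‖ ^ (cw + cg + d) * T.ϱ x ^ (N - j - (cw + cg + d))) := hbd2 x hxY j hj
        _ ≤ C1 * κ * (1 * (CZ * ‖x - z‖) ^ 2) := by
            refine mul_le_mul_of_nonneg_left ?_ (by positivity)
            exact mul_le_mul a1 (a2.trans a3) (by positivity) zero_le_one
        _ = C1 * κ * CZ ^ 2 * ‖x - z‖ ^ 2 := by ring
    · rw [hoff' x hxb j, norm_zero]
      positivity)
  refine ⟨hmain.1, fun x hx => ?_, fun j hj x => ?_⟩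
  · rw [hV]
    simp only
    rw [if_neg fun h => hx h.1]
  · by_cases hxZ : x ∈ T.Z
    · rw [hmain.2 j hj x hxZ, norm_zero]
      have := T.lam_pos
      positivity
    · by_cases hxb : x ∈ ball (0 : E) T.r
      · have hxY : x ∈ ball (0 : E) T.r \ T.Z := ⟨hxb, hxZ⟩
        obtain ⟨h1, h2, h3, h4, h5⟩ := Y_facts T hxY
        have hl := T.lam_pos
        have hl1 := T.lam_lt
        have a1 : T.ϱ x ^ (N - j - (cw + cg + d)) ≤
            (T.lam * ‖x‖) ^ (N - j - (cw + cg + d)) := pow_le_pow_left₀ h3.le (T.ϱ_le x hxY) _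
        have a2 : T.lam ^ (N - j - (cw + cg + d)) ≤ T.lam ^ (N - m - (cw + cg) - d) :=
          pow_le_pow_of_le_one hl.le hl1.le (by omega)
        calc ‖iteratedFDeriv ℝ j V x‖
            ≤ C1 * κ * (‖x‖ ^ (cw + cg + d) * T.ϱ x ^ (N - j - (cw + cg + d))) := hbd2 x hxY j hj
          _ ≤ C1 * κ * (‖x‖ ^ (cw + cg + d) * (T.lam * ‖x‖) ^ (N - j - (cw + cg + d))) := by
              gcongr
          _ = C1 * κ * T.lam ^ (N - j - (cw + cg + d)) *
                (‖x‖ ^ (cw + cg + d) * ‖x‖ ^ (N - j - (cw + cg + d))) := by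
              rw [mul_pow]
              ring
          _ = C1 * κ * T.lam ^ (N - j - (cw + cg + d)) * ‖x‖ ^ (N - j) := by
              rw [← pow_add]
              congr 2
              omega
          _ ≤ C1 * κ * T.lam ^ (N - m - (cw + cg) - d) * ‖x‖ ^ (N - j) := by
              gcongr
      · rw [hoff' x hxb j, norm_zero]
        have := T.lam_pos
        positivity

end
end LatLin
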